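import Pool.Agent.H269.DefsC

/-!
# R5-01 HS basics (MP_f2af60_mp, infinitely many resonances in dimension five)
-/

set_option autoImplicit false

open MeasureTheory Filter Topology Complex
open scoped InnerProductSpace ENNReal NNReal

namespace Pool.Agent.H269


section HSaux

variable {ι : Type} [DecidableEq ι] {H : Type} [NormedAddCommGroup H] [InnerProductSpace ℂ H]

omit [DecidableEq ι] in
theorem HSle_parseval (b : HilbertBasis ι ℂ H) (v : H) :
    HasSum (fun i => ‖⟪b i, v⟫_ℂ‖ ^ 2) (‖v‖ ^ 2) := by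
  have h1 := b.hasSum_inner_mul_inner v v
  have h2 : (fun i => ⟪v, b i⟫_ℂ * ⟪b i, v⟫_ℂ) = fun i => ((‖⟪b i, v⟫_ℂ‖ ^ 2 : ℝ) : ℂ) := by
    funext i
    rw [← inner_conj_symm, mul_comm, Complex.mul_conj']
    push_cast; rfl
  rw [h2, inner_self_eq_norm_sq_to_K] at h1
  have h3 : ((‖v‖ : ℂ)) ^ 2 = ((‖v‖ ^ 2 : ℝ) : ℂ) := by push_cast; rfl
  have h4 : HasSum (fun i => ((‖⟪b i, v⟫_ℂ‖ ^ 2 : ℝ) : ℂ)) ((‖v‖ ^ 2 : ℝ) : ℂ) := by
    rw [← h3]; exact h1
  exact Complex.hasSum_ofReal.mp h4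

end HSaux


section HSsec

variable {ι : Type} [DecidableEq ι] {H : Type} [NormedAddCommGroup H] [InnerProductSpace ℂ H]
  [CompleteSpace H] {b : HilbertBasis ι ℂ H}

theorem HSle.summable {A : H →L[ℂ] H} {c : ℝ} (hA : HSle b A c) :
    Summable (fun i => ‖A (b i)‖ ^ 2) ∧ ∑' i, ‖A (b i)‖ ^ 2 ≤ c ^ 2 := by
  have h := summable_of_sum_le (fun i => sq_nonneg ‖A (b i)‖) hA.2
  exact ⟨h, h.tsum_le_of_sum_le hA.2⟩

theorem HSle.mono {A : H →L[ℂ] H} {c d : ℝ} (hA : HSle b A c) (h : c ≤ d) : HSle b A d :=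
  ⟨hA.1.trans h, fun s => (hA.2 s).trans (pow_le_pow_left₀ hA.1 h 2)⟩

theorem HSle.add {A B : H →L[ℂ] H} {c d : ℝ} (hA : HSle b A c) (hB : HSle b B d) :
    HSle b (A + B) (c + d) := by
  refine ⟨add_nonneg hA.1 hB.1, fun s => ?_⟩
  have h1 : ∑ i ∈ s, ‖A (b i)‖ * ‖B (b i)‖ ≤ c * d := by
    have h2 := Finset.sum_mul_sq_le_sq_mul_sq s (fun i => ‖A (b i)‖) (fun i => ‖B (b i)‖)
    have h3 : (∑ i ∈ s, ‖A (b i)‖ ^ 2) * (∑ i ∈ s, ‖B (b i)‖ ^ 2) ≤ c ^ 2 * d ^ 2 :=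
      mul_le_mul (hA.2 s) (hB.2 s) (Finset.sum_nonneg fun i _ => sq_nonneg _) (sq_nonneg _)
    have h4 : (∑ i ∈ s, ‖A (b i)‖ * ‖B (b i)‖) ^ 2 ≤ (c * d) ^ 2 := by
      rw [mul_pow]; exact h2.trans h3
    exact (abs_le.mp (abs_le_of_sq_le_sq h4 (mul_nonneg hA.1 hB.1))).2
  calc ∑ i ∈ s, ‖(A + B) (b i)‖ ^ 2
      ≤ ∑ i ∈ s, (‖A (b i)‖ ^ 2 + 2 * (‖A (b i)‖ * ‖B (b i)‖) + ‖B (b i)‖ ^ 2) := by
        apply Finset.sum_le_sum
        intro i _
        have h5 : ‖(A + B) (b i)‖ ≤ ‖A (b i)‖ + ‖B (b i)‖ := norm_add_le _ _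
        have h6 := pow_le_pow_left₀ (norm_nonneg _) h5 2
        refine h6.trans (le_of_eq ?_)
        ring
    _ = ∑ i ∈ s, ‖A (b i)‖ ^ 2 + 2 * ∑ i ∈ s, ‖A (b i)‖ * ‖B (b i)‖ +
          ∑ i ∈ s, ‖B (b i)‖ ^ 2 := by
        rw [Finset.sum_add_distrib, Finset.sum_add_distrib, Finset.mul_sum]
    _ ≤ (c + d) ^ 2 := by
        have := hA.2 s
        have := hB.2 s
        nlinarith

theorem HSle.smul {A : H →L[ℂ] H} {c : ℝ} (hA : HSle b A c) (z : ℂ) :
    HSle b (z • A) (‖z‖ * c) := by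
  refine ⟨mul_nonneg (norm_nonneg _) hA.1, fun s => ?_⟩
  have h1 : ∀ i, ‖(z • A) (b i)‖ ^ 2 = ‖z‖ ^ 2 * ‖A (b i)‖ ^ 2 := by
    intro i
    rw [ContinuousLinearMap.smul_apply, norm_smul, mul_pow]
  simp only [h1]
  rw [← Finset.mul_sum, mul_pow]
  exact mul_le_mul_of_nonneg_left (hA.2 s) (sq_nonneg _)

theorem HSle.neg {A : H →L[ℂ] H} {c : ℝ} (hA : HSle b A c) : HSle b (-A) c := by
  refine ⟨hA.1, fun s => ?_⟩
  have h1 : ∀ i, ‖(-A) (b i)‖ ^ 2 = ‖A (b i)‖ ^ 2 := by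
    intro i
    rw [ContinuousLinearMap.neg_apply, norm_neg]
  simp only [h1]
  exact hA.2 s

theorem HSle.sub {A B : H →L[ℂ] H} {c d : ℝ} (hA : HSle b A c) (hB : HSle b B d) :
    HSle b (A - B) (c + d) := by
  rw [sub_eq_add_neg]
  exact hA.add hB.neg

theorem HSle.left_mul {A : H →L[ℂ] H} {c : ℝ} (hA : HSle b A c) (C : H →L[ℂ] H) :
    HSle b (C * A) (‖C‖ * c) := by
  refine ⟨mul_nonneg (norm_nonneg _) hA.1, fun s => ?_⟩
  calc ∑ i ∈ s, ‖(C * A) (b i)‖ ^ 2 ≤ ∑ i ∈ s, ‖C‖ ^ 2 * ‖A (b i)‖ ^ 2 := by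
        apply Finset.sum_le_sum
        intro i _
        rw [← mul_pow]
        exact pow_le_pow_left₀ (norm_nonneg _) (C.le_opNorm _) 2
    _ ≤ (‖C‖ * c) ^ 2 := by
        rw [← Finset.mul_sum, mul_pow]
        exact mul_le_mul_of_nonneg_left (hA.2 s) (sq_nonneg _)

theorem HSle.adjoint {A : H →L[ℂ] H} {c : ℝ} (hA : HSle b A c) :
    HSle b (ContinuousLinearMap.adjoint A) c := by
  refine ⟨hA.1, fun s => ?_⟩
  have h1 : HasSum (fun i => ∑ j ∈ s, ‖⟪b i, ContinuousLinearMap.adjoint A (b j)⟫_ℂ‖ ^ 2)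
      (∑ j ∈ s, ‖ContinuousLinearMap.adjoint A (b j)‖ ^ 2) :=
    hasSum_sum fun j _ => HSle_parseval b _
  obtain ⟨h2, h3⟩ := hA.summable
  refine le_trans ?_ h3
  refine hasSum_le (fun i => ?_) h1 h2.hasSum
  have h4 : ∀ j, ‖⟪b i, ContinuousLinearMap.adjoint A (b j)⟫_ℂ‖ = ‖⟪b j, A (b i)⟫_ℂ‖ := by
    intro j
    rw [ContinuousLinearMap.adjoint_inner_right, norm_inner_symm]
  simp only [h4]
  exact b.orthonormal.sum_inner_products_le (A (b i))

theorem HSle.right_mul {A : H →L[ℂ] H} {c : ℝ} (hA : HSle b A c) (C : H →L[ℂ] H) :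
    HSle b (A * C) (c * ‖C‖) := by
  have h1 := (hA.adjoint.left_mul (ContinuousLinearMap.adjoint C)).adjoint
  have h2 : ContinuousLinearMap.adjoint
      (ContinuousLinearMap.adjoint C * ContinuousLinearMap.adjoint A) = A * C := by
    have h3 : ContinuousLinearMap.adjoint C * ContinuousLinearMap.adjoint A =
        ContinuousLinearMap.adjoint (A * C) := by
      rw [ContinuousLinearMap.mul_def, ContinuousLinearMap.mul_def,
        ContinuousLinearMap.adjoint_comp]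
    rw [h3, ContinuousLinearMap.adjoint_adjoint]
  rw [h2, LinearIsometryEquiv.norm_map, mul_comm] at h1
  exact h1

theorem HSle.norm_le {A : H →L[ℂ] H} {c : ℝ} (hA : HSle b A c) : ‖A‖ ≤ c := by
  apply ContinuousLinearMap.opNorm_le_bound _ hA.1
  intro x
  obtain ⟨h2, h3⟩ := hA.adjoint.summable
  have h1 : ‖A x‖ ^ 2 ≤ (c * ‖x‖) ^ 2 := by
    have h4 : HasSum (fun i => ‖ContinuousLinearMap.adjoint A (b i)‖ ^ 2 * ‖x‖ ^ 2)
        ((∑' i, ‖ContinuousLinearMap.adjoint A (b i)‖ ^ 2) * ‖x‖ ^ 2) :=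
      h2.hasSum.mul_right _
    have h5 := hasSum_le (fun i => ?_) (HSle_parseval b (A x)) h4
    · refine h5.trans ?_
      rw [mul_pow]
      exact mul_le_mul_of_nonneg_right h3 (sq_nonneg _)
    · rw [← ContinuousLinearMap.adjoint_inner_left, ← mul_pow]
      exact pow_le_pow_left₀ (norm_nonneg _) (norm_inner_le_norm _ _) 2
  exact (abs_le.mp (abs_le_of_sq_le_sq h1 (mul_nonneg hA.1 (norm_nonneg _)))).2

theorem HSle.isCompact {A : H →L[ℂ] H} {c : ℝ} (hA : HSle b A c) : IsCompactOperator A := by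
  set F : Finset ι → (H →L[ℂ] H) := fun s =>
    ∑ i ∈ s, InnerProductSpace.rankOne ℂ (A (b i)) (b i) with hF
  have hFb : ∀ s i, F s (b i) = if i ∈ s then A (b i) else 0 := by
    intro s i
    rw [hF]
    simp only [ContinuousLinearMap.sum_apply, InnerProductSpace.rankOne_apply]
    have h1 : ∀ j, (⟪b j, b i⟫_ℂ • A (b j)) = if j = i then A (b j) else 0 := by
      intro j
      rw [orthonormal_iff_ite.mp b.orthonormal]
      split_ifs <;> simp
    simp only [h1]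
    rw [Finset.sum_ite_eq' s i (fun j => A (b j))]
  have hcomp : ∀ s, IsCompactOperator (F s) := by
    intro s
    rw [hF]
    induction s using Finset.induction_on with
    | empty =>
      simp only [Finset.sum_empty]
      exact isCompactOperator_zero
    | insert a s ha ih =>
      simp only [Finset.sum_insert ha] at ih ⊢
      refine IsCompactOperator.add ?_ ih
      have h2 : IsCompactOperator (innerSL ℂ (b a)) :=
        isCompactOperator_of_locallyCompactSpace_dom _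
      exact h2.clm_comp ((ContinuousLinearMap.id ℂ ℂ).smulRight (A (b a)))
  have htend : Tendsto F atTop (𝓝 A) := by
    rw [Metric.tendsto_nhds]
    intro ε hε
    obtain ⟨s0, hs0⟩ := summable_iff_vanishing_norm.mp hA.summable.1 ((ε / 2) ^ 2) (by positivity)
    filter_upwards [eventually_ge_atTop s0] with s hs
    have h3 : HSle b (F s - A) (ε / 2) := by
      refine ⟨by positivity, fun t => ?_⟩
      have h4 : ∀ i, ‖(F s - A) (b i)‖ ^ 2 = if i ∉ s then ‖A (b i)‖ ^ 2 else 0 := by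
        intro i
        rw [ContinuousLinearMap.sub_apply, hFb]
        by_cases hi : i ∈ s
        · simp [hi]
        · simp [hi]
      simp only [h4]
      rw [← Finset.sum_filter]
      have h5 := hs0 (t.filter fun i => i ∉ s) (by
        rw [Finset.disjoint_left]
        intro i hi hi'
        exact (Finset.mem_filter.mp hi).2 (hs hi'))
      rw [Real.norm_of_nonneg (Finset.sum_nonneg fun i _ => sq_nonneg _)] at h5
      exact h5.le
    rw [dist_eq_norm]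
    have := h3.norm_le
    linarith
  exact isCompactOperator_of_tendsto htend (Eventually.of_forall hcomp)

theorem HSle.rankOne (b : HilbertBasis ι ℂ H) (u w : H) :
    HSle b (InnerProductSpace.rankOne ℂ u w) (‖u‖ * ‖w‖) := by
  refine ⟨by positivity, fun s => ?_⟩
  have h1 : ∀ i, ‖(InnerProductSpace.rankOne ℂ u w) (b i)‖ ^ 2 =
      ‖⟪b i, w⟫_ℂ‖ ^ 2 * ‖u‖ ^ 2 := by
    intro i
    rw [InnerProductSpace.rankOne_apply, norm_smul, mul_pow, norm_inner_symm]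
  simp only [h1]
  rw [← Finset.sum_mul, mul_comm, mul_pow]
  exact mul_le_mul_of_nonneg_left (b.orthonormal.sum_inner_products_le w) (sq_nonneg _)

end HSsec

end Pool.Agent.H269
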