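import Pool.Agent.H269.DefsC
import Pool.Agent.H269.R5.J01

/-!
# R5-02 trace of a product of two HS operators (MP_f2af60_mp, infinitely many resonances in dimension five)
-/

set_option autoImplicit false

open MeasureTheory Filter Topology Complex
open scoped InnerProductSpace ENNReal NNReal

namespace Pool.Agent.H269



section HSsec

variable {ι : Type} [DecidableEq ι] {H : Type} [NormedAddCommGroup H] [InnerProductSpace ℂ H]
  [CompleteSpace H] {b : HilbertBasis ι ℂ H}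

theorem tr2_term (b : HilbertBasis ι ℂ H) (A B : H →L[ℂ] H) (i : ι) :
    ⟪b i, A (B (b i))⟫_ℂ = ⟪ContinuousLinearMap.adjoint A (b i), B (b i)⟫_ℂ := by
  rw [ContinuousLinearMap.adjoint_inner_left]

theorem tr2_term_le (b : HilbertBasis ι ℂ H) (A B : H →L[ℂ] H) (i : ι) :
    ‖⟪b i, A (B (b i))⟫_ℂ‖ ≤ ‖ContinuousLinearMap.adjoint A (b i)‖ * ‖B (b i)‖ := by
  rw [tr2_term]
  exact norm_inner_le_norm _ _

theorem tr2_sum_le {A B : H →L[ℂ] H} {c d : ℝ} (hA : HSle b A c) (hB : HSle b B d)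
    (s : Finset ι) : ∑ i ∈ s, ‖⟪b i, A (B (b i))⟫_ℂ‖ ≤ c * d := by
  have hA' := hA.adjoint
  calc ∑ i ∈ s, ‖⟪b i, A (B (b i))⟫_ℂ‖
      ≤ ∑ i ∈ s, ‖ContinuousLinearMap.adjoint A (b i)‖ * ‖B (b i)‖ :=
        Finset.sum_le_sum fun i _ => tr2_term_le b A B i
    _ ≤ Real.sqrt (∑ i ∈ s, ‖ContinuousLinearMap.adjoint A (b i)‖ ^ 2) *
        Real.sqrt (∑ i ∈ s, ‖B (b i)‖ ^ 2) := Real.sum_mul_le_sqrt_mul_sqrt _ _ _
    _ ≤ c * d := by
        apply mul_le_mul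
        · calc Real.sqrt (∑ i ∈ s, ‖ContinuousLinearMap.adjoint A (b i)‖ ^ 2)
              ≤ Real.sqrt (c ^ 2) := Real.sqrt_le_sqrt (hA'.2 s)
            _ = c := Real.sqrt_sq hA.1
        · calc Real.sqrt (∑ i ∈ s, ‖B (b i)‖ ^ 2)
              ≤ Real.sqrt (d ^ 2) := Real.sqrt_le_sqrt (hB.2 s)
            _ = d := Real.sqrt_sq hB.1
        · exact Real.sqrt_nonneg _
        · exact hA.1

theorem tr2_summable_norm {A B : H →L[ℂ] H} {c d : ℝ} (hA : HSle b A c) (hB : HSle b B d) :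
    Summable (fun i => ‖⟪b i, A (B (b i))⟫_ℂ‖) :=
  summable_of_sum_le (fun _ => norm_nonneg _) (tr2_sum_le hA hB)

theorem parseval (b : HilbertBasis ι ℂ H) (x : H) :
    HasSum (fun i => ‖⟪b i, x⟫_ℂ‖ ^ 2) (‖x‖ ^ 2) := by
  have h := b.hasSum_inner_mul_inner x x
  have h2 := (Complex.hasSum_re h)
  have e : (⟪x, x⟫_ℂ).re = ‖x‖ ^ 2 := by
    rw [inner_self_eq_norm_sq_to_K]
    norm_cast
  rw [e] at h2
  refine h2.congr_fun ?_
  intro i
  have e1 : ⟪x, b i⟫_ℂ = (starRingEnd ℂ) ⟪b i, x⟫_ℂ := (inner_conj_symm x (b i)).symm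
  rw [e1, mul_comm, Complex.mul_conj, Complex.normSq_eq_norm_sq]
  norm_cast

theorem summable_matrix {A : H →L[ℂ] H} {c : ℝ} (hA : HSle b A c) :
    Summable (fun p : ι × ι => ‖⟪b p.2, A (b p.1)⟫_ℂ‖ ^ 2) := by
  rw [summable_prod_of_nonneg (fun p => by positivity)]
  constructor
  · intro j
    exact (parseval b (A (b j))).summable
  · have e : (fun j => ∑' i, ‖⟪b i, A (b j)⟫_ℂ‖ ^ 2) = fun j => ‖A (b j)‖ ^ 2 := by
      funext j
      exact (parseval b (A (b j))).tsum_eq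
    show Summable (fun j => ∑' i, ‖⟪b i, A (b j)⟫_ℂ‖ ^ 2)
    rw [e]
    exact hA.summable.1

theorem tr2_expand (b : HilbertBasis ι ℂ H) (A B : H →L[ℂ] H) :
    Tr2 b A B = ∑' i, ∑' j, ⟪b i, A (b j)⟫_ℂ * ⟪b j, B (b i)⟫_ℂ := by
  unfold Tr2
  congr 1
  funext i
  rw [tr2_term, ← (b.hasSum_inner_mul_inner (ContinuousLinearMap.adjoint A (b i)) (B (b i))).tsum_eq]
  congr 1
  funext j
  rw [ContinuousLinearMap.adjoint_inner_left]

end HSsec


section HSsec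

variable {ι : Type} [DecidableEq ι] {H : Type} [NormedAddCommGroup H] [InnerProductSpace ℂ H]
  [CompleteSpace H] {b : HilbertBasis ι ℂ H}

theorem Tr2_summable {A B : H →L[ℂ] H} {c d : ℝ} (hA : HSle b A c) (hB : HSle b B d) :
    Summable (fun i => ⟪b i, A (B (b i))⟫_ℂ) := by
  exact (tr2_summable_norm hA hB).of_norm

theorem Tr2_norm_le {A B : H →L[ℂ] H} {c d : ℝ} (hA : HSle b A c) (hB : HSle b B d) :
    ‖Tr2 b A B‖ ≤ c * d := by
  unfold Tr2
  exact (norm_tsum_le_tsum_norm (tr2_summable_norm hA hB)).trans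
    ((tr2_summable_norm hA hB).tsum_le_of_sum_le (tr2_sum_le hA hB))

theorem Tr2_comm {A B : H →L[ℂ] H} {c d : ℝ} (hA : HSle b A c) (hB : HSle b B d) :
    Tr2 b A B = Tr2 b B A := by
  have hs : Summable (Function.uncurry fun i j => ⟪b i, A (b j)⟫_ℂ * ⟪b j, B (b i)⟫_ℂ) := by
    have h1 := summable_matrix hB
    have h2 : Summable (fun p : ι × ι => ‖⟪b p.1, A (b p.2)⟫_ℂ‖ ^ 2) :=
      (Equiv.prodComm ι ι).summable_iff.2 (summable_matrix hA)
    apply Summable.of_norm_bounded (h1.add h2)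
    rintro ⟨i, j⟩
    simp only [Function.uncurry_apply_pair, norm_mul]
    nlinarith [sq_nonneg (‖⟪b i, A (b j)⟫_ℂ‖ - ‖⟪b j, B (b i)⟫_ℂ‖),
      norm_nonneg ⟪b i, A (b j)⟫_ℂ, norm_nonneg ⟪b j, B (b i)⟫_ℂ,
      sq_nonneg (‖⟪b i, A (b j)⟫_ℂ‖ + ‖⟪b j, B (b i)⟫_ℂ‖)]
  rw [tr2_expand, tr2_expand, ← hs.tsum_comm]
  congr 1
  funext j
  congr 1
  funext i
  rw [mul_comm]

theorem Tr2_add_left {A A' B : H →L[ℂ] H} {c c' d : ℝ} (hA : HSle b A c) (hA' : HSle b A' c')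
    (hB : HSle b B d) : Tr2 b (A + A') B = Tr2 b A B + Tr2 b A' B := by
  unfold Tr2
  rw [← (Tr2_summable hA hB).tsum_add (Tr2_summable hA' hB)]
  congr 1
  funext i
  rw [ContinuousLinearMap.add_apply, inner_add_right]

theorem Tr2_sub_left {A A' B : H →L[ℂ] H} {c c' d : ℝ} (hA : HSle b A c) (hA' : HSle b A' c')
    (hB : HSle b B d) : Tr2 b (A - A') B = Tr2 b A B - Tr2 b A' B := by
  unfold Tr2
  rw [← (Tr2_summable hA hB).tsum_sub (Tr2_summable hA' hB)]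
  congr 1
  funext i
  rw [ContinuousLinearMap.sub_apply, inner_sub_right]

theorem Tr2_add_right {A B B' : H →L[ℂ] H} {c d d' : ℝ} (hA : HSle b A c) (hB : HSle b B d)
    (hB' : HSle b B' d') : Tr2 b A (B + B') = Tr2 b A B + Tr2 b A B' := by
  unfold Tr2
  rw [← (Tr2_summable hA hB).tsum_add (Tr2_summable hA hB')]
  congr 1
  funext i
  rw [ContinuousLinearMap.add_apply, map_add, inner_add_right]

theorem Tr2_sub_right {A B B' : H →L[ℂ] H} {c d d' : ℝ} (hA : HSle b A c) (hB : HSle b B d)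
    (hB' : HSle b B' d') : Tr2 b A (B - B') = Tr2 b A B - Tr2 b A B' := by
  unfold Tr2
  rw [← (Tr2_summable hA hB).tsum_sub (Tr2_summable hA hB')]
  congr 1
  funext i
  rw [ContinuousLinearMap.sub_apply, map_sub, inner_sub_right]

theorem Tr2_smul_right (A B : H →L[ℂ] H) (z : ℂ) : Tr2 b A (z • B) = z * Tr2 b A B := by
  unfold Tr2
  rw [← tsum_mul_left]
  congr 1
  funext i
  rw [ContinuousLinearMap.smul_apply, map_smul, inner_smul_right]

theorem Tr2_smul_left (A B : H →L[ℂ] H) (z : ℂ) : Tr2 b (z • A) B = z * Tr2 b A B := by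
  unfold Tr2
  rw [← tsum_mul_left]
  congr 1
  funext i
  rw [ContinuousLinearMap.smul_apply, inner_smul_right]

theorem Tr2_mul (A B C : H →L[ℂ] H) : Tr2 b (A * C) B = Tr2 b A (C * B) := by
  rfl

end HSsec

end Pool.Agent.H269
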