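import Pool.Agent.H269.DefsC
import Pool.Agent.H269.R5.J01
import Pool.Agent.H269.R5.J02

/-!
# R5-09 nuclear operators: HS and trace (MP_f2af60_mp, infinitely many resonances in dimension five)
-/

set_option autoImplicit false

open MeasureTheory Filter Topology Complex
open scoped InnerProductSpace ENNReal NNReal

namespace Pool.Agent.H269



section HSsec

variable {ι : Type} [DecidableEq ι] {H : Type} [NormedAddCommGroup H] [InnerProductSpace ℂ H]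
  [CompleteSpace H] {b : HilbertBasis ι ℂ H}

omit [DecidableEq ι] [CompleteSpace H] in
theorem nuc_bessel (b : HilbertBasis ι ℂ H) (x : H) (s : Finset ι) :
    ∑ i ∈ s, ‖⟪x, b i⟫_ℂ‖ ^ 2 ≤ ‖x‖ ^ 2 := by
  have h := b.orthonormal.sum_inner_products_le (s := s) x
  calc ∑ i ∈ s, ‖⟪x, b i⟫_ℂ‖ ^ 2 = ∑ i ∈ s, ‖⟪b i, x⟫_ℂ‖ ^ 2 :=
        Finset.sum_congr rfl fun i _ => by rw [norm_inner_symm]
    _ ≤ ‖x‖ ^ 2 := h

theorem nuclear_HS {α : Type} [Countable α] (v φ : α → H)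
    (hs : Summable (fun a => ‖v a‖ * ‖φ a‖)) (X : H →L[ℂ] H)
    (hX : ∀ h, HasSum (fun a => ⟪φ a, h⟫_ℂ • v a) (X h)) :
    HSle b X (∑' a, ‖v a‖ * ‖φ a‖) := by
  set c : ℝ := ∑' a, ‖v a‖ * ‖φ a‖ with hc
  have hc0 : 0 ≤ c := tsum_nonneg fun a => by positivity
  refine ⟨hc0, fun s => ?_⟩
  set S : ℝ := ∑ i ∈ s, ‖X (b i)‖ ^ 2 with hS
  have hS0 : 0 ≤ S := Finset.sum_nonneg fun i _ => by positivity
  have h1 : ∀ i ∈ s, HasSum (fun a => ⟪X (b i), ⟪φ a, b i⟫_ℂ • v a⟫_ℂ) ⟪X (b i), X (b i)⟫_ℂ := by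
    intro i _
    exact (innerSL ℂ (X (b i))).hasSum (hX (b i))
  have h2 := hasSum_sum h1
  have hterm : ∀ a, ‖∑ i ∈ s, ⟪X (b i), ⟪φ a, b i⟫_ℂ • v a⟫_ℂ‖ ≤ ‖v a‖ * ‖φ a‖ * √S := by
    intro a
    calc ‖∑ i ∈ s, ⟪X (b i), ⟪φ a, b i⟫_ℂ • v a⟫_ℂ‖
        ≤ ∑ i ∈ s, ‖⟪X (b i), ⟪φ a, b i⟫_ℂ • v a⟫_ℂ‖ := norm_sum_le _ _
      _ ≤ ∑ i ∈ s, ‖v a‖ * (‖X (b i)‖ * ‖⟪φ a, b i⟫_ℂ‖) := by
          refine Finset.sum_le_sum fun i _ => ?_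
          rw [inner_smul_right, norm_mul]
          have := norm_inner_le_norm (𝕜 := ℂ) (X (b i)) (v a)
          nlinarith [norm_nonneg ⟪φ a, b i⟫_ℂ]
      _ = ‖v a‖ * ∑ i ∈ s, ‖X (b i)‖ * ‖⟪φ a, b i⟫_ℂ‖ := by rw [Finset.mul_sum]
      _ ≤ ‖v a‖ * (√(∑ i ∈ s, ‖X (b i)‖ ^ 2) * √(∑ i ∈ s, ‖⟪φ a, b i⟫_ℂ‖ ^ 2)) :=
          mul_le_mul_of_nonneg_left (Real.sum_mul_le_sqrt_mul_sqrt _ _ _) (norm_nonneg _)
      _ ≤ ‖v a‖ * (√S * ‖φ a‖) := by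
          refine mul_le_mul_of_nonneg_left ?_ (norm_nonneg _)
          refine mul_le_mul_of_nonneg_left ?_ (Real.sqrt_nonneg _)
          rw [Real.sqrt_le_left (norm_nonneg _)]
          exact nuc_bessel b (φ a) s
      _ = ‖v a‖ * ‖φ a‖ * √S := by ring
  have h3 : ‖∑ i ∈ s, ⟪X (b i), X (b i)⟫_ℂ‖ ≤ c * √S := by
    rw [← h2.tsum_eq]
    exact tsum_of_norm_bounded (hs.hasSum.mul_right (√S)) hterm
  have h4 : ∑ i ∈ s, ⟪X (b i), X (b i)⟫_ℂ = ((S : ℝ) : ℂ) := by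
    rw [hS]
    push_cast
    refine Finset.sum_congr rfl fun i _ => ?_
    rw [inner_self_eq_norm_sq_to_K]
    norm_cast
  rw [h4, Complex.norm_real, Real.norm_of_nonneg hS0] at h3
  have h5 : √S * √S = S := Real.mul_self_sqrt hS0
  by_cases h6 : √S = 0
  · rw [← h5, h6]; nlinarith
  · have h7 : 0 < √S := lt_of_le_of_ne (Real.sqrt_nonneg _) (Ne.symm h6)
    have h8 : √S ≤ c := by
      by_contra h9
      push Not at h9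
      nlinarith
    nlinarith

omit [DecidableEq ι] [CompleteSpace H] in
theorem nuc_cs (b : HilbertBasis ι ℂ H) (x y : H) (s : Finset ι) :
    ∑ i ∈ s, ‖⟪x, b i⟫_ℂ * ⟪b i, y⟫_ℂ‖ ≤ ‖x‖ * ‖y‖ := by
  calc ∑ i ∈ s, ‖⟪x, b i⟫_ℂ * ⟪b i, y⟫_ℂ‖ = ∑ i ∈ s, ‖⟪x, b i⟫_ℂ‖ * ‖⟪y, b i⟫_ℂ‖ :=
        Finset.sum_congr rfl fun i _ => by rw [norm_mul, norm_inner_symm (b i) y]
    _ ≤ √(∑ i ∈ s, ‖⟪x, b i⟫_ℂ‖ ^ 2) * √(∑ i ∈ s, ‖⟪y, b i⟫_ℂ‖ ^ 2) :=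
        Real.sum_mul_le_sqrt_mul_sqrt _ _ _
    _ ≤ ‖x‖ * ‖y‖ := by
        refine mul_le_mul ?_ ?_ (Real.sqrt_nonneg _) (norm_nonneg _)
        · rw [Real.sqrt_le_left (norm_nonneg _)]; exact nuc_bessel b x s
        · rw [Real.sqrt_le_left (norm_nonneg _)]; exact nuc_bessel b y s

theorem Tr2_nuclear {α : Type} [Countable α] (v φ : α → H)
    (hs : Summable (fun a => ‖v a‖ * ‖φ a‖)) (X : H →L[ℂ] H)
    (hX : ∀ h, HasSum (fun a => ⟪φ a, h⟫_ℂ • v a) (X h)) (T : H →L[ℂ] H) :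
    Tr2 b T X = ∑' a, ⟪φ a, T (v a)⟫_ℂ := by
  set f : α × ι → ℂ := fun p => ⟪φ p.1, b p.2⟫_ℂ * ⟪b p.2, T (v p.1)⟫_ℂ with hf
  have hrow : ∀ a, Summable (fun i => ‖f (a, i)‖) := fun a =>
    summable_of_sum_le (fun i => norm_nonneg _) (fun s => nuc_cs b (φ a) (T (v a)) s)
  have hrow2 : ∀ a, ∑' i, ‖f (a, i)‖ ≤ ‖T‖ * (‖v a‖ * ‖φ a‖) := by
    intro a
    have h1 : ∑' i, ‖f (a, i)‖ ≤ ‖φ a‖ * ‖T (v a)‖ :=
      (hrow a).tsum_le_of_sum_le (fun s => nuc_cs b (φ a) (T (v a)) s)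
    have h2 := T.le_opNorm (v a)
    nlinarith [norm_nonneg (φ a)]
  have hsum : Summable (fun p => ‖f p‖) := by
    rw [summable_prod_of_nonneg (fun p => norm_nonneg _)]
    refine ⟨hrow, ?_⟩
    exact Summable.of_nonneg_of_le (fun a => tsum_nonneg fun i => norm_nonneg _) hrow2
      (hs.mul_left ‖T‖)
  have hsum2 : Summable f := hsum.of_norm
  have e1 : ∀ i, ⟪b i, T (X (b i))⟫_ℂ = ∑' a, f (a, i) := by
    intro i
    have h1 := (innerSL ℂ (b i)).hasSum (T.hasSum (hX (b i)))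
    have h2 : (fun a => (innerSL ℂ (b i)) (T (⟪φ a, b i⟫_ℂ • v a))) = fun a => f (a, i) := by
      funext a
      rw [map_smul, innerSL_apply_apply, inner_smul_right]
    have h3 : HasSum (fun a => f (a, i)) ⟪b i, T (X (b i))⟫_ℂ := by
      rw [← h2]
      exact h1
    exact h3.tsum_eq.symm
  have e2 : ∀ a, ⟪φ a, T (v a)⟫_ℂ = ∑' i, f (a, i) := fun a =>
    (b.tsum_inner_mul_inner (φ a) (T (v a))).symm
  unfold Tr2
  simp only [e1, e2]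
  exact Summable.tsum_comm (f := fun a i => f (a, i)) hsum2

end HSsec

end Pool.Agent.H269
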