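import Pool.Agent.H269.DefsC
import Pool.Agent.R276.CP.Had

/-!
# R5-03 finite regularized determinant (MP_f2af60_mp, infinitely many resonances in dimension five)
-/

set_option autoImplicit false

open MeasureTheory Filter Topology Complex
open scoped InnerProductSpace ENNReal NNReal

namespace Pool.Agent.H269



/-- the matrix as a Euclidean vector -/
noncomputable def d2_vec {n : Type} [Fintype n] (M : Matrix n n ℂ) : EuclideanSpace ℂ (n × n) :=
  WithLp.toLp 2 (fun p => M p.1 p.2)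

lemma d2_vec_sq {n : Type} [Fintype n] (M : Matrix n n ℂ) :
    ‖d2_vec M‖ ^ 2 = ∑ i, ∑ j, ‖M i j‖ ^ 2 := by
  rw [EuclideanSpace.norm_sq_eq, Fintype.sum_prod_type]
  rfl

lemma d2_vec_add {n : Type} [Fintype n] (M N : Matrix n n ℂ) :
    d2_vec (M + N) = d2_vec M + d2_vec N := rfl

lemma d2_vec_sub {n : Type} [Fintype n] (M N : Matrix n n ℂ) :
    d2_vec (M - N) = d2_vec M - d2_vec N := rfl

lemma d2_vec_smul {n : Type} [Fintype n] (z : ℂ) (M : Matrix n n ℂ) :
    d2_vec (z • M) = z • d2_vec M := rfl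

theorem d2_bound {n : Type} [Fintype n] [DecidableEq n] (M : Matrix n n ℂ) :
    ‖d2 M‖ ≤ Real.exp ((∑ i, ∑ j, ‖M i j‖ ^ 2) / 2) := by
  have hH := Pool.Agent.R276.CP.Had.main n (1 + M)
  have hcol : ∀ j, ∑ i, ‖(1 + M) i j‖ ^ 2 ≤ Real.exp (2 * (M j j).re + ∑ i, ‖M i j‖ ^ 2) := by
    intro j
    have h1 : ∀ i, ‖(1 + M) i j‖ ^ 2 =
        ‖M i j‖ ^ 2 + if i = j then 1 + 2 * (M i j).re else 0 := by
      intro i
      rw [Matrix.add_apply, Matrix.one_apply]
      split_ifs with h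
      · rw [← Complex.normSq_eq_norm_sq, ← Complex.normSq_eq_norm_sq, Complex.normSq_apply,
          Complex.normSq_apply]
        simp only [Complex.add_re, Complex.one_re, Complex.add_im, Complex.one_im]
        ring
      · rw [zero_add, add_zero]
    simp only [h1]
    rw [Finset.sum_add_distrib, Finset.sum_ite_eq']
    simp only [Finset.mem_univ, if_true]
    have := Real.add_one_le_exp (2 * (M j j).re + ∑ i, ‖M i j‖ ^ 2)
    linarith
  have h2 : ‖(1 + M).det‖ ^ 2 ≤ Real.exp (2 * M.trace.re + ∑ i, ∑ j, ‖M i j‖ ^ 2) := by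
    refine hH.trans ?_
    have h3 : ∏ j, ∑ i, ‖(1 + M) i j‖ ^ 2 ≤ ∏ j, Real.exp (2 * (M j j).re + ∑ i, ‖M i j‖ ^ 2) :=
      Finset.prod_le_prod (fun j _ => Finset.sum_nonneg fun i _ => sq_nonneg _) fun j _ => hcol j
    refine h3.trans (le_of_eq ?_)
    rw [← Real.exp_sum, Finset.sum_add_distrib, ← Finset.mul_sum, Finset.sum_comm]
    congr 2
    rw [Matrix.trace, Complex.re_sum]
    rfl
  have h4 : ‖d2 M‖ ^ 2 ≤ Real.exp ((∑ i, ∑ j, ‖M i j‖ ^ 2) / 2) ^ 2 := by
    unfold d2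
    rw [norm_mul, mul_pow, Complex.norm_exp, ← Real.exp_nat_mul, ← Real.exp_nat_mul]
    have h5 := mul_le_mul_of_nonneg_right h2 (Real.exp_pos ((2 : ℕ) * (-M.trace).re)).le
    refine h5.trans (le_of_eq ?_)
    rw [← Real.exp_add, Complex.neg_re]
    congr 1
    push_cast
    ring
  exact le_of_sq_le_sq h4 (Real.exp_pos _).le

lemma d2_diff {n : Type} [Fintype n] [DecidableEq n] (A B : Matrix n n ℂ) :
    Differentiable ℂ (fun z : ℂ => d2 (A + z • B)) := by
  unfold d2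
  have h1 : Differentiable ℂ (fun z : ℂ => (1 + (A + z • B)).det) := by
    simp only [Matrix.det_apply]
    refine Differentiable.fun_sum fun σ _ => ?_
    refine Differentiable.const_smul ?_ _
    refine Differentiable.fun_finsetProd fun i _ => ?_
    simp only [Matrix.add_apply, Matrix.smul_apply, smul_eq_mul]
    fun_prop
  have h2 : Differentiable ℂ (fun z : ℂ => (A + z • B).trace) := by
    simp only [Matrix.trace_add, Matrix.trace_smul, smul_eq_mul]
    fun_prop
  exact h1.mul h2.neg.cexp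

theorem d2_lip {n : Type} [Fintype n] [DecidableEq n] (M N : Matrix n n ℂ) {a c δ : ℝ}
    (ha : 0 ≤ a) (hc : 0 ≤ c) (hδ : 0 ≤ δ) (hM : ∑ i, ∑ j, ‖M i j‖ ^ 2 ≤ a ^ 2)
    (hN : ∑ i, ∑ j, ‖N i j‖ ^ 2 ≤ c ^ 2) (hMN : ∑ i, ∑ j, ‖M i j - N i j‖ ^ 2 ≤ δ ^ 2) :
    ‖d2 M - d2 N‖ ≤ δ * Real.exp ((a + c + 1) ^ 2 / 2) := by
  have vM : ‖d2_vec M‖ ≤ a := by
    rw [← d2_vec_sq] at hM
    exact le_of_sq_le_sq hM ha
  have vN : ‖d2_vec N‖ ≤ c := by
    rw [← d2_vec_sq] at hN
    exact le_of_sq_le_sq hN hc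
  have vMN : ‖d2_vec (M - N)‖ ≤ δ := by
    have h1 : ‖d2_vec (M - N)‖ ^ 2 ≤ δ ^ 2 := by
      rw [d2_vec_sq]
      exact hMN
    exact le_of_sq_le_sq h1 hδ
  rcases hδ.eq_or_lt with h0 | h0
  · have h1 : d2_vec (M - N) = 0 := norm_le_zero_iff.1 (vMN.trans h0.symm.le)
    have h2 : M = N := by
      ext i j
      have h3 := congrArg (fun v : EuclideanSpace ℂ (n × n) => v (i, j)) h1
      exact sub_eq_zero.1 h3
    rw [h2, sub_self, norm_zero, ← h0, zero_mul]
  · obtain ⟨f, hf⟩ : ∃ f : ℂ → ℂ, f = fun z => d2 ((1 / 2 : ℂ) • (M + N) + z • (M - N)) := ⟨_, rfl⟩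
    have hfd : Differentiable ℂ f := by
      rw [hf]
      exact d2_diff _ _
    have hf1 : f (1 / 2) = d2 M := by
      rw [hf]
      show d2 ((1 / 2 : ℂ) • (M + N) + (1 / 2 : ℂ) • (M - N)) = d2 M
      congr 1
      rw [← smul_add, add_add_sub_cancel, ← two_smul ℂ M, smul_smul]
      norm_num
    have hf2 : f (-(1 / 2)) = d2 N := by
      rw [hf]
      show d2 ((1 / 2 : ℂ) • (M + N) + (-(1 / 2) : ℂ) • (M - N)) = d2 N
      congr 1
      rw [neg_smul, ← sub_eq_add_neg, ← smul_sub, add_sub_sub_cancel, ← two_smul ℂ N, smul_smul]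
      norm_num
    have hfb : ∀ z : ℂ, ‖z‖ ≤ 1 / 2 + 1 / δ → ‖f z‖ ≤ Real.exp ((a + c + 1) ^ 2 / 2) := by
      intro z hz
      rw [hf]
      refine (d2_bound _).trans (Real.exp_le_exp.2 ?_)
      rw [← d2_vec_sq]
      have h1 : ‖d2_vec ((1 / 2 : ℂ) • (M + N) + z • (M - N))‖ ≤ a + c + 1 := by
        rw [d2_vec_add, d2_vec_smul, d2_vec_smul]
        have g1 : ‖(1 / 2 : ℂ) • d2_vec (M + N)‖ ≤ 1 / 2 * (a + c) := by
          rw [norm_smul, d2_vec_add]
          have : ‖(1 / 2 : ℂ)‖ = 1 / 2 := by norm_num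
          rw [this]
          exact mul_le_mul_of_nonneg_left ((norm_add_le _ _).trans (add_le_add vM vN)) (by norm_num)
        have g2 : ‖z • d2_vec (M - N)‖ ≤ 1 / 2 * (a + c) + 1 := by
          rw [norm_smul]
          have g3 : ‖d2_vec (M - N)‖ ≤ a + c := by
            rw [d2_vec_sub]
            exact (norm_sub_le _ _).trans (add_le_add vM vN)
          have g4 : ‖z‖ * ‖d2_vec (M - N)‖ ≤ (1 / 2 + 1 / δ) * ‖d2_vec (M - N)‖ :=
            mul_le_mul_of_nonneg_right hz (norm_nonneg _)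
          have g5 : 1 / δ * ‖d2_vec (M - N)‖ ≤ 1 := by
            rw [one_div, inv_mul_le_iff₀ h0, mul_one]
            exact vMN
          linarith
        refine (norm_add_le _ _).trans ?_
        linarith
      have h2 := pow_le_pow_left₀ (norm_nonneg _) h1 2
      linarith
    have hder : ∀ w ∈ Metric.closedBall (0 : ℂ) (1 / 2),
        ‖deriv f w‖ ≤ δ * Real.exp ((a + c + 1) ^ 2 / 2) := by
      intro w hw
      rw [mem_closedBall_zero_iff] at hw
      have h1 := Complex.norm_deriv_le_of_forall_mem_sphere_norm_le (c := w) (R := 1 / δ)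
        (C := Real.exp ((a + c + 1) ^ 2 / 2)) (f := f) (one_div_pos.2 h0) hfd.diffContOnCl
        (fun z hz => hfb z ?_)
      · refine h1.trans (le_of_eq ?_)
        rw [div_div_eq_mul_div, div_one, mul_comm]
      · have h2 : ‖z‖ ≤ ‖z - w‖ + ‖w‖ := by
          have := norm_add_le (z - w) w
          rwa [sub_add_cancel] at this
        have h3 : ‖z - w‖ = 1 / δ := by
          rw [← dist_eq_norm]
          exact hz
        linarith
    have hmv := (convex_closedBall (0 : ℂ) (1 / 2)).norm_image_sub_le_of_norm_deriv_le (𝕜 := ℂ)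
      (f := f) (fun x _ => hfd x) hder (x := -(1 / 2)) (y := 1 / 2)
      (by rw [mem_closedBall_zero_iff, norm_neg]; norm_num)
      (by rw [mem_closedBall_zero_iff]; norm_num)
    rw [hf1, hf2] at hmv
    have h1 : ‖(1 / 2 : ℂ) - -(1 / 2)‖ = 1 := by norm_num
    rwa [h1, mul_one] at hmv

end Pool.Agent.H269
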