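import Pool.Agent.H269.DefsC
import Pool.Agent.H269.R5.J01
import Pool.Agent.H269.R5.J03

/-!
# R5-04 regularized determinant: existence, bound, Lipschitz (MP_f2af60_mp, infinitely many resonances in dimension five)
-/

set_option autoImplicit false

open MeasureTheory Filter Topology Complex
open scoped InnerProductSpace ENNReal NNReal

namespace Pool.Agent.H269


section HSsec

variable {ι : Type} [DecidableEq ι] {H : Type} [NormedAddCommGroup H] [InnerProductSpace ℂ H]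
  [CompleteSpace H] {b : HilbertBasis ι ℂ H}

/-- the compression to `s`, extended by zero to `t` -/
noncomputable def d2N (b : HilbertBasis ι ℂ H) (A : H →L[ℂ] H) (s t : Finset ι) : Matrix t t ℂ :=
  Matrix.of fun i j => if (i : ι) ∈ s ∧ (j : ι) ∈ s then ⟪b i, A (b j)⟫_ℂ else 0

theorem d2N_eq (A : H →L[ℂ] H) {s t : Finset ι} (hst : s ⊆ t) :
    d2 (d2N b A s t) = d2 (Mx b A s) := by
  have hdet : (1 + d2N b A s t).det = (1 + Mx b A s).det := by
    rw [Matrix.twoBlockTriangular_det (1 + d2N b A s t) (fun i : t => (i : ι) ∈ s)]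
    · have h2 : (1 + d2N b A s t).toSquareBlockProp (fun i : t => ¬ (i : ι) ∈ s) = 1 := by
        ext i j
        have hi : ¬ ((i : t) : ι) ∈ s := i.2
        show (1 : Matrix t t ℂ) (i : t) (j : t) + (if ((i : t) : ι) ∈ s ∧ ((j : t) : ι) ∈ s then
          ⟪b (i : t), A (b (j : t))⟫_ℂ else 0) = _
        rw [if_neg (fun h => hi h.1), add_zero]
        by_cases hij : i = j
        · rw [hij, Matrix.one_apply_eq, Matrix.one_apply_eq]
        · rw [Matrix.one_apply_ne hij, Matrix.one_apply_ne (fun h => hij (Subtype.ext h))]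
      rw [h2, Matrix.det_one, mul_one]
      let e : s ≃ {i : t // (i : ι) ∈ s} :=
        { toFun := fun i => ⟨⟨i, hst i.2⟩, i.2⟩
          invFun := fun i => ⟨i, i.2⟩
          left_inv := fun _ => rfl
          right_inv := fun _ => rfl }
      rw [← Matrix.det_submatrix_equiv_self e]
      congr 1
      ext i j
      simp only [Matrix.toSquareBlockProp_def, Matrix.submatrix_apply, Matrix.of_apply,
        Matrix.add_apply, d2N, Mx]
      rw [if_pos ⟨i.2, j.2⟩]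
      simp only [Matrix.one_apply, e, Equiv.coe_fn_mk, Subtype.ext_iff]
    · intro i hi j _
      have hij : i ≠ j := by
        rintro rfl
        contradiction
      simp only [Matrix.add_apply, d2N, Matrix.of_apply]
      rw [if_neg (fun h => hi h.1), Matrix.one_apply_ne hij, add_zero]
  have htr : (d2N b A s t).trace = (Mx b A s).trace := by
    simp only [Matrix.trace, Matrix.diag, d2N, Mx, Matrix.of_apply, and_self]
    rw [Finset.sum_coe_sort t (fun i => if i ∈ s then ⟪b i, A (b i)⟫_ℂ else 0),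
      Finset.sum_coe_sort s (fun i => ⟪b i, A (b i)⟫_ℂ), ← Finset.sum_filter]
    congr 1
    ext i
    rw [Finset.mem_filter]
    exact ⟨fun h => h.2, fun h => ⟨hst h, h⟩⟩
  unfold d2
  rw [hdet, htr]

theorem d2_sum_le {A : H →L[ℂ] H} {c : ℝ} (hA : HSle b A c) (t : Finset ι) :
    ∑ i ∈ t, ∑ j ∈ t, ‖⟪b i, A (b j)⟫_ℂ‖ ^ 2 ≤ c ^ 2 := by
  rw [Finset.sum_comm]
  refine (Finset.sum_le_sum fun j _ => ?_).trans (hA.2 t)
  exact b.orthonormal.sum_inner_products_le (A (b j))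

theorem d2_sum_coe (t : Finset ι) (f : ι → ι → ℝ) :
    ∑ i : t, ∑ j : t, f i j = ∑ i ∈ t, ∑ j ∈ t, f i j := by
  rw [← Finset.sum_coe_sort t]
  refine Finset.sum_congr rfl fun i _ => ?_
  rw [← Finset.sum_coe_sort t]

theorem d2_cmp {A : H →L[ℂ] H} {c : ℝ} (hA : HSle b A c) {s t : Finset ι} (hst : s ⊆ t) {δ : ℝ}
    (hδ : 0 ≤ δ) (h : ∑ i ∈ t, ∑ j ∈ t,
      (if i ∈ s ∧ j ∈ s then 0 else ‖⟪b i, A (b j)⟫_ℂ‖ ^ 2) ≤ δ ^ 2) :
    ‖d2 (Mx b A t) - d2 (Mx b A s)‖ ≤ δ * Real.exp ((2 * c + 1) ^ 2 / 2) := by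
  rw [← d2N_eq A hst]
  have h1 : ∑ i, ∑ j, ‖(Mx b A t) i j‖ ^ 2 ≤ c ^ 2 := by
    simp only [Mx, Matrix.of_apply]
    rw [d2_sum_coe t (fun i j => ‖⟪b i, A (b j)⟫_ℂ‖ ^ 2)]
    exact d2_sum_le hA t
  have h2 : ∑ i, ∑ j, ‖(d2N b A s t) i j‖ ^ 2 ≤ c ^ 2 := by
    refine le_trans (Finset.sum_le_sum fun i _ => Finset.sum_le_sum fun j _ => ?_) h1
    simp only [Mx, d2N, Matrix.of_apply]
    split_ifs
    · exact le_rfl
    · rw [norm_zero]
      have : 0 ≤ ‖⟪b i, A (b j)⟫_ℂ‖ ^ 2 := by positivity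
      simpa using this
  have h3 : ∑ i, ∑ j, ‖(Mx b A t) i j - (d2N b A s t) i j‖ ^ 2 ≤ δ ^ 2 := by
    refine le_trans (le_of_eq ?_) h
    rw [← d2_sum_coe t (fun i j => if i ∈ s ∧ j ∈ s then 0 else ‖⟪b i, A (b j)⟫_ℂ‖ ^ 2)]
    refine Finset.sum_congr rfl fun i _ => Finset.sum_congr rfl fun j _ => ?_
    simp only [Mx, d2N, Matrix.of_apply]
    split_ifs
    · simp
    · rw [sub_zero]
  have h4 := d2_lip (Mx b A t) (d2N b A s t) hA.1 hA.1 hδ h1 h2 h3
  have e1 : c + c + 1 = 2 * c + 1 := by ring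
  rwa [e1] at h4

theorem d2_summable {A : H →L[ℂ] H} {c : ℝ} (hA : HSle b A c) :
    Summable (fun p : ι × ι => ‖⟪b p.1, A (b p.2)⟫_ℂ‖ ^ 2) := by
  refine summable_of_sum_le (c := c ^ 2) (fun p => by positivity) (fun u => ?_)
  set t : Finset ι := u.image Prod.fst ∪ u.image Prod.snd with ht
  have hsub : u ⊆ t ×ˢ t := by
    intro p hp
    rw [Finset.mem_product, ht]
    exact ⟨Finset.mem_union_left _ (Finset.mem_image_of_mem _ hp),
      Finset.mem_union_right _ (Finset.mem_image_of_mem _ hp)⟩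
  refine (Finset.sum_le_sum_of_subset_of_nonneg hsub fun p _ _ => by positivity).trans ?_
  rw [Finset.sum_product]
  exact d2_sum_le hA t

theorem d2_tail {A : H →L[ℂ] H} {c : ℝ} (hA : HSle b A c) {ε : ℝ} (hε : 0 < ε) :
    ∃ s0 : Finset ι, ∀ s, s0 ⊆ s → ∀ t : Finset ι, ∑ i ∈ t, ∑ j ∈ t,
      (if i ∈ s ∧ j ∈ s then 0 else ‖⟪b i, A (b j)⟫_ℂ‖ ^ 2) ≤ ε := by
  obtain ⟨U, hU⟩ := summable_iff_vanishing_norm.1 (d2_summable hA) ε hε
  refine ⟨U.image Prod.fst ∪ U.image Prod.snd, fun s hs t => ?_⟩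
  have h1 : ∑ i ∈ t, ∑ j ∈ t, (if i ∈ s ∧ j ∈ s then 0 else ‖⟪b i, A (b j)⟫_ℂ‖ ^ 2) =
      ∑ p ∈ (t ×ˢ t).filter (fun p => ¬ (p.1 ∈ s ∧ p.2 ∈ s)), ‖⟪b p.1, A (b p.2)⟫_ℂ‖ ^ 2 := by
    rw [Finset.sum_filter, Finset.sum_product]
    refine Finset.sum_congr rfl fun i _ => Finset.sum_congr rfl fun j _ => ?_
    by_cases hij : i ∈ s ∧ j ∈ s
    · rw [if_pos hij, if_neg (not_not.2 hij)]
    · rw [if_neg hij, if_pos hij]
  rw [h1]
  have h2 := hU ((t ×ˢ t).filter (fun p => ¬ (p.1 ∈ s ∧ p.2 ∈ s))) (by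
    rw [Finset.disjoint_left]
    intro p hp hpU
    rw [Finset.mem_filter] at hp
    apply hp.2
    exact ⟨hs (Finset.mem_union_left _ (Finset.mem_image_of_mem _ hpU)),
      hs (Finset.mem_union_right _ (Finset.mem_image_of_mem _ hpU))⟩)
  exact (le_abs_self _).trans h2.le

end HSsec


section HSsec

variable {ι : Type} [DecidableEq ι] {H : Type} [NormedAddCommGroup H] [InnerProductSpace ℂ H]
  [CompleteSpace H] {b : HilbertBasis ι ℂ H}

theorem det2_tendsto {A : H →L[ℂ] H} {c : ℝ} (hA : HSle b A c) :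
    Tendsto (fun s : Finset ι => d2 (Mx b A s)) atTop (𝓝 (det2 b A)) := by
  have hcauchy : CauchySeq (fun s : Finset ι => d2 (Mx b A s)) := by
    rw [Metric.cauchySeq_iff']
    intro ε hε
    set E := Real.exp ((2 * c + 1) ^ 2 / 2) with hE
    have hE0 : 0 < E := Real.exp_pos _
    set δ := ε / (2 * E) with hδ
    have hδ0 : 0 < δ := by positivity
    obtain ⟨s0, hs0⟩ := d2_tail hA (pow_pos hδ0 2)
    refine ⟨s0, fun t ht => ?_⟩
    have h1 := d2_cmp hA (s := s0) (t := t) ht hδ0.le (hs0 s0 (Finset.Subset.refl _) t)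
    rw [dist_eq_norm]
    refine lt_of_le_of_lt h1 ?_
    rw [← hE, hδ]
    have : ε / (2 * E) * E = ε / 2 := by
      field_simp
    rw [this]
    linarith
  exact tendsto_nhds_limUnder (cauchySeq_tendsto_of_complete hcauchy)

theorem det2_dist {A : H →L[ℂ] H} {c : ℝ} (hA : HSle b A c) (s : Finset ι) (δ : ℝ) (hδ : 0 ≤ δ)
    (h : ∀ t : Finset ι, ∑ i ∈ t, ∑ j ∈ t,
      (if i ∈ s ∧ j ∈ s then 0 else ‖⟪b i, A (b j)⟫_ℂ‖ ^ 2) ≤ δ ^ 2) :
    ‖d2 (Mx b A s) - det2 b A‖ ≤ δ * Real.exp ((2 * c + 1) ^ 2 / 2) := by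
  rw [norm_sub_rev]
  have h1 := ((det2_tendsto hA).sub_const (d2 (Mx b A s))).norm
  refine le_of_tendsto h1 ?_
  filter_upwards [eventually_ge_atTop s] with t ht
  exact d2_cmp hA ht hδ (h t)

theorem det2_bound {A : H →L[ℂ] H} {c : ℝ} (hA : HSle b A c) :
    ‖det2 b A‖ ≤ Real.exp (c ^ 2 / 2) := by
  refine le_of_tendsto (det2_tendsto hA).norm (Eventually.of_forall fun s => ?_)
  refine (d2_bound _).trans (Real.exp_le_exp.2 ?_)
  have h1 : ∑ i, ∑ j, ‖(Mx b A s) i j‖ ^ 2 ≤ c ^ 2 := by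
    simp only [Mx, Matrix.of_apply]
    rw [d2_sum_coe s (fun i j => ‖⟪b i, A (b j)⟫_ℂ‖ ^ 2)]
    exact d2_sum_le hA s
  linarith

theorem det2_lip {A B : H →L[ℂ] H} {a c δ : ℝ} (hA : HSle b A a) (hB : HSle b B c)
    (hAB : HSle b (A - B) δ) :
    ‖det2 b A - det2 b B‖ ≤ δ * Real.exp ((a + c + 1) ^ 2 / 2) := by
  refine le_of_tendsto ((det2_tendsto hA).sub (det2_tendsto hB)).norm
    (Eventually.of_forall fun s => ?_)
  apply d2_lip (Mx b A s) (Mx b B s) hA.1 hB.1 hAB.1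
  · simp only [Mx, Matrix.of_apply]
    rw [d2_sum_coe s (fun i j => ‖⟪b i, A (b j)⟫_ℂ‖ ^ 2)]
    exact d2_sum_le hA s
  · simp only [Mx, Matrix.of_apply]
    rw [d2_sum_coe s (fun i j => ‖⟪b i, B (b j)⟫_ℂ‖ ^ 2)]
    exact d2_sum_le hB s
  · have h1 : ∀ i j : s, (Mx b A s) i j - (Mx b B s) i j = ⟪b i, (A - B) (b j)⟫_ℂ := by
      intro i j
      simp only [Mx, Matrix.of_apply, sub_apply, inner_sub_right]
    simp only [h1]
    rw [d2_sum_coe s (fun i j => ‖⟪b i, (A - B) (b j)⟫_ℂ‖ ^ 2)]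
    exact d2_sum_le hAB s

theorem det2_zero : det2 b (0 : H →L[ℂ] H) = 1 := by
  have h0 : HSle b (0 : H →L[ℂ] H) 0 := ⟨le_rfl, fun s => by simp⟩
  have h1 := det2_tendsto h0
  have h2 : (fun s : Finset ι => d2 (Mx b (0 : H →L[ℂ] H) s)) = fun _ => (1 : ℂ) := by
    funext s
    have h3 : Mx b (0 : H →L[ℂ] H) s = 0 := by
      ext i j
      simp [Mx]
    rw [h3]
    simp [d2]
  rw [h2] at h1
  exact tendsto_nhds_unique h1 tendsto_const_nhds

end HSsec

end Pool.Agent.H269
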