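import Pool.Agent.H269.DefsC
import Pool.Agent.H269.R5.J01
import Pool.Agent.H269.R5.J02
import Pool.Agent.H269.R5.J03
import Pool.Agent.H269.R5.J04

/-!
# R5-05 multiplicativity of det2 (MP_f2af60_mp, infinitely many resonances in dimension five)
-/

set_option autoImplicit false

open MeasureTheory Filter Topology Complex
open scoped InnerProductSpace ENNReal NNReal

namespace Pool.Agent.H269



section HSaux

variable {ι : Type} [DecidableEq ι] {H : Type} [NormedAddCommGroup H] [InnerProductSpace ℂ H]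
  [CompleteSpace H]

omit [DecidableEq ι] [CompleteSpace H] in
theorem r505_res (b : HilbertBasis ι ℂ H) (s : Finset ι) (x : H) :
    ‖x - ∑ i ∈ s, ⟪b i, x⟫_ℂ • b i‖ ^ 2 = ‖x‖ ^ 2 - ∑ i ∈ s, ‖⟪b i, x⟫_ℂ‖ ^ 2 := by
  have hv := b.orthonormal
  have h₂ : (∑ i ∈ s, ∑ j ∈ s, ⟪b i, x⟫_ℂ * ⟪x, b j⟫_ℂ * ⟪b j, b i⟫_ℂ) =
      (∑ k ∈ s, ⟪b k, x⟫_ℂ * ⟪x, b k⟫_ℂ : ℂ) := by
    exact hv.inner_left_right_finset
  have h₃ : ∀ z : ℂ, RCLike.re (z * (starRingEnd ℂ) z) = ‖z‖ ^ 2 := by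
    intro z
    simp only [RCLike.mul_conj]
    norm_cast
  rw [@norm_sub_sq ℂ, sub_add]
  simp only [@InnerProductSpace.norm_sq_eq_re_inner ℂ H, inner_sum, sum_inner]
  simp only [inner_smul_right, two_mul, inner_smul_left, inner_conj_symm, ← mul_assoc, h₂,
    add_sub_cancel_right, sub_right_inj]
  simp only [map_sum, ← inner_conj_symm x, ← h₃]

omit [DecidableEq ι] [CompleteSpace H] in
theorem r505_parseval (b : HilbertBasis ι ℂ H) (x : H) :
    HasSum (fun i => ‖⟪b i, x⟫_ℂ‖ ^ 2) (‖x‖ ^ 2) := by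
  have h := b.hasSum_inner_mul_inner x x
  have h2 := Complex.hasSum_re h
  have e1 : ∀ i, (⟪x, b i⟫_ℂ * ⟪b i, x⟫_ℂ).re = ‖⟪b i, x⟫_ℂ‖ ^ 2 := by
    intro i
    rw [← inner_conj_symm x (b i), mul_comm, Complex.mul_conj, Complex.normSq_eq_norm_sq]
    exact Complex.ofReal_re _
  have e2 : (⟪x, x⟫_ℂ).re = ‖x‖ ^ 2 := by
    rw [@InnerProductSpace.norm_sq_eq_re_inner ℂ H]
    rfl
  simp only [e1] at h2
  rw [e2] at h2
  exact h2

theorem r505_dbl (b : HilbertBasis ι ℂ H) {B : H →L[ℂ] H} {c : ℝ} (hB : HSle b B c) :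
    HasSum (fun p : ι × ι => ‖⟪b p.2, B (b p.1)⟫_ℂ‖ ^ 2) (∑' i, ‖B (b i)‖ ^ 2) := by
  have h1 : ∀ j, HasSum (fun i => ‖⟪b i, B (b j)⟫_ℂ‖ ^ 2) (‖B (b j)‖ ^ 2) := fun j =>
    r505_parseval b (B (b j))
  have hs : Summable (fun p : ι × ι => ‖⟪b p.2, B (b p.1)⟫_ℂ‖ ^ 2) := by
    rw [summable_prod_of_nonneg (fun p => by positivity)]
    refine ⟨fun j => (h1 j).summable, ?_⟩
    have : (fun j => ∑' i, ‖⟪b i, B (b j)⟫_ℂ‖ ^ 2) = fun j => ‖B (b j)‖ ^ 2 := by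
      funext j
      exact (h1 j).tsum_eq
    show Summable (fun j => ∑' i, ‖⟪b i, B (b j)⟫_ℂ‖ ^ 2)
    rw [this]
    exact hB.summable.1
  have ht : ∑' p : ι × ι, ‖⟪b p.2, B (b p.1)⟫_ℂ‖ ^ 2 = ∑' i, ‖B (b i)‖ ^ 2 := by
    rw [hs.tsum_prod]
    exact tsum_congr fun j => (h1 j).tsum_eq
  rw [← ht]
  exact hs.hasSum

omit [DecidableEq ι] in
theorem r505_sq {M : Type} [AddCommMonoid M] [TopologicalSpace M] {f : ι × ι → M} {a : M} (h : HasSum f a) :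
    Tendsto (fun s : Finset ι => ∑ i ∈ s, ∑ j ∈ s, f (i, j)) atTop (𝓝 a) := by
  have h1 : Tendsto (fun s : Finset ι => s ×ˢ s) atTop atTop :=
    tendsto_finsetProd_atTop.comp tendsto_atTop_diagonal
  have h2 := h.comp h1
  refine h2.congr fun s => ?_
  exact Finset.sum_product s s f

/-- the error term -/
theorem r505_eps (b : HilbertBasis ι ℂ H) {B : H →L[ℂ] H} {c : ℝ} (hB : HSle b B c) :
    Tendsto (fun s : Finset ι => ∑ j ∈ s, ‖B (b j) - ∑ i ∈ s, ⟪b i, B (b j)⟫_ℂ • b i‖ ^ 2)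
      atTop (𝓝 0) := by
  have h1 : Tendsto (fun s : Finset ι => ∑ j ∈ s, ‖B (b j)‖ ^ 2) atTop (𝓝 (∑' i, ‖B (b i)‖ ^ 2)) :=
    hB.summable.1.hasSum
  have h2 := r505_sq (r505_dbl b hB)
  have h3 := h1.sub h2
  rw [sub_self] at h3
  refine h3.congr fun s => ?_
  rw [← Finset.sum_sub_distrib]
  exact Finset.sum_congr rfl fun j _ => (r505_res b s _).symm

omit [DecidableEq ι] [CompleteSpace H] in
/-- entries of the compression of a product -/
theorem r505_entry (b : HilbertBasis ι ℂ H) (A B : H →L[ℂ] H) (s : Finset ι) (i j : ι) :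
    ⟪b i, A (B (b j))⟫_ℂ - ∑ k ∈ s, ⟪b i, A (b k)⟫_ℂ * ⟪b k, B (b j)⟫_ℂ =
      ⟪b i, A (B (b j) - ∑ k ∈ s, ⟪b k, B (b j)⟫_ℂ • b k)⟫_ℂ := by
  rw [map_sub, inner_sub_right, map_sum, inner_sum]
  congr 1
  refine Finset.sum_congr rfl fun k _ => ?_
  rw [map_smul, inner_smul_right, mul_comm]

omit [DecidableEq ι] [CompleteSpace H] in
theorem r505_mx_mul (b : HilbertBasis ι ℂ H) (A B : H →L[ℂ] H) (s : Finset ι) (i j : s) :
    (Mx b A s * Mx b B s) i j = ∑ k ∈ s, ⟪b i, A (b k)⟫_ℂ * ⟪b k, B (b j)⟫_ℂ := by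
  rw [Matrix.mul_apply, ← Finset.sum_coe_sort s]
  rfl

omit [DecidableEq ι] [CompleteSpace H] in
/-- the difference of the compressions -/
theorem r505_diff (b : HilbertBasis ι ℂ H) (A B : H →L[ℂ] H) (s : Finset ι) :
    ∑ i, ∑ j, ‖Mx b (A + B + A * B) s i j - (Mx b A s + Mx b B s + Mx b A s * Mx b B s) i j‖ ^ 2 ≤
      ‖A‖ ^ 2 * ∑ j ∈ s, ‖B (b j) - ∑ i ∈ s, ⟪b i, B (b j)⟫_ℂ • b i‖ ^ 2 := by
  have h1 : ∀ i j : s, Mx b (A + B + A * B) s i j -
      (Mx b A s + Mx b B s + Mx b A s * Mx b B s) i j =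
      ⟪b i, A (B (b j) - ∑ k ∈ s, ⟪b k, B (b j)⟫_ℂ • b k)⟫_ℂ := by
    intro i j
    rw [← r505_entry, Matrix.add_apply, Matrix.add_apply, r505_mx_mul]
    simp only [Mx, Matrix.of_apply, add_apply, inner_add_right,
      mul_apply_eq_comp]
    ring
  simp only [h1]
  rw [Finset.sum_comm]
  have h2 : ∀ j : s, ∑ i : s, ‖⟪b i, A (B (b j) - ∑ k ∈ s, ⟪b k, B (b j)⟫_ℂ • b k)⟫_ℂ‖ ^ 2 ≤
      ‖A‖ ^ 2 * ‖B (b j) - ∑ k ∈ s, ⟪b k, B (b j)⟫_ℂ • b k‖ ^ 2 := by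
    intro j
    rw [Finset.sum_coe_sort s (fun i => ‖⟪b i, A (B (b j) - ∑ k ∈ s, ⟪b k, B (b j)⟫_ℂ • b k)⟫_ℂ‖ ^ 2)]
    refine (b.orthonormal.sum_inner_products_le _).trans ?_
    rw [← mul_pow]
    exact pow_le_pow_left₀ (norm_nonneg _) (A.le_opNorm _) 2
  refine (Finset.sum_le_sum fun j _ => h2 j).trans (le_of_eq ?_)
  rw [Finset.sum_coe_sort s (fun j => ‖A‖ ^ 2 * ‖B (b j) - ∑ k ∈ s, ⟪b k, B (b j)⟫_ℂ • b k‖ ^ 2),
    Finset.mul_sum]

omit [DecidableEq ι] [CompleteSpace H] in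
/-- Frobenius norm of a compression -/
theorem r505_fro (b : HilbertBasis ι ℂ H) {A : H →L[ℂ] H} {c : ℝ} (hA : HSle b A c) (s : Finset ι) :
    ∑ i, ∑ j, ‖Mx b A s i j‖ ^ 2 ≤ c ^ 2 := by
  rw [Finset.sum_comm]
  have h2 : ∀ j : s, ∑ i : s, ‖Mx b A s i j‖ ^ 2 ≤ ‖A (b j)‖ ^ 2 := by
    intro j
    have := b.orthonormal.sum_inner_products_le (A (b j)) (s := s)
    rw [← Finset.sum_coe_sort s] at this
    exact this
  refine (Finset.sum_le_sum fun j _ => h2 j).trans ?_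
  rw [Finset.sum_coe_sort s (fun j => ‖A (b j)‖ ^ 2)]
  exact hA.2 s

/-- the trace of the product of the compressions -/
theorem r505_trace (b : HilbertBasis ι ℂ H) {A B : H →L[ℂ] H} {a c : ℝ} (hA : HSle b A a) (hB : HSle b B c) :
    Tendsto (fun s : Finset ι => (Mx b A s * Mx b B s).trace) atTop (𝓝 (Tr2 b A B)) := by
  have sA := (r505_dbl b hA).summable
  have sB := (r505_dbl b hB).summable
  have sA' : Summable (fun p : ι × ι => ‖⟪b p.1, A (b p.2)⟫_ℂ‖ ^ 2) := by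
    have := (Equiv.prodComm ι ι).summable_iff.2 sA
    exact this
  have hs : Summable (fun p : ι × ι => ⟪b p.1, A (b p.2)⟫_ℂ * ⟪b p.2, B (b p.1)⟫_ℂ) := by
    refine Summable.of_norm_bounded (g := fun p : ι × ι => ‖⟪b p.1, A (b p.2)⟫_ℂ‖ ^ 2 +
      ‖⟪b p.2, B (b p.1)⟫_ℂ‖ ^ 2) (sA'.add sB) ?_
    intro p
    rw [norm_mul]
    nlinarith [sq_nonneg (‖⟪b p.1, A (b p.2)⟫_ℂ‖ - ‖⟪b p.2, B (b p.1)⟫_ℂ‖),
      norm_nonneg (⟪b p.1, A (b p.2)⟫_ℂ), norm_nonneg (⟪b p.2, B (b p.1)⟫_ℂ)]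
  have ht : ∑' p : ι × ι, ⟪b p.1, A (b p.2)⟫_ℂ * ⟪b p.2, B (b p.1)⟫_ℂ = Tr2 b A B := by
    rw [hs.tsum_prod]
    unfold Tr2
    refine tsum_congr fun i => ?_
    have h1 := b.tsum_inner_mul_inner (ContinuousLinearMap.adjoint A (b i)) (B (b i))
    rw [ContinuousLinearMap.adjoint_inner_left] at h1
    rw [← h1]
    refine tsum_congr fun j => ?_
    rw [ContinuousLinearMap.adjoint_inner_left]
  have h2 := r505_sq hs.hasSum
  rw [ht] at h2
  refine h2.congr fun s => ?_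
  unfold Matrix.trace
  rw [← Finset.sum_coe_sort s]
  refine Finset.sum_congr rfl fun i _ => ?_
  rw [Matrix.diag_apply, r505_mx_mul]

/-- algebra of finite regularized determinants -/
theorem r505_alg {n : Type} [Fintype n] [DecidableEq n] (M N : Matrix n n ℂ) :
    d2 M * d2 N = d2 (M + N + M * N) * cexp ((M * N).trace) := by
  unfold d2
  have h1 : 1 + (M + N + M * N) = (1 + M) * (1 + N) := by
    noncomm_ring
  have h2 : cexp (-(M + N + M * N).trace) * cexp ((M * N).trace) = cexp (-M.trace) * cexp (-N.trace) := by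
    rw [← Complex.exp_add, ← Complex.exp_add, Matrix.trace_add, Matrix.trace_add]
    congr 1
    ring
  rw [h1, Matrix.det_mul, mul_assoc ((1 + M).det * (1 + N).det), h2]
  ring

end HSaux

/- TARGET -/

section HSsec

variable {ι : Type} [DecidableEq ι] {H : Type} [NormedAddCommGroup H] [InnerProductSpace ℂ H]
  [CompleteSpace H] {b : HilbertBasis ι ℂ H}

theorem det2_mul {A B : H →L[ℂ] H} {a c : ℝ} (hA : HSle b A a) (hB : HSle b B c) :
    det2 b (A + B + A * B) * cexp (Tr2 b A B) = det2 b A * det2 b B := by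
  obtain ⟨C, hCd⟩ : ∃ C : H →L[ℂ] H, C = A + B + A * B := ⟨_, rfl⟩
  have hC : HSle b C (a + c + ‖A‖ * c) := by
    rw [hCd]
    exact (hA.add hB).add (hB.left_mul A)
  obtain ⟨K, hK⟩ : ∃ K : ℝ, K = a + c + ‖A‖ * c := ⟨_, rfl⟩
  rw [← hK] at hC
  have hK0 : 0 ≤ K := hC.1
  obtain ⟨ep, hep⟩ : ∃ ep : Finset ι → ℝ, ∀ s, ep s =
      ∑ j ∈ s, ‖B (b j) - ∑ i ∈ s, ⟪b i, B (b j)⟫_ℂ • b i‖ ^ 2 := ⟨_, fun _ => rfl⟩
  have hep0 : ∀ s, 0 ≤ ep s := fun s => by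
    rw [hep]
    positivity
  have hepc : ∀ s, ep s ≤ c ^ 2 := by
    intro s
    rw [hep]
    refine le_trans (Finset.sum_le_sum fun j _ => ?_) (hB.2 s)
    rw [r505_res]
    have : 0 ≤ ∑ i ∈ s, ‖⟪b i, B (b j)⟫_ℂ‖ ^ 2 := by positivity
    linarith
  have hept : Tendsto ep atTop (𝓝 0) := by
    have := r505_eps b hB
    refine this.congr fun s => (hep s).symm
  have hlip : ∀ s : Finset ι, ‖d2 (Mx b C s) - d2 (Mx b A s + Mx b B s + Mx b A s * Mx b B s)‖ ≤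
      (‖A‖ * Real.sqrt (ep s)) * Real.exp ((K + (2 * (K + ‖A‖ * c)) + 1) ^ 2 / 2) := by
    intro s
    have hd := r505_diff b A B s
    rw [← hep, ← hCd] at hd
    have hf := r505_fro b hC s
    refine d2_lip _ _ hK0 ?_ (by positivity) hf ?_ ?_
    · have := hB.1
      positivity
    · have h1 : ∀ i j, ‖(Mx b A s + Mx b B s + Mx b A s * Mx b B s) i j‖ ^ 2 ≤
          2 * ‖Mx b C s i j‖ ^ 2 + 2 * ‖Mx b C s i j -
            (Mx b A s + Mx b B s + Mx b A s * Mx b B s) i j‖ ^ 2 := by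
        intro i j
        generalize (Mx b A s + Mx b B s + Mx b A s * Mx b B s) i j = z
        generalize Mx b C s i j = w
        have h2 : ‖z‖ ≤ ‖w‖ + ‖w - z‖ := by
          have h3 : z = w - (w - z) := by ring
          calc ‖z‖ = ‖w - (w - z)‖ := by rw [← h3]
            _ ≤ _ := norm_sub_le _ _
        nlinarith [norm_nonneg z, norm_nonneg w, norm_nonneg (w - z), sq_nonneg (‖w‖ - ‖w - z‖)]
      have h4 : ∑ i, ∑ j, ‖(Mx b A s + Mx b B s + Mx b A s * Mx b B s) i j‖ ^ 2 ≤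
          2 * K ^ 2 + 2 * (‖A‖ ^ 2 * ep s) := by
        refine (Finset.sum_le_sum fun i _ => Finset.sum_le_sum fun j _ => h1 i j).trans ?_
        simp only [Finset.sum_add_distrib, ← Finset.mul_sum]
        linarith
      have h5 : ‖A‖ ^ 2 * ep s ≤ ‖A‖ ^ 2 * c ^ 2 := mul_le_mul_of_nonneg_left (hepc s) (by positivity)
      have h6 : 0 ≤ K * (‖A‖ * c) := by
        have := hB.1
        positivity
      nlinarith [sq_nonneg (‖A‖ * c), sq_nonneg K]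
    · rw [mul_pow, Real.sq_sqrt (hep0 s)]
      exact hd
  have hdiff : Tendsto (fun s : Finset ι => d2 (Mx b C s) -
      d2 (Mx b A s + Mx b B s + Mx b A s * Mx b B s)) atTop (𝓝 0) := by
    refine squeeze_zero_norm hlip ?_
    have h1 : Tendsto (fun s => Real.sqrt (ep s)) atTop (𝓝 0) := by
      have := (Real.continuous_sqrt.tendsto 0).comp hept
      rw [Real.sqrt_zero] at this
      exact this
    have h2 := (h1.const_mul ‖A‖).mul_const (Real.exp ((K + (2 * (K + ‖A‖ * c)) + 1) ^ 2 / 2))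
    rw [mul_zero, zero_mul] at h2
    exact h2
  have hN : Tendsto (fun s : Finset ι => d2 (Mx b A s + Mx b B s + Mx b A s * Mx b B s)) atTop
      (𝓝 (det2 b C)) := by
    have h1 := (det2_tendsto hC).sub hdiff
    rw [sub_zero] at h1
    refine h1.congr fun s => ?_
    ring
  have hE : Tendsto (fun s : Finset ι => cexp ((Mx b A s * Mx b B s).trace)) atTop
      (𝓝 (cexp (Tr2 b A B))) := (Complex.continuous_exp.tendsto _).comp (r505_trace b hA hB)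
  have h1 := hN.mul hE
  have h2 := (det2_tendsto hA).mul (det2_tendsto hB)
  rw [← hCd]
  refine tendsto_nhds_unique (h1.congr fun s => ?_) h2
  exact (r505_alg _ _).symm

end HSsec

end Pool.Agent.H269
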