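import Pool.Agent.H269.DefsC
import Pool.Agent.H269.R5.J01
import Pool.Agent.H269.R5.J02
import Pool.Agent.H269.R5.J03
import Pool.Agent.H269.R5.J04
import Pool.Agent.H269.R5.J05

/-!
# R5-06 det2: nonvanishing, quadratic estimate (MP_f2af60_mp, infinitely many resonances in dimension five)
-/

set_option autoImplicit false

open MeasureTheory Filter Topology Complex
open scoped InnerProductSpace ENNReal NNReal

namespace Pool.Agent.H269





/- helper lemmas -/

section HSsec3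

theorem d2_smul_eq {n : Type} [Fintype n] [DecidableEq n] (M : Matrix n n ℂ) (z : ℂ) :
    d2 (z • M) = (1 + M.trace * z +
      (Matrix.det (1 + (Polynomial.X : Polynomial ℂ) • M.map Polynomial.C)).divX.divX.eval z * z ^ 2)
      * cexp (-(z * M.trace)) := by
  unfold d2
  rw [Matrix.det_one_add_smul, Matrix.trace_smul, smul_eq_mul]

theorem d2_smul_hasDerivAt {n : Type} [Fintype n] [DecidableEq n] (M : Matrix n n ℂ) :
    HasDerivAt (fun z : ℂ => d2 (z • M)) 0 0 := by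
  have h1 : (fun z : ℂ => d2 (z • M)) = fun z : ℂ => (1 + M.trace * z +
      (Matrix.det (1 + (Polynomial.X : Polynomial ℂ) • M.map Polynomial.C)).divX.divX.eval z * z ^ 2)
      * cexp (-(z * M.trace)) := by
    funext z; exact d2_smul_eq M z
  rw [h1]
  set P := (Matrix.det (1 + (Polynomial.X : Polynomial ℂ) • M.map Polynomial.C)).divX.divX with hP
  have hP' : HasDerivAt (fun z : ℂ => P.eval z) (P.derivative.eval 0) 0 := P.hasDerivAt 0
  have ha : HasDerivAt (fun z : ℂ => 1 + M.trace * z + P.eval z * z ^ 2) M.trace 0 := by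
    have e1 : HasDerivAt (fun z : ℂ => M.trace * z) (M.trace * 1) 0 :=
      (hasDerivAt_id (0 : ℂ)).const_mul _
    have e2 : HasDerivAt (fun z : ℂ => z ^ 2) (((2 : ℕ) : ℂ) * (0 : ℂ) ^ (2 - 1) * 1) 0 :=
      (hasDerivAt_id (0 : ℂ)).pow 2
    have e3 := (e1.const_add 1).add (hP'.mul e2)
    refine e3.congr_deriv ?_
    simp
  have hb : HasDerivAt (fun z : ℂ => cexp (-(z * M.trace))) (cexp (-(0 * M.trace)) * (-(1 * M.trace))) 0 :=
    (((hasDerivAt_id (0 : ℂ)).mul_const M.trace).neg).cexp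
  have := ha.mul hb
  refine this.congr_deriv ?_
  simp

theorem d2_smul_differentiable {n : Type} [Fintype n] [DecidableEq n] (M : Matrix n n ℂ) :
    Differentiable ℂ (fun z : ℂ => d2 (z • M)) := by
  have h1 : (fun z : ℂ => d2 (z • M)) = fun z : ℂ => (1 + M.trace * z +
      (Matrix.det (1 + (Polynomial.X : Polynomial ℂ) • M.map Polynomial.C)).divX.divX.eval z * z ^ 2)
      * cexp (-(z * M.trace)) := by
    funext z; exact d2_smul_eq M z
  rw [h1]
  set P := (Matrix.det (1 + (Polynomial.X : Polynomial ℂ) • M.map Polynomial.C)).divX.divX with hP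
  have hP' : Differentiable ℂ (fun z : ℂ => P.eval z) := P.differentiable
  fun_prop

theorem d2_sub_one_finite {n : Type} [Fintype n] [DecidableEq n] (M : Matrix n n ℂ) {a : ℝ}
    (ha0 : 0 < a) (ha : a ≤ 1) (hM : ∑ i, ∑ j, ‖M i j‖ ^ 2 ≤ a ^ 2) :
    ‖d2 M - 1‖ ≤ 16 * a ^ 2 := by
  have hd := d2_smul_differentiable M
  have h0 : d2 ((0 : ℂ) • M) = 1 := by
    simp [d2]
  have hR : (0 : ℝ) < 2 / a := by positivity
  have hmaps : Set.MapsTo (fun z : ℂ => d2 (z • M)) (Metric.ball 0 (2 / a))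
      (Metric.closedBall ((fun z : ℂ => d2 (z • M)) 0) 10) := by
    intro z hz
    rw [Metric.mem_closedBall, dist_eq_norm]
    simp only [h0]
    have hz' : ‖z‖ < 2 / a := by simpa using hz
    have hb := d2_bound (z • M)
    have hs : (∑ i, ∑ j, ‖(z • M) i j‖ ^ 2) = ‖z‖ ^ 2 * ∑ i, ∑ j, ‖M i j‖ ^ 2 := by
      simp only [Matrix.smul_apply, smul_eq_mul, norm_mul, mul_pow, Finset.mul_sum]
    rw [hs] at hb
    have hle : ‖z‖ ^ 2 * ∑ i, ∑ j, ‖M i j‖ ^ 2 ≤ 4 := by
      have h1 : ‖z‖ ^ 2 ≤ (2 / a) ^ 2 := by gcongr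
      calc ‖z‖ ^ 2 * ∑ i, ∑ j, ‖M i j‖ ^ 2 ≤ (2 / a) ^ 2 * a ^ 2 := by gcongr
        _ = 4 := by field_simp; norm_num
    have he : Real.exp ((‖z‖ ^ 2 * ∑ i, ∑ j, ‖M i j‖ ^ 2) / 2) ≤ 9 := by
      have : Real.exp ((‖z‖ ^ 2 * ∑ i, ∑ j, ‖M i j‖ ^ 2) / 2) ≤ Real.exp 2 := by
        apply Real.exp_le_exp.mpr; linarith
      have h2 : Real.exp 2 ≤ 9 := by
        have e1 : Real.exp 1 < 2.7182818286 := Real.exp_one_lt_d9
        have e2 : Real.exp 2 = Real.exp 1 * Real.exp 1 := by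
          rw [← Real.exp_add]; norm_num
        have e0 : 0 < Real.exp 1 := Real.exp_pos 1
        rw [e2]; nlinarith
      linarith
    calc ‖d2 (z • M) - 1‖ ≤ ‖d2 (z • M)‖ + ‖(1 : ℂ)‖ := norm_sub_le _ _
      _ ≤ 9 + 1 := by
        rw [norm_one]; linarith
      _ = 10 := by norm_num
  have hlit : (fun w : ℂ => (fun z : ℂ => d2 (z • M)) w - (fun z : ℂ => d2 (z • M)) 0)
      =o[𝓝 0] (fun w : ℂ => ‖w - 0‖ ^ 1) := by
    have := (d2_smul_hasDerivAt M).isLittleO
    simp only [smul_zero, sub_zero] at this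
    simp only [sub_zero, pow_one]
    exact this.norm_right
  have h1mem : (1 : ℂ) ∈ Metric.ball (0 : ℂ) (2 / a) := by
    rw [Metric.mem_ball, dist_zero_right, norm_one, lt_div_iff₀ ha0]
    linarith
  have key := Complex.dist_le_mul_div_pow_of_mapsTo_ball_of_isLittleO (n := 1)
    (hd.differentiableOn) hmaps hlit h1mem
  simp only [one_smul, h0, dist_zero_right, norm_one] at key
  rw [dist_eq_norm] at key
  refine key.trans ?_
  have : (10 : ℝ) * (1 / (2 / a)) ^ (1 + 1) = 10 / 4 * a ^ 2 := by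
    rw [one_div_div]; ring
  rw [this]
  nlinarith [sq_nonneg a]

end HSsec3


section HSsec

variable {ι : Type} [DecidableEq ι] {H : Type} [NormedAddCommGroup H] [InnerProductSpace ℂ H]
  [CompleteSpace H] {b : HilbertBasis ι ℂ H}

theorem det2_ne_zero {A : H →L[ℂ] H} {a : ℝ} (hA : HSle b A a) (hu : IsUnit (1 + A)) :
    det2 b A ≠ 0 := by
  obtain ⟨u, hu⟩ := hu
  set Y : H →L[ℂ] H := ((u⁻¹ : (H →L[ℂ] H)ˣ) : H →L[ℂ] H) with hY
  have h1 : (1 + A) * Y = 1 := by rw [← hu]; exact u.mul_inv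
  have h2 : Y * (1 + A) = 1 := by rw [← hu]; exact u.inv_mul
  have hB : HSle b (-(Y * A)) (‖Y‖ * a) := (hA.left_mul Y).neg
  have hYA : -(Y * A) = Y - 1 := by
    have : Y + Y * A = 1 := by rw [← h2, mul_add, mul_one]
    rw [← this]; abel
  have hsum : A + -(Y * A) + A * -(Y * A) = 0 := by
    rw [hYA]
    have : A + (Y - 1) + A * (Y - 1) = (1 + A) * Y - 1 := by
      rw [add_mul, one_mul, mul_sub, mul_one]; abel
    rw [this, h1, sub_self]
  have key := det2_mul hA hB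
  rw [hsum, det2_zero, one_mul] at key
  intro h0
  rw [h0, zero_mul] at key
  exact Complex.exp_ne_zero _ key

theorem det2_sub_one {A : H →L[ℂ] H} {a : ℝ} (hA : HSle b A a) (ha : a ≤ 1) :
    ‖det2 b A - 1‖ ≤ 16 * a ^ 2 := by
  have hlim := det2_tendsto hA
  have hfrob : ∀ s : Finset ι, ∑ i, ∑ j, ‖Mx b A s i j‖ ^ 2 ≤ a ^ 2 := by
    intro s
    rw [Finset.sum_comm]
    have h1 : ∀ j : s, ∑ i : s, ‖Mx b A s i j‖ ^ 2 ≤ ‖A (b j)‖ ^ 2 := by
      intro j
      have h2 := b.orthonormal.sum_inner_products_le (A (b j)) (s := s)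
      rw [← Finset.sum_coe_sort] at h2
      simpa [Mx] using h2
    calc ∑ j : s, ∑ i : s, ‖Mx b A s i j‖ ^ 2 ≤ ∑ j : s, ‖A (b j)‖ ^ 2 :=
          Finset.sum_le_sum fun j _ => h1 j
      _ = ∑ j ∈ s, ‖A (b j)‖ ^ 2 := Finset.sum_coe_sort s (fun j => ‖A (b j)‖ ^ 2)
      _ ≤ a ^ 2 := hA.2 s
  rcases hA.1.lt_or_eq with ha0 | ha0
  · have : ∀ s : Finset ι, ‖d2 (Mx b A s) - 1‖ ≤ 16 * a ^ 2 := fun s =>
      d2_sub_one_finite _ ha0 ha (hfrob s)
    have hl : Tendsto (fun s : Finset ι => ‖d2 (Mx b A s) - 1‖) atTop (𝓝 ‖det2 b A - 1‖) :=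
      (hlim.sub_const 1).norm
    exact le_of_tendsto' hl this
  · subst ha0
    have h3 : ∀ s : Finset ι, d2 (Mx b A s) = 1 := by
      intro s
      have h4 : Mx b A s = 0 := by
        ext i j
        have h5 := hfrob s
        have h6 : ‖Mx b A s i j‖ ^ 2 ≤ ∑ i, ∑ j, ‖Mx b A s i j‖ ^ 2 :=
          (Finset.single_le_sum (f := fun j => ‖Mx b A s i j‖ ^ 2) (fun _ _ => by positivity)
            (Finset.mem_univ j)).trans
          (Finset.single_le_sum (f := fun i => ∑ j, ‖Mx b A s i j‖ ^ 2)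
            (fun _ _ => Finset.sum_nonneg fun _ _ => by positivity) (Finset.mem_univ i))
        have h7 : ‖Mx b A s i j‖ ^ 2 ≤ 0 := by simpa using h6.trans h5
        have h8 : ‖Mx b A s i j‖ = 0 := by
          have := sq_nonneg ‖Mx b A s i j‖
          nlinarith [norm_nonneg (Mx b A s i j), pow_eq_zero_iff (two_ne_zero) |>.mp (le_antisymm h7 this)]
        simpa using h8
      rw [h4]; simp [d2]
    have h9 : det2 b A = 1 := by
      refine tendsto_nhds_unique hlim ?_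
      simp only [h3]
      exact tendsto_const_nhds
    rw [h9]; simp

end HSsec

end Pool.Agent.H269
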