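import Pool.Agent.H269.DefsC
import Pool.Agent.H269.R5.J01
import Pool.Agent.H269.R5.J04
import Pool.Agent.H269.R5.J09

/-!
# R5-10 determinant of 1 + nuclear: row sum bound (MP_f2af60_mp, infinitely many resonances in dimension five)
-/

set_option autoImplicit false

open MeasureTheory Filter Topology Complex
open scoped InnerProductSpace ENNReal NNReal

namespace Pool.Agent.H269



theorem R5_det_bound {n : Type} [Fintype n] [DecidableEq n] (M : Matrix n n ℂ) :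
    ‖(1 + M).det‖ ≤ ∏ i, (1 + ∑ j, ‖M i j‖) := by
  have h1 : ‖(1 + M).det‖ ≤ ∏ i, ∑ j, ‖(1 + M) i j‖ := by
    rw [← Matrix.det_transpose, Matrix.det_apply']
    refine le_trans (norm_sum_le _ _) ?_
    have h2 : ∀ σ : Equiv.Perm n, ‖((Equiv.Perm.sign σ : ℤ) : ℂ) *
        ∏ i, (1 + M).transpose (σ i) i‖ = ∏ i, ‖(1 + M) i (σ i)‖ := by
      intro σ
      rw [norm_mul, norm_prod]
      have h3 : ‖((Equiv.Perm.sign σ : ℤ) : ℂ)‖ = 1 := by
        rcases Int.units_eq_one_or (Equiv.Perm.sign σ) with h | h <;> simp [h]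
      rw [h3, one_mul]
      rfl
    rw [Finset.sum_congr rfl fun σ _ => h2 σ, Finset.prod_univ_sum]
    have h4 : ∑ σ : Equiv.Perm n, ∏ i, ‖(1 + M) i (σ i)‖ =
        ∑ f ∈ (Finset.univ : Finset (Equiv.Perm n)).map
          ⟨fun σ : Equiv.Perm n => (σ : n → n), fun a b h => Equiv.coe_fn_injective h⟩,
          ∏ i, ‖(1 + M) i (f i)‖ := by
      rw [Finset.sum_map]
      rfl
    rw [h4]
    refine Finset.sum_le_sum_of_subset_of_nonneg ?_ ?_
    · intro f _
      simp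
    · intro f _ _
      exact Finset.prod_nonneg fun i _ => norm_nonneg _
  refine le_trans h1 ?_
  refine Finset.prod_le_prod (fun i _ => Finset.sum_nonneg fun j _ => norm_nonneg _) ?_
  intro i _
  calc ∑ j, ‖(1 + M) i j‖ ≤ ∑ j, (‖(1 : Matrix n n ℂ) i j‖ + ‖M i j‖) :=
        Finset.sum_le_sum fun j _ => norm_add_le _ _
    _ = 1 + ∑ j, ‖M i j‖ := by
        rw [Finset.sum_add_distrib]
        congr 1
        rw [Finset.sum_eq_single i]
        · simp
        · intro j _ hj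
          rw [Matrix.one_apply_ne (Ne.symm hj), norm_zero]
        · simp

section R5

variable {ι : Type} [DecidableEq ι] {H : Type} [NormedAddCommGroup H] [InnerProductSpace ℂ H]
  [CompleteSpace H]

/-- projection on the span of the basis vectors in `s` -/
noncomputable def R5_P (b : HilbertBasis ι ℂ H) (s : Finset ι) (y : H) : H :=
  ∑ i ∈ s, ⟪b i, y⟫_ℂ • b i

theorem R5_P_norm (b : HilbertBasis ι ℂ H) (s : Finset ι) (y : H) : ‖R5_P b s y‖ ≤ ‖y‖ := by
  have h1 : ‖R5_P b s y‖ ^ 2 = ∑ i ∈ s, ‖⟪b i, y⟫_ℂ‖ ^ 2 := by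
    have h2 := b.orthonormal.inner_sum (fun i => ⟪b i, y⟫_ℂ) (fun i => ⟪b i, y⟫_ℂ) s
    have h3 : ⟪R5_P b s y, R5_P b s y⟫_ℂ = ((∑ i ∈ s, ‖⟪b i, y⟫_ℂ‖ ^ 2 : ℝ) : ℂ) := by
      unfold R5_P
      rw [h2]
      push_cast
      refine Finset.sum_congr rfl fun i _ => ?_
      rw [mul_comm, Complex.mul_conj, Complex.normSq_eq_norm_sq]
      push_cast
      rfl
    have h4 := inner_self_eq_norm_sq_to_K (𝕜 := ℂ) (R5_P b s y)
    rw [h3] at h4
    have h5 := congrArg Complex.re h4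
    rw [Complex.ofReal_re] at h5
    rw [h5]
    norm_cast
  have h6 : ∑ i ∈ s, ‖⟪b i, y⟫_ℂ‖ ^ 2 ≤ ‖y‖ ^ 2 :=
    b.orthonormal.sum_inner_products_le y
  rw [← h1] at h6
  exact le_of_sq_le_sq h6 (norm_nonneg _)

theorem R5_P_tendsto (b : HilbertBasis ι ℂ H) (y : H) :
    Tendsto (fun s : Finset ι => R5_P b s y) atTop (𝓝 y) := by
  have h := b.hasSum_repr y
  have h2 : (fun i => b.repr y i • b i) = fun i => ⟪b i, y⟫_ℂ • b i := by
    funext i
    rw [b.repr_apply_apply]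
  rw [h2] at h
  exact h

theorem R5_inner_P (b : HilbertBasis ι ℂ H) (s : Finset ι) (x y : H) :
    ∑ i ∈ s, ⟪x, b i⟫_ℂ * ⟪b i, y⟫_ℂ = ⟪x, R5_P b s y⟫_ℂ := by
  unfold R5_P
  rw [inner_sum]
  refine Finset.sum_congr rfl fun i _ => ?_
  rw [inner_smul_right, mul_comm]

theorem R5_fin (b : HilbertBasis ι ℂ H) {α : Type} [DecidableEq α] (v φ : α → H)
    (hv : Summable (fun a => ‖v a‖)) (S B : ℝ) (hS : ∑' a, ‖v a‖ ≤ S)
    (hB : ∀ F : Finset α, ∏ a ∈ F, (1 + ‖φ a‖ * S) ≤ B) (s : Finset ι) (F : Finset α) :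
    ‖(1 + (Matrix.of fun i j : s => ∑ a ∈ F, ⟪φ a, b j⟫_ℂ * ⟪b i, v a⟫_ℂ :
      Matrix s s ℂ)).det‖ ≤ B := by
  set U : Matrix s F ℂ := Matrix.of fun i a => ⟪b i, v a⟫_ℂ with hU
  set W : Matrix F s ℂ := Matrix.of fun a j => ⟪φ a, b j⟫_ℂ with hW
  have h1 : (Matrix.of fun i j : s => ∑ a ∈ F, ⟪φ a, b j⟫_ℂ * ⟪b i, v a⟫_ℂ :
      Matrix s s ℂ) = U * W := by
    ext i j
    rw [Matrix.mul_apply, Matrix.of_apply, ← Finset.sum_coe_sort F]
    refine Finset.sum_congr rfl fun a _ => ?_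
    rw [hU, hW, Matrix.of_apply, Matrix.of_apply, mul_comm]
  rw [h1, Matrix.det_one_add_mul_comm]
  refine le_trans (R5_det_bound _) (le_trans ?_ (hB F))
  rw [← Finset.prod_coe_sort F]
  refine Finset.prod_le_prod (fun a _ => ?_) fun a _ => ?_
  · have : 0 ≤ ∑ j, ‖(W * U) a j‖ := Finset.sum_nonneg fun j _ => norm_nonneg _
    linarith
  have h2 : ∀ a' : F, ‖(W * U) a a'‖ ≤ ‖φ a‖ * ‖v a'‖ := by
    intro a'
    rw [Matrix.mul_apply]
    have h3 : ∑ j : s, W a j * U j a' = ∑ i ∈ s, ⟪φ a, b i⟫_ℂ * ⟪b i, v a'⟫_ℂ := by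
      rw [← Finset.sum_coe_sort s]
      rfl
    rw [h3, R5_inner_P]
    refine le_trans (norm_inner_le_norm _ _) ?_
    exact mul_le_mul_of_nonneg_left (R5_P_norm b s _) (norm_nonneg _)
  have h4 : ∑ a' : F, ‖(W * U) a a'‖ ≤ ‖φ a‖ * S := by
    calc ∑ a' : F, ‖(W * U) a a'‖ ≤ ∑ a' : F, ‖φ a‖ * ‖v a'‖ :=
          Finset.sum_le_sum fun a' _ => h2 a'
      _ = ‖φ a‖ * ∑ a' ∈ F, ‖v a'‖ := by
          rw [← Finset.mul_sum, Finset.sum_coe_sort F (fun a' => ‖v a'‖)]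
      _ ≤ ‖φ a‖ * S := by
          refine mul_le_mul_of_nonneg_left ?_ (norm_nonneg _)
          exact le_trans (hv.sum_le_tsum F fun a _ => norm_nonneg _) hS
  linarith

end R5


section HSsec

variable {ι : Type} [DecidableEq ι] {H : Type} [NormedAddCommGroup H] [InnerProductSpace ℂ H]
  [CompleteSpace H] {b : HilbertBasis ι ℂ H}

theorem det2_nuclear {α : Type} [Countable α] (v φ : α → H)
    (hs : Summable (fun a => ‖v a‖ * ‖φ a‖)) (hv : Summable (fun a => ‖v a‖)) (X : H →L[ℂ] H)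
    (hX : ∀ h, HasSum (fun a => ⟪φ a, h⟫_ℂ • v a) (X h)) (S B : ℝ) (hS : ∑' a, ‖v a‖ ≤ S)
    (hB : ∀ F : Finset α, ∏ a ∈ F, (1 + ‖φ a‖ * S) ≤ B) :
    ‖det2 b X * cexp (∑' a, ⟪φ a, v a⟫_ℂ)‖ ≤ B := by
  classical
  -- the bound for the compressions
  have hcomp : ∀ s : Finset ι, ‖(1 + Mx b X s).det‖ ≤ B := by
    intro s
    have ht : Tendsto (fun F : Finset α => (1 + (Matrix.of fun i j : s =>
        ∑ a ∈ F, ⟪φ a, b j⟫_ℂ * ⟪b i, v a⟫_ℂ : Matrix s s ℂ)).det) atTop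
        (𝓝 (1 + Mx b X s).det) := by
      have hc : Continuous (fun M : Matrix s s ℂ => (1 + M).det) :=
        (continuous_const.add continuous_id).matrix_det
      refine (hc.tendsto _).comp ?_
      refine tendsto_pi_nhds.2 fun i => tendsto_pi_nhds.2 fun j => ?_
      have h1 := (hX (b j)).mapL (innerSL ℂ (b i))
      have h2 : (fun a => (innerSL ℂ (b i)) (⟪φ a, b j⟫_ℂ • v a)) =
          fun a => ⟪φ a, b j⟫_ℂ * ⟪b i, v a⟫_ℂ := by
        funext a
        rw [innerSL_apply_apply, inner_smul_right]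
      rw [h2] at h1
      exact h1
    exact le_of_tendsto ht.norm (Filter.Eventually.of_forall fun F =>
      R5_fin b v φ hv S B hS hB s F)
  have hdet := det2_tendsto (nuclear_HS (b := b) v φ hs X hX)
  -- the trace
  have htr : Tendsto (fun s : Finset ι => (Mx b X s).trace) atTop (𝓝 (∑' a, ⟪φ a, v a⟫_ℂ)) := by
    have h1 : ∀ s : Finset ι, (Mx b X s).trace = ∑' a, ⟪φ a, R5_P b s (v a)⟫_ℂ := by
      intro s
      have h2 : (Mx b X s).trace = ∑ i ∈ s, ⟪b i, X (b i)⟫_ℂ := by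
        rw [← Finset.sum_coe_sort s]
        rfl
      rw [h2]
      have h3 : ∀ i ∈ s, HasSum (fun a => ⟪φ a, b i⟫_ℂ * ⟪b i, v a⟫_ℂ) ⟪b i, X (b i)⟫_ℂ := by
        intro i _
        have h4 := (hX (b i)).mapL (innerSL ℂ (b i))
        have h5 : (fun a => (innerSL ℂ (b i)) (⟪φ a, b i⟫_ℂ • v a)) =
            fun a => ⟪φ a, b i⟫_ℂ * ⟪b i, v a⟫_ℂ := by
          funext a
          rw [innerSL_apply_apply, inner_smul_right]
        rw [h5] at h4
        exact h4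
      have h6 := hasSum_sum h3
      have h7 : (fun a => ∑ i ∈ s, ⟪φ a, b i⟫_ℂ * ⟪b i, v a⟫_ℂ) =
          fun a => ⟪φ a, R5_P b s (v a)⟫_ℂ := by
        funext a
        exact R5_inner_P b s _ _
      rw [h7] at h6
      exact h6.tsum_eq.symm
    simp_rw [h1]
    refine tendsto_tsum_of_dominated_convergence hs ?_ ?_
    · intro a
      exact (((innerSL ℂ (φ a)).continuous.tendsto _).comp (R5_P_tendsto b (v a)))
    · refine Filter.Eventually.of_forall fun s a => ?_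
      refine le_trans (norm_inner_le_norm _ _) ?_
      rw [mul_comm]
      exact mul_le_mul_of_nonneg_right (R5_P_norm b s _) (norm_nonneg _)
  have hlim := hdet.mul ((Complex.continuous_exp.tendsto _).comp htr)
  refine le_of_tendsto hlim.norm (Filter.Eventually.of_forall fun s => ?_)
  have h8 : d2 (Mx b X s) * cexp ((Mx b X s).trace) = (1 + Mx b X s).det := by
    unfold d2
    rw [mul_assoc, ← Complex.exp_add, neg_add_cancel, Complex.exp_zero, mul_one]
  have h9 := hcomp s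
  rw [← h8] at h9
  exact h9

end HSsec

end Pool.Agent.H269
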