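import Pool.Agent.H269.DefsC
import Pool.Agent.H269.R5.J01
import Pool.Agent.H269.R5.J03
import Pool.Agent.H269.R5.J04

/-!
# R5-08 det2 of an entire family is entire (MP_f2af60_mp, infinitely many resonances in dimension five)
-/

set_option autoImplicit false

open MeasureTheory Filter Topology Complex
open scoped InnerProductSpace ENNReal NNReal

namespace Pool.Agent.H269


section HSsec

variable {ι : Type} [DecidableEq ι] {H : Type} [NormedAddCommGroup H] [InnerProductSpace ℂ H]
  [CompleteSpace H] {b : HilbertBasis ι ℂ H}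

theorem hs_hasDerivAt {K K' : ℂ → H →L[ℂ] H} (h : HSDiff b K K') (z : ℂ) :
    HasDerivAt K (K' z) z := by
  obtain ⟨C, hC⟩ := h.2.2 z
  rw [hasDerivAt_iff_isLittleO_nhds_zero]
  have h1 : (fun w : ℂ => K (z + w) - K z - w • K' z) =O[𝓝 0] fun w : ℂ => ‖w‖ ^ 2 := by
    refine Asymptotics.IsBigO.of_bound C ?_
    filter_upwards [Metric.closedBall_mem_nhds (0 : ℂ) one_pos] with w hw
    rw [mem_closedBall_zero_iff] at hw
    have h2 := (hC w hw).norm_le
    rwa [Real.norm_of_nonneg (by positivity)]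
  have h2 : (fun w : ℂ => ‖w‖ ^ 2) =o[𝓝 0] fun w : ℂ => w := by
    have h3 := (Asymptotics.isLittleO_norm_pow_id (n := 2) (E' := ℂ) one_lt_two)
    exact h3
  exact h1.trans_isLittleO h2

theorem entry_diff {K K' : ℂ → H →L[ℂ] H} (h : HSDiff b K K') (i j : ι) :
    Differentiable ℂ fun z => ⟪b i, K z (b j)⟫_ℂ := by
  intro z
  have h1 : DifferentiableAt ℂ K z := (hs_hasDerivAt h z).differentiableAt
  have h2 : DifferentiableAt ℂ (fun z => K z (b j)) z :=
    h1.clm_apply (differentiableAt_const _)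
  exact ((innerSL ℂ (b i)).differentiableAt (x := K z (b j))).comp z h2

theorem d2_diff_j08 {K K' : ℂ → H →L[ℂ] H} (h : HSDiff b K K') (s : Finset ι) :
    Differentiable ℂ fun z => d2 (Mx b (K z) s) := by
  unfold d2
  have h1 : ∀ i j : s, Differentiable ℂ fun z => Mx b (K z) s i j := fun i j =>
    entry_diff h i j
  apply Differentiable.mul
  · have h2 : (fun z => (1 + Mx b (K z) s).det) = fun z => ∑ σ : Equiv.Perm s,
        ((Equiv.Perm.sign σ : ℤ) : ℂ) * ∏ i, ((1 : Matrix s s ℂ) (σ i) i + Mx b (K z) s (σ i) i) := by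
      funext z
      rw [Matrix.det_apply']
      rfl
    rw [h2]
    refine Differentiable.fun_sum fun σ _ => ?_
    refine (differentiable_const _).mul ?_
    refine Differentiable.fun_finset_prod fun i _ => ?_
    exact (differentiable_const _).add (h1 _ _)
  · refine Differentiable.cexp ?_
    refine Differentiable.neg ?_
    unfold Matrix.trace
    refine Differentiable.fun_sum fun i _ => ?_
    exact h1 i i

theorem Mx_sq_le {A : H →L[ℂ] H} {c : ℝ} (hA : HSle b A c) (s : Finset ι) :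
    ∑ i, ∑ j, ‖Mx b A s i j‖ ^ 2 ≤ c ^ 2 := by
  rw [Finset.sum_comm]
  refine le_trans ?_ (hA.2 s)
  rw [← Finset.sum_coe_sort s (fun i => ‖A (b i)‖ ^ 2)]
  refine Finset.sum_le_sum fun j _ => ?_
  have h1 := b.orthonormal.sum_inner_products_le (x := A (b j)) (s := s)
  rw [← Finset.sum_coe_sort s (fun i => ‖⟪b i, A (b j)⟫_ℂ‖ ^ 2)] at h1
  exact h1

theorem Mx_sub (A B : H →L[ℂ] H) (s : Finset ι) (i j : s) :
    Mx b A s i j - Mx b B s i j = Mx b (A - B) s i j := by
  show ⟪b i, A (b j)⟫_ℂ - ⟪b i, B (b j)⟫_ℂ = ⟪b i, (A - B) (b j)⟫_ℂ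
  rw [ContinuousLinearMap.sub_apply, inner_sub_right]

theorem d2_lip' {A B : H →L[ℂ] H} {a c δ : ℝ} (hA : HSle b A a) (hB : HSle b B c)
    (hAB : HSle b (A - B) δ) (s : Finset ι) :
    ‖d2 (Mx b A s) - d2 (Mx b B s)‖ ≤ δ * Real.exp ((a + c + 1) ^ 2 / 2) := by
  refine d2_lip _ _ hA.1 hB.1 hAB.1 (Mx_sq_le hA s) (Mx_sq_le hB s) ?_
  simp only [Mx_sub]
  exact Mx_sq_le hAB s

theorem det2_differentiable {K K' : ℂ → H →L[ℂ] H} (h : HSDiff b K K') :
    Differentiable ℂ (fun w => det2 b (K w)) := by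
  have hunif : TendstoLocallyUniformlyOn (fun (s : Finset ι) w => d2 (Mx b (K w) s))
      (fun w => det2 b (K w)) atTop Set.univ := by
    rw [Metric.tendstoLocallyUniformlyOn_iff]
    intro ε hε z _
    obtain ⟨c0, hc0⟩ := h.1 z
    obtain ⟨c1, hc1⟩ := h.2.1 z
    obtain ⟨C, hC⟩ := h.2.2 z
    have hC0 : 0 ≤ C := by
      have h1 := (hC 1 (by simp)).1
      simpa using h1
    set L := C + c1 with hL
    have hL0 : 0 ≤ L := add_nonneg hC0 hc1.1
    set M := Real.exp ((c0 + L + c0 + 1) ^ 2 / 2) with hM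
    have hM0 : 0 < M := Real.exp_pos _
    -- the Hilbert-Schmidt norm of the difference
    have hd : ∀ w : ℂ, ‖w‖ ≤ 1 → HSle b (K (z + w) - K z) (L * ‖w‖) := by
      intro w hw
      have h1 := (hC w hw).add (hc1.smul w)
      have h2 : K (z + w) - K z - w • K' z + w • K' z = K (z + w) - K z := by abel
      rw [h2] at h1
      refine h1.mono ?_
      have h3 := norm_nonneg w
      have h4 : ‖w‖ ^ 2 ≤ ‖w‖ := by nlinarith
      have h5 := mul_le_mul_of_nonneg_left h4 hC0
      rw [hL]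
      nlinarith
    have hK : ∀ w : ℂ, ‖w‖ ≤ 1 → HSle b (K (z + w)) (c0 + L) := by
      intro w hw
      have h1 := hc0.add (hd w hw)
      have h2 : K z + (K (z + w) - K z) = K (z + w) := by abel
      rw [h2] at h1
      refine h1.mono ?_
      have := mul_le_mul_of_nonneg_left hw hL0
      linarith
    have hconv := det2_tendsto hc0
    rw [Metric.tendsto_nhds] at hconv
    have hev := hconv (ε / 2) (by positivity)
    set r := min 1 (ε / (4 * (L * M + 1))) with hr
    have hr0 : 0 < r := lt_min one_pos (by positivity)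
    refine ⟨Metric.ball z r, mem_nhdsWithin_of_mem_nhds (Metric.ball_mem_nhds z hr0), ?_⟩
    filter_upwards [hev] with s hs y hy
    obtain ⟨w, rfl⟩ : ∃ w, y = z + w := ⟨y - z, by abel⟩
    have hw : ‖w‖ < r := by
      rw [Metric.mem_ball, dist_eq_norm] at hy
      simpa using hy
    have hw1 : ‖w‖ ≤ 1 := (hw.trans_le (min_le_left _ _)).le
    have hw2 : ‖w‖ < ε / (4 * (L * M + 1)) := hw.trans_le (min_le_right _ _)
    have h1 := det2_lip (hK w hw1) hc0 (hd w hw1)
    have h2 := d2_lip' (hK w hw1) hc0 (hd w hw1) s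
    have h3 : L * ‖w‖ * M < ε / 4 := by
      have h4 : ‖w‖ * (4 * (L * M + 1)) < ε := (lt_div_iff₀ (by positivity)).1 hw2
      have h5 := norm_nonneg w
      nlinarith
    rw [dist_comm, dist_eq_norm] at hs
    calc dist (det2 b (K (z + w))) (d2 (Mx b (K (z + w)) s))
        = ‖(det2 b (K (z + w)) - det2 b (K z)) + (det2 b (K z) - d2 (Mx b (K z) s)) +
            (d2 (Mx b (K z) s) - d2 (Mx b (K (z + w)) s))‖ := by
          rw [dist_eq_norm]
          congr 1
          ring
      _ ≤ ‖det2 b (K (z + w)) - det2 b (K z)‖ + ‖det2 b (K z) - d2 (Mx b (K z) s)‖ +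
            ‖d2 (Mx b (K z) s) - d2 (Mx b (K (z + w)) s)‖ := norm_add₃_le
      _ < ε := by
          rw [norm_sub_rev (d2 (Mx b (K z) s))]
          linarith
  have h1 := hunif.differentiableOn (Eventually.of_forall fun s => (d2_diff_j08 h s).differentiableOn)
    isOpen_univ
  exact differentiableOn_univ.1 h1

end HSsec

end Pool.Agent.H269
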