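import Pool.Agent.H269.DefsC
import Pool.Agent.H269.R5.J01
import Pool.Agent.H269.R5.J02
import Pool.Agent.H269.R5.J04
import Pool.Agent.H269.R5.J05
import Pool.Agent.H269.R5.J08

/-!
# R5-11 rank one perturbation, entries of the inverse (MP_f2af60_mp, infinitely many resonances in dimension five)
-/

set_option autoImplicit false

open MeasureTheory Filter Topology Complex
open scoped InnerProductSpace ENNReal NNReal

namespace Pool.Agent.H269



section HSaux

variable {ι : Type} [DecidableEq ι] {H : Type} [NormedAddCommGroup H] [InnerProductSpace ℂ H]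
  [CompleteSpace H] {b : HilbertBasis ι ℂ H}

theorem det2_rankOne_d2 (b : HilbertBasis ι ℂ H) (x w : H) (s : Finset ι) :
    d2 (Mx b (InnerProductSpace.rankOne ℂ x w) s) =
      (1 + ∑ i ∈ s, ⟪w, b i⟫_ℂ * ⟪b i, x⟫_ℂ) * cexp (-(∑ i ∈ s, ⟪w, b i⟫_ℂ * ⟪b i, x⟫_ℂ)) := by
  have hM : Mx b (InnerProductSpace.rankOne ℂ x w) s =
      Matrix.replicateCol Unit (fun i : s => ⟪b i, x⟫_ℂ) *
        Matrix.replicateRow Unit (fun j : s => ⟪w, b j⟫_ℂ) := by
    ext i j
    simp [Mx, Matrix.mul_apply, inner_smul_right, mul_comm]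
  have htr : (Mx b (InnerProductSpace.rankOne ℂ x w) s).trace =
      ∑ i ∈ s, ⟪w, b i⟫_ℂ * ⟪b i, x⟫_ℂ := by
    rw [Matrix.trace, ← Finset.sum_coe_sort s]
    refine Finset.sum_congr rfl fun i _ => ?_
    simp [Mx, inner_smul_right]
  have hdet : (1 + Mx b (InnerProductSpace.rankOne ℂ x w) s).det =
      1 + ∑ i ∈ s, ⟪w, b i⟫_ℂ * ⟪b i, x⟫_ℂ := by
    rw [hM, Matrix.det_one_add_replicateCol_mul_replicateRow, ← Finset.sum_coe_sort s]
    rfl
  unfold d2
  rw [hdet, htr]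

theorem det2_rankOne_val (b : HilbertBasis ι ℂ H) (x w : H) :
    det2 b (InnerProductSpace.rankOne ℂ x w) = (1 + ⟪w, x⟫_ℂ) * cexp (-⟪w, x⟫_ℂ) := by
  have h1 := det2_tendsto (HSle.rankOne b x w)
  have h2 : Tendsto (fun s : Finset ι => ∑ i ∈ s, ⟪w, b i⟫_ℂ * ⟪b i, x⟫_ℂ) atTop (𝓝 ⟪w, x⟫_ℂ) :=
    b.hasSum_inner_mul_inner w x
  have h3 : Tendsto (fun s : Finset ι => (1 + ∑ i ∈ s, ⟪w, b i⟫_ℂ * ⟪b i, x⟫_ℂ) *
      cexp (-(∑ i ∈ s, ⟪w, b i⟫_ℂ * ⟪b i, x⟫_ℂ))) atTop
      (𝓝 ((1 + ⟪w, x⟫_ℂ) * cexp (-⟪w, x⟫_ℂ))) :=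
    (h2.const_add 1).mul ((Complex.continuous_exp.tendsto _).comp h2.neg)
  refine tendsto_nhds_unique h1 (h3.congr fun s => ?_)
  rw [det2_rankOne_d2]

theorem det2_rankOne_Tr2 (b : HilbertBasis ι ℂ H) (A : H →L[ℂ] H) (x w : H) :
    Tr2 b A (InnerProductSpace.rankOne ℂ x w) = ⟪w, A x⟫_ℂ := by
  unfold Tr2
  rw [← b.tsum_inner_mul_inner w (A x)]
  refine tsum_congr fun i => ?_
  simp [inner_smul_right]

theorem entry_entire_P (b : HilbertBasis ι ℂ H) (f : H →L[ℂ] ℂ) (u : H) :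
    HSle b (f.smulRight u) (‖f‖ * ‖u‖) := by
  have h := HSle.rankOne b u ((InnerProductSpace.toDual ℂ H).symm f)
  rw [LinearIsometryEquiv.norm_map] at h
  have e : InnerProductSpace.rankOne ℂ u ((InnerProductSpace.toDual ℂ H).symm f) = f.smulRight u := by
    ext x
    simp
  rw [e, mul_comm] at h
  exact h

theorem entry_entire_deriv (l l' : ℂ → (H →L[ℂ] ℂ))
    (hl : ∀ z, ∃ C : ℝ, ∀ t : ℂ, ‖t‖ ≤ 1 → ‖l (z + t) - l z - t • l' z‖ ≤ C * ‖t‖ ^ 2) (u : H) :
    Differentiable ℂ (fun z => l z u) := by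
  intro z
  obtain ⟨C, hC⟩ := hl z
  have h : HasDerivAt (fun z => l z u) (l' z u) z := by
    rw [hasDerivAt_iff_isLittleO_nhds_zero]
    have h1 : (fun t : ℂ => l (z + t) u - l z u - t • l' z u) =O[𝓝 0] (fun t : ℂ => t ^ 2) := by
      refine Asymptotics.IsBigO.of_bound (C * ‖u‖) ?_
      filter_upwards [Metric.closedBall_mem_nhds (0 : ℂ) one_pos] with t ht
      have ht' : ‖t‖ ≤ 1 := by simpa using ht
      have e : l (z + t) u - l z u - t • l' z u = (l (z + t) - l z - t • l' z) u := by simp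
      rw [e, norm_pow]
      calc ‖(l (z + t) - l z - t • l' z) u‖ ≤ ‖l (z + t) - l z - t • l' z‖ * ‖u‖ :=
            ContinuousLinearMap.le_opNorm _ _
        _ ≤ (C * ‖t‖ ^ 2) * ‖u‖ := mul_le_mul_of_nonneg_right (hC t ht') (norm_nonneg _)
        _ = C * ‖u‖ * ‖t‖ ^ 2 := by ring
    refine h1.trans_isLittleO ?_
    have h2 := Asymptotics.isLittleO_pow_id (𝕜 := ℂ) (n := 2) (by norm_num)
    exact h2
  exact h.differentiableAt

end HSaux


section HSsec

variable {ι : Type} [DecidableEq ι] {H : Type} [NormedAddCommGroup H] [InnerProductSpace ℂ H]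
  [CompleteSpace H] {b : HilbertBasis ι ℂ H}

theorem det2_rankOne {A : H →L[ℂ] H} {a : ℝ} (hA : HSle b A a) (Y : H →L[ℂ] H)
    (h1 : (1 + A) * Y = 1) (h2 : Y * (1 + A) = 1) (u w : H) :
    det2 b (A + InnerProductSpace.rankOne ℂ u w) * cexp (⟪w, u⟫_ℂ) =
      det2 b A * (1 + ⟪w, Y u⟫_ℂ) := by
  have hY : Y u + A (Y u) = u := by
    have := congrArg (fun T : H →L[ℂ] H => T u) h1
    simpa using this
  have hm := det2_mul hA (HSle.rankOne b (Y u) w)
  have e : A + InnerProductSpace.rankOne ℂ (Y u) w + A * InnerProductSpace.rankOne ℂ (Y u) w =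
      A + InnerProductSpace.rankOne ℂ u w := by
    ext x
    simp only [ContinuousLinearMap.add_apply, ContinuousLinearMap.mul_apply,
      InnerProductSpace.rankOne_apply, map_smul]
    rw [add_assoc, ← smul_add, hY]
  rw [e, det2_rankOne_val, det2_rankOne_Tr2] at hm
  have hAY : A (Y u) = u - Y u := by
    rw [eq_sub_iff_add_eq, add_comm]
    exact hY
  rw [hAY, inner_sub_right] at hm
  have h3 : cexp (⟪w, u⟫_ℂ) = cexp (⟪w, u⟫_ℂ - ⟪w, Y u⟫_ℂ) * cexp (⟪w, Y u⟫_ℂ) := by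
    rw [← Complex.exp_add, sub_add_cancel]
  rw [h3, ← mul_assoc, hm, mul_assoc, mul_assoc, ← Complex.exp_add, neg_add_cancel,
    Complex.exp_zero, mul_one]

theorem entry_entire {K K' : ℂ → H →L[ℂ] H} (h : HSDiff b K K') (l l' : ℂ → (H →L[ℂ] ℂ))
    (hl : ∀ z, ∃ C : ℝ, ∀ t : ℂ, ‖t‖ ≤ 1 → ‖l (z + t) - l z - t • l' z‖ ≤ C * ‖t‖ ^ 2) (u : H) :
    ∃ N : ℂ → ℂ, Differentiable ℂ N ∧ ∀ (z : ℂ) (Y : H →L[ℂ] H), (1 + K z) * Y = 1 →
      Y * (1 + K z) = 1 → l z (Y u) * det2 b (K z) = N z := by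
  obtain ⟨hK, hK', hd⟩ := h
  have hD : HSDiff b (fun z => K z + (l z).smulRight u) (fun z => K' z + (l' z).smulRight u) := by
    refine ⟨?_, ?_, ?_⟩
    · intro z
      obtain ⟨c, hc⟩ := hK z
      exact ⟨_, hc.add (entry_entire_P b (l z) u)⟩
    · intro z
      obtain ⟨c, hc⟩ := hK' z
      exact ⟨_, hc.add (entry_entire_P b (l' z) u)⟩
    · intro z
      obtain ⟨C1, hC1⟩ := hd z
      obtain ⟨C2, hC2⟩ := hl z
      refine ⟨C1 + C2 * ‖u‖, fun t ht => ?_⟩
      have h1 := hC1 t ht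
      have h2 := entry_entire_P b (l (z + t) - l z - t • l' z) u
      have h3 : HSle b ((l (z + t) - l z - t • l' z).smulRight u) (C2 * ‖t‖ ^ 2 * ‖u‖) :=
        h2.mono (mul_le_mul_of_nonneg_right (hC2 t ht) (norm_nonneg _))
      have h4 := h1.add h3
      have e : K (z + t) - K z - t • K' z + (l (z + t) - l z - t • l' z).smulRight u =
          K (z + t) + (l (z + t)).smulRight u - (K z + (l z).smulRight u) -
            t • (K' z + (l' z).smulRight u) := by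
        ext x
        simp only [ContinuousLinearMap.add_apply, ContinuousLinearMap.sub_apply,
          ContinuousLinearMap.smul_apply, ContinuousLinearMap.smulRight_apply, sub_smul, smul_add,
          smul_assoc]
        abel
      rw [e] at h4
      have e2 : (C1 + C2 * ‖u‖) * ‖t‖ ^ 2 = C1 * ‖t‖ ^ 2 + C2 * ‖t‖ ^ 2 * ‖u‖ := by ring
      rw [e2]
      exact h4
  refine ⟨fun z => det2 b (K z + (l z).smulRight u) * cexp (l z u) - det2 b (K z), ?_, ?_⟩
  · exact ((det2_differentiable hD).mul (entry_entire_deriv l l' hl u).cexp).sub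
      (det2_differentiable ⟨hK, hK', hd⟩)
  · intro z Y h1 h2
    obtain ⟨c, hc⟩ := hK z
    have h3 := det2_rankOne hc Y h1 h2 u ((InnerProductSpace.toDual ℂ H).symm (l z))
    have e : InnerProductSpace.rankOne ℂ u ((InnerProductSpace.toDual ℂ H).symm (l z)) =
        (l z).smulRight u := by
      ext x
      simp
    rw [e, InnerProductSpace.toDual_symm_apply, InnerProductSpace.toDual_symm_apply] at h3
    simp only [h3]
    ring

end HSsec

end Pool.Agent.H269
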