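import Pool.Agent.H269.DefsC
import Pool.Agent.H269.R5.J01
import Pool.Agent.H269.R5.J02
import Pool.Agent.H269.R5.J04
import Pool.Agent.H269.R5.J05
import Pool.Agent.H269.R5.J11

/-!
# R5-41 det2 vanishes at non-invertible points (MP_f2af60_mp, infinitely many resonances in dimension five)
-/

set_option autoImplicit false

open MeasureTheory Filter Topology Complex
open scoped InnerProductSpace ENNReal NNReal

namespace Pool.Agent.H269



theorem det2_eq_zero {ι : Type} [DecidableEq ι] {H : Type} [NormedAddCommGroup H]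
    [InnerProductSpace ℂ H] [CompleteSpace H] {b : HilbertBasis ι ℂ H} {A : H →L[ℂ] H} {c : ℝ}
    (hA : HSle b A c) (hu : ¬ IsUnit (1 + A)) : det2 b A = 0 := by
  have hneg : (-1 : ℂ) ∉ resolventSet ℂ A := by
    intro h
    rw [spectrum.mem_resolventSet_iff] at h
    apply hu
    have h1 : algebraMap ℂ (H →L[ℂ] H) (-1) - A = -(1 + A) := by
      rw [map_neg, map_one]; abel
    rw [h1] at h
    exact (IsUnit.neg_iff _).1 h
  have hev := (hA.isCompact.hasEigenvalue_or_mem_resolventSet (μ := (-1 : ℂ)) (by norm_num)).resolve_right hneg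
  obtain ⟨x0, hx0⟩ := hev.exists_hasEigenvector
  have hx0A : A x0 = -x0 := by
    have := hx0.apply_eq_smul
    simpa using this
  have hx0n : x0 ≠ 0 := hx0.2
  obtain ⟨x, hxA, hx1⟩ : ∃ x : H, A x = -x ∧ ‖x‖ = 1 := by
    refine ⟨((‖x0‖ : ℂ)⁻¹) • x0, ?_, ?_⟩
    · rw [map_smul, hx0A, smul_neg]
    · rw [norm_smul, norm_inv, Complex.norm_real, norm_norm, inv_mul_cancel₀ (norm_ne_zero_iff.2 hx0n)]
  have hinner : ⟪x, -x⟫_ℂ = -1 := by
    rw [inner_neg_right, inner_self_eq_norm_sq_to_K, hx1]
    simp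
  set B : H →L[ℂ] H := InnerProductSpace.rankOne ℂ (-x) x with hB
  have hBs : HSle b B (‖-x‖ * ‖x‖) := HSle.rankOne b (-x) x
  have hz : HSle b (0 : H →L[ℂ] H) 0 := ⟨le_rfl, fun s => by simp⟩
  have hB0 : det2 b B = 0 := by
    have h1 := det2_rankOne hz (1 : H →L[ℂ] H) (by simp) (by simp) (-x) x
    rw [zero_add, one_apply_eq_self, hinner, add_neg_cancel, mul_zero] at h1
    rcases mul_eq_zero.1 h1 with h | h
    · exact h
    · exact absurd h (Complex.exp_ne_zero _)
  have hsum : A + B + A * B = A := by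
    have : B + A * B = 0 := by
      ext y
      have hBy : B y = ⟪x, y⟫_ℂ • (-x) := rfl
      show B y + A (B y) = 0
      rw [hBy, map_smul, map_neg, hxA, neg_neg, smul_neg, neg_add_cancel]
    rw [add_assoc, this, add_zero]
  have h2 := det2_mul hA hBs
  rw [hsum, hB0, mul_zero] at h2
  rcases mul_eq_zero.1 h2 with h | h
  · exact h
  · exact absurd h (Complex.exp_ne_zero _)

end Pool.Agent.H269
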