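import Pool.Agent.H269.DefsC

/-!
# R5-15 Schur test (MP_f2af60_mp, infinitely many resonances in dimension five)
-/

set_option autoImplicit false

open MeasureTheory Filter Topology Complex
open scoped InnerProductSpace ENNReal NNReal

namespace Pool.Agent.H269


section SchurHelpers

variable {E : Type} [MeasurableSpace E] {μ : Measure E} [IsFiniteMeasure μ]

theorem schur_pt (k : E → E → ℂ) (hk : Measurable (Function.uncurry k)) (C : ℝ)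
    (f : E → ℂ) (hf : Measurable f) (x : E)
    (h1 : ∫⁻ y, ‖k x y‖ₑ ∂μ ≤ ENNReal.ofReal C) :
    (∫⁻ y, ‖k x y * f y‖ₑ ∂μ) ^ (2 : ℝ) ≤
      ENNReal.ofReal C * ∫⁻ y, ‖k x y‖ₑ * ‖f y‖ₑ ^ (2 : ℝ) ∂μ := by
  have hkx : Measurable (fun y => k x y) := hk.comp (measurable_const.prodMk measurable_id)
  have hm1 : AEMeasurable (fun y => ‖k x y‖ₑ ^ ((1 : ℝ) / 2)) μ :=
    (hkx.enorm.pow_const _).aemeasurable
  have hm2 : AEMeasurable (fun y => ‖k x y‖ₑ ^ ((1 : ℝ) / 2) * ‖f y‖ₑ) μ :=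
    ((hkx.enorm.pow_const _).mul hf.enorm).aemeasurable
  have hpq : (2 : ℝ).HolderConjugate 2 := by
    rw [Real.holderConjugate_iff]
    norm_num
  have key := ENNReal.lintegral_mul_le_Lp_mul_Lq μ hpq hm1 hm2
  have e1 : ∀ y, ((fun y => ‖k x y‖ₑ ^ ((1 : ℝ) / 2)) * fun y => ‖k x y‖ₑ ^ ((1 : ℝ) / 2) * ‖f y‖ₑ) y
      = ‖k x y * f y‖ₑ := by
    intro y
    simp only [Pi.mul_apply]
    rw [← mul_assoc, ← ENNReal.rpow_add_of_nonneg _ _ (by norm_num) (by norm_num), enorm_mul]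
    norm_num
  have e2 : ∀ y, (‖k x y‖ₑ ^ ((1 : ℝ) / 2)) ^ (2 : ℝ) = ‖k x y‖ₑ := by
    intro y
    rw [← ENNReal.rpow_mul]
    norm_num
  have e3 : ∀ y, (‖k x y‖ₑ ^ ((1 : ℝ) / 2) * ‖f y‖ₑ) ^ (2 : ℝ) = ‖k x y‖ₑ * ‖f y‖ₑ ^ (2 : ℝ) := by
    intro y
    rw [ENNReal.mul_rpow_of_nonneg _ _ (by norm_num), e2]
  rw [lintegral_congr e1, lintegral_congr e2, lintegral_congr e3] at key
  calc (∫⁻ y, ‖k x y * f y‖ₑ ∂μ) ^ (2 : ℝ)
      ≤ ((∫⁻ y, ‖k x y‖ₑ ∂μ) ^ ((1 : ℝ) / 2) *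
          (∫⁻ y, ‖k x y‖ₑ * ‖f y‖ₑ ^ (2 : ℝ) ∂μ) ^ ((1 : ℝ) / 2)) ^ (2 : ℝ) :=
        ENNReal.rpow_le_rpow key (by norm_num)
    _ = (∫⁻ y, ‖k x y‖ₑ ∂μ) * ∫⁻ y, ‖k x y‖ₑ * ‖f y‖ₑ ^ (2 : ℝ) ∂μ := by
        rw [ENNReal.mul_rpow_of_nonneg _ _ (by norm_num), ← ENNReal.rpow_mul, ← ENNReal.rpow_mul]
        norm_num
    _ ≤ _ := by gcongr

theorem schur_sq (k : E → E → ℂ) (hk : Measurable (Function.uncurry k)) (C : ℝ)
    (h1 : ∀ᵐ x ∂μ, ∫⁻ y, ‖k x y‖ₑ ∂μ ≤ ENNReal.ofReal C)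
    (h2 : ∀ᵐ y ∂μ, ∫⁻ x, ‖k x y‖ₑ ∂μ ≤ ENNReal.ofReal C)
    (f : E → ℂ) (hf : Measurable f) :
    ∫⁻ x, (∫⁻ y, ‖k x y * f y‖ₑ ∂μ) ^ (2 : ℝ) ∂μ ≤
      ENNReal.ofReal C * (ENNReal.ofReal C * ∫⁻ y, ‖f y‖ₑ ^ (2 : ℝ) ∂μ) := by
  have hF : Measurable (Function.uncurry fun x y => ‖k x y‖ₑ * ‖f y‖ₑ ^ (2 : ℝ)) := by
    have hA : Measurable (fun p : E × E => ‖(Function.uncurry k) p‖ₑ) := hk.enorm
    have hB : Measurable (fun p : E × E => ‖f p.2‖ₑ ^ (2 : ℝ)) :=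
      ((hf.comp measurable_snd).enorm).pow_const _
    exact hA.mul hB
  calc ∫⁻ x, (∫⁻ y, ‖k x y * f y‖ₑ ∂μ) ^ (2 : ℝ) ∂μ
      ≤ ∫⁻ x, ENNReal.ofReal C * ∫⁻ y, ‖k x y‖ₑ * ‖f y‖ₑ ^ (2 : ℝ) ∂μ ∂μ := by
        apply lintegral_mono_ae
        filter_upwards [h1] with x hx
        exact schur_pt k hk C f hf x hx
    _ = ENNReal.ofReal C * ∫⁻ x, ∫⁻ y, ‖k x y‖ₑ * ‖f y‖ₑ ^ (2 : ℝ) ∂μ ∂μ := by
        rw [lintegral_const_mul' _ _ ENNReal.ofReal_ne_top]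
    _ = ENNReal.ofReal C * ∫⁻ y, ∫⁻ x, ‖k x y‖ₑ * ‖f y‖ₑ ^ (2 : ℝ) ∂μ ∂μ := by
        rw [lintegral_lintegral_swap hF.aemeasurable]
    _ = ENNReal.ofReal C * ∫⁻ y, (∫⁻ x, ‖k x y‖ₑ ∂μ) * ‖f y‖ₑ ^ (2 : ℝ) ∂μ := by
        congr 1
        apply lintegral_congr
        intro y
        have hky : Measurable (fun x => ‖k x y‖ₑ) :=
          (hk.comp (measurable_id.prodMk measurable_const)).enorm
        rw [lintegral_mul_const _ hky]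
    _ ≤ ENNReal.ofReal C * ∫⁻ y, ENNReal.ofReal C * ‖f y‖ₑ ^ (2 : ℝ) ∂μ := by
        gcongr ENNReal.ofReal C * ?_
        apply lintegral_mono_ae
        filter_upwards [h2] with y hy
        gcongr
    _ = _ := by
        rw [lintegral_const_mul' _ _ ENNReal.ofReal_ne_top]

theorem lp_sq_lt_top (f : Lp ℂ 2 μ) : ∫⁻ y, ‖f y‖ₑ ^ (2 : ℝ) ∂μ < ⊤ := by
  have h := (Lp.memLp f).2
  rw [eLpNorm_lt_top_iff_lintegral_rpow_enorm_lt_top (by norm_num) (by norm_num)] at h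
  simpa using h

theorem schur_int (k : E → E → ℂ) (hk : Measurable (Function.uncurry k)) (C : ℝ)
    (h1 : ∀ᵐ x ∂μ, ∫⁻ y, ‖k x y‖ₑ ∂μ ≤ ENNReal.ofReal C)
    (h2 : ∀ᵐ y ∂μ, ∫⁻ x, ‖k x y‖ₑ ∂μ ≤ ENNReal.ofReal C) (f : Lp ℂ 2 μ) :
    ∀ᵐ x ∂μ, Integrable (fun y => k x y * f y) μ := by
  have hf : Measurable (f : E → ℂ) := (Lp.stronglyMeasurable f).measurable
  have hkf : Measurable (Function.uncurry fun x y => k x y * f y) :=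
    hk.mul (hf.comp measurable_snd)
  have hlt : ∫⁻ x, (∫⁻ y, ‖k x y * f y‖ₑ ∂μ) ^ (2 : ℝ) ∂μ < ⊤ := by
    refine (schur_sq k hk C h1 h2 f hf).trans_lt ?_
    exact ENNReal.mul_lt_top ENNReal.ofReal_lt_top
      (ENNReal.mul_lt_top ENNReal.ofReal_lt_top (lp_sq_lt_top f))
  have hm : Measurable (fun x => (∫⁻ y, ‖k x y * f y‖ₑ ∂μ) ^ (2 : ℝ)) :=
    (Measurable.lintegral_prod_right hkf.enorm).pow_const _
  filter_upwards [ae_lt_top hm hlt.ne] with x hx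
  refine ⟨(hkf.comp (measurable_const.prodMk measurable_id)).aestronglyMeasurable, ?_⟩
  rw [hasFiniteIntegral_iff_enorm]
  exact (ENNReal.rpow_lt_top_iff_of_pos (by norm_num)).mp hx

theorem schur_memLp (k : E → E → ℂ) (hk : Measurable (Function.uncurry k)) (C : ℝ) (hC : 0 ≤ C)
    (h1 : ∀ᵐ x ∂μ, ∫⁻ y, ‖k x y‖ₑ ∂μ ≤ ENNReal.ofReal C)
    (h2 : ∀ᵐ y ∂μ, ∫⁻ x, ‖k x y‖ₑ ∂μ ≤ ENNReal.ofReal C) (f : Lp ℂ 2 μ) :
    AEStronglyMeasurable (fun x => ∫ y, k x y * f y ∂μ) μ ∧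
      eLpNorm (fun x => ∫ y, k x y * f y ∂μ) 2 μ ≤ ENNReal.ofReal C * eLpNorm f 2 μ := by
  have hf : Measurable (f : E → ℂ) := (Lp.stronglyMeasurable f).measurable
  have hkf : Measurable (Function.uncurry fun x y => k x y * f y) :=
    hk.mul (hf.comp measurable_snd)
  constructor
  · exact (StronglyMeasurable.integral_prod_right hkf.stronglyMeasurable).aestronglyMeasurable
  · have e2 : (2 : ENNReal).toReal = 2 := by norm_num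
    rw [eLpNorm_eq_lintegral_rpow_enorm_toReal (by norm_num) (by norm_num),
      eLpNorm_eq_lintegral_rpow_enorm_toReal (by norm_num) (by norm_num), e2]
    have hle : ∫⁻ x, ‖∫ y, k x y * f y ∂μ‖ₑ ^ (2 : ℝ) ∂μ ≤
        ENNReal.ofReal C * (ENNReal.ofReal C * ∫⁻ y, ‖f y‖ₑ ^ (2 : ℝ) ∂μ) := by
      refine le_trans (lintegral_mono fun x => ?_) (schur_sq k hk C h1 h2 f hf)
      exact ENNReal.rpow_le_rpow (enorm_integral_le_lintegral_enorm _) (by norm_num)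
    refine le_trans (ENNReal.rpow_le_rpow hle (by norm_num)) (le_of_eq ?_)
    rw [← mul_assoc, ENNReal.mul_rpow_of_nonneg _ _ (by norm_num : (0:ℝ) ≤ 1/2)]
    congr 1
    rw [← sq, ← ENNReal.rpow_natCast, ← ENNReal.rpow_mul]
    norm_num

end SchurHelpers



section Kersec

variable {E : Type} [MeasurableSpace E] {μ : Measure E} [IsFiniteMeasure μ]

theorem exists_isKer (k : E → E → ℂ) (hk : Measurable (Function.uncurry k)) (C : ℝ) (hC : 0 ≤ C)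
    (h1 : ∀ᵐ x ∂μ, ∫⁻ y, ‖k x y‖ₑ ∂μ ≤ ENNReal.ofReal C)
    (h2 : ∀ᵐ y ∂μ, ∫⁻ x, ‖k x y‖ₑ ∂μ ≤ ENNReal.ofReal C) :
    ∃ A : Lp ℂ 2 μ →L[ℂ] Lp ℂ 2 μ, IsKer μ k A ∧ ‖A‖ ≤ C := by
  classical
  have hm : ∀ f : Lp ℂ 2 μ, MemLp (fun x => ∫ y, k x y * f y ∂μ) 2 μ := fun f =>
    ⟨(schur_memLp k hk C hC h1 h2 f).1,
      (schur_memLp k hk C hC h1 h2 f).2.trans_lt
        (ENNReal.mul_lt_top ENNReal.ofReal_lt_top (Lp.memLp f).2)⟩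
  have hadd : ∀ f g : Lp ℂ 2 μ, (hm (f + g)).toLp _ = (hm f).toLp _ + (hm g).toLp _ := by
    intro f g
    rw [← MemLp.toLp_add, MemLp.toLp_eq_toLp_iff]
    filter_upwards [schur_int k hk C h1 h2 f, schur_int k hk C h1 h2 g] with x hx hy
    simp only [Pi.add_apply]
    rw [← integral_add hx hy]
    apply integral_congr_ae
    filter_upwards [Lp.coeFn_add f g] with y hy
    rw [hy, Pi.add_apply, mul_add]
  have hsmul : ∀ (c : ℂ) (f : Lp ℂ 2 μ), (hm (c • f)).toLp _ = c • (hm f).toLp _ := by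
    intro c f
    rw [← MemLp.toLp_const_smul, MemLp.toLp_eq_toLp_iff]
    refine Filter.Eventually.of_forall fun x => ?_
    simp only [Pi.smul_apply, smul_eq_mul]
    rw [← integral_const_mul]
    apply integral_congr_ae
    filter_upwards [Lp.coeFn_smul c f] with y hy
    rw [hy, Pi.smul_apply, smul_eq_mul]
    ring
  let T : Lp ℂ 2 μ →ₗ[ℂ] Lp ℂ 2 μ :=
    { toFun := fun f => (hm f).toLp _
      map_add' := hadd
      map_smul' := fun c f => by simpa using hsmul c f }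
  have hT : ∀ f : Lp ℂ 2 μ, ‖T f‖ ≤ C * ‖f‖ := by
    intro f
    change ‖(hm f).toLp _‖ ≤ C * ‖f‖
    rw [Lp.norm_toLp, Lp.norm_def]
    have h3 := (schur_memLp k hk C hC h1 h2 f).2
    have h4 : ENNReal.ofReal C * eLpNorm f 2 μ ≠ ⊤ :=
      (ENNReal.mul_lt_top ENNReal.ofReal_lt_top (Lp.memLp f).2).ne
    have h5 := ENNReal.toReal_mono h4 h3
    rw [ENNReal.toReal_mul, ENNReal.toReal_ofReal hC] at h5
    exact h5
  refine ⟨T.mkContinuous C hT, ?_, T.mkContinuous_norm_le hC hT⟩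
  intro f
  refine ⟨schur_int k hk C h1 h2 f, ?_⟩
  rw [LinearMap.mkContinuous_apply]
  exact MemLp.coeFn_toLp (hm f)

end Kersec

end Pool.Agent.H269
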