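import Pool.Agent.H269.DefsC

/-!
# R5-16 kernel operators: basics (MP_f2af60_mp, infinitely many resonances in dimension five)
-/

set_option autoImplicit false

open MeasureTheory Filter Topology Complex
open scoped InnerProductSpace ENNReal NNReal

namespace Pool.Agent.H269



section Kersec

variable {E : Type} [MeasurableSpace E] {μ : Measure E} [IsFiniteMeasure μ]

theorem IsKer.unique {k : E → E → ℂ} {A B : Lp ℂ 2 μ →L[ℂ] Lp ℂ 2 μ} (hA : IsKer μ k A)
    (hB : IsKer μ k B) : A = B := by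
  ext1 f
  exact Lp.ext ((hA f).2.trans (hB f).2.symm)

theorem IsKer.congr {k m : E → E → ℂ} {A : Lp ℂ 2 μ →L[ℂ] Lp ℂ 2 μ} (hA : IsKer μ k A)
    (h : ∀ᵐ x ∂μ, ∀ᵐ y ∂μ, k x y = m x y) : IsKer μ m A := by
  intro f
  obtain ⟨h1, h2⟩ := hA f
  refine ⟨?_, ?_⟩
  · filter_upwards [h1, h] with x hx hx'
    refine hx.congr ?_
    filter_upwards [hx'] with y hy
    rw [hy]
  · refine h2.trans ?_
    filter_upwards [h] with x hx'
    refine integral_congr_ae ?_
    filter_upwards [hx'] with y hy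
    rw [hy]

theorem IsKer.add {k m : E → E → ℂ} {A B : Lp ℂ 2 μ →L[ℂ] Lp ℂ 2 μ} (hA : IsKer μ k A)
    (hB : IsKer μ m B) : IsKer μ (fun x y => k x y + m x y) (A + B) := by
  intro f
  obtain ⟨h1, h2⟩ := hA f
  obtain ⟨h3, h4⟩ := hB f
  refine ⟨?_, ?_⟩
  · filter_upwards [h1, h3] with x hx hx'
    refine (hx.add hx').congr (Filter.Eventually.of_forall fun y => ?_)
    simp only [Pi.add_apply]
    ring
  · have h5 : ((A + B) f : E → ℂ) =ᵐ[μ] fun x => (A f : E → ℂ) x + (B f : E → ℂ) x := by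
      rw [ContinuousLinearMap.add_apply]
      exact Lp.coeFn_add _ _
    filter_upwards [h1, h2, h3, h4, h5] with x a1 a2 a3 a4 a5
    rw [a5, a2, a4, ← integral_add a1 a3]
    refine integral_congr_ae (Filter.Eventually.of_forall fun y => ?_)
    simp only
    ring

theorem IsKer.smul {k : E → E → ℂ} {A : Lp ℂ 2 μ →L[ℂ] Lp ℂ 2 μ} (hA : IsKer μ k A) (z : ℂ) :
    IsKer μ (fun x y => z * k x y) (z • A) := by
  intro f
  obtain ⟨h1, h2⟩ := hA f
  refine ⟨?_, ?_⟩
  · filter_upwards [h1] with x hx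
    refine (hx.const_mul z).congr (Filter.Eventually.of_forall fun y => ?_)
    simp only
    ring
  · have h5 : ((z • A) f : E → ℂ) =ᵐ[μ] fun x => z * (A f : E → ℂ) x := by
      rw [ContinuousLinearMap.smul_apply]
      exact Lp.coeFn_smul _ _
    filter_upwards [h2, h5] with x a2 a5
    rw [a5, a2, ← integral_const_mul]
    refine integral_congr_ae (Filter.Eventually.of_forall fun y => ?_)
    simp only
    ring

theorem IsKer.sub {k m : E → E → ℂ} {A B : Lp ℂ 2 μ →L[ℂ] Lp ℂ 2 μ} (hA : IsKer μ k A)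
    (hB : IsKer μ m B) : IsKer μ (fun x y => k x y - m x y) (A - B) := by
  intro f
  obtain ⟨h1, h2⟩ := hA f
  obtain ⟨h3, h4⟩ := hB f
  refine ⟨?_, ?_⟩
  · filter_upwards [h1, h3] with x hx hx'
    refine (hx.sub hx').congr (Filter.Eventually.of_forall fun y => ?_)
    simp only [Pi.sub_apply]
    ring
  · have h5 : ((A - B) f : E → ℂ) =ᵐ[μ] fun x => (A f : E → ℂ) x - (B f : E → ℂ) x := by
      rw [ContinuousLinearMap.sub_apply]
      exact Lp.coeFn_sub _ _
    filter_upwards [h1, h2, h3, h4, h5] with x a1 a2 a3 a4 a5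
    rw [a5, a2, a4, ← integral_sub a1 a3]
    refine integral_congr_ae (Filter.Eventually.of_forall fun y => ?_)
    simp only
    ring

end Kersec

end Pool.Agent.H269
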