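import Pool.Agent.H269.DefsC

/-!
# R5-17 Hilbert-Schmidt bound for a kernel operator (MP_f2af60_mp, infinitely many resonances in dimension five)
-/

set_option autoImplicit false

open MeasureTheory Filter Topology Complex
open scoped InnerProductSpace ENNReal NNReal

namespace Pool.Agent.H269



section Kersec

variable {E : Type} [MeasurableSpace E] {μ : Measure E} [IsFiniteMeasure μ]

omit [IsFiniteMeasure μ] in
theorem kr_sq {F : Type*} [NormedAddCommGroup F] (f : E → F) :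
    eLpNorm f 2 μ ^ 2 = ∫⁻ x, ‖f x‖ₑ ^ 2 ∂μ := by
  have h := eLpNorm_nnreal_pow_eq_lintegral (μ := μ) (f := f) (p := 2) (by norm_num)
  simp only [NNReal.coe_ofNat, ENNReal.rpow_ofNat] at h
  exact h

theorem IsKer.HSle {ι : Type} [DecidableEq ι] (b : HilbertBasis ι ℂ (Lp ℂ 2 μ))
    {k : E → E → ℂ} (hk : Measurable (Function.uncurry k)) {A : Lp ℂ 2 μ →L[ℂ] Lp ℂ 2 μ}
    (hA : IsKer μ k A) (c : ℝ) (hc : 0 ≤ c)
    (h : ∫⁻ x, ∫⁻ y, ‖k x y‖ₑ ^ 2 ∂μ ∂μ ≤ ENNReal.ofReal (c ^ 2)) : HSle b A c := by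
  refine ⟨hc, fun s => ?_⟩
  -- the slices
  have hkm : Measurable fun x => ∫⁻ y, ‖k x y‖ₑ ^ 2 ∂μ := by
    have h1 : Measurable (Function.uncurry fun x y => ‖k x y‖ₑ ^ 2) := by
      have := hk.enorm.pow_const 2
      exact this
    exact h1.lintegral_prod_right
  have hfin : ∀ᵐ x ∂μ, ∫⁻ y, ‖k x y‖ₑ ^ 2 ∂μ < ⊤ := by
    refine ae_lt_top hkm ?_
    exact ne_top_of_le_ne_top ENNReal.ofReal_ne_top h
  have hbes : ∀ᵐ x ∂μ, ∑ i ∈ s, ‖∫ y, k x y * (b i : E → ℂ) y ∂μ‖ₑ ^ 2 ≤ ∫⁻ y, ‖k x y‖ₑ ^ 2 ∂μ := by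
    filter_upwards [hfin] with x hx
    have hsm : Measurable fun y => (starRingEnd ℂ) (k x y) := by
      have h1 : Measurable fun y => k x y := hk.of_uncurry_left
      exact Complex.continuous_conj.measurable.comp h1
    have hsq : eLpNorm (fun y => (starRingEnd ℂ) (k x y)) 2 μ ^ 2 = ∫⁻ y, ‖k x y‖ₑ ^ 2 ∂μ := by
      rw [kr_sq]
      refine lintegral_congr fun y => ?_
      have : ‖(starRingEnd ℂ) (k x y)‖ₑ = ‖k x y‖ₑ := by
        rw [enorm_eq_iff_norm_eq, RCLike.norm_conj]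
      rw [this]
    have hmem : MemLp (fun y => (starRingEnd ℂ) (k x y)) 2 μ := by
      refine ⟨hsm.aestronglyMeasurable, ?_⟩
      by_contra hcon
      rw [not_lt, top_le_iff] at hcon
      rw [hcon] at hsq
      rw [← hsq] at hx
      simp at hx
    set κ : Lp ℂ 2 μ := hmem.toLp _ with hκ
    have hin : ∀ i, ⟪κ, b i⟫_ℂ = ∫ y, k x y * (b i : E → ℂ) y ∂μ := by
      intro i
      rw [L2.inner_def]
      refine integral_congr_ae ?_
      filter_upwards [hmem.coeFn_toLp] with y hy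
      rw [hκ, hy, RCLike.inner_apply]
      simp [mul_comm]
    have hB := b.orthonormal.sum_inner_products_le (s := s) κ
    have hnorm : ‖κ‖ₑ ^ 2 = ∫⁻ y, ‖k x y‖ₑ ^ 2 ∂μ := by
      rw [← hsq, Lp.enorm_def, eLpNorm_congr_ae hmem.coeFn_toLp]
    rw [← hnorm]
    have h2 : ∀ i, ‖∫ y, k x y * (b i : E → ℂ) y ∂μ‖ₑ ^ 2 = ENNReal.ofReal (‖⟪b i, κ⟫_ℂ‖ ^ 2) := by
      intro i
      rw [← hin i, ← ofReal_norm, ← ENNReal.ofReal_pow (norm_nonneg _), norm_inner_symm]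
    simp_rw [h2]
    rw [← ENNReal.ofReal_sum_of_nonneg (fun i _ => by positivity), ← ofReal_norm,
      ← ENNReal.ofReal_pow (norm_nonneg _)]
    exact ENNReal.ofReal_le_ofReal hB
  -- integrate
  have hA2 : ∀ i, ‖A (b i)‖ₑ ^ 2 = ∫⁻ x, ‖(A (b i) : E → ℂ) x‖ₑ ^ 2 ∂μ := by
    intro i
    rw [Lp.enorm_def, kr_sq]
  have hAk : ∀ i, ∀ᵐ x ∂μ, (A (b i) : E → ℂ) x = ∫ y, k x y * (b i : E → ℂ) y ∂μ := fun i => (hA (b i)).2
  have hall : ∀ᵐ x ∂μ, ∀ i ∈ s, (A (b i) : E → ℂ) x = ∫ y, k x y * (b i : E → ℂ) y ∂μ := by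
    rw [Filter.eventually_all_finset]
    exact fun i _ => hAk i
  have hsum : ∑ i ∈ s, ‖A (b i)‖ₑ ^ 2 ≤ ENNReal.ofReal (c ^ 2) := by
    simp_rw [hA2]
    rw [← lintegral_finsetSum' s (fun i _ => by
      exact ((Lp.stronglyMeasurable (A (b i))).measurable.enorm.pow_const 2).aemeasurable)]
    refine le_trans (lintegral_mono_ae ?_) h
    filter_upwards [hall, hbes] with x h1 h2
    refine le_trans (le_of_eq ?_) h2
    exact Finset.sum_congr rfl fun i hi => by rw [h1 i hi]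
  have e1 : ∑ i ∈ s, ‖A (b i)‖ₑ ^ 2 = ENNReal.ofReal (∑ i ∈ s, ‖A (b i)‖ ^ 2) := by
    rw [ENNReal.ofReal_sum_of_nonneg (fun i _ => by positivity)]
    refine Finset.sum_congr rfl fun i _ => ?_
    rw [← ofReal_norm, ← ENNReal.ofReal_pow (norm_nonneg _)]
  rw [e1] at hsum
  exact (ENNReal.ofReal_le_ofReal_iff (by positivity)).1 hsum

end Kersec

end Pool.Agent.H269
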