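import Mathlib

/-!
# Uniqueness in L² for the Helmholtz equation with non-real energy (MP_f2af60_mp)
-/

set_option autoImplicit false

open MeasureTheory Filter Topology Complex
open scoped InnerProductSpace ENNReal NNReal

namespace Pool.Agent.H269


section Hz2969

open scoped SchwartzMap

/-- derivative bounds for the scaled cutoff minus one -/
theorem hz_cutoff_bound {E : Type*} [NormedAddCommGroup E] [NormedSpace ℝ E]
    (χ : E → ℂ) (hχ : ContDiff ℝ ((⊤ : ℕ∞) : WithTop ℕ∞) χ) (hc : HasCompactSupport χ)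
    (h0 : χ 0 = 1) (i : ℕ) :
    ∃ C : ℝ, 0 ≤ C ∧ ∀ c : ℝ, 0 < c → c ≤ 1 → ∀ x : E,
      ‖iteratedFDeriv ℝ i (fun x => χ (c • x) - 1) x‖ ≤ C * c * (1 + ‖x‖) := by
  rcases i with _ | i
  · obtain ⟨K, hK⟩ := ContDiff.lipschitzWith_of_hasCompactSupport hc hχ (by simp)
    refine ⟨K, K.2, fun c hc0 hc1 x => ?_⟩
    rw [norm_iteratedFDeriv_zero]
    have h1 := hK.dist_le_mul (c • x) 0
    rw [h0, dist_eq_norm, dist_zero_right, norm_smul, Real.norm_of_nonneg hc0.le] at h1
    calc ‖χ (c • x) - 1‖ ≤ K * (c * ‖x‖) := h1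
      _ = K * c * ‖x‖ := by ring
      _ ≤ K * c * (1 + ‖x‖) := by
        have : (0:ℝ) ≤ K := K.2
        gcongr
        linarith
  · have hb : ∃ C, ∀ x, ‖iteratedFDeriv ℝ (i+1) χ x‖ ≤ C := by
      have hcs := hc.iteratedFDeriv (𝕜 := ℝ) (i+1)
      have hcont : Continuous (iteratedFDeriv ℝ (i+1) χ) :=
        hχ.continuous_iteratedFDeriv (by norm_cast; exact le_top)
      exact hcs.exists_bound_of_continuous hcont
    obtain ⟨C, hC⟩ := hb
    have hC0 : 0 ≤ C := le_trans (norm_nonneg _) (hC 0)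
    refine ⟨C, hC0, fun c hc0 hc1 x => ?_⟩
    have e1 : iteratedFDeriv ℝ (i+1) (fun x => χ (c • x) - 1) x
        = c ^ (i+1) • iteratedFDeriv ℝ (i+1) χ (c • x) := by
      have hf : ContDiff ℝ (i+1 : ℕ) (fun x => χ (c • x)) := by
        have : ContDiff ℝ (i+1 : ℕ) χ := hχ.of_le (by norm_cast; exact le_top)
        fun_prop
      have e2 : iteratedFDeriv ℝ (i+1) (fun x => χ (c • x) - 1) x
          = iteratedFDeriv ℝ (i+1) (fun x => χ (c • x)) x := by
        have := iteratedFDeriv_sub (𝕜 := ℝ) (i := i+1) (f := fun x => χ (c • x)) (g := fun _ : E => (1:ℂ))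
          hf contDiff_const
        have h2 := congrFun this x
        have h3 : (fun x => χ (c • x)) - (fun _ : E => (1:ℂ)) = (fun x => χ (c • x) - 1) := rfl
        rw [h3] at h2
        rw [h2]
        simp [iteratedFDeriv_const_of_ne]
      rw [e2, iteratedFDeriv_comp_const_smul c (hχ.of_le (by norm_cast; exact le_top))]
    rw [e1, norm_smul, norm_pow, Real.norm_of_nonneg hc0.le]
    have h1 : c ^ (i+1) ≤ c := by
      calc c ^ (i+1) ≤ c ^ 1 := pow_le_pow_of_le_one hc0.le hc1 (by omega)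
        _ = c := pow_one c
    calc c ^ (i+1) * ‖iteratedFDeriv ℝ (i+1) χ (c • x)‖ ≤ c * C := by
          gcongr
          exact hC _
      _ = C * c * 1 := by ring
      _ ≤ C * c * (1 + ‖x‖) := by
          gcongr
          linarith [norm_nonneg x]

/-- a continuous linear functional on Schwartz functions that vanishes on the compactly
supported ones is zero -/
theorem hz_dense {E : Type*} [NormedAddCommGroup E] [InnerProductSpace ℝ E]
    [FiniteDimensional ℝ E] (L : 𝓢(E, ℂ) → ℂ) (hLc : Continuous L)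
    (hL : ∀ ψ : 𝓢(E, ℂ), HasCompactSupport ψ → L ψ = 0) (φ : 𝓢(E, ℂ)) : L φ = 0 := by
  classical
  let b : ContDiffBump (0 : E) := ⟨1, 2, by norm_num, by norm_num⟩
  let χ : E → ℂ := fun x => ((b x : ℝ) : ℂ)
  have hχ : ContDiff ℝ ((⊤ : ℕ∞) : WithTop ℕ∞) χ := by
    have h1 : ContDiff ℝ ((⊤ : ℕ∞) : WithTop ℕ∞) (fun x => b x) := b.contDiff
    exact Complex.ofRealCLM.contDiff.comp h1
  have hcs : HasCompactSupport χ := b.hasCompactSupport.comp_left (g := fun r : ℝ => (r : ℂ)) (by simp)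
  have h0 : χ 0 = 1 := by
    have : b 0 = 1 := b.one_of_mem_closedBall (by simp [b])
    simp [χ, this]
  have hg : ∀ c : ℝ, c ≠ 0 → (fun x => χ (c • x)).HasTemperateGrowth := by
    intro c hc
    have h1 : HasCompactSupport (fun x => χ (c • x)) := hcs.comp_smul hc
    exact h1.hasTemperateGrowth (hχ.comp (contDiff_const_smul c))
  let u : ℕ → 𝓢(E, ℂ) := fun j => SchwartzMap.smulLeftCLM ℂ (fun x => χ (((j:ℝ)+1)⁻¹ • x)) φ
  have hu0 : ∀ j, L (u j) = 0 := by
    intro j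
    apply hL
    have hj : ((j:ℝ)+1)⁻¹ ≠ 0 := by positivity
    have e : (u j : E → ℂ) = fun x => χ (((j:ℝ)+1)⁻¹ • x) • φ x :=
      SchwartzMap.smulLeftCLM_apply (hg _ hj) φ
    rw [e]
    exact (hcs.comp_smul hj).smul_right
  have hlim : Tendsto u atTop (𝓝 φ) := by
    rw [(schwartz_withSeminorms ℝ E ℂ).tendsto_nhds_atTop]
    rintro ⟨k, m⟩ ε hε
    choose C hC0 hC using hz_cutoff_bound χ hχ hcs h0
    let K : ℝ := ∑ i ∈ Finset.range (m+1), (m.choose i : ℝ) * C i *
      (SchwartzMap.seminorm ℝ k (m-i) φ + SchwartzMap.seminorm ℝ (k+1) (m-i) φ)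
    have hK0 : 0 ≤ K := by
      apply Finset.sum_nonneg
      intro i _
      have := hC0 i
      have := apply_nonneg (SchwartzMap.seminorm ℝ k (m-i)) φ
      have := apply_nonneg (SchwartzMap.seminorm ℝ (k+1) (m-i)) φ
      positivity
    have key : ∀ j : ℕ, SchwartzMap.seminorm ℝ k m (u j - φ) ≤ K * ((j:ℝ)+1)⁻¹ := by
      intro j
      have hj0 : (0:ℝ) < ((j:ℝ)+1)⁻¹ := by positivity
      have hj1 : ((j:ℝ)+1)⁻¹ ≤ 1 := by
        apply inv_le_one_of_one_le₀
        have : (0:ℝ) ≤ j := Nat.cast_nonneg j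
        linarith
      apply SchwartzMap.seminorm_le_bound ℝ k m _ (by positivity)
      intro x
      set c : ℝ := ((j:ℝ)+1)⁻¹ with hc
      have e : ((u j - φ : 𝓢(E, ℂ)) : E → ℂ) = fun x => (χ (c • x) - 1) • φ x := by
        funext y
        have e1 : (u j : E → ℂ) y = χ (c • y) • φ y := by
          have := SchwartzMap.smulLeftCLM_apply (F := ℂ) (hg c hj0.ne') φ
          exact congrFun this y
        rw [_root_.sub_apply, e1]
        simp [sub_mul]
      rw [e]
      have hcd : ContDiff ℝ ((⊤ : ℕ∞) : WithTop ℕ∞) (fun x => χ (c • x) - 1) :=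
        (hχ.comp (contDiff_const_smul c)).sub contDiff_const
      have hle := norm_iteratedFDeriv_smul_le (𝕜 := ℝ) (f := fun x => χ (c • x) - 1) (g := fun x => φ x)
        hcd (φ.smooth ⊤) x (n := m) (by norm_cast; exact le_top)
      calc ‖x‖ ^ k * ‖iteratedFDeriv ℝ m (fun x => (χ (c • x) - 1) • φ x) x‖
          ≤ ‖x‖ ^ k * ∑ i ∈ Finset.range (m + 1), (m.choose i : ℝ) *
            ‖iteratedFDeriv ℝ i (fun x => χ (c • x) - 1) x‖ *
            ‖iteratedFDeriv ℝ (m - i) (fun x => φ x) x‖ := by gcongr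
        _ = ∑ i ∈ Finset.range (m + 1), ‖x‖ ^ k * ((m.choose i : ℝ) *
            ‖iteratedFDeriv ℝ i (fun x => χ (c • x) - 1) x‖ *
            ‖iteratedFDeriv ℝ (m - i) (fun x => φ x) x‖) := by rw [Finset.mul_sum]
        _ ≤ ∑ i ∈ Finset.range (m+1), (m.choose i : ℝ) * C i *
            (SchwartzMap.seminorm ℝ k (m-i) φ + SchwartzMap.seminorm ℝ (k+1) (m-i) φ) * c := by
            apply Finset.sum_le_sum
            intro i _
            have h1 := hC i c hj0 hj1 x
            have h2 := SchwartzMap.le_seminorm ℝ k (m-i) φ x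
            have h3 := SchwartzMap.le_seminorm ℝ (k+1) (m-i) φ x
            have h4 := hC0 i
            calc ‖x‖ ^ k * ((m.choose i : ℝ) *
                ‖iteratedFDeriv ℝ i (fun x => χ (c • x) - 1) x‖ *
                ‖iteratedFDeriv ℝ (m - i) (fun x => φ x) x‖)
                ≤ ‖x‖ ^ k * ((m.choose i : ℝ) * (C i * c * (1 + ‖x‖)) *
                ‖iteratedFDeriv ℝ (m - i) (fun x => φ x) x‖) := by gcongr
              _ = (m.choose i : ℝ) * C i * (‖x‖ ^ k * ‖iteratedFDeriv ℝ (m - i) (fun x => φ x) x‖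
                  + ‖x‖ ^ (k+1) * ‖iteratedFDeriv ℝ (m - i) (fun x => φ x) x‖) * c := by ring
              _ ≤ _ := by gcongr
        _ = K * c := by rw [Finset.sum_mul]
    have hlim2 : Tendsto (fun j : ℕ => K * ((j:ℝ)+1)⁻¹) atTop (𝓝 0) := by
      have h1 : Tendsto (fun j : ℕ => ((j:ℝ)+1)⁻¹) atTop (𝓝 0) := by
        simpa [one_div] using tendsto_one_div_add_atTop_nhds_zero_nat (𝕜 := ℝ)
      simpa using h1.const_mul K
    have hev := (hlim2.eventually (gt_mem_nhds hε))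
    obtain ⟨N, hN⟩ := eventually_atTop.1 hev
    exact ⟨N, fun j hj => lt_of_le_of_lt (key j) (hN j hj)⟩
  have hLlim : Tendsto (fun j => L (u j)) atTop (𝓝 (L φ)) := (hLc.tendsto φ).comp hlim
  have hz : (fun j => L (u j)) = fun _ => 0 := funext hu0
  rw [hz] at hLlim
  exact tendsto_nhds_unique hLlim tendsto_const_nhds |>.symm ▸ rfl

theorem hz_lower (μ : ℂ) (s : ℝ) (hs : 0 ≤ s) : μ.im ^ 2 ≤ ‖(s : ℂ) - μ ^ 2‖ := by
  apply le_of_sq_le_sq _ (norm_nonneg _)
  rw [Complex.sq_norm, Complex.normSq_apply]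
  have h1 : ((s : ℂ) - μ ^ 2).re = s - μ.re^2 + μ.im^2 := by
    simp [pow_two]
    ring
  have h2 : ((s : ℂ) - μ ^ 2).im = - (2 * μ.re * μ.im) := by
    simp [pow_two]
    ring
  rw [h1, h2]
  nlinarith [mul_nonneg hs (sq_nonneg μ.im), sq_nonneg (s - μ.re^2), sq_nonneg (μ.re * μ.im)]

theorem hz_iter (A : ℝ) (ν : ℂ) (hν : ∀ t : ℝ, 0 ≤ t → ((A * t : ℝ) : ℂ) - ν ≠ 0) (n : ℕ) :
    ∀ t ∈ Set.Ici (0:ℝ), iteratedDerivWithin n (fun t : ℝ => (((A * t : ℝ) : ℂ) - ν)⁻¹) (Set.Ici 0) t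
      = ((-1)^n * (n.factorial : ℂ) * (A:ℂ)^n) * ((((A * t : ℝ) : ℂ) - ν)⁻¹)^(n+1) := by
  induction n with
  | zero => intro t ht; simp
  | succ n ih =>
    intro t ht
    rw [iteratedDerivWithin_succ]
    have hu : UniqueDiffWithinAt ℝ (Set.Ici (0:ℝ)) t := uniqueDiffOn_Ici 0 t ht
    rw [derivWithin_congr (f := fun t => ((-1)^n * (n.factorial : ℂ) * (A:ℂ)^n) * ((((A * t : ℝ) : ℂ) - ν)⁻¹)^(n+1))
      (fun y hy => ih y hy) (ih t ht)]
    have hne := hν t ht
    have h1 : HasDerivAt (fun t : ℝ => (((A * t : ℝ) : ℂ) - ν)) (A : ℂ) t := by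
      have h0 : HasDerivAt (fun t : ℝ => A * t) A t := by simpa using (hasDerivAt_id t).const_mul A
      exact (h0.ofReal_comp).sub_const ν
    have h2 := (((h1.inv hne).pow (n+1)).const_mul ((-1)^n * (n.factorial : ℂ) * (A:ℂ)^n))
    have h3 := h2.hasDerivWithinAt (s := Set.Ici (0:ℝ)) |>.derivWithin hu
    refine Eq.trans ?_ (h3.trans ?_)
    · rfl
    · simp only [Nat.add_sub_cancel, Pi.inv_apply]
      rw [Nat.factorial_succ, div_eq_mul_inv, ← inv_pow]
      generalize (((A * t : ℝ) : ℂ) - ν)⁻¹ = z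
      push_cast
      ring

theorem hz_inv_growth {E : Type*} [NormedAddCommGroup E] [InnerProductSpace ℝ E]
    (A : ℝ) (hA : 0 ≤ A) (μ : ℂ) (hμ : 0 < μ.im) :
    (fun x : E => (((A * ‖x‖^2 : ℝ) : ℂ) - μ ^ 2)⁻¹).HasTemperateGrowth := by
  have hlow : ∀ t : ℝ, 0 ≤ t → μ.im ^ 2 ≤ ‖((A * t : ℝ) : ℂ) - μ ^ 2‖ :=
    fun t ht => hz_lower μ (A * t) (by positivity)
  have hne : ∀ t : ℝ, 0 ≤ t → ((A * t : ℝ) : ℂ) - μ ^ 2 ≠ 0 := by
    intro t ht h0
    have := hlow t ht
    rw [h0, norm_zero] at this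
    have : 0 < μ.im ^ 2 := by positivity
    linarith
  have hcomp : ((fun t : ℝ => (((A * t : ℝ) : ℂ) - μ ^ 2)⁻¹) ∘ (fun x : E => ‖x‖^2)).HasTemperateGrowth := by
    refine Function.HasTemperateGrowth.comp' (t := Set.Ici (0:ℝ)) ?_ (uniqueDiffOn_Ici 0) ?_ ?_ (by fun_prop)
    · rintro - ⟨y, rfl⟩
      simp only [Set.mem_Ici]
      positivity
    · have : ContDiff ℝ ((⊤ : ℕ∞) : WithTop ℕ∞) (fun t : ℝ => ((A * t : ℝ) : ℂ) - μ ^ 2) := by
        have h1 : ContDiff ℝ ((⊤ : ℕ∞) : WithTop ℕ∞) (fun t : ℝ => A * t) := by fun_prop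
        exact (Complex.ofRealCLM.contDiff.comp h1).sub contDiff_const
      intro t ht
      exact (this.contDiffWithinAt).inv (hne t ht)
    · intro N
      refine ⟨0, ∑ n ∈ Finset.range (N+1), ((n.factorial : ℝ) * A^n) * ((μ.im^2)⁻¹)^(n+1), by positivity, ?_⟩
      intro n hn x hx
      rw [norm_iteratedFDerivWithin_eq_norm_iteratedDerivWithin, hz_iter A _ hne n x hx]
      have hb : 0 < μ.im ^ 2 := by positivity
      have h1 : ‖((-1 : ℂ)^n * (n.factorial : ℂ) * (A:ℂ)^n) * ((((A * x : ℝ) : ℂ) - μ^2)⁻¹)^(n+1)‖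
          ≤ ((n.factorial : ℝ) * A^n) * ((μ.im^2)⁻¹)^(n+1) := by
        rw [norm_mul, norm_mul, norm_mul, norm_pow, norm_pow, norm_pow, norm_neg, norm_one, one_pow, one_mul, norm_inv]
        rw [Complex.norm_natCast, Complex.norm_real, Real.norm_of_nonneg hA]
        gcongr
        exact hlow x hx
      refine h1.trans ?_
      rw [pow_zero, mul_one]
      have hmem : n ∈ Finset.range (N+1) := Finset.mem_range.2 (by omega)
      exact Finset.single_le_sum (f := fun n => ((n.factorial : ℝ) * A^n) * ((μ.im^2)⁻¹)^(n+1))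
        (fun i _ => by positivity) hmem
  exact hcomp

open Laplacian in
theorem hz_fourier {E : Type*} [NormedAddCommGroup E] [InnerProductSpace ℝ E]
    [FiniteDimensional ℝ E] [MeasurableSpace E] [BorelSpace E] (μ : ℂ) (hμ : 0 < μ.im)
    (T : 𝓢'(E, ℂ)) (hT : Δ T + μ ^ 2 • T = 0) : T = 0 := by
  have hA : (0:ℝ) ≤ (2 * Real.pi)^2 := by positivity
  have hg1 : (fun x : E => (((2 * Real.pi)^2 * ‖x‖^2 : ℝ) : ℂ) - μ ^ 2).HasTemperateGrowth := by
    fun_prop
  have hg2 := hz_inv_growth (E := E) ((2 * Real.pi)^2) hA μ hμ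
  have h1 : TemperedDistribution.fourierMultiplierCLM ℂ
      (fun x : E => (((2 * Real.pi)^2 * ‖x‖^2 : ℝ) : ℂ) - μ ^ 2) T = 0 := by
    have e1 : TemperedDistribution.fourierMultiplierCLM ℂ
        (fun x : E => (((2 * Real.pi)^2 * ‖x‖^2 : ℝ) : ℂ) - μ ^ 2) T = - (Δ T + μ ^ 2 • T) := by
      have hr : (fun x : E => Complex.ofReal (‖x‖ ^ 2)).HasTemperateGrowth := by fun_prop
      have hc : (fun _ : E => μ ^ 2).HasTemperateGrowth := by fun_prop
      have hsplit : (fun x : E => (((2 * Real.pi)^2 * ‖x‖^2 : ℝ) : ℂ) - μ ^ 2)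
          = ((((2 * Real.pi)^2 : ℝ) : ℂ) • (fun x : E => Complex.ofReal (‖x‖ ^ 2))) - (fun _ : E => μ ^ 2) := by
        funext x
        simp only [Pi.sub_apply, Pi.smul_apply, smul_eq_mul]
        push_cast
        ring
      have hsm : ((((2 * Real.pi)^2 : ℝ) : ℂ) • (fun x : E => Complex.ofReal (‖x‖ ^ 2))).HasTemperateGrowth := by
        have : ((fun _ : E => (((2 * Real.pi)^2 : ℝ) : ℂ)) * (fun x : E => Complex.ofReal (‖x‖ ^ 2))).HasTemperateGrowth :=
          Function.HasTemperateGrowth.mul (by fun_prop) hr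
        exact this
      rw [TemperedDistribution.laplacian_eq_fourierMultiplierCLM, hsplit,
        TemperedDistribution.fourierMultiplierCLM_apply, TemperedDistribution.fourierMultiplierCLM_apply,
        TemperedDistribution.smulLeftCLM_sub hsm hc, TemperedDistribution.smulLeftCLM_smul hr]
      ext u
      simp
      ring
    rw [e1, hT, neg_zero]
  have h2 := TemperedDistribution.fourierMultiplierCLM_fourierMultiplierCLM_apply hg1 hg2 T
  rw [h1, map_zero] at h2
  have h3 : (fun x : E => (((2 * Real.pi)^2 * ‖x‖^2 : ℝ) : ℂ) - μ ^ 2) *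
      (fun x : E => ((((2 * Real.pi)^2 * ‖x‖^2 : ℝ) : ℂ) - μ ^ 2)⁻¹) = fun _ : E => (1 : ℂ) := by
    funext x
    simp only [Pi.mul_apply]
    apply mul_inv_cancel₀
    intro h0
    have := hz_lower μ ((2 * Real.pi)^2 * ‖x‖^2) (by positivity)
    rw [h0, norm_zero] at this
    have : 0 < μ.im ^ 2 := by positivity
    linarith
  rw [h3] at h2
  simpa using h2.symm

end Hz2969


open Laplacian in
theorem helmholtz_unique (n : ℕ) (μ : ℂ) (hμ : 0 < μ.im) (w : EuclideanSpace ℝ (Fin n) → ℂ)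
    (hw : MemLp w 2 volume)
    (h : ∀ φ : EuclideanSpace ℝ (Fin n) → ℂ, ContDiff ℝ ((⊤ : ℕ∞) : WithTop ℕ∞) φ →
      HasCompactSupport φ → ∫ x, w x * (-(Δ φ x) - μ ^ 2 * φ x) = 0) :
    w =ᵐ[volume] 0 := by
  let f : Lp ℂ 2 (volume : Measure (EuclideanSpace ℝ (Fin n))) := hw.toLp w
  let T : TemperedDistribution (EuclideanSpace ℝ (Fin n)) ℂ := MeasureTheory.Lp.toTemperedDistribution f
  have hfw : ∀ᵐ x, f x = w x := hw.coeFn_toLp
  have hT0 : Δ T + μ ^ 2 • T = 0 := by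
    have hz : ∀ φ : SchwartzMap (EuclideanSpace ℝ (Fin n)) ℂ, (Δ T + μ ^ 2 • T) φ = 0 := by
      apply hz_dense
      · exact map_continuous (Δ T + μ ^ 2 • T)
      · intro ψ hψ
        have e1 : (Δ T + μ ^ 2 • T) ψ = T (Δ ψ) + μ ^ 2 * T ψ := by simp
        have e2 : T (Δ ψ) = ∫ x, (Δ ψ) x * f x := by
          simp [T]
        have e3 : T ψ = ∫ x, ψ x * f x := by
          simp [T]
        have i1 : Integrable (fun x => (Δ ψ) x * f x) :=
          MemLp.integrable_mul ((Δ ψ).memLp 2) (Lp.memLp f)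
        have i2 : Integrable (fun x => ψ x * f x) :=
          MemLp.integrable_mul (ψ.memLp 2) (Lp.memLp f)
        have e4 := h ψ (ψ.smooth ⊤) hψ
        rw [e1, e2, e3, ← integral_const_mul, ← integral_add i1 (i2.const_mul _)]
        rw [← neg_eq_zero, ← integral_neg, ← e4]
        apply integral_congr_ae
        filter_upwards [hfw] with x hx
        rw [hx, SchwartzMap.laplacian_apply]
        ring
    ext φ
    exact hz φ
  have hT := hz_fourier μ hμ T hT0
  have hker := MeasureTheory.Lp.ker_toTemperedDistributionCLM_eq_bot (F := ℂ)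
    (μ := (volume : Measure (EuclideanSpace ℝ (Fin n)))) (p := 2)
  have hf : f = 0 := by
    have : f ∈ (MeasureTheory.Lp.toTemperedDistributionCLM ℂ
      (volume : Measure (EuclideanSpace ℝ (Fin n))) 2).ker := hT
    rw [hker] at this
    exact this
  have hw0 : f =ᵐ[volume] 0 := by
    rw [hf]
    exact Lp.coeFn_zero _ _ _
  filter_upwards [hfw, hw0] with x h1 h2
  rw [← h1, h2]

end Pool.Agent.H269
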