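import Pool.Agent.H269.DefsC

/-!
# R5-12 entire functions of finite order with finitely many zeros (MP_f2af60_mp, infinitely many resonances in dimension five)
-/

set_option autoImplicit false

open MeasureTheory Filter Topology Complex
open scoped InnerProductSpace ENNReal NNReal

namespace Pool.Agent.H269


section FE0
open Metric Set

/-- entire logarithm with polynomial growth -/
theorem fe_log_growth {G : ℂ → ℂ} (hG : Differentiable ℂ G) (hne : ∀ z, G z ≠ 0) {C R0 : ℝ} {p : ℕ}
    (hC : 0 ≤ C) (hgr : ∀ z, R0 ≤ ‖z‖ → ‖G z‖ ≤ Real.exp (C * ‖z‖ ^ p)) :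
    ∃ h : ℂ → ℂ, Differentiable ℂ h ∧ (∀ z, G z = Complex.exp (h z)) ∧
      ∃ C' : ℝ, ∀ z, 1 ≤ ‖z‖ → ‖h z‖ ≤ C' * ‖z‖ ^ p := by
  obtain ⟨g, hg⟩ := ((hG.deriv).fun_div hG hne).isExactOn_univ
  set h : ℂ → ℂ := fun z => g z + (Complex.log (G 0) - g 0) with hh
  have hd : ∀ z, HasDerivAt h (deriv G z / G z) z := fun z => (hg z (mem_univ z)).add_const _
  have hdiff : Differentiable ℂ h := fun z => (hd z).differentiableAt
  have hGh : ∀ z, G z = Complex.exp (h z) := by
    intro z
    have h1 : ∀ w, HasDerivAt (fun w => G w * Complex.exp (-h w)) 0 w := by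
      intro w
      refine ((hG w).hasDerivAt.mul (hd w).neg.cexp).congr_deriv ?_
      have := hne w
      field_simp
      ring
    have h2 := is_const_of_deriv_eq_zero (fun w => (h1 w).differentiableAt)
      (fun w => (h1 w).deriv) z 0
    have h3 : h 0 = Complex.log (G 0) := by rw [hh]; ring
    rw [h3, Complex.exp_neg, Complex.exp_neg, Complex.exp_log (hne 0),
      mul_inv_cancel₀ (hne 0)] at h2
    have h4 := Complex.exp_ne_zero (h z)
    field_simp at h2
    exact h2
  -- bound on the real part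
  obtain ⟨M, hM⟩ := (isCompact_closedBall (0 : ℂ) R0).image_of_continuousOn
    hG.continuous.continuousOn |>.isBounded.exists_norm_le
  have hre : ∀ z, (h z).re ≤ Real.log (|M| + 1) + C * ‖z‖ ^ p := by
    intro z
    have h1 : Real.exp (h z).re = ‖G z‖ := by rw [hGh z, Complex.norm_exp]
    have hl : 0 ≤ Real.log (|M| + 1) := Real.log_nonneg (by linarith [abs_nonneg M])
    rcases le_or_gt R0 ‖z‖ with h2 | h2
    · have h3 := hgr z h2
      rw [← h1, Real.exp_le_exp] at h3
      linarith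
    · have h3 : ‖G z‖ ≤ |M| + 1 := by
        have := hM (G z) (mem_image_of_mem _ (by rw [mem_closedBall, dist_zero_right]; exact h2.le))
        linarith [le_abs_self M]
      rw [← h1, ← Real.exp_log (by positivity : 0 < |M| + 1), Real.exp_le_exp] at h3
      have : 0 ≤ C * ‖z‖ ^ p := by positivity
      linarith
  refine ⟨h, hdiff, hGh, 2 * (Real.log (|M| + 1) + 1 + C * 3 ^ p) + 3 * ‖h 0‖, ?_⟩
  intro z hz
  have hl : 0 ≤ Real.log (|M| + 1) := Real.log_nonneg (by linarith [abs_nonneg M])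
  set R := 2 * ‖z‖ + 1 with hR
  have hzR : z ∈ ball (0 : ℂ) R := by
    rw [mem_ball, dist_zero_right, hR]
    linarith
  set MR := Real.log (|M| + 1) + 1 + C * R ^ p with hMR
  have hR0 : 0 < R := by rw [hR]; positivity
  have hMR0 : 0 < MR := by
    have : 0 ≤ C * R ^ p := by positivity
    linarith
  have hBC := Complex.borelCaratheodory (f := h) (M := MR) (R := R) (z := z) hMR0
    hdiff.differentiableOn (by
      intro w hw
      rw [mem_ball, dist_zero_right] at hw
      change (h w).re ≤ MR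
      refine (hre w).trans ?_
      have : C * ‖w‖ ^ p ≤ C * R ^ p := by gcongr
      linarith) hR0 hzR
  have hRz : R - ‖z‖ = ‖z‖ + 1 := by rw [hR]; ring
  have h1 : 2 * MR * ‖z‖ / (R - ‖z‖) ≤ 2 * MR := by
    rw [hRz, div_le_iff₀ (by positivity)]
    nlinarith [norm_nonneg z]
  have h2 : ‖h 0‖ * (R + ‖z‖) / (R - ‖z‖) ≤ 3 * ‖h 0‖ := by
    rw [hRz, div_le_iff₀ (by positivity), hR]
    nlinarith [norm_nonneg z, norm_nonneg (h 0)]
  have h3 : R ^ p ≤ 3 ^ p * ‖z‖ ^ p := by
    rw [← mul_pow]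
    gcongr
    rw [hR]
    linarith
  have h4 : 1 ≤ ‖z‖ ^ p := one_le_pow₀ hz
  have h5 : C * R ^ p ≤ C * (3 ^ p * ‖z‖ ^ p) := by gcongr
  calc ‖h z‖ ≤ 2 * MR + 3 * ‖h 0‖ := by linarith
    _ = 2 * (Real.log (|M| + 1) + 1) + 2 * (C * R ^ p) + 3 * ‖h 0‖ := by rw [hMR]; ring
    _ ≤ 2 * (Real.log (|M| + 1) + 1) * ‖z‖ ^ p + 2 * (C * (3 ^ p * ‖z‖ ^ p))
        + 3 * ‖h 0‖ * ‖z‖ ^ p := by
        have e1 : 2 * (Real.log (|M| + 1) + 1) ≤ 2 * (Real.log (|M| + 1) + 1) * ‖z‖ ^ p :=
          le_mul_of_one_le_right (by positivity) h4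
        have e2 : 3 * ‖h 0‖ ≤ 3 * ‖h 0‖ * ‖z‖ ^ p := le_mul_of_one_le_right (by positivity) h4
        linarith
    _ = _ := by ring


end FE0

section FE1
open Polynomial Set Metric

/-- an entire function of polynomial growth is a polynomial -/
theorem ge_liouville (F : ℂ → ℂ) (hF : Differentiable ℂ F) (k : ℕ) (K R₀ : ℝ)
    (hb : ∀ s, R₀ ≤ ‖s‖ → ‖F s‖ ≤ K * (1 + ‖s‖) ^ k) :
    ∃ p : ℂ[X], p.natDegree ≤ k ∧ ∀ s, p.eval s = F s := by
  have hz : ∀ n, k < n → iteratedDeriv n F 0 = 0 := by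
    intro n hn
    have hbound : ∀ R : ℝ, max R₀ 1 ≤ R → ‖iteratedDeriv n F 0‖ ≤ n.factorial * (K * 2 ^ k) / R := by
      intro R hR
      have hR1 : 1 ≤ R := (le_max_right _ _).trans hR
      have hR0 : 0 < R := by linarith
      have hK : 0 ≤ K * (1 + R) ^ k := by
        have := hb (R : ℂ) (by
          rw [Complex.norm_real, Real.norm_of_nonneg hR0.le]
          exact (le_max_left _ _).trans hR)
        rw [Complex.norm_real, Real.norm_of_nonneg hR0.le] at this
        exact (norm_nonneg _).trans this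
      have hK0 : 0 ≤ K := by
        by_contra h
        push Not at h
        have : K * (1 + R) ^ k < 0 := mul_neg_of_neg_of_pos h (by positivity)
        linarith
      have h1 := Complex.norm_iteratedDeriv_le_of_forall_mem_sphere_norm_le (f := F) (c := 0)
        (R := R) (C := K * (1 + R) ^ k) n hR0 hF.diffContOnCl (by
          intro z hz
          have hz' : ‖z‖ = R := by simpa using hz
          rw [← hz']
          exact hb z (by rw [hz']; exact (le_max_left _ _).trans hR))
      refine h1.trans ?_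
      have h2 : (1 + R) ^ k ≤ (2 * R) ^ k := by
        apply pow_le_pow_left₀ (by linarith)
        linarith
      have h3 : R ^ (k + 1) ≤ R ^ n := pow_le_pow_right₀ hR1 hn
      calc (n.factorial : ℝ) * (K * (1 + R) ^ k) / R ^ n
          ≤ (n.factorial : ℝ) * (K * (2 * R) ^ k) / R ^ (k + 1) := by
            apply div_le_div₀
            · positivity
            · apply mul_le_mul_of_nonneg_left _ (by positivity)
              exact mul_le_mul_of_nonneg_left h2 hK0
            · positivity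
            · exact h3
        _ = n.factorial * (K * 2 ^ k) / R := by
            rw [mul_pow, pow_succ]
            field_simp
    have hlim : Filter.Tendsto (fun R : ℝ => (n.factorial : ℝ) * (K * 2 ^ k) / R) Filter.atTop
        (nhds 0) := tendsto_const_nhds.div_atTop Filter.tendsto_id
    have h0 : ‖iteratedDeriv n F 0‖ ≤ 0 := by
      refine ge_of_tendsto hlim ?_
      filter_upwards [Filter.eventually_ge_atTop (max R₀ 1)] with R hR using hbound R hR
    exact norm_le_zero_iff.1 h0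
  refine ⟨∑ n ∈ Finset.range (k + 1), C ((n.factorial : ℂ)⁻¹ * iteratedDeriv n F 0) * X ^ n, ?_, ?_⟩
  · refine natDegree_sum_le_of_forall_le _ _ ?_
    intro n hn
    refine (natDegree_C_mul_X_pow_le _ _).trans ?_
    have := Finset.mem_range.1 hn
    omega
  · intro s
    have h1 := Complex.taylorSeries_eq_of_entire' (c := 0) (z := s) hF
    rw [← h1, tsum_eq_sum (s := Finset.range (k + 1))]
    · rw [eval_finsetSum]
      refine Finset.sum_congr rfl fun n _ => ?_
      simp
    · intro n hn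
      have : k < n := by
        by_contra h
        exact hn (Finset.mem_range.2 (by omega))
      rw [hz n this]
      simp


end FE1

section FE
open Metric Set

/-- dividing out one zero -/
theorem fe_step (D : ℂ → ℂ) (hD : Differentiable ℂ D) (Z : Finset ℂ) (hZ : ∀ z, D z = 0 → z ∈ Z) (a : ℂ) :
    ∃ (n : ℕ) (D₁ : ℂ → ℂ), Differentiable ℂ D₁ ∧ D₁ a ≠ 0 ∧ (∀ z, D z = (z - a) ^ n * D₁ z) ∧
      (n = 0 ↔ D a ≠ 0) := by
  classical
  have han : AnalyticAt ℂ D a := hD.analyticAt a
  have hnz : ¬ ∀ᶠ z in 𝓝 a, D z = 0 := by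
    intro h
    have h1 : (Z : Set ℂ) ∈ 𝓝 a := by
      filter_upwards [h] with z hz
      exact hZ z hz
    have h2 : (Z : Set ℂ).Infinite := infinite_of_mem_nhds a h1
    exact h2 Z.finite_toSet
  obtain ⟨n, g, hg1, hg2, hg3⟩ := han.exists_eventuallyEq_pow_smul_nonzero_iff.mpr hnz
  set D₁ : ℂ → ℂ := fun z => if z = a then g a else D z / (z - a) ^ n with hD₁
  have hD₁a : D₁ a = g a := by rw [hD₁]; simp
  have heq : ∀ᶠ z in 𝓝 a, D₁ z = g z := by
    filter_upwards [hg3] with z hz
    rw [hD₁]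
    by_cases h : z = a
    · simp [h]
    · simp only [h, if_false]
      rw [hz, smul_eq_mul]
      have : (z - a) ^ n ≠ 0 := pow_ne_zero _ (sub_ne_zero.mpr h)
      field_simp
  have hDa : D a = (a - a) ^ n * g a := by
    have := hg3.self_of_nhds
    rwa [smul_eq_mul] at this
  refine ⟨n, D₁, ?_, by rw [hD₁a]; exact hg2, ?_, ?_⟩
  · intro z
    by_cases h : z = a
    · rw [h]
      exact (hg1.congr (heq.mono fun z hz => hz.symm)).differentiableAt
    · have h1 : DifferentiableAt ℂ (fun z => D z / (z - a) ^ n) z := by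
        apply (hD z).div ((differentiableAt_id.sub_const a).pow n)
        exact pow_ne_zero _ (sub_ne_zero.mpr h)
      refine h1.congr_of_eventuallyEq ?_
      filter_upwards [isOpen_ne.mem_nhds h] with w hw
      have hw' : w ≠ a := hw
      rw [hD₁]
      simp [hw']
  · intro z
    by_cases h : z = a
    · rw [h, hD₁a]
      exact hDa
    · rw [hD₁]
      simp only [h, if_false]
      have : (z - a) ^ n ≠ 0 := pow_ne_zero _ (sub_ne_zero.mpr h)
      field_simp
  · constructor
    · intro hn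
      rw [hDa, hn, pow_zero, one_mul]
      exact hg2
    · intro h
      by_contra hn
      apply h
      rw [hDa, sub_self, zero_pow hn, zero_mul]

/-- dividing out all zeros -/
theorem fe_factor (Z : Finset ℂ) : ∀ (D : ℂ → ℂ), Differentiable ℂ D → (∀ z, D z = 0 → z ∈ Z) →
    ∃ (m : ℂ → ℕ) (g : ℂ → ℂ), Differentiable ℂ g ∧ (∀ z, g z ≠ 0) ∧
      (∀ z, D z = (∏ u ∈ Z, (z - u) ^ m u) * g z) ∧ (∀ u ∈ Z, m u = 0 ↔ D u ≠ 0) := by
  classical
  induction Z using Finset.induction_on with
  | empty =>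
    intro D hD hZ
    refine ⟨fun _ => 0, D, hD, fun z h => ?_, fun z => ?_, fun u hu => ?_⟩
    · simpa using hZ z h
    · simp
    · simp at hu
  | insert a Z ha ih =>
    intro D hD hZ
    obtain ⟨n, D₁, hD₁, hD₁a, hDD, hn⟩ := fe_step D hD _ hZ a
    have hZ₁ : ∀ z, D₁ z = 0 → z ∈ Z := by
      intro z hz
      have h1 : D z = 0 := by rw [hDD, hz, mul_zero]
      have h2 := hZ z h1
      rw [Finset.mem_insert] at h2
      rcases h2 with h2 | h2
      · rw [h2] at hz
        exact absurd hz hD₁a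
      · exact h2
    obtain ⟨m, g, hg, hg0, hfac, hm⟩ := ih D₁ hD₁ hZ₁
    refine ⟨Function.update m a n, g, hg, hg0, fun z => ?_, fun u hu => ?_⟩
    · rw [Finset.prod_insert ha, Function.update_self, hDD, hfac, mul_assoc]
      congr 2
      apply Finset.prod_congr rfl
      intro u hu
      have hua : u ≠ a := fun h => ha (h ▸ hu)
      rw [Function.update_of_ne hua]
    · by_cases hua : u = a
      · rw [hua, Function.update_self]
        exact hn
      · rw [Function.update_of_ne hua]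
        have hu' : u ∈ Z := (Finset.mem_insert.mp hu).resolve_left hua
        rw [hm u hu', hDD]
        have : (u - a) ^ n ≠ 0 := pow_ne_zero _ (sub_ne_zero.mpr hua)
        constructor
        · intro h
          exact mul_ne_zero this h
        · intro h
          exact (mul_ne_zero_iff.mp h).2

end FE

theorem factor_entire (D : ℂ → ℂ) (hD : Differentiable ℂ D) (p : ℕ) (C : ℝ)
    (hg : ∀ z, ‖D z‖ ≤ Real.exp (C * (1 + ‖z‖) ^ p)) (Z : Finset ℂ) (hZ : ∀ z, D z = 0 → z ∈ Z) :
    ∃ (Q : Polynomial ℂ) (m : ℂ → ℕ), (∀ u ∈ Z, m u = 0 ↔ D u ≠ 0) ∧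
      ∀ z, D z ≠ 0 → deriv D z = D z * (Q.eval z + ∑ u ∈ Z, (m u : ℂ) / (z - u)) := by
  classical
  obtain ⟨m, g, hgd, hg0, hfac, hm⟩ := fe_factor Z D hD hZ
  -- lower bound for the product
  set R₀ : ℝ := 1 + ∑ u ∈ Z, ‖u‖ with hR₀
  have hprod : ∀ z : ℂ, R₀ ≤ ‖z‖ → 1 ≤ ‖∏ u ∈ Z, (z - u) ^ m u‖ := by
    intro z hz
    rw [norm_prod]
    have h1 : ∀ u ∈ Z, 1 ≤ ‖(z - u) ^ m u‖ := by
      intro u hu
      rw [norm_pow]
      apply one_le_pow₀
      have h2 : ‖u‖ ≤ ∑ u ∈ Z, ‖u‖ := Finset.single_le_sum (f := fun u => ‖u‖) (fun _ _ => norm_nonneg _) hu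
      have h3 := norm_sub_norm_le z u
      linarith
    calc (1 : ℝ) = ∏ _u ∈ Z, (1 : ℝ) := by simp
      _ ≤ ∏ u ∈ Z, ‖(z - u) ^ m u‖ := Finset.prod_le_prod (fun _ _ => zero_le_one) h1
  have hR1 : 1 ≤ R₀ := by
    have : 0 ≤ ∑ u ∈ Z, ‖u‖ := Finset.sum_nonneg (fun _ _ => norm_nonneg _)
    linarith
  have hgr : ∀ z, R₀ ≤ ‖z‖ → ‖g z‖ ≤ Real.exp ((|C| * 2 ^ p) * ‖z‖ ^ p) := by
    intro z hz
    have h1 := hprod z hz
    have h2 : ‖g z‖ ≤ ‖D z‖ := by
      rw [hfac, norm_mul]
      exact le_mul_of_one_le_left (norm_nonneg _) h1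
    refine h2.trans ((hg z).trans (Real.exp_le_exp.mpr ?_))
    have h3 : (1 + ‖z‖) ^ p ≤ (2 * ‖z‖) ^ p := by
      apply pow_le_pow_left₀ (by positivity)
      linarith
    calc C * (1 + ‖z‖) ^ p ≤ |C| * (1 + ‖z‖) ^ p := mul_le_mul_of_nonneg_right (le_abs_self _) (by positivity)
      _ ≤ |C| * (2 * ‖z‖) ^ p := mul_le_mul_of_nonneg_left h3 (abs_nonneg _)
      _ = _ := by rw [mul_pow]; ring
  obtain ⟨h, hhd, hgh, C', hC'⟩ := fe_log_growth hgd hg0 (by positivity) hgr
  obtain ⟨q, -, hq⟩ := ge_liouville h hhd p |C'| 1 (by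
    intro s hs
    refine (hC' s hs).trans ?_
    calc C' * ‖s‖ ^ p ≤ |C'| * ‖s‖ ^ p := mul_le_mul_of_nonneg_right (le_abs_self _) (by positivity)
      _ ≤ |C'| * (1 + ‖s‖) ^ p := by
        apply mul_le_mul_of_nonneg_left _ (abs_nonneg _)
        apply pow_le_pow_left₀ (norm_nonneg _)
        linarith)
  refine ⟨Polynomial.derivative q, m, hm, ?_⟩
  intro z hz
  have hPne : ∀ u ∈ Z, (z - u) ^ m u ≠ 0 := by
    have h1 : (∏ u ∈ Z, (z - u) ^ m u) ≠ 0 := by
      intro h2
      apply hz
      rw [hfac, h2, zero_mul]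
    exact Finset.prod_ne_zero_iff.mp h1
  have hDfun : D = fun z => (∏ u ∈ Z, (z - u) ^ m u) * g z := by
    funext z
    exact hfac z
  have hgder : HasDerivAt g (g z * (Polynomial.derivative q).eval z) z := by
    have h1 : HasDerivAt (fun z => q.eval z) ((Polynomial.derivative q).eval z) z := q.hasDerivAt z
    have h2 := h1.cexp
    have h3 : g = fun z => cexp (q.eval z) := by
      funext z
      rw [hgh, hq]
    rw [h3]
    exact h2
  have hPder : ∀ Y : Finset ℂ, (∀ u ∈ Y, (z - u) ^ m u ≠ 0) →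
      HasDerivAt (fun z => ∏ u ∈ Y, (z - u) ^ m u)
        ((∏ u ∈ Y, (z - u) ^ m u) * ∑ u ∈ Y, (m u : ℂ) / (z - u)) z := by
    intro Y
    induction Y using Finset.induction_on with
    | empty =>
      intro _
      simp only [Finset.prod_empty, Finset.sum_empty, mul_zero]
      exact hasDerivAt_const _ _
    | insert a Y ha ih =>
      intro hY
      have h1 := ih (fun u hu => hY u (Finset.mem_insert_of_mem hu))
      have h2 : HasDerivAt (fun z => (z - a) ^ m a) ((z - a) ^ m a * ((m a : ℂ) / (z - a))) z := by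
        have h3 : HasDerivAt (fun z => (z - a) ^ m a) ((m a : ℂ) * (z - a) ^ (m a - 1) * 1) z :=
          ((hasDerivAt_id z).sub_const a).fun_pow (m a)
        refine h3.congr_deriv ?_
        by_cases hm0 : m a = 0
        · simp [hm0]
        · have h4 : z - a ≠ 0 := by
            intro h5
            apply hY a (Finset.mem_insert_self _ _)
            rw [h5, zero_pow hm0]
          obtain ⟨k, hk⟩ := Nat.exists_eq_succ_of_ne_zero hm0
          rw [hk]
          simp only [Nat.succ_eq_add_one, Nat.add_sub_cancel]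
          field_simp
          ring
      have h5 := h2.mul h1
      have h6 : (fun z => ∏ u ∈ insert a Y, (z - u) ^ m u)
          = (fun z => (z - a) ^ m a) * (fun z => ∏ u ∈ Y, (z - u) ^ m u) := by
        funext w
        rw [Finset.prod_insert ha]
        rfl
      rw [h6]
      refine h5.congr_deriv ?_
      rw [Finset.sum_insert ha, Finset.prod_insert ha]
      ring
  have h7 := (hPder Z hPne).mul hgder
  have h8 : deriv D z = (∏ u ∈ Z, (z - u) ^ m u) * (∑ u ∈ Z, (m u : ℂ) / (z - u)) * g z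
      + (∏ u ∈ Z, (z - u) ^ m u) * (g z * (Polynomial.derivative q).eval z) := by
    rw [hDfun]
    exact h7.deriv
  rw [h8, hfac]
  ring

end Pool.Agent.H269
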