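import Pool.Agent.H269.DefsC

/-!
# R5-19 countable orthonormal basis (MP_f2af60_mp, infinitely many resonances in dimension five)
-/

set_option autoImplicit false

open MeasureTheory Filter Topology Complex
open scoped InnerProductSpace ENNReal NNReal

namespace Pool.Agent.H269



section Kersec

variable {E : Type} [MeasurableSpace E] {μ : Measure E} [IsFiniteMeasure μ]

theorem exists_countable_basis (H : Type) [NormedAddCommGroup H] [InnerProductSpace ℂ H]
    [CompleteSpace H] [TopologicalSpace.SeparableSpace H] :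
    ∃ (ι : Type) (_ : Countable ι), Nonempty (HilbertBasis ι ℂ H) := by
  obtain ⟨w, b, hb⟩ := exists_hilbertBasis ℂ H
  have ho : Orthonormal ℂ b := b.orthonormal
  have hd : ∀ i j : w, i ≠ j → ‖b i - b j‖ ^ 2 = 2 := by
    intro i j hij
    have h1 := @norm_sub_sq ℂ H _ _ _ (b i) (b j)
    rw [ho.2 hij, ho.1 i, ho.1 j] at h1
    rw [h1]
    simp
    norm_num
  have hpd : (Set.univ : Set w).PairwiseDisjoint (fun i => Metric.ball (b i) (1 / 2)) := by
    intro i _ j _ hij
    rw [Function.onFun, Set.disjoint_left]
    intro x hx hx'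
    rw [Metric.mem_ball, dist_eq_norm] at hx hx'
    have h1 : ‖b i - b j‖ ≤ ‖x - b i‖ + ‖x - b j‖ := by
      have h2 : b i - b j = (x - b j) - (x - b i) := by abel
      rw [h2, add_comm]
      exact norm_sub_le _ _
    have h3 := hd i j hij
    have h4 := norm_nonneg (b i - b j)
    nlinarith
  have hc : (Set.univ : Set w).Countable :=
    hpd.countable_of_isOpen (fun i _ => Metric.isOpen_ball)
      (fun i _ => ⟨b i, Metric.mem_ball_self (by norm_num)⟩)
  exact ⟨w, Set.countable_univ_iff.1 hc, ⟨b⟩⟩

end Kersec

end Pool.Agent.H269
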