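import Pool.Agent.H269.DefsC
import Pool.Agent.H269.R5.J01
import Pool.Agent.H269.R5.J02
import Pool.Agent.H269.R5.J04
import Pool.Agent.H269.R5.J05
import Pool.Agent.H269.R5.J06

/-!
# R5-07 derivative of det2 (MP_f2af60_mp, infinitely many resonances in dimension five)
-/

set_option autoImplicit false

open MeasureTheory Filter Topology Complex
open scoped InnerProductSpace ENNReal NNReal

namespace Pool.Agent.H269


section HSaux

/-- A quadratic bound gives a derivative at zero. -/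
theorem hda_aux {f : ℂ → ℂ} {a : ℂ} {C δ : ℝ} (hδ : 0 < δ)
    (hf : ∀ h : ℂ, ‖h‖ ≤ δ → ‖f h - f 0 - h * a‖ ≤ C * ‖h‖ ^ 2) : HasDerivAt f a 0 := by
  rw [hasDerivAt_iff_isLittleO_nhds_zero]
  have h1 : (fun h : ℂ => f (0 + h) - f 0 - h • a) =O[𝓝 0] (fun h : ℂ => h ^ 2) := by
    apply Asymptotics.IsBigO.of_bound C
    have : ∀ᶠ h : ℂ in 𝓝 0, ‖h‖ < δ := by
      have := Metric.ball_mem_nhds (0 : ℂ) hδ
      filter_upwards [this] with h hh
      simpa using hh
    filter_upwards [this] with h hh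
    rw [norm_pow, zero_add, smul_eq_mul]
    exact hf h hh.le
  exact h1.trans_isLittleO (Asymptotics.isLittleO_pow_id one_lt_two)

end HSaux



section HSsec

variable {ι : Type} [DecidableEq ι] {H : Type} [NormedAddCommGroup H] [InnerProductSpace ℂ H]
  [CompleteSpace H] {b : HilbertBasis ι ℂ H}

theorem det2_hasDerivAt {K K' : ℂ → H →L[ℂ] H} (h : HSDiff b K K') (z : ℂ) (Y : H →L[ℂ] H)
    (h1 : (1 + K z) * Y = 1) (h2 : Y * (1 + K z) = 1) :
    HasDerivAt (fun w => det2 b (K w)) (-(Tr2 b (K z * Y) (K' z)) * det2 b (K z)) z := by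
  obtain ⟨hK, hK', hD⟩ := h
  obtain ⟨c, hc⟩ := hK z
  obtain ⟨c', hc'⟩ := hK' z
  obtain ⟨C, hC⟩ := hD z
  have hc0 : 0 ≤ c := hc.1
  have hc'0 : 0 ≤ c' := hc'.1
  have hC0 : 0 ≤ C := by
    have := (hC 1 (by simp)).1
    simpa using this
  set M : ℝ := c' + C with hM
  have hM0 : 0 ≤ M := by positivity
  -- the increment
  have hDh : ∀ h : ℂ, ‖h‖ ≤ 1 → HSle b (K (z + h) - K z) (‖h‖ * M) := by
    intro h hh
    have h3 := (hc'.smul h).add (hC h hh)
    have h4 : h • K' z + (K (z + h) - K z - h • K' z) = K (z + h) - K z := by abel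
    rw [h4] at h3
    refine h3.mono ?_
    have : ‖h‖ ^ 2 ≤ ‖h‖ := by
      rw [sq]
      exact mul_le_of_le_one_left (norm_nonneg _) hh
    rw [hM]
    nlinarith [mul_le_mul_of_nonneg_left this hC0]
  have hYh : ∀ h : ℂ, ‖h‖ ≤ 1 → HSle b (Y * (K (z + h) - K z)) (‖Y‖ * (‖h‖ * M)) := by
    intro h hh
    exact (hDh h hh).left_mul Y
  -- factorisation
  have hfac : ∀ h : ℂ, ‖h‖ ≤ 1 → det2 b (K (z + h)) =
      det2 b (K z) * (det2 b (Y * (K (z + h) - K z)) * cexp (-(Tr2 b (K z) (Y * (K (z + h) - K z))))) := by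
    intro h hh
    have h3 := det2_mul hc (hYh h hh)
    have h4 : K z + Y * (K (z + h) - K z) + K z * (Y * (K (z + h) - K z)) = K (z + h) := by
      have h5 : (1 + K z) * Y * (K (z + h) - K z) = K (z + h) - K z := by rw [h1, one_mul]
      have h6 : (1 + K z) * Y * (K (z + h) - K z)
          = Y * (K (z + h) - K z) + K z * (Y * (K (z + h) - K z)) := by
        rw [mul_assoc, add_mul, one_mul]
      rw [h6] at h5
      rw [add_assoc, h5]
      abel
    rw [h4] at h3
    rw [Complex.exp_neg, ← mul_assoc, ← h3, mul_assoc, mul_inv_cancel₀ (Complex.exp_ne_zero _), mul_one]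
  set t : ℂ := Tr2 b (K z * Y) (K' z) with ht
  -- first factor
  have hs : HasDerivAt (fun h : ℂ => det2 b (Y * (K (z + h) - K z))) 0 0 := by
    have hpos : 0 < 1 / (‖Y‖ * M + 1) := by positivity
    apply hda_aux (C := 16 * (‖Y‖ * M) ^ 2) (δ := min 1 (1 / (‖Y‖ * M + 1))) (lt_min one_pos hpos)
    intro h hh
    have hh1 : ‖h‖ ≤ 1 := hh.trans (min_le_left _ _)
    have hh2 : ‖h‖ ≤ 1 / (‖Y‖ * M + 1) := hh.trans (min_le_right _ _)
    have h3 : ‖Y‖ * (‖h‖ * M) ≤ 1 := by
      rw [le_div_iff₀ (by positivity)] at hh2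
      nlinarith [norm_nonneg h, norm_nonneg Y]
    have h4 := det2_sub_one (hYh h hh1) h3
    have h5 : det2 b (Y * (K (z + 0) - K z)) = 1 := by
      rw [add_zero, sub_self, mul_zero, det2_zero]
    rw [h5, mul_zero, sub_zero]
    refine h4.trans (le_of_eq ?_)
    ring
  -- exponent
  have hr : HasDerivAt (fun h : ℂ => -(Tr2 b (K z) (Y * (K (z + h) - K z)))) (-t) 0 := by
    have hKY : HSle b (K z * Y) (c * ‖Y‖) := hc.right_mul Y
    apply hda_aux (C := c * ‖Y‖ * C) (δ := 1) one_pos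
    intro h hh
    have h3 : ∀ h : ℂ, Tr2 b (K z) (Y * (K (z + h) - K z)) = Tr2 b (K z * Y) (K (z + h) - K z) := by
      intro h
      rw [Tr2_mul]
    rw [h3 h, h3 0, add_zero, sub_self]
    have h4 : Tr2 b (K z * Y) (0 : H →L[ℂ] H) = 0 := by
      unfold Tr2
      simp
    have h5 : Tr2 b (K z * Y) (K (z + h) - K z)
        = h * t + Tr2 b (K z * Y) (K (z + h) - K z - h • K' z) := by
      have h6 := Tr2_add_right hKY (hc'.smul h) (hC h hh)
      have h7 : h • K' z + (K (z + h) - K z - h • K' z) = K (z + h) - K z := by abel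
      rw [h7, Tr2_smul_right] at h6
      exact h6
    rw [h4, h5]
    have h8 : -(h * t + Tr2 b (K z * Y) (K (z + h) - K z - h • K' z)) - -0 - h * -t
        = -(Tr2 b (K z * Y) (K (z + h) - K z - h • K' z)) := by ring
    rw [h8, norm_neg]
    refine (Tr2_norm_le hKY (hC h hh)).trans (le_of_eq ?_)
    ring
  have hg : HasDerivAt (fun h : ℂ => det2 b (K z) * (det2 b (Y * (K (z + h) - K z)) *
      cexp (-(Tr2 b (K z) (Y * (K (z + h) - K z)))))) (-t * det2 b (K z)) 0 := by
    have h3 := (hs.mul hr.cexp).const_mul (det2 b (K z))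
    have h5 : det2 b (Y * (K (z + 0) - K z)) = 1 := by
      rw [add_zero, sub_self, mul_zero, det2_zero]
    have h6 : Tr2 b (K z) (Y * (K (z + 0) - K z)) = 0 := by
      rw [add_zero, sub_self, mul_zero]
      unfold Tr2
      simp
    refine (h3.congr_deriv ?_)
    rw [h5, h6, neg_zero, Complex.exp_zero]
    ring
  have hfin : HasDerivAt (fun h : ℂ => det2 b (K (z + h))) (-t * det2 b (K z)) 0 := by
    refine hg.congr_of_eventuallyEq ?_
    have : ∀ᶠ h : ℂ in 𝓝 0, ‖h‖ < 1 := by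
      have := Metric.ball_mem_nhds (0 : ℂ) one_pos
      filter_upwards [this] with h hh
      simpa using hh
    filter_upwards [this] with h hh
    exact hfac h hh.le
  have hfin' : HasDerivAt (fun h : ℂ => det2 b (K (z + h))) (-t * det2 b (K z)) (z - z) := by
    rw [sub_self]; exact hfin
  have hcomp := hfin'.comp_sub_const z z
  have h3 : (fun x : ℂ => det2 b (K (z + (x - z)))) = fun w => det2 b (K w) := by
    funext x
    rw [add_sub_cancel]
  rw [h3] at hcomp
  exact hcomp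


end HSsec

end Pool.Agent.H269
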