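import Pool.Agent.H269.DefsC

/-!
# R5-13 sign lemma (MP_f2af60_mp, infinitely many resonances in dimension five)
-/

set_option autoImplicit false

open MeasureTheory Filter Topology Complex
open scoped InnerProductSpace ENNReal NNReal

namespace Pool.Agent.H269


section SignAux

/-- a polynomial tending to zero along the positive reals is zero -/
theorem sign_poly_zero (P : Polynomial ℂ) (h : Tendsto (fun κ : ℝ => P.eval (κ : ℂ)) atTop (𝓝 0)) :
    P = 0 := by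
  have hcast : Tendsto (fun κ : ℝ => ‖(κ : ℂ)‖) atTop atTop := by
    simp only [Complex.norm_real]
    exact tendsto_norm_atTop_atTop
  by_cases hd : 0 < P.degree
  · have h1 := Polynomial.tendsto_norm_atTop P hd hcast
    have h2 := h.norm
    rw [norm_zero] at h2
    exact absurd h1 (not_tendsto_atTop_of_tendsto_nhds h2)
  · have h1 : P = Polynomial.C (P.coeff 0) := Polynomial.eq_C_of_degree_le_zero (not_lt.mp hd)
    have h2 : (fun κ : ℝ => P.eval (κ : ℂ)) = fun _ => P.coeff 0 := by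
      funext κ
      rw [h1]
      simp
    rw [h2] at h
    have h3 : P.coeff 0 = 0 := tendsto_nhds_unique tendsto_const_nhds h
    rw [h1, h3, Polynomial.C_0]

theorem sign_inv_tendsto (u : ℂ) : Tendsto (fun κ : ℝ => (I * (κ : ℂ) - u)⁻¹) atTop (𝓝 0) := by
  have h1 : Tendsto (fun κ : ℝ => ‖I * (κ : ℂ) - u‖) atTop atTop := by
    have h2 : Tendsto (fun κ : ℝ => κ - ‖u‖) atTop atTop := tendsto_atTop_add_const_right _ _ tendsto_id
    refine tendsto_atTop_mono ?_ h2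
    intro κ
    have h3 : ‖I * (κ : ℂ)‖ = |κ| := by
      rw [norm_mul, Complex.norm_I, one_mul, Complex.norm_real, Real.norm_eq_abs]
    have h4 := norm_sub_norm_le (I * (κ : ℂ)) u
    rw [h3] at h4
    linarith [le_abs_self κ]
  exact tendsto_inv₀_cobounded.comp (tendsto_norm_atTop_iff_cobounded.mp h1)

end SignAux



theorem sign_lemma (Q : Polynomial ℂ) (Z : Finset ℂ) (m : ℂ → ℕ) (α β C κ₁ : ℝ) (S : ℝ → ℝ)
    (E : ℝ → ℂ) (hS : ∀ κ, κ₁ ≤ κ → S κ ≤ β) (hT : Tendsto S atTop (𝓝 β))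
    (hE : ∀ κ, κ₁ ≤ κ → ‖E κ‖ ≤ C / κ ^ 2)
    (hid : ∀ κ : ℝ, κ₁ ≤ κ → I * (Q.eval (I * (κ : ℂ)) + ∑ u ∈ Z, (m u : ℂ) / (I * (κ : ℂ) - u)) =
      (α : ℂ) * (κ : ℂ) ^ 2 + (S κ : ℂ) + E κ) :
    (∀ u ∈ Z, m u = 0) ∧ I * Q.eval 0 = (β : ℂ) := by
  -- the polynomial
  set P : Polynomial ℂ := Polynomial.C I * Q.comp (Polynomial.C I * Polynomial.X)
    - Polynomial.C (α : ℂ) * Polynomial.X ^ 2 - Polynomial.C (β : ℂ) with hP
  have hPeval : ∀ κ : ℂ, P.eval κ = I * Q.eval (I * κ) - α * κ ^ 2 - β := by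
    intro κ
    simp [hP, Polynomial.eval_comp]
  have hPid : ∀ κ : ℝ, κ₁ ≤ κ → P.eval (κ : ℂ) =
      ((S κ : ℂ) - β) + E κ - I * ∑ u ∈ Z, (m u : ℂ) * (I * (κ : ℂ) - u)⁻¹ := by
    intro κ hκ
    have h1 := hid κ hκ
    rw [mul_add] at h1
    rw [hPeval]
    simp only [div_eq_mul_inv] at h1
    linear_combination h1
  have hE0 : Tendsto E atTop (𝓝 0) := by
    rw [tendsto_zero_iff_norm_tendsto_zero]
    have h1 : Tendsto (fun κ : ℝ => C / κ ^ 2) atTop (𝓝 0) :=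
      tendsto_const_nhds.div_atTop (tendsto_pow_atTop two_ne_zero)
    refine squeeze_zero' (Eventually.of_forall (fun κ => norm_nonneg _)) ?_ h1
    filter_upwards [eventually_ge_atTop κ₁] with κ hκ using hE κ hκ
  have hSβ : Tendsto (fun κ : ℝ => ((S κ : ℂ) - β)) atTop (𝓝 0) := by
    have h1 : Tendsto (fun κ : ℝ => (S κ : ℂ)) atTop (𝓝 (β : ℂ)) :=
      (Complex.continuous_ofReal.tendsto β).comp hT
    have h2 := h1.sub_const (β : ℂ)
    rwa [sub_self] at h2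
  have hsum : Tendsto (fun κ : ℝ => ∑ u ∈ Z, (m u : ℂ) * (I * (κ : ℂ) - u)⁻¹) atTop (𝓝 0) := by
    have h1 : Tendsto (fun κ : ℝ => ∑ u ∈ Z, (m u : ℂ) * (I * (κ : ℂ) - u)⁻¹) atTop
        (𝓝 (∑ u ∈ Z, (m u : ℂ) * 0)) :=
      tendsto_finsetSum _ (fun u _ => (sign_inv_tendsto u).const_mul _)
    simpa using h1
  have hP0 : P = 0 := by
    apply sign_poly_zero
    have h1 : Tendsto (fun κ : ℝ => ((S κ : ℂ) - β) + E κ - I * ∑ u ∈ Z, (m u : ℂ) * (I * (κ : ℂ) - u)⁻¹)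
        atTop (𝓝 (0 + 0 - I * 0)) := (hSβ.add hE0).sub (hsum.const_mul I)
    have h2 : (0 : ℂ) + 0 - I * 0 = 0 := by ring
    rw [h2] at h1
    refine h1.congr' ?_
    filter_upwards [eventually_ge_atTop κ₁] with κ hκ
    exact (hPid κ hκ).symm
  have hzero : I * Q.eval 0 = (β : ℂ) := by
    have h1 := hPeval 0
    rw [hP0] at h1
    simp only [Polynomial.eval_zero, mul_zero] at h1
    linear_combination -h1
  refine ⟨?_, hzero⟩
  -- the sum of the multiplicities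
  have hlim : Tendsto (fun κ : ℝ => (∑ u ∈ Z, (m u : ℂ) * (1 + u * (I * (κ : ℂ) - u)⁻¹)).re) atTop
      (𝓝 (∑ u ∈ Z, (m u : ℝ))) := by
    have h1 : Tendsto (fun κ : ℝ => ∑ u ∈ Z, (m u : ℂ) * (1 + u * (I * (κ : ℂ) - u)⁻¹)) atTop
        (𝓝 (∑ u ∈ Z, (m u : ℂ) * (1 + u * 0))) :=
      tendsto_finsetSum _ (fun u _ => ((sign_inv_tendsto u).const_mul u |>.const_add 1).const_mul _)
    have h2 := (Complex.continuous_re.tendsto _).comp h1
    have h3 : (∑ u ∈ Z, (m u : ℂ) * (1 + u * 0)).re = ∑ u ∈ Z, (m u : ℝ) := by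
      simp
    rw [h3] at h2
    exact h2
  have hbound : ∀ᶠ κ : ℝ in atTop,
      (∑ u ∈ Z, (m u : ℂ) * (1 + u * (I * (κ : ℂ) - u)⁻¹)).re ≤ C / κ := by
    have hne : ∀ᶠ κ : ℝ in atTop, ∀ u ∈ Z, I * (κ : ℂ) - u ≠ 0 := by
      filter_upwards [eventually_gt_atTop (∑ u ∈ Z, ‖u‖)] with κ hκ u hu h0
      have h1 : ‖u‖ ≤ ∑ u ∈ Z, ‖u‖ := Finset.single_le_sum (fun i _ => norm_nonneg i) hu
      have h2 : I * (κ : ℂ) = u := sub_eq_zero.mp h0
      have h3 : ‖u‖ = |κ| := by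
        rw [← h2, norm_mul, Complex.norm_I, one_mul, Complex.norm_real, Real.norm_eq_abs]
      have h4 := le_abs_self κ
      linarith
    filter_upwards [eventually_ge_atTop κ₁, eventually_gt_atTop 0, hne] with κ hκ hκ0 hne
    have h1 := hPid κ hκ
    rw [hP0, Polynomial.eval_zero] at h1
    have h2 : ∑ u ∈ Z, (m u : ℂ) * (1 + u * (I * (κ : ℂ) - u)⁻¹)
        = (κ : ℂ) * (((S κ : ℂ) - β) + E κ) := by
      have h3 : ∑ u ∈ Z, (m u : ℂ) * (1 + u * (I * (κ : ℂ) - u)⁻¹)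
          = (κ : ℂ) * (I * ∑ u ∈ Z, (m u : ℂ) * (I * (κ : ℂ) - u)⁻¹) := by
        rw [Finset.mul_sum, Finset.mul_sum]
        apply Finset.sum_congr rfl
        intro u hu
        have h4 := hne u hu
        field_simp
        ring
      rw [h3]
      have h5 : I * ∑ u ∈ Z, (m u : ℂ) * (I * (κ : ℂ) - u)⁻¹ = ((S κ : ℂ) - β) + E κ := by
        linear_combination h1
      rw [h5]
    rw [h2]
    have h6 : ((κ : ℂ) * (((S κ : ℂ) - β) + E κ)).re = κ * ((S κ - β) + (E κ).re) := by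
      rw [Complex.re_ofReal_mul]
      simp
    rw [h6]
    have h7 : (E κ).re ≤ C / κ ^ 2 := (Complex.re_le_norm _).trans (hE κ hκ)
    have h8 : κ * ((S κ - β) + (E κ).re) ≤ κ * (C / κ ^ 2) := by
      apply mul_le_mul_of_nonneg_left _ hκ0.le
      have := hS κ hκ
      linarith
    refine h8.trans (le_of_eq ?_)
    field_simp
  have hC0 : Tendsto (fun κ : ℝ => C / κ) atTop (𝓝 0) := tendsto_const_nhds.div_atTop tendsto_id
  have hle : ∑ u ∈ Z, (m u : ℝ) ≤ 0 := le_of_tendsto_of_tendsto hlim hC0 hbound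
  intro u hu
  have h1 : (m u : ℝ) ≤ ∑ u ∈ Z, (m u : ℝ) :=
    Finset.single_le_sum (f := fun u => (m u : ℝ)) (fun i _ => Nat.cast_nonneg _) hu
  have h2 : (m u : ℝ) ≤ 0 := h1.trans hle
  have h3 : (m u : ℝ) = 0 := le_antisymm h2 (Nat.cast_nonneg _)
  exact_mod_cast h3

end Pool.Agent.H269
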