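import Pool.Agent.H269.DefsC

/-!
# R5-14 product bound (MP_f2af60_mp, infinitely many resonances in dimension five)
-/

set_option autoImplicit false

open MeasureTheory Filter Topology Complex
open scoped InnerProductSpace ENNReal NNReal

namespace Pool.Agent.H269



theorem prod_bound_pow_le {y : ℝ} (hy : 0 ≤ y) (n : ℕ) :
    y ^ n / (n.factorial : ℝ) ≤ Real.exp y := by
  have h := Real.sum_le_exp_of_nonneg hy (n + 1)
  refine le_trans ?_ h
  exact Finset.single_le_sum (f := fun i => y ^ i / (i.factorial : ℝ))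
    (fun i _ => by positivity) (Finset.mem_range.2 (Nat.lt_succ_self n))

theorem prod_bound_tail {y : ℝ} (hy : 0 ≤ y) {n : ℕ} (hn : 16 * y ≤ n) :
    y ^ n / (n.factorial : ℝ) ≤ (1 / 2) ^ n := by
  have h1 := prod_bound_pow_le (show 0 ≤ 16 * y by positivity) n
  have h2 : Real.exp (16 * y) ≤ 3 ^ n := by
    calc Real.exp (16 * y) ≤ Real.exp n := Real.exp_le_exp.2 hn
      _ = Real.exp 1 ^ n := by rw [← Real.exp_nat_mul, mul_one]
      _ ≤ 3 ^ n := pow_le_pow_left₀ (Real.exp_pos _).le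
          (by linarith [Real.exp_one_lt_d9]) n
  have h3 : (16 * y) ^ n / (n.factorial : ℝ) = 16 ^ n * (y ^ n / (n.factorial : ℝ)) := by
    rw [mul_pow, mul_div_assoc]
  rw [h3] at h1
  have h4 : (3 : ℝ) ^ n ≤ 16 ^ n * (1 / 2) ^ n := by
    rw [← mul_pow]
    exact pow_le_pow_left₀ (by norm_num) (by norm_num) n
  have h5 : (0 : ℝ) < 16 ^ n := by positivity
  have h6 : 16 ^ n * (y ^ n / (n.factorial : ℝ)) ≤ 16 ^ n * (1 / 2) ^ n := by linarith
  exact le_of_mul_le_mul_left h6 h5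

theorem prod_bound_sum (F : Finset (Fin 7 → ℕ)) :
    ∑ a ∈ F, (1 / 2 : ℝ) ^ (∑ i, a i) ≤ 128 := by
  classical
  set N : ℕ := F.sup (fun a => ∑ i, a i) + 1 with hN
  have hsub : F ⊆ Fintype.piFinset (fun _ : Fin 7 => Finset.range N) := by
    intro a ha
    rw [Fintype.mem_piFinset]
    intro i
    rw [Finset.mem_range, hN, Nat.lt_succ_iff]
    have h1 : a i ≤ ∑ i, a i := Finset.single_le_sum (f := a) (fun _ _ => Nat.zero_le _)
      (Finset.mem_univ i)
    exact h1.trans (Finset.le_sup (f := fun a : Fin 7 → ℕ => ∑ i, a i) ha)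
  have h1 : ∑ j ∈ Finset.range N, (1 / 2 : ℝ) ^ j ≤ 2 := by
    have h := geom_sum_Ico_le_of_lt_one (x := (1 / 2 : ℝ)) (m := 0) (n := N) (by norm_num)
      (by norm_num)
    rw [Finset.range_eq_Ico]
    refine h.trans ?_
    norm_num
  calc ∑ a ∈ F, (1 / 2 : ℝ) ^ (∑ i, a i)
      ≤ ∑ a ∈ Fintype.piFinset (fun _ : Fin 7 => Finset.range N), (1 / 2 : ℝ) ^ (∑ i, a i) :=
        Finset.sum_le_sum_of_subset_of_nonneg hsub (fun _ _ _ => by positivity)
    _ = ∑ a ∈ Fintype.piFinset (fun _ : Fin 7 => Finset.range N), ∏ i, (1 / 2 : ℝ) ^ (a i) := by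
        refine Finset.sum_congr rfl fun a _ => ?_
        rw [Finset.prod_pow_eq_pow_sum]
    _ = ∏ _i : Fin 7, ∑ j ∈ Finset.range N, (1 / 2 : ℝ) ^ j := by
        rw [Finset.prod_univ_sum]
    _ ≤ ∏ _i : Fin 7, (2 : ℝ) := Finset.prod_le_prod (fun _ _ => by positivity) (fun _ _ => h1)
    _ = 128 := by simp; norm_num

theorem prod_bound (A B : ℝ) (hA : 0 ≤ A) (hB : 0 ≤ B) :
    ∃ C : ℝ, ∀ x : ℝ, 0 ≤ x → ∀ F : Finset (Fin 7 → ℕ),
      ∏ a ∈ F, (1 + B * (A ^ (∑ i, a i) * x ^ (2 * (∑ i, a i) + 3) /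
        ((2 * (∑ i, a i) + 1).factorial : ℝ))) ≤ Real.exp (C * (1 + x) ^ 9) := by
  classical
  set c : ℝ := A + 1 with hc
  have hc1 : 1 ≤ c := by linarith
  refine ⟨(16 * c + 1) ^ 7 * (c + B) + 128 * B, fun x hx F => ?_⟩
  set K0 : ℕ := ⌈16 * c * (1 + x)⌉₊ with hK0
  have hK0l : 16 * c * (1 + x) ≤ K0 := Nat.le_ceil _
  have hK0u : (K0 : ℝ) ≤ (16 * c + 1) * (1 + x) := by
    have h := (Nat.ceil_lt_add_one (show 0 ≤ 16 * c * (1 + x) by positivity)).le
    refine h.trans ?_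
    nlinarith
  set y : ℝ := c * x with hy
  have hy0 : 0 ≤ y := by positivity
  -- the terms
  have hAk : ∀ k : ℕ, A ^ k * x ^ (2 * k + 3) / ((2 * k + 1).factorial : ℝ)
      ≤ x ^ 2 * (y ^ (2 * k + 1) / ((2 * k + 1).factorial : ℝ)) := by
    intro k
    have h1 : A ^ k ≤ c ^ (2 * k + 1) := by
      calc A ^ k ≤ c ^ k := pow_le_pow_left₀ hA (by linarith) k
        _ ≤ c ^ (2 * k + 1) := pow_le_pow_right₀ hc1 (by omega)
    have h2 : A ^ k * x ^ (2 * k + 3) ≤ x ^ 2 * y ^ (2 * k + 1) := by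
      rw [hy, mul_pow, show 2 * k + 3 = 2 + (2 * k + 1) by ring, pow_add x 2]
      have h3 : 0 ≤ x ^ 2 * x ^ (2 * k + 1) := by positivity
      calc A ^ k * (x ^ 2 * x ^ (2 * k + 1)) ≤ c ^ (2 * k + 1) * (x ^ 2 * x ^ (2 * k + 1)) :=
            mul_le_mul_of_nonneg_right h1 h3
        _ = x ^ 2 * (c ^ (2 * k + 1) * x ^ (2 * k + 1)) := by ring
    rw [← mul_div_assoc]
    exact div_le_div_of_nonneg_right h2 (by positivity)
  set D : ℝ := (c + B) * (1 + x) ^ 2 with hD
  have hD0 : 0 ≤ D := by positivity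
  have hfac : ∀ a ∈ F, 1 + B * (A ^ (∑ i, a i) * x ^ (2 * (∑ i, a i) + 3) /
        ((2 * (∑ i, a i) + 1).factorial : ℝ))
      ≤ Real.exp ((if (∑ i, a i) < K0 then D else 0) + B * x ^ 2 * (1 / 2) ^ (∑ i, a i)) := by
    intro a _
    set k := ∑ i, a i with hk
    have h1 := mul_le_mul_of_nonneg_left (hAk k) hB
    have h2 : 0 ≤ B * x ^ 2 * (1 / 2) ^ k := by positivity
    split_ifs with hkK
    · have h3 := prod_bound_pow_le hy0 (2 * k + 1)
      have h4 : 1 + B * (x ^ 2 * Real.exp y) ≤ Real.exp (y + B * x ^ 2) := by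
        have h5 : 1 ≤ Real.exp y := Real.one_le_exp hy0
        have h6 : 1 + B * x ^ 2 ≤ Real.exp (B * x ^ 2) := by
          have := Real.add_one_le_exp (B * x ^ 2)
          linarith
        calc 1 + B * (x ^ 2 * Real.exp y) ≤ Real.exp y * (1 + B * x ^ 2) := by
              have : 0 ≤ B * x ^ 2 := by positivity
              nlinarith
          _ ≤ Real.exp y * Real.exp (B * x ^ 2) :=
              mul_le_mul_of_nonneg_left h6 (Real.exp_pos _).le
          _ = Real.exp (y + B * x ^ 2) := by rw [Real.exp_add]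
      have h7 : B * (x ^ 2 * (y ^ (2 * k + 1) / ((2 * k + 1).factorial : ℝ)))
          ≤ B * (x ^ 2 * Real.exp y) :=
        mul_le_mul_of_nonneg_left (mul_le_mul_of_nonneg_left h3 (by positivity)) hB
      have h8 : y + B * x ^ 2 ≤ D + B * x ^ 2 * (1 / 2) ^ k := by
        have h9 : y + B * x ^ 2 ≤ D := by
          rw [hy, hD]
          nlinarith [mul_nonneg hB hx, mul_nonneg (by linarith : (0 : ℝ) ≤ c) hx,
            mul_nonneg (mul_nonneg (by linarith : (0 : ℝ) ≤ c) hx) hx]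
        linarith
      calc _ ≤ 1 + B * (x ^ 2 * Real.exp y) := by linarith
        _ ≤ Real.exp (y + B * x ^ 2) := h4
        _ ≤ _ := Real.exp_le_exp.2 h8
    · push Not at hkK
      have hkr : (K0 : ℝ) ≤ k := by exact_mod_cast hkK
      have h3 : y ^ (2 * k + 1) / ((2 * k + 1).factorial : ℝ) ≤ (1 / 2) ^ (2 * k + 1) := by
        apply prod_bound_tail hy0
        push_cast
        rw [hy]
        nlinarith [(Nat.cast_nonneg k : (0 : ℝ) ≤ k)]
      have h4 : ((1 : ℝ) / 2) ^ (2 * k + 1) ≤ (1 / 2) ^ k :=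
        pow_le_pow_of_le_one (by norm_num) (by norm_num) (by omega)
      have h5 : B * (x ^ 2 * (y ^ (2 * k + 1) / ((2 * k + 1).factorial : ℝ)))
          ≤ B * x ^ 2 * (1 / 2) ^ k := by
        rw [mul_assoc]
        exact mul_le_mul_of_nonneg_left
          (mul_le_mul_of_nonneg_left (h3.trans h4) (by positivity)) hB
      have h6 := Real.add_one_le_exp (B * x ^ 2 * (1 / 2) ^ k)
      rw [zero_add]
      linarith
  have hcard : ((F.filter fun a => (∑ i, a i) < K0).card : ℝ) ≤ (K0 : ℝ) ^ 7 := by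
    have hsub : (F.filter fun a => (∑ i, a i) < K0)
        ⊆ Fintype.piFinset (fun _ : Fin 7 => Finset.range K0) := by
      intro a ha
      rw [Finset.mem_filter] at ha
      rw [Fintype.mem_piFinset]
      intro i
      rw [Finset.mem_range]
      exact lt_of_le_of_lt (Finset.single_le_sum (f := a) (fun _ _ => Nat.zero_le _)
        (Finset.mem_univ i)) ha.2
    have h := Finset.card_le_card hsub
    rw [Fintype.card_piFinset] at h
    simp only [Finset.card_range, Finset.prod_const, Finset.card_univ, Fintype.card_fin] at h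
    exact_mod_cast h
  have hx1 : 1 ≤ 1 + x := by linarith
  calc ∏ a ∈ F, (1 + B * (A ^ (∑ i, a i) * x ^ (2 * (∑ i, a i) + 3) /
        ((2 * (∑ i, a i) + 1).factorial : ℝ)))
      ≤ ∏ a ∈ F, Real.exp ((if (∑ i, a i) < K0 then D else 0)
          + B * x ^ 2 * (1 / 2) ^ (∑ i, a i)) :=
        Finset.prod_le_prod (fun a _ => by positivity) hfac
    _ = Real.exp (∑ a ∈ F, ((if (∑ i, a i) < K0 then D else 0)
          + B * x ^ 2 * (1 / 2) ^ (∑ i, a i))) := by rw [Real.exp_sum]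
    _ ≤ _ := by
        apply Real.exp_le_exp.2
        rw [Finset.sum_add_distrib, ← Finset.mul_sum, ← Finset.sum_filter, Finset.sum_const,
          nsmul_eq_mul]
        have h1 := prod_bound_sum F
        have h2 : B * x ^ 2 * ∑ a ∈ F, (1 / 2 : ℝ) ^ (∑ i, a i) ≤ B * x ^ 2 * 128 :=
          mul_le_mul_of_nonneg_left h1 (by positivity)
        have h3 : ((F.filter fun a => (∑ i, a i) < K0).card : ℝ) * D
            ≤ ((16 * c + 1) * (1 + x)) ^ 7 * D :=
          mul_le_mul_of_nonneg_right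
            (hcard.trans (pow_le_pow_left₀ (Nat.cast_nonneg _) hK0u 7)) hD0
        have h4 : ((16 * c + 1) * (1 + x)) ^ 7 * D = (16 * c + 1) ^ 7 * (c + B) * (1 + x) ^ 9 := by
          rw [hD]; ring
        have h5 : x ^ 2 ≤ (1 + x) ^ 9 := by
          calc x ^ 2 ≤ (1 + x) ^ 2 := pow_le_pow_left₀ hx (by linarith) 2
            _ ≤ (1 + x) ^ 9 := pow_le_pow_right₀ hx1 (by norm_num)
        have h6 : B * x ^ 2 * 128 ≤ 128 * B * (1 + x) ^ 9 := by
          have := mul_le_mul_of_nonneg_left h5 (show 0 ≤ 128 * B by positivity)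
          linarith
        rw [h4] at h3
        rw [add_mul]
        linarith

end Pool.Agent.H269
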