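import Pool.Agent.H269.DefsC
import Pool.Agent.H269.R5.J01
import Pool.Agent.H269.R5.J17

/-!
# R5-18 trace of the product of two kernel operators (MP_f2af60_mp, infinitely many resonances in dimension five)
-/

set_option autoImplicit false

open MeasureTheory Filter Topology Complex
open scoped InnerProductSpace ENNReal NNReal

namespace Pool.Agent.H269


section Kaux

variable {E : Type} [MeasurableSpace E] {μ : Measure E} [IsFiniteMeasure μ]

theorem tk_memLp {k : E → E → ℂ} (hk : Measurable (Function.uncurry k))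
    (hk2 : ∫⁻ x, ∫⁻ y, ‖k x y‖ₑ ^ 2 ∂μ ∂μ < ∞) :
    MemLp (fun p : E × E => k p.1 p.2) 2 (μ.prod μ) := by
  have hk' : Measurable (fun p : E × E => k p.1 p.2) := hk
  rw [memLp_two_iff_integrable_sq_norm hk'.aestronglyMeasurable]
  refine ⟨(hk'.norm.pow_const 2).aestronglyMeasurable, ?_⟩
  unfold HasFiniteIntegral
  have e : ∫⁻ p, ‖‖k p.1 p.2‖ ^ 2‖ₑ ∂(μ.prod μ) = ∫⁻ x, ∫⁻ y, ‖k x y‖ₑ ^ 2 ∂μ ∂μ := by
    rw [lintegral_prod _ ((hk'.norm.pow_const 2).enorm.aemeasurable)]
    refine lintegral_congr fun x => lintegral_congr fun y => ?_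
    simp only [enorm_pow, enorm_norm]
  rw [e]
  exact hk2

theorem tk_inner (g : Lp ℂ 2 μ) {f : E → ℂ} (hf : MemLp f 2 μ) :
    ⟪g, hf.toLp f⟫_ℂ = ∫ x, (starRingEnd ℂ) (g x) * f x ∂μ := by
  rw [L2.inner_def]
  refine integral_congr_ae ?_
  filter_upwards [hf.coeFn_toLp] with x hx
  rw [RCLike.inner_apply', hx]

theorem tk_parseval {ι : Type} (b : HilbertBasis ι ℂ (Lp ℂ 2 μ)) (f : Lp ℂ 2 μ) :
    HasSum (fun i => ‖⟪b i, f⟫_ℂ‖ ^ 2) (‖f‖ ^ 2) := by
  have h := b.hasSum_inner_mul_inner f f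
  rw [inner_self_eq_norm_sq_to_K] at h
  have e : (fun i => ⟪f, b i⟫_ℂ * ⟪b i, f⟫_ℂ) = fun i => ((‖⟪b i, f⟫_ℂ‖ ^ 2 : ℝ) : ℂ) := by
    funext i
    rw [← inner_conj_symm f (b i), mul_comm, RCLike.mul_conj]
    push_cast
    rfl
  rw [e] at h
  have h' : HasSum (fun i => ((‖⟪b i, f⟫_ℂ‖ ^ 2 : ℝ) : ℂ)) ((‖f‖ ^ 2 : ℝ) : ℂ) := by
    rw [Complex.ofReal_pow]
    exact h
  exact Complex.hasSum_ofReal.mp h'

theorem tk_norm {f : E → ℂ} (hf : MemLp f 2 μ) : ‖hf.toLp f‖ ^ 2 = ∫ x, ‖f x‖ ^ 2 ∂μ := by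
  have h1 : ((‖hf.toLp f‖ ^ 2 : ℝ) : ℂ) = ((∫ x, ‖f x‖ ^ 2 ∂μ : ℝ) : ℂ) := by
    have h2 := inner_self_eq_norm_sq_to_K (𝕜 := ℂ) (hf.toLp f)
    rw [tk_inner] at h2
    push_cast
    refine Eq.trans h2.symm ?_
    refine Eq.trans ?_ (integral_ofReal (𝕜 := ℂ))
    refine integral_congr_ae ?_
    filter_upwards [hf.coeFn_toLp] with x hx
    rw [hx, mul_comm, RCLike.mul_conj]
    exact (RCLike.ofReal_pow _ _).symm
  exact_mod_cast h1

end Kaux

section Kersec

variable {E : Type} [MeasurableSpace E] {μ : Measure E} [IsFiniteMeasure μ]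

theorem Tr2_isKer {ι : Type} [DecidableEq ι] [Countable ι] (b : HilbertBasis ι ℂ (Lp ℂ 2 μ))
    {k m : E → E → ℂ} (hk : Measurable (Function.uncurry k)) (hm : Measurable (Function.uncurry m))
    {A B : Lp ℂ 2 μ →L[ℂ] Lp ℂ 2 μ} (hA : IsKer μ k A) (hB : IsKer μ m B)
    (hk2 : ∫⁻ x, ∫⁻ y, ‖k x y‖ₑ ^ 2 ∂μ ∂μ < ∞) (hm2 : ∫⁻ x, ∫⁻ y, ‖m x y‖ₑ ^ 2 ∂μ ∂μ < ∞) :
    Tr2 b A B = ∫ x, ∫ y, k x y * m y x ∂μ ∂μ := by
  have hk' : Measurable (fun p : E × E => k p.1 p.2) := hk
  have hm' : Measurable (fun p : E × E => m p.1 p.2) := hm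
  have Lk := tk_memLp hk hk2
  have Lm := tk_memLp hm hm2
  have Lms : MemLp (fun p : E × E => m p.2 p.1) 2 (μ.prod μ) :=
    Lm.comp_measurePreserving Measure.measurePreserving_swap
  -- the two coefficient functions
  obtain ⟨a, ha⟩ : ∃ a : ι → E → ℂ, a = fun i y => ∫ x, (starRingEnd ℂ) (b i x) * k x y ∂μ :=
    ⟨_, rfl⟩
  obtain ⟨c, hc⟩ : ∃ c : ι → E → ℂ, c = fun i y => ∫ x, m y x * b i x ∂μ := ⟨_, rfl⟩
  have hb : ∀ i, Measurable (b i : E → ℂ) := fun i => (Lp.stronglyMeasurable (b i)).measurable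
  have hbL : ∀ i, MemLp (b i : E → ℂ) 2 μ := fun i => Lp.memLp (b i)
  have hcae : ∀ i, (B (b i) : E → ℂ) =ᵐ[μ] c i := by
    intro i
    rw [hc]
    exact (hB (b i)).2
  have hcm : ∀ i, StronglyMeasurable (c i) := by
    intro i
    rw [hc]
    have : Measurable (fun p : E × E => m p.1 p.2 * b i p.2) :=
      hm'.mul ((hb i).comp measurable_snd)
    exact this.stronglyMeasurable.integral_prod_right'
  have ham : ∀ i, StronglyMeasurable (a i) := by
    intro i
    rw [ha]
    have : Measurable (fun p : E × E => (starRingEnd ℂ) (b i p.1) * k p.1 p.2) :=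
      ((Complex.continuous_conj.measurable.comp (hb i)).comp measurable_fst).mul hk'
    exact this.stronglyMeasurable.integral_prod_left'
  have hcL : ∀ i, MemLp (c i) 2 μ := fun i => (memLp_congr_ae (hcae i)).mp (Lp.memLp (B (b i)))
  -- sections
  have S1 : ∀ᵐ y ∂μ, MemLp (fun x => k x y) 2 μ := by
    have h1 := (memLp_two_iff_integrable_sq_norm Lk.aestronglyMeasurable).mp Lk
    filter_upwards [h1.prod_left_ae] with y hy
    rw [memLp_two_iff_integrable_sq_norm]
    · exact hy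
    · exact (hk'.comp (measurable_id.prodMk measurable_const)).aestronglyMeasurable
  have S2 : ∀ᵐ y ∂μ, MemLp (fun x => (starRingEnd ℂ) (m y x)) 2 μ := by
    have h1 := (memLp_two_iff_integrable_sq_norm Lm.aestronglyMeasurable).mp Lm
    filter_upwards [h1.prod_right_ae] with y hy
    rw [memLp_two_iff_integrable_sq_norm]
    · simpa using hy
    · exact (Complex.continuous_conj.measurable.comp
        (hm'.comp (measurable_const.prodMk measurable_id))).aestronglyMeasurable
  have aK : ∀ (y : E) (hy : MemLp (fun x => k x y) 2 μ) (i : ι), a i y = ⟪b i, hy.toLp _⟫_ℂ := by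
    intro y hy i
    rw [tk_inner, ha]
  have cM : ∀ (y : E) (hy : MemLp (fun x => (starRingEnd ℂ) (m y x)) 2 μ) (i : ι),
      c i y = ⟪hy.toLp _, b i⟫_ℂ := by
    intro y hy i
    rw [← inner_conj_symm, tk_inner, hc, ← integral_conj]
    refine integral_congr_ae (Eventually.of_forall fun x => ?_)
    simp only [map_mul, Complex.conj_conj]
    ring
  -- each term
  have T : ∀ i, ⟪b i, A (B (b i))⟫_ℂ = ∫ y, a i y * c i y ∂μ := by
    intro i
    rw [L2.inner_def]
    have e1 : ∫ x, ⟪b i x, A (B (b i)) x⟫_ℂ ∂μ =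
        ∫ x, ∫ y, (starRingEnd ℂ) (b i x) * (k x y * c i y) ∂μ ∂μ := by
      refine integral_congr_ae ?_
      filter_upwards [(hA (B (b i))).2] with x hx
      rw [RCLike.inner_apply', hx, integral_const_mul]
      congr 1
      refine integral_congr_ae ?_
      filter_upwards [hcae i] with y hy
      rw [hy]
    rw [e1]
    have hint : Integrable (Function.uncurry fun x y => (starRingEnd ℂ) (b i x) * (k x y * c i y))
        (μ.prod μ) := by
      have l1 : MemLp (fun p : E × E => (starRingEnd ℂ) (b i p.1) * c i p.2) 2 (μ.prod μ) := by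
        have m1 : Measurable (fun p : E × E => (starRingEnd ℂ) (b i p.1) * c i p.2) :=
          ((Complex.continuous_conj.measurable.comp (hb i)).comp measurable_fst).mul
            ((hcm i).measurable.comp measurable_snd)
        rw [memLp_two_iff_integrable_sq_norm m1.aestronglyMeasurable]
        have i1 := (memLp_two_iff_integrable_sq_norm (hbL i).aestronglyMeasurable).mp (hbL i)
        have i2 := (memLp_two_iff_integrable_sq_norm (hcL i).aestronglyMeasurable).mp (hcL i)
        refine (i1.mul_prod i2).congr (Eventually.of_forall fun p => ?_)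
        simp [mul_pow]
      have l2 := Lk.integrable_mul l1
      refine l2.congr (Eventually.of_forall fun p => ?_)
      simp only [Function.uncurry, Pi.mul_apply]
      ring
    rw [integral_integral_swap hint]
    refine integral_congr_ae (Eventually.of_forall fun y => ?_)
    simp only [ha]
    rw [← integral_mul_const]
    refine integral_congr_ae (Eventually.of_forall fun x => ?_)
    simp only
    ring
  -- interchange
  have HS : HasSum (fun i => ∫ y, a i y * c i y ∂μ) (∫ y, ∫ x, m y x * k x y ∂μ ∂μ) := by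
    have PS : ∀ᵐ y ∂μ, HasSum (fun i => (‖a i y‖ ^ 2 + ‖c i y‖ ^ 2) / 2)
        (((∫ x, ‖k x y‖ ^ 2 ∂μ) + ∫ x, ‖m y x‖ ^ 2 ∂μ) / 2) := by
      filter_upwards [S1, S2] with y h1 h2
      have p1 := tk_parseval b (h1.toLp _)
      have p2 := tk_parseval b (h2.toLp _)
      rw [tk_norm] at p1 p2
      have q1 : (fun i => ‖a i y‖ ^ 2) = fun i => ‖⟪b i, h1.toLp _⟫_ℂ‖ ^ 2 := by
        funext i
        rw [aK y h1 i]
      have q2 : (fun i => ‖c i y‖ ^ 2) = fun i => ‖⟪b i, h2.toLp _⟫_ℂ‖ ^ 2 := by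
        funext i
        rw [cM y h2 i, norm_inner_symm]
      have q3 : ∫ x, ‖(starRingEnd ℂ) (m y x)‖ ^ 2 ∂μ = ∫ x, ‖m y x‖ ^ 2 ∂μ := by simp
      rw [q3] at p2
      rw [← q1] at p1
      rw [← q2] at p2
      exact (p1.add p2).div_const 2
    refine hasSum_integral_of_dominated_convergence
      (fun i y => (‖a i y‖ ^ 2 + ‖c i y‖ ^ 2) / 2) ?_ ?_ ?_ ?_ ?_
    · intro i
      exact ((ham i).mul (hcm i)).aestronglyMeasurable
    · intro i
      refine Eventually.of_forall fun y => ?_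
      rw [norm_mul]
      nlinarith [sq_nonneg (‖a i y‖ - ‖c i y‖)]
    · filter_upwards [PS] with y hy
      exact hy.summable
    · have h1 := (memLp_two_iff_integrable_sq_norm Lk.aestronglyMeasurable).mp Lk
      have h2 := (memLp_two_iff_integrable_sq_norm Lm.aestronglyMeasurable).mp Lm
      have h3 := (h1.integral_prod_right.add h2.integral_prod_left).div_const 2
      refine h3.congr ?_
      filter_upwards [PS] with y hy
      rw [hy.tsum_eq]
      simp
    · filter_upwards [S1, S2] with y h1 h2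
      have p := b.hasSum_inner_mul_inner (h2.toLp _) (h1.toLp _)
      have e : ⟪h2.toLp _, h1.toLp _⟫_ℂ = ∫ x, m y x * k x y ∂μ := by
        rw [tk_inner]
        refine integral_congr_ae ?_
        filter_upwards [h2.coeFn_toLp] with x hx
        rw [hx, Complex.conj_conj]
      rw [e] at p
      refine p.congr_fun ?_
      intro i
      rw [aK y h1 i, cM y h2 i, mul_comm]
  have F : ∫ y, ∫ x, m y x * k x y ∂μ ∂μ = ∫ x, ∫ y, k x y * m y x ∂μ ∂μ := by
    have hint : Integrable (Function.uncurry fun x y => k x y * m y x) (μ.prod μ) :=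
      Lk.integrable_mul Lms
    rw [integral_integral_swap hint]
    refine integral_congr_ae (Eventually.of_forall fun y => ?_)
    refine integral_congr_ae (Eventually.of_forall fun x => ?_)
    simp only
    ring
  rw [← F, ← HS.tsum_eq]
  unfold Tr2
  exact tsum_congr T

end Kersec

end Pool.Agent.H269
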