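import Pool.Agent.H269.DefsC

/-!
# R5-20 radial integrals in dimension five (MP_f2af60_mp, infinitely many resonances in dimension five)
-/

set_option autoImplicit false

open MeasureTheory Filter Topology Complex
open scoped InnerProductSpace ENNReal NNReal

namespace Pool.Agent.H269



theorem ri_aux (j : ℕ) {β : ℝ} (hβ : 0 < β) :
    IntegrableOn (fun t : ℝ => t ^ j * Real.exp (-β * t)) (Set.Ioi 0) ∧
      ∫ t in Set.Ioi (0 : ℝ), t ^ j * Real.exp (-β * t) = (j.factorial : ℝ) / β ^ (j + 1) := by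
  constructor
  · have h := integrableOn_rpow_mul_exp_neg_mul_rpow (p := 1) (s := (j : ℝ)) (b := β)
      (by have : (0 : ℝ) ≤ j := Nat.cast_nonneg j
          linarith) one_pos hβ
    refine h.congr_fun (fun t _ => ?_) measurableSet_Ioi
    simp only [Real.rpow_natCast, Real.rpow_one]
  · have h := Real.integral_rpow_mul_exp_neg_mul_Ioi (a := (j : ℝ) + 1) (r := β) (by positivity) hβ
    have e1 : ∀ t : ℝ, t ^ ((j : ℝ) + 1 - 1) * Real.exp (-(β * t)) = t ^ j * Real.exp (-β * t) := by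
      intro t
      rw [add_sub_cancel_right, Real.rpow_natCast, neg_mul]
    simp only [e1] at h
    rw [h, Real.Gamma_nat_eq_factorial]
    have e2 : ((j : ℝ) + 1) = ((j + 1 : ℕ) : ℝ) := by push_cast; ring
    rw [e2, Real.rpow_natCast, one_div, inv_pow]
    ring

theorem ri_main (n j : ℕ) (hnj : n + j = 4) {β : ℝ} (hβ : 0 < β) :
    ∫⁻ x : E5, ENNReal.ofReal (Real.exp (-β * ‖x‖) / ‖x‖ ^ n) =
      ENNReal.ofReal (5 * (volume : Measure E5).real (Metric.ball 0 1) *
        ((j.factorial : ℝ) / β ^ (j + 1))) := by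
  have hdim : Module.finrank ℝ E5 = 5 := by simp [E5]
  have hc : Set.EqOn (fun t : ℝ => t ^ j * Real.exp (-β * t))
      (fun t : ℝ => t ^ (Module.finrank ℝ E5 - 1) • (Real.exp (-β * t) / t ^ n)) (Set.Ioi 0) := by
    intro t ht
    have ht0 : (0 : ℝ) < t := ht
    simp only [hdim, smul_eq_mul]
    have : t ^ (5 - 1) = t ^ n * t ^ j := by
      rw [← pow_add, hnj]
    rw [this]
    field_simp
  obtain ⟨h1, h2⟩ := ri_aux j hβ
  have hint : Integrable (fun x : E5 => Real.exp (-β * ‖x‖) / ‖x‖ ^ n) := by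
    have := (integrable_fun_norm_addHaar (volume : Measure E5)
      (f := fun t : ℝ => Real.exp (-β * t) / t ^ n)).2
    exact this (h1.congr_fun hc measurableSet_Ioi)
  rw [← ofReal_integral_eq_lintegral_ofReal hint
    (Eventually.of_forall fun x => by
      change 0 ≤ Real.exp (-β * ‖x‖) / ‖x‖ ^ n
      positivity)]
  congr 1
  have h3 := integral_fun_norm_addHaar (volume : Measure E5)
    (fun t : ℝ => Real.exp (-β * t) / t ^ n)
  rw [h3, ← setIntegral_congr_fun measurableSet_Ioi hc, h2, hdim, nsmul_eq_mul, smul_eq_mul]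
  push_cast
  ring

theorem radial_int : ∃ c : ℝ, 0 < c ∧ ∀ β : ℝ, 0 < β →
    (∫⁻ x : E5, ENNReal.ofReal (Real.exp (-β * ‖x‖) / ‖x‖ ^ 4) = ENNReal.ofReal (c / β)) ∧
    (∫⁻ x : E5, ENNReal.ofReal (Real.exp (-β * ‖x‖) / ‖x‖ ^ 3) = ENNReal.ofReal (c / β ^ 2)) ∧
    (∫⁻ x : E5, ENNReal.ofReal (Real.exp (-β * ‖x‖) / ‖x‖ ^ 2) = ENNReal.ofReal (2 * c / β ^ 3)) := by
  refine ⟨5 * (volume : Measure E5).real (Metric.ball 0 1), ?_, fun β hβ => ⟨?_, ?_, ?_⟩⟩
  · have : 0 < (volume : Measure E5).real (Metric.ball 0 1) :=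
      ENNReal.toReal_pos (Metric.measure_ball_pos _ _ one_pos).ne' measure_ball_lt_top.ne
    positivity
  · rw [ri_main 4 0 rfl hβ]
    congr 1
    simp [div_eq_mul_inv]
  · rw [ri_main 3 1 rfl hβ]
    congr 1
    simp [div_eq_mul_inv]
  · rw [ri_main 2 2 rfl hβ]
    congr 1
    simp [div_eq_mul_inv, Nat.factorial]
    ring

end Pool.Agent.H269
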