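import Pool.Agent.H269.DefsC
import Pool.Agent.H269.R5.J15
import Pool.Agent.H269.R5.J17
import Pool.Agent.H269.R5.J20

/-!
# R5-21 product of two singular kernel operators is HS (MP_f2af60_mp, infinitely many resonances in dimension five)
-/

set_option autoImplicit false

open MeasureTheory Filter Topology Complex
open scoped InnerProductSpace ENNReal NNReal

namespace Pool.Agent.H269


section aux648

open ENNReal in
/-- Cauchy-Schwarz for lower integrals -/
theorem cs_648 {α : Type*} [MeasurableSpace α] {μ : Measure α} {u v : α → ℝ≥0∞}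
    (hu : AEMeasurable u μ) (hv : AEMeasurable v μ) :
    (∫⁻ z, u z * v z ∂μ) ^ 2 ≤ (∫⁻ z, u z ^ 2 ∂μ) * (∫⁻ z, v z ^ 2 ∂μ) := by
  have h := ENNReal.lintegral_mul_le_Lp_mul_Lq μ Real.HolderConjugate.two_two hu hv
  have h2 : (∫⁻ z, u z * v z ∂μ) ≤ (∫⁻ z, u z ^ 2 ∂μ) ^ (1 / (2 : ℝ)) *
      (∫⁻ z, v z ^ 2 ∂μ) ^ (1 / (2 : ℝ)) := by
    refine h.trans (le_of_eq ?_)
    have e : ∀ w : α → ℝ≥0∞, (fun a => w a ^ (2 : ℝ)) = fun a => w a ^ 2 := fun w => by
      funext a; exact ENNReal.rpow_two _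
    rw [e u, e v]
  calc (∫⁻ z, u z * v z ∂μ) ^ 2 ≤ ((∫⁻ z, u z ^ 2 ∂μ) ^ (1 / (2 : ℝ)) *
      (∫⁻ z, v z ^ 2 ∂μ) ^ (1 / (2 : ℝ))) ^ 2 := by gcongr
    _ = _ := by
      rw [mul_pow, ← ENNReal.rpow_two, ← ENNReal.rpow_two, ← ENNReal.rpow_mul,
        ← ENNReal.rpow_mul]
      norm_num

variable {E : Type} [MeasurableSpace E] {μ : Measure E} [IsFiniteMeasure μ]

theorem measurable_prodKer_648 {k m : E → E → ℂ} (hk : Measurable (Function.uncurry k))
    (hm : Measurable (Function.uncurry m)) :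
    Measurable (Function.uncurry fun x y => ∫ z, k x z * m z y ∂μ) := by
  have h1 : Measurable (fun p : (E × E) × E => k p.1.1 p.2 * m p.2 p.1.2) := by
    have e1 : Measurable (fun p : (E × E) × E => k p.1.1 p.2) :=
      hk.comp (measurable_fst.fst.prodMk measurable_snd)
    have e2 : Measurable (fun p : (E × E) × E => m p.2 p.1.2) :=
      hm.comp (measurable_snd.prodMk measurable_fst.snd)
    exact e1.mul e2
  exact (h1.stronglyMeasurable.integral_prod_right' (ν := μ)).measurable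

theorem isKer_mul_648 {k m : E → E → ℂ} (hk : Measurable (Function.uncurry k))
    (hm : Measurable (Function.uncurry m)) {S : ℝ≥0∞} (hS : S ≠ ∞)
    (h1 : ∀ z, ∫⁻ x, ‖k x z‖ₑ ∂μ ≤ S) (h2 : ∀ y, ∫⁻ z, ‖m z y‖ₑ ∂μ ≤ S)
    {A B : Lp ℂ 2 μ →L[ℂ] Lp ℂ 2 μ} (hA : IsKer μ k A) (hB : IsKer μ m B) :
    IsKer μ (fun x y => ∫ z, k x z * m z y ∂μ) (A * B) := by
  intro f
  have hf : Measurable (f : E → ℂ) := (Lp.stronglyMeasurable f).measurable
  have hfint : Integrable (f : E → ℂ) μ :=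
    (Lp.memLp f).integrable (by norm_num)
  have hkz : ∀ z, Measurable (fun x => ‖k x z‖ₑ) := fun z =>
    (hk.comp (measurable_id.prodMk measurable_const)).enorm
  have hkx : ∀ x, Measurable (fun z => k x z) := fun x =>
    hk.comp (measurable_const.prodMk measurable_id)
  have hmz : ∀ z, Measurable (fun y => m z y) := fun z =>
    hm.comp (measurable_const.prodMk measurable_id)
  have hmy : ∀ y, Measurable (fun z => ‖m z y‖ₑ) := fun y =>
    (hm.comp (measurable_id.prodMk measurable_const)).enorm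
  -- the inner lower integral
  have hgm : Measurable (Function.uncurry fun z y => ‖m z y‖ₑ * ‖f y‖ₑ) :=
    hm.enorm.mul (hf.comp measurable_snd).enorm
  set g : E → ℝ≥0∞ := fun z => ∫⁻ y, ‖m z y‖ₑ * ‖f y‖ₑ ∂μ with hg
  have hgmeas : Measurable g := hgm.lintegral_prod_right'
  have hgfin : ∫⁻ z, g z ∂μ ≤ S * ∫⁻ y, ‖f y‖ₑ ∂μ := by
    rw [hg, lintegral_lintegral_swap hgm.aemeasurable]
    calc ∫⁻ y, ∫⁻ z, ‖m z y‖ₑ * ‖f y‖ₑ ∂μ ∂μ = ∫⁻ y, (∫⁻ z, ‖m z y‖ₑ ∂μ) * ‖f y‖ₑ ∂μ := by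
          refine lintegral_congr fun y => ?_
          rw [lintegral_mul_const _ (hmy y)]
      _ ≤ ∫⁻ y, S * ‖f y‖ₑ ∂μ := lintegral_mono fun y => by gcongr; exact h2 y
      _ = S * ∫⁻ y, ‖f y‖ₑ ∂μ := lintegral_const_mul _ hf.enorm
  have hkg : Measurable (Function.uncurry fun x z => ‖k x z‖ₑ * g z) :=
    hk.enorm.mul (hgmeas.comp measurable_snd)
  have htot : ∫⁻ x, ∫⁻ z, ‖k x z‖ₑ * g z ∂μ ∂μ ≠ ∞ := by
    rw [lintegral_lintegral_swap hkg.aemeasurable]
    refine ne_top_of_le_ne_top (b := S * (S * ∫⁻ y, ‖f y‖ₑ ∂μ)) ?_ ?_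
    · refine ENNReal.mul_ne_top hS (ENNReal.mul_ne_top hS ?_)
      exact hfint.hasFiniteIntegral.ne
    · calc ∫⁻ z, ∫⁻ x, ‖k x z‖ₑ * g z ∂μ ∂μ = ∫⁻ z, (∫⁻ x, ‖k x z‖ₑ ∂μ) * g z ∂μ := by
            refine lintegral_congr fun z => ?_
            rw [lintegral_mul_const _ (hkz z)]
        _ ≤ ∫⁻ z, S * g z ∂μ := lintegral_mono fun z => by gcongr; exact h1 z
        _ = S * ∫⁻ z, g z ∂μ := lintegral_const_mul _ hgmeas
        _ ≤ _ := by gcongr
  have hae : ∀ᵐ x ∂μ, ∫⁻ z, ‖k x z‖ₑ * g z ∂μ < ∞ :=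
    ae_lt_top hkg.lintegral_prod_right' htot
  have hint : ∀ᵐ x ∂μ, Integrable
      (Function.uncurry fun z y => k x z * m z y * f y) (μ.prod μ) := by
    filter_upwards [hae] with x hx
    have hmeas : Measurable (Function.uncurry fun z y => k x z * m z y * f y) :=
      (((hkx x).comp measurable_fst).mul hm).mul (hf.comp measurable_snd)
    refine ⟨hmeas.aestronglyMeasurable, ?_⟩
    unfold HasFiniteIntegral
    rw [lintegral_prod _ hmeas.enorm.aemeasurable]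
    refine lt_of_le_of_lt (le_of_eq ?_) hx
    refine lintegral_congr fun z => ?_
    rw [hg]
    simp only [Function.uncurry_apply_pair]
    have hmf : Measurable (fun y => ‖m z y‖ₑ * ‖f y‖ₑ) := ((hmz z).enorm).mul hf.enorm
    rw [← lintegral_const_mul _ hmf]
    refine lintegral_congr fun y => ?_
    rw [enorm_mul, enorm_mul, mul_assoc]
  have hB2 := (hB f).2
  have hA2 := (hA (B f)).2
  constructor
  · filter_upwards [hint] with x hx
    refine hx.integral_prod_right.congr ?_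
    refine Eventually.of_forall fun y => ?_
    simp only [Function.uncurry_apply_pair]
    rw [integral_mul_const]
  · change (A (B f) : E → ℂ) =ᵐ[μ] _
    filter_upwards [hA2, hint] with x hx hx'
    rw [hx]
    calc ∫ z, k x z * (B f : E → ℂ) z ∂μ = ∫ z, ∫ y, k x z * m z y * f y ∂μ ∂μ := by
          refine integral_congr_ae ?_
          filter_upwards [hB2] with z hz
          rw [hz, ← integral_const_mul]
          refine integral_congr_ae (Eventually.of_forall fun y => ?_)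
          simp only
          rw [mul_assoc]
      _ = ∫ y, ∫ z, k x z * m z y * f y ∂μ ∂μ := integral_integral_swap hx'
      _ = _ := by
          refine integral_congr_ae (Eventually.of_forall fun y => ?_)
          simp only
          rw [integral_mul_const]

/-- the kernel `e^{-βr/3}/r` -/
noncomputable def sk648 (β : ℝ) (v : E5) : ℝ≥0∞ := ENNReal.ofReal (Real.exp (-(β / 3) * ‖v‖) / ‖v‖)

theorem measurable_sk648 (β : ℝ) : Measurable (sk648 β) := by
  unfold sk648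
  fun_prop

theorem sk648_pow (β : ℝ) (n : ℕ) (v : E5) :
    sk648 β v ^ n = ENNReal.ofReal (Real.exp (-(n * β / 3) * ‖v‖) / ‖v‖ ^ n) := by
  unfold sk648
  rw [← ENNReal.ofReal_pow (by positivity), div_pow, ← Real.exp_nat_mul]
  congr 3
  ring

theorem enorm_le_648 {k : E5 → E5 → ℂ} {a β : ℝ} (ha : 0 ≤ a)
    (hk : ∀ x y, ‖k x y‖ ≤ a * Real.exp (-β * ‖x - y‖) / ‖x - y‖ ^ 3) (x y : E5) :
    ‖k x y‖ₑ ≤ ENNReal.ofReal a * sk648 β (x - y) ^ 3 := by
  rw [sk648_pow, ← ENNReal.ofReal_mul ha, ← ofReal_norm]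
  refine ENNReal.ofReal_le_ofReal ((hk x y).trans (le_of_eq ?_))
  rw [mul_div_assoc]
  congr 4
  push_cast
  ring

instance finmu648 (R : ℝ) : IsFiniteMeasure (muR R) :=
  ⟨by rw [Measure.restrict_apply_univ]; exact measure_closedBall_lt_top⟩

end aux648

theorem mul_HSle (R : ℝ) : ∃ C : ℝ, 0 ≤ C ∧ ∀ (a β : ℝ), 0 ≤ a → 0 < β →
    ∀ (k m : E5 → E5 → ℂ) (A B : Lp ℂ 2 (muR R) →L[ℂ] Lp ℂ 2 (muR R)),
    Measurable (Function.uncurry k) → Measurable (Function.uncurry m) →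
    (∀ x y, ‖k x y‖ ≤ a * Real.exp (-β * ‖x - y‖) / ‖x - y‖ ^ 3) →
    (∀ x y, ‖m x y‖ ≤ a * Real.exp (-β * ‖x - y‖) / ‖x - y‖ ^ 3) →
    IsKer (muR R) k A → IsKer (muR R) m B →
    ∀ (ι : Type) [DecidableEq ι] (b : HilbertBasis ι ℂ (Lp ℂ 2 (muR R))) (c : ℝ), 0 ≤ c →
      C * a ^ 4 / β ^ 3 ≤ c ^ 2 → HSle b (A * B) c := by
  obtain ⟨c₀, hc₀, hrad⟩ := radial_int
  set V : ℝ := (muR R).real Set.univ with hV
  have hV0 : 0 ≤ V := measureReal_nonneg
  refine ⟨2 * V * (3 * c₀ / 4) ^ 3, by positivity, ?_⟩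
  intro a β ha hβ k m A B hk hm hkb hmb hA hB ι _ b c hc hC
  set s : E5 → ℝ≥0∞ := sk648 β with hs
  have hsm : Measurable s := measurable_sk648 β
  -- integrals of powers of `s`
  have hJ3 : ∫⁻ v, s v ^ 3 = ENNReal.ofReal (c₀ / β ^ 2) := by
    rw [← (hrad β hβ).2.1]
    refine lintegral_congr fun v => ?_
    rw [hs, sk648_pow]
    congr 4
    push_cast
    ring
  have hβ4 : 0 < 4 * β / 3 := by positivity
  set J : ℝ := c₀ / (4 * β / 3) with hJ
  have hJ0 : 0 ≤ J := by positivity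
  have hJ4 : ∫⁻ v, s v ^ 4 = ENNReal.ofReal J := by
    rw [← (hrad _ hβ4).1]
    refine lintegral_congr fun v => ?_
    rw [hs, sk648_pow]
    congr 4
  have hleft : ∀ (n : ℕ) (x : E5), ∫⁻ z, s (x - z) ^ n ∂(muR R) ≤ ∫⁻ v, s v ^ n := by
    intro n x
    refine (lintegral_mono' Measure.restrict_le_self le_rfl).trans (le_of_eq ?_)
    exact lintegral_sub_left_eq_self (fun v => s v ^ n) x
  have hright : ∀ (n : ℕ) (y : E5), ∫⁻ z, s (z - y) ^ n ∂(muR R) ≤ ∫⁻ v, s v ^ n := by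
    intro n y
    refine (lintegral_mono' Measure.restrict_le_self le_rfl).trans (le_of_eq ?_)
    exact lintegral_sub_right_eq_self (fun v => s v ^ n) y
  have hke := enorm_le_648 ha hkb
  have hme := enorm_le_648 ha hmb
  have hsl : ∀ (n : ℕ) (x : E5), Measurable (fun z => s (x - z) ^ n) := fun n x =>
    (hsm.comp (measurable_const.sub measurable_id)).pow_const n
  have hsr : ∀ (n : ℕ) (y : E5), Measurable (fun z => s (z - y) ^ n) := fun n y =>
    (hsm.comp (measurable_id.sub measurable_const)).pow_const n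
  have hcol : ∀ (k : E5 → E5 → ℂ), (∀ x y, ‖k x y‖ₑ ≤ ENNReal.ofReal a * s (x - y) ^ 3) →
      ∀ y, ∫⁻ z, ‖k z y‖ₑ ∂(muR R) ≤ ENNReal.ofReal a * ENNReal.ofReal (c₀ / β ^ 2) := by
    intro k hke y
    calc ∫⁻ z, ‖k z y‖ₑ ∂(muR R) ≤ ∫⁻ z, ENNReal.ofReal a * s (z - y) ^ 3 ∂(muR R) :=
          lintegral_mono fun z => hke z y
      _ = ENNReal.ofReal a * ∫⁻ z, s (z - y) ^ 3 ∂(muR R) := lintegral_const_mul _ (hsr 3 y)
      _ ≤ _ := by rw [← hJ3]; exact mul_le_mul' le_rfl (hright 3 y)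
  have hAB : IsKer (muR R) (fun x y => ∫ z, k x z * m z y ∂(muR R)) (A * B) :=
    isKer_mul_648 hk hm (ENNReal.mul_ne_top ENNReal.ofReal_ne_top ENNReal.ofReal_ne_top)
      (hcol k hke) (hcol m hme) hA hB
  refine IsKer.HSle b (measurable_prodKer_648 hk hm) hAB c hc ?_
  -- the pointwise bound
  have hpt : ∀ x y : E5, ‖∫ z, k x z * m z y ∂(muR R)‖ₑ ^ 2 ≤
      ENNReal.ofReal a ^ 4 * ((2 * ENNReal.ofReal J) *
        ∫⁻ z, s (x - z) ^ 4 * s (z - y) ^ 4 ∂(muR R)) := by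
    intro x y
    have e1 : ‖∫ z, k x z * m z y ∂(muR R)‖ₑ ≤ ENNReal.ofReal a ^ 2 *
        ∫⁻ z, (s (x - z) * s (z - y)) * (s (x - z) ^ 2 * s (z - y) ^ 2) ∂(muR R) := by
      refine (enorm_integral_le_lintegral_enorm _).trans ?_
      rw [← lintegral_const_mul]
      · refine lintegral_mono fun z => ?_
        rw [enorm_mul]
        calc ‖k x z‖ₑ * ‖m z y‖ₑ ≤ (ENNReal.ofReal a * s (x - z) ^ 3) *
              (ENNReal.ofReal a * s (z - y) ^ 3) := mul_le_mul' (hke x z) (hme z y)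
          _ = _ := by ring
      · have := (hsl 1 x).mul (hsr 1 y)
        simp only [pow_one] at this
        exact this.mul ((hsl 2 x).mul (hsr 2 y))
    have e2 : (∫⁻ z, (s (x - z) * s (z - y)) * (s (x - z) ^ 2 * s (z - y) ^ 2) ∂(muR R)) ^ 2 ≤
        (∫⁻ z, (s (x - z) * s (z - y)) ^ 2 ∂(muR R)) *
          (∫⁻ z, (s (x - z) ^ 2 * s (z - y) ^ 2) ^ 2 ∂(muR R)) := by
      refine cs_648 ?_ ?_
      · have := (hsl 1 x).mul (hsr 1 y)
        simp only [pow_one] at this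
        exact this.aemeasurable
      · exact ((hsl 2 x).mul (hsr 2 y)).aemeasurable
    have e3 : (∫⁻ z, (s (x - z) * s (z - y)) ^ 2 ∂(muR R)) ≤ 2 * ENNReal.ofReal J := by
      calc (∫⁻ z, (s (x - z) * s (z - y)) ^ 2 ∂(muR R)) ≤
            ∫⁻ z, (s (x - z) ^ 4 + s (z - y) ^ 4) ∂(muR R) := by
            refine lintegral_mono fun z => ?_
            simp only
            rcases le_total (s (x - z)) (s (z - y)) with h | h
            · calc (s (x - z) * s (z - y)) ^ 2 ≤ (s (z - y) * s (z - y)) ^ 2 := by gcongr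
                _ = s (z - y) ^ 4 := by ring
                _ ≤ _ := le_add_self
            · calc (s (x - z) * s (z - y)) ^ 2 ≤ (s (x - z) * s (x - z)) ^ 2 := by gcongr
                _ = s (x - z) ^ 4 := by ring
                _ ≤ _ := le_self_add
        _ = (∫⁻ z, s (x - z) ^ 4 ∂(muR R)) + ∫⁻ z, s (z - y) ^ 4 ∂(muR R) :=
            lintegral_add_left (hsl 4 x) _
        _ ≤ ENNReal.ofReal J + ENNReal.ofReal J := by
            rw [← hJ4]
            exact add_le_add (hleft 4 x) (hright 4 y)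
        _ = _ := by rw [two_mul]
    calc ‖∫ z, k x z * m z y ∂(muR R)‖ₑ ^ 2 ≤ (ENNReal.ofReal a ^ 2 *
        ∫⁻ z, (s (x - z) * s (z - y)) * (s (x - z) ^ 2 * s (z - y) ^ 2) ∂(muR R)) ^ 2 := by
          gcongr
      _ = ENNReal.ofReal a ^ 4 *
        (∫⁻ z, (s (x - z) * s (z - y)) * (s (x - z) ^ 2 * s (z - y) ^ 2) ∂(muR R)) ^ 2 := by ring
      _ ≤ ENNReal.ofReal a ^ 4 * ((∫⁻ z, (s (x - z) * s (z - y)) ^ 2 ∂(muR R)) *
          (∫⁻ z, (s (x - z) ^ 2 * s (z - y) ^ 2) ^ 2 ∂(muR R))) := by gcongr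
      _ ≤ ENNReal.ofReal a ^ 4 * ((2 * ENNReal.ofReal J) *
          (∫⁻ z, (s (x - z) ^ 2 * s (z - y) ^ 2) ^ 2 ∂(muR R))) := by gcongr
      _ = _ := by
          congr 2
          refine lintegral_congr fun z => ?_
          ring
  have hmm : ∀ x : E5, Measurable (Function.uncurry fun y z => s (x - z) ^ 4 * s (z - y) ^ 4) := by
    intro x
    have e1 : Measurable (fun p : E5 × E5 => s (x - p.2) ^ 4) :=
      (hsm.comp (measurable_const.sub measurable_snd)).pow_const 4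
    have e2 : Measurable (fun p : E5 × E5 => s (p.2 - p.1) ^ 4) :=
      (hsm.comp (measurable_snd.sub measurable_fst)).pow_const 4
    exact e1.mul e2
  have hin : ∀ x : E5, ∫⁻ y, ∫⁻ z, s (x - z) ^ 4 * s (z - y) ^ 4 ∂(muR R) ∂(muR R) ≤
      ENNReal.ofReal J * ENNReal.ofReal J := by
    intro x
    rw [lintegral_lintegral_swap (hmm x).aemeasurable]
    calc ∫⁻ z, ∫⁻ y, s (x - z) ^ 4 * s (z - y) ^ 4 ∂(muR R) ∂(muR R) =
          ∫⁻ z, s (x - z) ^ 4 * ∫⁻ y, s (z - y) ^ 4 ∂(muR R) ∂(muR R) := by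
          refine lintegral_congr fun z => ?_
          exact lintegral_const_mul _ (hsl 4 z)
      _ ≤ ∫⁻ z, s (x - z) ^ 4 * ENNReal.ofReal J ∂(muR R) := by
          refine lintegral_mono fun z => ?_
          simp only
          rw [← hJ4]
          exact mul_le_mul' le_rfl (hleft 4 z)
      _ = (∫⁻ z, s (x - z) ^ 4 ∂(muR R)) * ENNReal.ofReal J := lintegral_mul_const _ (hsl 4 x)
      _ ≤ _ := by
          gcongr
          rw [← hJ4]
          exact hleft 4 x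
  have hVe : muR R Set.univ = ENNReal.ofReal V := by
    rw [hV, Measure.real, ENNReal.ofReal_toReal (measure_ne_top _ _)]
  calc ∫⁻ x, ∫⁻ y, ‖∫ z, k x z * m z y ∂(muR R)‖ₑ ^ 2 ∂(muR R) ∂(muR R)
      ≤ ∫⁻ x, ∫⁻ y, ENNReal.ofReal a ^ 4 * ((2 * ENNReal.ofReal J) *
        ∫⁻ z, s (x - z) ^ 4 * s (z - y) ^ 4 ∂(muR R)) ∂(muR R) ∂(muR R) :=
        lintegral_mono fun x => lintegral_mono fun y => hpt x y
    _ = ∫⁻ x, ENNReal.ofReal a ^ 4 * ((2 * ENNReal.ofReal J) *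
        ∫⁻ y, ∫⁻ z, s (x - z) ^ 4 * s (z - y) ^ 4 ∂(muR R) ∂(muR R)) ∂(muR R) := by
        refine lintegral_congr fun x => ?_
        have hmx : Measurable fun y => ∫⁻ z, s (x - z) ^ 4 * s (z - y) ^ 4 ∂(muR R) :=
          (hmm x).lintegral_prod_right'
        rw [lintegral_const_mul _ (hmx.const_mul _), lintegral_const_mul _ hmx]
    _ ≤ ∫⁻ x, ENNReal.ofReal a ^ 4 * ((2 * ENNReal.ofReal J) *
        (ENNReal.ofReal J * ENNReal.ofReal J)) ∂(muR R) := by
        refine lintegral_mono fun x => ?_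
        simp only
        gcongr
        exact hin x
    _ = ENNReal.ofReal a ^ 4 * ((2 * ENNReal.ofReal J) *
        (ENNReal.ofReal J * ENNReal.ofReal J)) * ENNReal.ofReal V := by
        rw [lintegral_const, hVe]
    _ = ENNReal.ofReal (2 * V * (3 * c₀ / 4) ^ 3 * a ^ 4 / β ^ 3) := by
        rw [show (2 : ℝ≥0∞) = ENNReal.ofReal 2 by simp, ← ENNReal.ofReal_pow ha,
          ← ENNReal.ofReal_mul hJ0, ← ENNReal.ofReal_mul (by norm_num),
          ← ENNReal.ofReal_mul (by positivity), ← ENNReal.ofReal_mul (by positivity),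
          ← ENNReal.ofReal_mul (by positivity)]
        congr 1
        rw [hJ]
        field_simp
    _ ≤ ENNReal.ofReal (c ^ 2) := ENNReal.ofReal_le_ofReal hC

end Pool.Agent.H269
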