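import Pool.Agent.H269.DefsC

/-!
# R5-22 Green function: derivative, bound, imaginary axis (MP_f2af60_mp, infinitely many resonances in dimension five)
-/

set_option autoImplicit false

open MeasureTheory Filter Topology Complex
open scoped InnerProductSpace ENNReal NNReal

namespace Pool.Agent.H269



theorem GG_hasDerivAt (l : ℂ) (r : ℝ) : HasDerivAt (fun l => GG l r) (GD l r) l := by
  have h1 : HasDerivAt (fun l : ℂ => I * l * r) (I * r) l := by
    have := ((hasDerivAt_id l).const_mul I).mul_const (r : ℂ)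
    simpa using this
  have h2 : HasDerivAt (fun l : ℂ => cexp (I * l * r)) (cexp (I * l * r) * (I * r)) l := h1.cexp
  have h3 : HasDerivAt (fun l : ℂ => 1 - I * l * r) (-(I * r)) l := h1.const_sub 1
  have h4 := (h2.mul h3).div_const (8 * (Real.pi : ℂ) ^ 2 * (r : ℂ) ^ 3)
  refine h4.congr_deriv ?_
  unfold GD
  by_cases hr : r = 0
  · subst hr
    simp
  · have hr' : (r : ℂ) ≠ 0 := by exact_mod_cast hr
    have hpi : (Real.pi : ℂ) ≠ 0 := by exact_mod_cast Real.pi_ne_zero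
    have e1 : 8 * (Real.pi : ℂ) ^ 2 * (r : ℂ) ^ 3 ≠ 0 :=
      mul_ne_zero (mul_ne_zero (by norm_num) (pow_ne_zero _ hpi)) (pow_ne_zero _ hr')
    have e2 : 8 * (Real.pi : ℂ) ^ 2 * (r : ℂ) ≠ 0 :=
      mul_ne_zero (mul_ne_zero (by norm_num) (pow_ne_zero _ hpi)) hr'
    rw [div_eq_div_iff e1 e2]
    linear_combination (-(cexp (I * l * r)) * l * r ^ 3 * (8 * (Real.pi : ℂ) ^ 2)) * I_sq

theorem GG_bound (l : ℂ) (r : ℝ) (hr : 0 ≤ r) :
    ‖GG l r‖ ≤ (1 + ‖l‖ * r) * Real.exp (-l.im * r) / (8 * Real.pi ^ 2 * r ^ 3) ∧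
    ‖GD l r‖ ≤ ‖l‖ * Real.exp (-l.im * r) / (8 * Real.pi ^ 2 * r) := by
  have he : ‖cexp (I * l * r)‖ = Real.exp (-l.im * r) := by
    rw [Complex.norm_exp]
    congr 1
    simp
  have h1 : ‖1 - I * l * r‖ ≤ 1 + ‖l‖ * r := by
    calc ‖1 - I * l * r‖ ≤ ‖(1 : ℂ)‖ + ‖I * l * r‖ := norm_sub_le _ _
      _ = 1 + ‖l‖ * r := by
        rw [norm_one, norm_mul, norm_mul, norm_I, one_mul, Complex.norm_real,
          Real.norm_of_nonneg hr]
  have h2 : ‖8 * (Real.pi : ℂ) ^ 2 * (r : ℂ) ^ 3‖ = 8 * Real.pi ^ 2 * r ^ 3 := by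
    rw [norm_mul, norm_mul, norm_pow, norm_pow, Complex.norm_real, Complex.norm_real,
      Real.norm_of_nonneg hr, Real.norm_of_nonneg Real.pi_pos.le]
    norm_num
  have h3 : ‖8 * (Real.pi : ℂ) ^ 2 * (r : ℂ)‖ = 8 * Real.pi ^ 2 * r := by
    rw [norm_mul, norm_mul, norm_pow, Complex.norm_real, Complex.norm_real,
      Real.norm_of_nonneg hr, Real.norm_of_nonneg Real.pi_pos.le]
    norm_num
  constructor
  · unfold GG
    rw [norm_div, norm_mul, h2, he]
    refine div_le_div_of_nonneg_right ?_ (by positivity)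
    rw [mul_comm]
    exact mul_le_mul_of_nonneg_right h1 (Real.exp_pos _).le
  · unfold GD
    rw [norm_div, norm_mul, h3, he]

theorem GG_imag (κ r : ℝ) :
    GG (I * κ) r = ((Real.exp (-κ * r) * (1 + κ * r) / (8 * Real.pi ^ 2 * r ^ 3) : ℝ) : ℂ) ∧
    GD (I * κ) r = I * ((κ * Real.exp (-κ * r) / (8 * Real.pi ^ 2 * r) : ℝ) : ℂ) := by
  have h1 : I * (I * (κ : ℂ)) * r = ((-κ * r : ℝ) : ℂ) := by
    push_cast
    linear_combination (κ * r : ℂ) * I_sq
  have h2 : cexp (I * (I * (κ : ℂ)) * r) = ((Real.exp (-κ * r) : ℝ) : ℂ) := by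
    rw [h1, Complex.ofReal_exp]
  constructor
  · unfold GG
    rw [h2, h1]
    push_cast
    ring
  · unfold GD
    rw [h2]
    push_cast
    ring

end Pool.Agent.H269
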