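import Pool.Agent.H269.DefsC
import Pool.Agent.H269.R5.J22

/-!
# R5-23 Green function: difference and Taylor bounds (MP_f2af60_mp, infinitely many resonances in dimension five)
-/

set_option autoImplicit false

open MeasureTheory Filter Topology Complex
open scoped InnerProductSpace ENNReal NNReal

namespace Pool.Agent.H269


theorem GD_hasDerivAt (l : ℂ) (r : ℝ) : HasDerivAt (fun l => GD l r)
    ((1 + I * l * r) * cexp (I * l * r) / (8 * (Real.pi : ℂ) ^ 2 * (r : ℂ))) l := by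
  unfold GD
  have h1 : HasDerivAt (fun l : ℂ => I * l * (r : ℂ)) (I * r) l := by
    have := ((hasDerivAt_id l).const_mul I).mul_const (r : ℂ)
    simpa using this
  have h2 := h1.cexp
  have h3 := ((hasDerivAt_id l).mul h2).div_const (8 * (Real.pi : ℂ) ^ 2 * (r : ℂ))
  have e : (1 + I * l * r) * cexp (I * l * r) / (8 * (Real.pi : ℂ) ^ 2 * (r : ℂ)) =
      (1 * cexp (I * l * r) + id l * (cexp (I * l * r) * (I * r))) /
        (8 * (Real.pi : ℂ) ^ 2 * (r : ℂ)) := by
    simp only [id]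
    ring
  rw [e]
  exact h3

theorem norm_cexp_I (w : ℂ) (r : ℝ) : ‖cexp (I * w * r)‖ = Real.exp (-w.im * r) := by
  rw [Complex.norm_exp]
  congr 1
  simp [Complex.mul_re, Complex.mul_im]


theorem GG_sub_bound (B : ℝ) (l m : ℂ) (hl : -B ≤ l.im) (hm : -B ≤ m.im) (r : ℝ) (hr : 0 ≤ r) :
    ‖GG l r - GG m r‖ ≤ ‖l - m‖ * max ‖l‖ ‖m‖ * Real.exp (B * r) / (8 * Real.pi ^ 2 * r) := by
  rcases hr.eq_or_lt with rfl | hr0
  · simp [GG]
  have hseg : ∀ w ∈ segment ℝ m l, ‖w‖ ≤ max ‖l‖ ‖m‖ ∧ -B ≤ w.im := by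
    intro w hw
    constructor
    · have hc : Convex ℝ (Metric.closedBall (0 : ℂ) (max ‖l‖ ‖m‖)) := convex_closedBall _ _
      have := hc.segment_subset (x := m) (y := l) (by simp) (by simp) hw
      simpa using this
    · have hc : Convex ℝ {z : ℂ | -B ≤ z.im} := convex_halfSpace_im_ge _
      exact hc.segment_subset (x := m) (y := l) hm hl hw
  have hb : ∀ w ∈ segment ℝ m l, ‖GD w r‖ ≤ max ‖l‖ ‖m‖ * Real.exp (B * r) / (8 * Real.pi ^ 2 * r) := by
    intro w hw
    obtain ⟨h1, h2⟩ := hseg w hw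
    refine (GG_bound w r hr).2.trans ?_
    gcongr
    linarith
  have := Convex.norm_image_sub_le_of_norm_hasDerivWithin_le (f := fun w => GG w r)
    (f' := fun w => GD w r) (s := segment ℝ m l) (x := m) (y := l)
    (fun w _ => (GG_hasDerivAt w r).hasDerivWithinAt) hb (convex_segment _ _)
    (left_mem_segment ℝ m l) (right_mem_segment ℝ m l)
  refine this.trans (le_of_eq ?_)
  ring

theorem GG_taylor (R : ℝ) (l : ℂ) : ∃ C : ℝ, 0 ≤ C ∧ ∀ h : ℂ, ‖h‖ ≤ 1 → ∀ r : ℝ, 0 ≤ r → r ≤ R →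
    ‖GG (l + h) r - GG l r - h * GD l r‖ ≤ C * ‖h‖ ^ 2 / r := by
  set A : ℝ := (‖l‖ + 1) * |R| with hA
  have hA0 : 0 ≤ A := by positivity
  set C : ℝ := (1 + A) * Real.exp A / (8 * Real.pi ^ 2) with hC
  have hC0 : 0 ≤ C := by positivity
  refine ⟨C, hC0, ?_⟩
  intro h hh r hr hrR
  rcases hr.eq_or_lt with rfl | hr0
  · simp [GG, GD]
  have hRr : r ≤ |R| := hrR.trans (le_abs_self R)
  -- bound of the second derivative
  have hb2 : ∀ w ∈ Metric.closedBall l 1,
      ‖(1 + I * w * r) * cexp (I * w * r) / (8 * (Real.pi : ℂ) ^ 2 * (r : ℂ))‖ ≤ C / r := by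
    intro w hw
    have hwn : ‖w‖ ≤ ‖l‖ + 1 := by
      have h1 : ‖w - l‖ ≤ 1 := by simpa [dist_eq_norm] using hw
      have h2 : ‖w‖ ≤ ‖w - l‖ + ‖l‖ := by
        calc ‖w‖ = ‖(w - l) + l‖ := by ring_nf
          _ ≤ _ := norm_add_le _ _
      linarith
    have hwr : ‖w‖ * r ≤ A := by
      rw [hA]; gcongr
    have h1 : ‖1 + I * w * r‖ ≤ 1 + A := by
      refine (norm_add_le _ _).trans ?_
      have : ‖I * w * (r : ℂ)‖ = ‖w‖ * r := by
        rw [norm_mul, norm_mul, Complex.norm_I, one_mul, Complex.norm_real, Real.norm_of_nonneg hr]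
      rw [this, norm_one]
      linarith
    have h2 : ‖cexp (I * w * r)‖ ≤ Real.exp A := by
      rw [norm_cexp_I]
      refine Real.exp_le_exp.2 ?_
      have h3 : -w.im ≤ ‖w‖ := (neg_le_abs _).trans (Complex.abs_im_le_norm w)
      calc -w.im * r ≤ ‖w‖ * r := by gcongr
        _ ≤ A := hwr
    rw [norm_div, norm_mul]
    have h4 : ‖8 * (Real.pi : ℂ) ^ 2 * (r : ℂ)‖ = 8 * Real.pi ^ 2 * r := by
      rw [norm_mul, norm_mul, norm_pow, Complex.norm_real, Complex.norm_real,
        Real.norm_of_nonneg hr, Real.norm_of_nonneg Real.pi_pos.le]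
      norm_num
    rw [h4]
    calc ‖1 + I * w * r‖ * ‖cexp (I * w * r)‖ / (8 * Real.pi ^ 2 * r)
        ≤ (1 + A) * Real.exp A / (8 * Real.pi ^ 2 * r) := by gcongr
      _ = C / r := by rw [hC, div_div]
  have hb1 : ∀ k : ℂ, ‖k‖ ≤ 1 → ‖GD (l + k) r - GD l r‖ ≤ C / r * ‖k‖ := by
    intro k hk
    have := Convex.norm_image_sub_le_of_norm_hasDerivWithin_le (f := fun w => GD w r)
      (f' := fun w => (1 + I * w * r) * cexp (I * w * r) / (8 * (Real.pi : ℂ) ^ 2 * (r : ℂ)))
      (s := Metric.closedBall l 1) (x := l) (y := l + k)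
      (fun w _ => (GD_hasDerivAt w r).hasDerivWithinAt) hb2 (convex_closedBall _ _)
      (Metric.mem_closedBall_self zero_le_one) (by simpa [dist_eq_norm] using hk)
    simpa using this
  have hder : ∀ k : ℂ, HasDerivAt (fun k => GG (l + k) r - GG l r - k * GD l r)
      (GD (l + k) r - GD l r) k := by
    intro k
    have h1 : HasDerivAt (fun k => GG (l + k) r) (GD (l + k) r) k := by
      have := (GG_hasDerivAt (l + k) r).comp_const_add l k
      simpa using this
    have h2 : HasDerivAt (fun k : ℂ => k * GD l r) (GD l r) k := by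
      simpa using (hasDerivAt_id k).mul_const (GD l r)
    exact (h1.sub_const (GG l r)).sub h2
  have := Convex.norm_image_sub_le_of_norm_hasDerivWithin_le
    (f := fun k => GG (l + k) r - GG l r - k * GD l r)
    (f' := fun k => GD (l + k) r - GD l r) (C := C / r * ‖h‖)
    (s := Metric.closedBall 0 ‖h‖) (x := 0) (y := h)
    (fun w _ => (hder w).hasDerivWithinAt) (by
      intro k hk
      have hk' : ‖k‖ ≤ ‖h‖ := by simpa using hk
      refine (hb1 k (hk'.trans hh)).trans ?_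
      have : 0 ≤ C / r := by positivity
      gcongr) (convex_closedBall _ _)
    (Metric.mem_closedBall_self (norm_nonneg _)) (by simp)
  simp only [add_zero, sub_self, zero_mul, sub_zero] at this
  refine this.trans (le_of_eq ?_)
  ring

end Pool.Agent.H269
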