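import Pool.Agent.H269.DefsC

/-!
# R5-24 even power series (MP_f2af60_mp, infinitely many resonances in dimension five)
-/

set_option autoImplicit false

open MeasureTheory Filter Topology Complex
open scoped InnerProductSpace ENNReal NNReal

namespace Pool.Agent.H269


theorem JJ_aux_hasSum (z : ℂ) : HasSum (fun j : ℕ => 4 * ((j : ℂ) + 1) / ((2 * j + 3).factorial : ℂ) *
    z ^ (2 * j + 3)) (cexp (-z) * (1 + z) - cexp z * (1 - z)) := by
  have h1 := (Complex.hasSum_cosh z).mul_left (2 * z)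
  have h2 := (Complex.hasSum_sinh z).mul_left 2
  have h3 := h1.sub h2
  rw [← hasSum_nat_add_iff' 1] at h3
  have e : 2 * z * Complex.cosh z - 2 * Complex.sinh z - ∑ i ∈ Finset.range 1,
      (2 * z * (z ^ (2 * i) / ((2 * i).factorial : ℂ)) -
        2 * (z ^ (2 * i + 1) / ((2 * i + 1).factorial : ℂ))) =
      cexp (-z) * (1 + z) - cexp z * (1 - z) := by
    rw [Complex.cosh, Complex.sinh]
    simp
    ring
  rw [e] at h3
  convert! h3 using 2 with j
  have f1 : 2 * (j + 1) = 2 * j + 2 := by ring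
  have f2 : ((2 * j + 3).factorial : ℂ) = (2 * j + 3) * ((2 * j + 2).factorial : ℂ) := by
    rw [Nat.factorial_succ (2 * j + 2)]; push_cast; ring
  have f3 : ((2 * j + 2).factorial : ℂ) ≠ 0 := by exact_mod_cast Nat.factorial_ne_zero _
  have f4 : (2 * j + 3 : ℂ) ≠ 0 := by
    have : ((2 * j + 3 : ℕ) : ℂ) ≠ 0 := by exact_mod_cast (by omega : 2 * j + 3 ≠ 0)
    simpa using this
  have f5 : 2 * (j + 1) + 1 = 2 * j + 3 := by ring
  rw [f5, f1, f2, pow_succ z (2 * j + 2)]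
  generalize z ^ (2 * j + 2) = w
  generalize ((2 * j + 2).factorial : ℂ) = u at *
  obtain ⟨q, hq⟩ : ∃ q : ℂ, q = 2 * (j : ℂ) + 3 := ⟨_, rfl⟩
  rw [← hq] at f4 ⊢
  have hj : (j : ℂ) + 1 = (q - 1) / 2 := by rw [hq]; ring
  rw [hj]
  field_simp
  ring

theorem JJ_aux_term (l : ℂ) (r : ℝ) (hr : r ≠ 0) (j : ℕ) :
    cJ l j * (r : ℂ) ^ (2 * j) = (1 / (8 * (Real.pi : ℂ) ^ 2 * (r : ℂ) ^ 3)) *
      (4 * ((j : ℂ) + 1) / ((2 * j + 3).factorial : ℂ) * (I * l * r) ^ (2 * j + 3)) := by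
  have hpi : (Real.pi : ℂ) ≠ 0 := by exact_mod_cast Real.pi_ne_zero
  have hr' : (r : ℂ) ≠ 0 := by exact_mod_cast hr
  have f3 : ((2 * j + 3).factorial : ℂ) ≠ 0 := by exact_mod_cast Nat.factorial_ne_zero _
  have e : (I * l * r) ^ (2 * j + 3) = (I * l) ^ (2 * j + 3) * ((r : ℂ) ^ (2 * j) * (r : ℂ) ^ 3) := by
    rw [mul_pow, pow_add (r : ℂ)]
  rw [cJ, e]
  field_simp
  ring

theorem JJ_aux_hasSum' (l : ℂ) (r : ℝ) (hr : r ≠ 0) :
    HasSum (fun j : ℕ => cJ l j * (r : ℂ) ^ (2 * j)) (GG (-l) r - GG l r) := by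
  have h := (JJ_aux_hasSum (I * l * r)).mul_left (1 / (8 * (Real.pi : ℂ) ^ 2 * (r : ℂ) ^ 3))
  have e : 1 / (8 * (Real.pi : ℂ) ^ 2 * (r : ℂ) ^ 3) *
      (cexp (-(I * l * r)) * (1 + I * l * r) - cexp (I * l * r) * (1 - I * l * r)) =
      GG (-l) r - GG l r := by
    rw [GG, GG]
    have : I * -l * r = -(I * l * r) := by ring
    rw [this]
    ring
  rw [← e]
  simpa only [JJ_aux_term l r hr] using! h



theorem JJ_eq (l : ℂ) (r : ℝ) (hr : 0 < r) : JJ l r = GG (-l) r - GG l r :=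
  (JJ_aux_hasSum' l r hr.ne').tsum_eq

theorem JJ_summable (l : ℂ) (r : ℝ) : Summable (fun j : ℕ => cJ l j * (r : ℂ) ^ (2 * j)) := by
  by_cases hr : r = 0
  · subst hr
    refine summable_of_ne_finset_zero (s := {0}) fun j hj => ?_
    have hj' : j ≠ 0 := by simpa using hj
    simp [hj']
  · exact (JJ_aux_hasSum' l r hr).summable

theorem JJ_zero (l : ℂ) : JJ l 0 = (I * l) ^ 3 / (12 * (Real.pi : ℂ) ^ 2) := by
  have hpi : (Real.pi : ℂ) ≠ 0 := by exact_mod_cast Real.pi_ne_zero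
  rw [JJ, tsum_eq_single 0]
  · have : ((2 * 0 + 3).factorial : ℂ) = 6 := by
      norm_num [Nat.factorial]
    rw [cJ, this]
    simp
    field_simp
    ring
  · intro j hj
    simp [hj]

end Pool.Agent.H269
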