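import Pool.Agent.H269.DefsC
import Pool.Agent.H269.R5.J20
import Pool.Agent.H269.R5.J22

/-!
# R5-25 Fourier transform of the Green function (MP_f2af60_mp, infinitely many resonances in dimension five)
-/

set_option autoImplicit false

open MeasureTheory Filter Topology Complex
open scoped InnerProductSpace ENNReal NNReal

namespace Pool.Agent.H269


/-- the error function, normalised to vanish at `-∞` -/
noncomputable def fsPhi (u : ℝ) : ℝ := √Real.pi / 2 + ∫ x in (0 : ℝ)..u, Real.exp (-x ^ 2)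

theorem fsPhi_deriv (u : ℝ) : HasDerivAt fsPhi (Real.exp (-u ^ 2)) u := by
  have hc : Continuous (fun x : ℝ => Real.exp (-x ^ 2)) := by fun_prop
  exact (hc.integral_hasStrictDerivAt 0 u).hasDerivAt.const_add _

theorem fsPhi_top : Tendsto fsPhi atTop (𝓝 (√Real.pi)) := by
  have h1 : IntegrableOn (fun x : ℝ => Real.exp (-x ^ 2)) (Set.Ioi 0) := by
    have := (integrable_exp_neg_mul_sq (b := 1) one_pos).integrableOn (s := Set.Ioi (0 : ℝ))
    simpa using this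
  have h2 : ∫ x in Set.Ioi (0 : ℝ), Real.exp (-x ^ 2) = √Real.pi / 2 := by
    have := integral_gaussian_Ioi 1
    simpa using this
  have h3 := (intervalIntegral_tendsto_integral_Ioi 0 h1 tendsto_id).const_add (√Real.pi / 2)
  rw [h2] at h3
  have h4 : √Real.pi / 2 + √Real.pi / 2 = √Real.pi := by ring
  rw [h4] at h3
  exact h3

theorem fsPhi_neg (u : ℝ) : fsPhi (-u) = √Real.pi - fsPhi u := by
  unfold fsPhi
  have h : ∫ x in (0 : ℝ)..(-u), Real.exp (-x ^ 2) = -∫ x in (0 : ℝ)..u, Real.exp (-x ^ 2) := by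
    have h1 := intervalIntegral.integral_comp_neg (a := 0) (b := u)
      (fun x : ℝ => Real.exp (-x ^ 2))
    simp only [neg_sq, neg_zero] at h1
    rw [h1, intervalIntegral.integral_symm]
  rw [h]
  ring

theorem fsPhi_bot : Tendsto fsPhi atBot (𝓝 0) := by
  have h1 : Tendsto (fun u => √Real.pi - fsPhi (-u)) atBot (𝓝 (√Real.pi - √Real.pi)) :=
    (fsPhi_top.comp tendsto_neg_atBot_atTop).const_sub _
  rw [sub_self] at h1
  refine h1.congr fun u => ?_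
  rw [fsPhi_neg]
  ring

section

variable {a κ : ℝ}

/-- the kernel -/
noncomputable def fsE (a κ s : ℝ) : ℝ := Real.exp (-(a ^ 2 / s ^ 2) - κ ^ 2 * s ^ 2)

theorem fsE_deriv {s : ℝ} (hs : 0 < s) :
    HasDerivAt (fsE a κ) (fsE a κ s * (2 * a ^ 2 / s ^ 3 - 2 * κ ^ 2 * s)) s := by
  have hs0 : s ≠ 0 := hs.ne'
  have h1 : HasDerivAt (fun s : ℝ => -(a ^ 2 / s ^ 2) - κ ^ 2 * s ^ 2)
      (2 * a ^ 2 / s ^ 3 - 2 * κ ^ 2 * s) s := by
    have h2 : HasDerivAt (fun s : ℝ => s ^ 2) (2 * s) s := by simpa using hasDerivAt_pow 2 s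
    have h3 := ((h2.inv (pow_ne_zero 2 hs0)).const_mul (a ^ 2)).neg
    have h4 := h3.sub (h2.const_mul (κ ^ 2))
    refine h4.congr_deriv ?_
    field_simp
  exact h1.exp

theorem fsA_deriv {s : ℝ} (hs : 0 < s) :
    HasDerivAt (fun s => Real.exp (-2 * a * κ) * fsPhi (κ * s - a / s))
      ((κ + a / s ^ 2) * fsE a κ s) s := by
  have hs0 : s ≠ 0 := hs.ne'
  have h1 : HasDerivAt (fun s : ℝ => κ * s - a / s) (κ + a / s ^ 2) s := by
    have h2 := ((hasDerivAt_id s).const_mul κ).sub ((hasDerivAt_inv hs0).const_mul a)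
    refine h2.congr_deriv ?_
    field_simp
    ring
  have h3 := ((fsPhi_deriv (κ * s - a / s)).comp s h1).const_mul (Real.exp (-2 * a * κ))
  refine h3.congr_deriv ?_
  rw [← mul_assoc, ← Real.exp_add]
  have h4 : -2 * a * κ + -(κ * s - a / s) ^ 2 = -(a ^ 2 / s ^ 2) - κ ^ 2 * s ^ 2 := by
    field_simp
    ring
  rw [h4]
  unfold fsE
  ring

theorem fsB_deriv {s : ℝ} (hs : 0 < s) :
    HasDerivAt (fun s => -(Real.exp (2 * a * κ) * fsPhi (-(κ * s + a / s))))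
      ((κ - a / s ^ 2) * fsE a κ s) s := by
  have hs0 : s ≠ 0 := hs.ne'
  have h1 : HasDerivAt (fun s : ℝ => -(κ * s + a / s)) (-(κ - a / s ^ 2)) s := by
    have h2 := (((hasDerivAt_id s).const_mul κ).add ((hasDerivAt_inv hs0).const_mul a)).neg
    refine h2.congr_deriv ?_
    field_simp
    ring
  have h3 := (((fsPhi_deriv (-(κ * s + a / s))).comp s h1).const_mul (Real.exp (2 * a * κ))).neg
  refine h3.congr_deriv ?_
  have h4 : 2 * a * κ + -(-(κ * s + a / s)) ^ 2 = -(a ^ 2 / s ^ 2) - κ ^ 2 * s ^ 2 := by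
    field_simp
    ring
  have h5 : Real.exp (2 * a * κ) * (Real.exp (-(-(κ * s + a / s)) ^ 2) * -(κ - a / s ^ 2)) =
      Real.exp (2 * a * κ + -(-(κ * s + a / s)) ^ 2) * -(κ - a / s ^ 2) := by
    rw [Real.exp_add]; ring
  rw [h5, h4]
  unfold fsE
  ring

theorem fsC_deriv {s : ℝ} (hs : 0 < s) :
    HasDerivAt (fun s => s⁻¹ * fsE a κ s)
      ((-(1 / s ^ 2) + 2 * a ^ 2 / s ^ 4 - 2 * κ ^ 2) * fsE a κ s) s := by
  have hs0 : s ≠ 0 := hs.ne'
  have h := (hasDerivAt_inv hs0).mul (fsE_deriv (a := a) (κ := κ) hs)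
  refine h.congr_deriv ?_
  field_simp
  ring

/-- the primitive -/
noncomputable def fsW (a κ s : ℝ) : ℝ :=
  if s ≤ 0 then 0 else (1 / (2 * a ^ 2)) * (s⁻¹ * fsE a κ s +
    (1 / (2 * a)) * (Real.exp (-2 * a * κ) * fsPhi (κ * s - a / s) -
      -(Real.exp (2 * a * κ) * fsPhi (-(κ * s + a / s)))) +
    κ * (Real.exp (-2 * a * κ) * fsPhi (κ * s - a / s) +
      -(Real.exp (2 * a * κ) * fsPhi (-(κ * s + a / s)))))

theorem fsW_pos_eq {s : ℝ} (hs : 0 < s) : fsW a κ s = (1 / (2 * a ^ 2)) * (s⁻¹ * fsE a κ s +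
    (1 / (2 * a)) * (Real.exp (-2 * a * κ) * fsPhi (κ * s - a / s) -
      -(Real.exp (2 * a * κ) * fsPhi (-(κ * s + a / s)))) +
    κ * (Real.exp (-2 * a * κ) * fsPhi (κ * s - a / s) +
      -(Real.exp (2 * a * κ) * fsPhi (-(κ * s + a / s))))) := if_neg (not_le.2 hs)

theorem fsW_deriv (ha : 0 < a) {s : ℝ} (hs : 0 < s) :
    HasDerivAt (fsW a κ) ((s ^ 4)⁻¹ * fsE a κ s) s := by
  have hs0 : s ≠ 0 := hs.ne'
  have ha0 : a ≠ 0 := ha.ne'
  have h := (((fsC_deriv (a := a) (κ := κ) hs).add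
    (((fsA_deriv (a := a) (κ := κ) hs).sub (fsB_deriv (a := a) (κ := κ) hs)).const_mul
      (1 / (2 * a)))).add
    (((fsA_deriv (a := a) (κ := κ) hs).add (fsB_deriv (a := a) (κ := κ) hs)).const_mul κ)).const_mul
      (1 / (2 * a ^ 2))
  have h2 : fsW a κ =ᶠ[𝓝 s] (fun s => (1 / (2 * a ^ 2)) * (s⁻¹ * fsE a κ s +
    (1 / (2 * a)) * (Real.exp (-2 * a * κ) * fsPhi (κ * s - a / s) -
      -(Real.exp (2 * a * κ) * fsPhi (-(κ * s + a / s)))) +
    κ * (Real.exp (-2 * a * κ) * fsPhi (κ * s - a / s) +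
      -(Real.exp (2 * a * κ) * fsPhi (-(κ * s + a / s)))))) := by
    filter_upwards [lt_mem_nhds hs] with t ht
    exact fsW_pos_eq ht
  have h3 := HasDerivAt.congr_of_eventuallyEq h h2
  refine h3.congr_deriv ?_
  field_simp
  ring

theorem fs_lim_zero (ha : 0 < a) (hκ : 0 < κ) : Tendsto (fsW a κ) (𝓝[>] 0) (𝓝 0) := by
  have hinv : Tendsto (fun s : ℝ => a / s) (𝓝[>] 0) atTop := by
    simp only [div_eq_mul_inv]
    exact tendsto_inv_nhdsGT_zero.const_mul_atTop ha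
  have hlin : Tendsto (fun s : ℝ => κ * s) (𝓝[>] 0) (𝓝 0) := by
    have : Continuous fun s : ℝ => κ * s := by fun_prop
    have h := this.tendsto 0
    rw [mul_zero] at h
    exact h.mono_left nhdsWithin_le_nhds
  have h1 : Tendsto (fun s : ℝ => κ * s - a / s) (𝓝[>] 0) atBot := by
    simp only [sub_eq_add_neg]
    exact hlin.add_atBot (tendsto_neg_atTop_atBot.comp hinv)
  have h2 : Tendsto (fun s : ℝ => -(κ * s + a / s)) (𝓝[>] 0) atBot :=
    tendsto_neg_atTop_atBot.comp (hlin.add_atTop hinv)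
  have h3 := fsPhi_bot.comp h1
  have h4 := fsPhi_bot.comp h2
  have h5 : Tendsto (fun s : ℝ => s⁻¹ * fsE a κ s) (𝓝[>] 0) (𝓝 0) := by
    have h6 : Tendsto (fun s : ℝ => s / a ^ 2) (𝓝[>] 0) (𝓝 0) := by
      have : Continuous fun s : ℝ => s / a ^ 2 := by fun_prop
      have h := this.tendsto 0
      rw [zero_div] at h
      exact h.mono_left nhdsWithin_le_nhds
    refine tendsto_of_tendsto_of_tendsto_of_le_of_le' tendsto_const_nhds h6 ?_ ?_
    · filter_upwards [self_mem_nhdsWithin] with s hs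
      have hs' : 0 < s := hs
      unfold fsE
      positivity
    · filter_upwards [self_mem_nhdsWithin] with s hs
      have hs' : 0 < s := hs
      have h7 : fsE a κ s ≤ s ^ 2 / a ^ 2 := by
        unfold fsE
        have h8 : Real.exp (-(a ^ 2 / s ^ 2) - κ ^ 2 * s ^ 2) ≤ Real.exp (-(a ^ 2 / s ^ 2)) := by
          apply Real.exp_le_exp.2
          have : 0 ≤ κ ^ 2 * s ^ 2 := by positivity
          linarith
        refine h8.trans ?_
        rw [Real.exp_neg]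
        have h9 : a ^ 2 / s ^ 2 ≤ Real.exp (a ^ 2 / s ^ 2) := by
          have := Real.add_one_le_exp (a ^ 2 / s ^ 2)
          linarith
        have h10 : 0 < a ^ 2 / s ^ 2 := by positivity
        calc (Real.exp (a ^ 2 / s ^ 2))⁻¹ ≤ (a ^ 2 / s ^ 2)⁻¹ := inv_anti₀ h10 h9
          _ = s ^ 2 / a ^ 2 := by rw [inv_div]
      calc s⁻¹ * fsE a κ s ≤ s⁻¹ * (s ^ 2 / a ^ 2) := by gcongr
        _ = s / a ^ 2 := by field_simp
  have h6 := ((h5.add (((h3.const_mul (Real.exp (-2 * a * κ))).sub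
    (h4.const_mul (Real.exp (2 * a * κ))).neg).const_mul (1 / (2 * a)))).add
    (((h3.const_mul (Real.exp (-2 * a * κ))).add
    (h4.const_mul (Real.exp (2 * a * κ))).neg).const_mul κ)).const_mul (1 / (2 * a ^ 2))
  have e0 : 1 / (2 * a ^ 2) * (0 + 1 / (2 * a) * (Real.exp (-2 * a * κ) * 0 -
      -(Real.exp (2 * a * κ) * 0)) + κ * (Real.exp (-2 * a * κ) * 0 +
      -(Real.exp (2 * a * κ) * 0))) = 0 := by ring
  rw [e0] at h6
  refine h6.congr' ?_
  filter_upwards [self_mem_nhdsWithin] with s hs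
  rw [fsW_pos_eq hs]
  rfl

theorem fs_lim_top (ha : 0 < a) (hκ : 0 < κ) : Tendsto (fsW a κ) atTop
    (𝓝 (1 / (2 * a ^ 2) * ((1 / (2 * a) + κ) * (Real.exp (-2 * a * κ) * √Real.pi)))) := by
  have hinv : Tendsto (fun s : ℝ => a / s) atTop (𝓝 0) := tendsto_const_nhds.div_atTop tendsto_id
  have hlin : Tendsto (fun s : ℝ => κ * s) atTop atTop := tendsto_id.const_mul_atTop hκ
  have h1 : Tendsto (fun s : ℝ => κ * s - a / s) atTop atTop := by
    simp only [sub_eq_add_neg]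
    exact hlin.atTop_add hinv.neg
  have h2 : Tendsto (fun s : ℝ => -(κ * s + a / s)) atTop atBot :=
    tendsto_neg_atTop_atBot.comp (hlin.atTop_add hinv)
  have h3 := fsPhi_top.comp h1
  have h4 := fsPhi_bot.comp h2
  have h5 : Tendsto (fun s : ℝ => s⁻¹ * fsE a κ s) atTop (𝓝 0) := by
    refine tendsto_of_tendsto_of_tendsto_of_le_of_le' tendsto_const_nhds tendsto_inv_atTop_zero ?_ ?_
    · filter_upwards [Ioi_mem_atTop 0] with s hs
      have hs' : 0 < s := hs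
      unfold fsE
      positivity
    · filter_upwards [Ioi_mem_atTop 0] with s hs
      have hs' : 0 < s := hs
      have h7 : fsE a κ s ≤ 1 := by
        unfold fsE
        apply Real.exp_le_one_iff.2
        have h8 : 0 ≤ κ ^ 2 * s ^ 2 := by positivity
        have h9 : 0 ≤ a ^ 2 / s ^ 2 := by positivity
        linarith
      have : 0 < s⁻¹ := inv_pos.2 hs'
      nlinarith
  have h6 := ((h5.add (((h3.const_mul (Real.exp (-2 * a * κ))).sub
    (h4.const_mul (Real.exp (2 * a * κ))).neg).const_mul (1 / (2 * a)))).add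
    (((h3.const_mul (Real.exp (-2 * a * κ))).add
    (h4.const_mul (Real.exp (2 * a * κ))).neg).const_mul κ)).const_mul (1 / (2 * a ^ 2))
  have e0 : 1 / (2 * a ^ 2) * (0 + 1 / (2 * a) * (Real.exp (-2 * a * κ) * √Real.pi -
      -(Real.exp (2 * a * κ) * 0)) + κ * (Real.exp (-2 * a * κ) * √Real.pi +
      -(Real.exp (2 * a * κ) * 0))) =
      1 / (2 * a ^ 2) * ((1 / (2 * a) + κ) * (Real.exp (-2 * a * κ) * √Real.pi)) := by ring
  rw [e0] at h6
  refine h6.congr' ?_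
  filter_upwards [Ioi_mem_atTop 0] with s hs
  rw [fsW_pos_eq hs]
  rfl

theorem fs_int (ha : 0 < a) (hκ : 0 < κ) :
    IntegrableOn (fun s => (s ^ 4)⁻¹ * fsE a κ s) (Set.Ioi 0) ∧
    ∫ s in Set.Ioi (0 : ℝ), (s ^ 4)⁻¹ * fsE a κ s =
      1 / (2 * a ^ 2) * ((1 / (2 * a) + κ) * (Real.exp (-2 * a * κ) * √Real.pi)) := by
  have hW0 : fsW a κ 0 = 0 := if_pos le_rfl
  have hcont : ContinuousWithinAt (fsW a κ) (Set.Ici 0) 0 := by
    rw [← continuousWithinAt_Ioi_iff_Ici]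
    unfold ContinuousWithinAt
    rw [hW0]
    exact fs_lim_zero ha hκ
  have hd : ∀ x ∈ Set.Ioi (0 : ℝ), HasDerivAt (fsW a κ) ((x ^ 4)⁻¹ * fsE a κ x) x :=
    fun x hx => fsW_deriv ha hx
  have hp : ∀ x ∈ Set.Ioi (0 : ℝ), 0 ≤ (x ^ 4)⁻¹ * fsE a κ x := by
    intro x hx
    unfold fsE
    positivity
  refine ⟨integrableOn_Ioi_deriv_of_nonneg hcont hd hp (fs_lim_top ha hκ), ?_⟩
  rw [integral_Ioi_of_hasDerivAt_of_nonneg hcont hd hp (fs_lim_top ha hκ), hW0, sub_zero]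

end

theorem fs_pow {s : ℝ} (hs : 0 < s) :
    (Real.pi / (1 / (4 * s ^ 2))) ^ ((5 : ℝ) / 2) = 32 * Real.pi ^ 2 * √Real.pi * s ^ 5 := by
  have hpi := Real.pi_pos
  have hsq : √Real.pi ^ 2 = Real.pi := Real.sq_sqrt hpi.le
  have h1 : Real.pi / (1 / (4 * s ^ 2)) = (2 * √Real.pi * s) ^ (2 : ℝ) := by
    rw [Real.rpow_two, mul_pow, mul_pow, hsq]
    field_simp
    norm_num
  rw [h1, ← Real.rpow_mul (by positivity)]
  have h2 : (2 : ℝ) * (5 / 2) = ((5 : ℕ) : ℝ) := by norm_num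
  rw [h2, Real.rpow_natCast]
  calc (2 * √Real.pi * s) ^ 5 = 32 * (√Real.pi ^ 2) ^ 2 * √Real.pi * s ^ 5 := by ring
    _ = _ := by rw [hsq]

theorem fs_gauss_norm {s : ℝ} (hs : 0 < s) :
    ∫ x : E5, Real.exp (-(1 / (4 * s ^ 2)) * ‖x‖ ^ 2) = 32 * Real.pi ^ 2 * √Real.pi * s ^ 5 := by
  have hb : 0 < 1 / (4 * s ^ 2) := by positivity
  rw [GaussianFourier.integral_rexp_neg_mul_sq_norm hb]
  have : ((Module.finrank ℝ E5 : ℕ) : ℝ) = 5 := by
    simp
  rw [this]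
  exact fs_pow hs

theorem fs_gauss_four {s : ℝ} (hs : 0 < s) (ξ : E5) :
    ∫ x : E5, cexp (-(2 * Real.pi * inner ℝ x ξ : ℝ) * I) *
      ((Real.exp (-(1 / (4 * s ^ 2)) * ‖x‖ ^ 2) : ℝ) : ℂ) =
      ((32 * Real.pi ^ 2 * √Real.pi * s ^ 5 * Real.exp (-(4 * Real.pi ^ 2 * ‖ξ‖ ^ 2) * s ^ 2) : ℝ) : ℂ) := by
  have hb : 0 < ((1 / (4 * s ^ 2) : ℝ) : ℂ).re := by
    rw [Complex.ofReal_re]; positivity
  have h1 := fourier_gaussian_innerProductSpace (V := E5) hb ξ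
  rw [Real.fourier_eq'] at h1
  have h2 : ∀ x : E5, cexp (-(2 * Real.pi * inner ℝ x ξ : ℝ) * I) *
      ((Real.exp (-(1 / (4 * s ^ 2)) * ‖x‖ ^ 2) : ℝ) : ℂ) =
      cexp (((-2 * Real.pi * inner ℝ x ξ : ℝ) : ℂ) * I) •
        cexp (-((1 / (4 * s ^ 2) : ℝ) : ℂ) * (‖x‖ : ℂ) ^ 2) := by
    intro x
    rw [smul_eq_mul]
    push_cast
    ring_nf
  simp_rw [h2]
  rw [h1]
  have h3 : ((Module.finrank ℝ E5 : ℕ) : ℂ) / 2 = (((5 : ℝ) / 2 : ℝ) : ℂ) := by
    simp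
  rw [h3]
  have h4 : (Real.pi : ℂ) / ((1 / (4 * s ^ 2) : ℝ) : ℂ) = ((Real.pi / (1 / (4 * s ^ 2)) : ℝ) : ℂ) := by
    push_cast; ring
  rw [h4, ← Complex.ofReal_cpow (by have := Real.pi_pos; positivity), fs_pow hs]
  have hs0 : (s : ℂ) ≠ 0 := by exact_mod_cast hs.ne'
  push_cast
  congr 2
  field_simp

theorem fs_GG {κ r : ℝ} (hκ : 0 < κ) (hr : 0 < r) :
    GG (I * κ) r = ((1 / (16 * Real.pi ^ 2 * √Real.pi) *
      ∫ s in Set.Ioi (0 : ℝ), (s ^ 4)⁻¹ * fsE (r / 2) κ s : ℝ) : ℂ) := by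
  rw [(GG_imag κ r).1, (fs_int (a := r / 2) (by positivity) hκ).2]
  have hpi := Real.pi_pos
  have hsq : 0 < √Real.pi := Real.sqrt_pos.2 hpi
  congr 1
  have h1 : -2 * (r / 2) * κ = -κ * r := by ring
  rw [h1]
  field_simp
  ring

/-- the double integrand -/
noncomputable def fsF (κ : ℝ) (ξ : E5) (x : E5) (s : ℝ) : ℂ :=
  cexp (-(2 * Real.pi * inner ℝ x ξ : ℝ) * I) * (((s ^ 4)⁻¹ * fsE (‖x‖ / 2) κ s : ℝ) : ℂ)

theorem fsF_meas (κ : ℝ) (ξ : E5) : Measurable (fun p : E5 × ℝ => fsF κ ξ p.1 p.2) := by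
  unfold fsF fsE
  have h1 : Measurable fun p : E5 × ℝ => inner ℝ p.1 ξ := by fun_prop
  fun_prop

theorem fsF_norm (κ : ℝ) (ξ x : E5) (s : ℝ) :
    ‖fsF κ ξ x s‖ = (s ^ 4)⁻¹ * Real.exp (-κ ^ 2 * s ^ 2) *
      Real.exp (-(1 / (4 * s ^ 2)) * ‖x‖ ^ 2) := by
  unfold fsF
  rw [norm_mul]
  have h1 : ‖cexp (-(2 * Real.pi * inner ℝ x ξ : ℝ) * I)‖ = 1 := by
    have : (-((2 * Real.pi * inner ℝ x ξ : ℝ) : ℂ)) = ((-(2 * Real.pi * inner ℝ x ξ) : ℝ) : ℂ) := by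
      push_cast; ring
    rw [this, Complex.norm_exp_ofReal_mul_I]
  rw [h1, one_mul, Complex.norm_real, Real.norm_eq_abs, abs_of_nonneg (by unfold fsE; positivity)]
  unfold fsE
  rw [mul_assoc, ← Real.exp_add]
  congr 2
  by_cases hs : s = 0
  · subst hs; simp
  · field_simp
    ring

theorem fsF_eq (κ : ℝ) (ξ x : E5) {s : ℝ} (hs : 0 < s) :
    fsF κ ξ x s = (((s ^ 4)⁻¹ * Real.exp (-κ ^ 2 * s ^ 2) : ℝ) : ℂ) *
      (cexp (-(2 * Real.pi * inner ℝ x ξ : ℝ) * I) *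
        ((Real.exp (-(1 / (4 * s ^ 2)) * ‖x‖ ^ 2) : ℝ) : ℂ)) := by
  unfold fsF
  have h : fsE (‖x‖ / 2) κ s = Real.exp (-κ ^ 2 * s ^ 2) *
      Real.exp (-(1 / (4 * s ^ 2)) * ‖x‖ ^ 2) := by
    unfold fsE
    rw [← Real.exp_add]
    congr 1
    field_simp
    ring
  rw [h]
  push_cast
  ring

theorem fsF_integrable {κ : ℝ} (hκ : 0 < κ) (ξ : E5) :
    Integrable (fun p : E5 × ℝ => fsF κ ξ p.1 p.2)
      ((volume : Measure E5).prod (volume.restrict (Set.Ioi (0 : ℝ)))) := by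
  rw [integrable_prod_iff' (fsF_meas κ ξ).aestronglyMeasurable]
  constructor
  · filter_upwards [ae_restrict_mem measurableSet_Ioi] with s hs
    have hs' : 0 < s := hs
    have hb : 0 < ((1 / (4 * s ^ 2) : ℝ) : ℂ).re := by
      rw [Complex.ofReal_re]; positivity
    have h1 := (GaussianFourier.integrable_cexp_neg_mul_sq_norm_add (V := E5) hb 0 0).norm
    have hm : AEStronglyMeasurable (fun x : E5 => fsF κ ξ x s) volume := by
      have := (fsF_meas κ ξ).comp (measurable_id.prodMk (measurable_const (a := s)) : Measurable fun x : E5 => (x, s))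
      exact this.aestronglyMeasurable
    refine (h1.const_mul ((s ^ 4)⁻¹ * Real.exp (-κ ^ 2 * s ^ 2))).mono' hm ?_
    filter_upwards with x
    rw [fsF_norm]
    apply le_of_eq
    congr 1
    rw [Complex.norm_exp]
    congr 1
    rw [inner_zero_left]
    have : -((1 / (4 * s ^ 2) : ℝ) : ℂ) * (‖x‖ : ℂ) ^ 2 + 0 * ((0 : ℝ) : ℂ) =
      ((-(1 / (4 * s ^ 2)) * ‖x‖ ^ 2 : ℝ) : ℂ) := by push_cast; ring
    rw [this, Complex.ofReal_re]
  · have h1 := ((integrable_mul_exp_neg_mul_sq (b := κ ^ 2) (by positivity)).integrableOn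
      (s := Set.Ioi (0 : ℝ))).const_mul (32 * Real.pi ^ 2 * √Real.pi)
    refine h1.congr ?_
    filter_upwards [ae_restrict_mem measurableSet_Ioi] with s hs
    have hs' : 0 < s := hs
    simp only [fsF_norm]
    rw [integral_const_mul, fs_gauss_norm hs']
    field_simp

theorem fs_imag {κ : ℝ} (hκ : 0 < κ) (ξ : E5) :
    ∫ x : E5, cexp (-(2 * Real.pi * inner ℝ x ξ : ℝ) * I) * GG (I * κ) ‖x‖ =
      1 / (4 * (Real.pi : ℂ) ^ 2 * (‖ξ‖ : ℂ) ^ 2 - (I * κ) ^ 2) := by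
  have hpi := Real.pi_pos
  have hsqpi : 0 < √Real.pi := Real.sqrt_pos.2 hpi
  have h1 : ∀ᵐ x : E5, cexp (-(2 * Real.pi * inner ℝ x ξ : ℝ) * I) * GG (I * κ) ‖x‖ =
      ((1 / (16 * Real.pi ^ 2 * √Real.pi) : ℝ) : ℂ) * ∫ s in Set.Ioi (0 : ℝ), fsF κ ξ x s := by
    have : ∀ᵐ x : E5, x ≠ 0 := by
      have h0 : (volume : Measure E5) {0} = 0 := measure_singleton 0
      rw [ae_iff]
      simp
    filter_upwards [this] with x hx
    rw [fs_GG hκ (norm_pos_iff.2 hx)]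
    unfold fsF
    rw [integral_const_mul, integral_complex_ofReal]
    push_cast
    ring
  rw [integral_congr_ae h1, integral_const_mul]
  rw [integral_integral_swap (f := fsF κ ξ) (fsF_integrable hκ ξ)]
  have h2 : ∫ s in Set.Ioi (0 : ℝ), ∫ x : E5, fsF κ ξ x s =
      ((32 * Real.pi ^ 2 * √Real.pi : ℝ) : ℂ) * ∫ s in Set.Ioi (0 : ℝ), (s : ℂ) *
        cexp (-(((4 * Real.pi ^ 2 * ‖ξ‖ ^ 2 + κ ^ 2 : ℝ)) : ℂ) * (s : ℂ) ^ 2) := by
    rw [← integral_const_mul]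
    apply setIntegral_congr_fun measurableSet_Ioi
    intro s hs
    have hs' : 0 < s := hs
    simp only [fsF_eq κ ξ _ hs']
    rw [integral_const_mul, fs_gauss_four hs']
    have e : cexp (-(((4 * Real.pi ^ 2 * ‖ξ‖ ^ 2 + κ ^ 2 : ℝ)) : ℂ) * (s : ℂ) ^ 2) =
        ((Real.exp (-κ ^ 2 * s ^ 2) * Real.exp (-(4 * Real.pi ^ 2 * ‖ξ‖ ^ 2) * s ^ 2) : ℝ) : ℂ) := by
      rw [← Real.exp_add, Complex.ofReal_exp]
      congr 1
      push_cast
      ring
    rw [e]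
    have hs0 : (s : ℂ) ≠ 0 := by exact_mod_cast hs'.ne'
    push_cast
    field_simp
  rw [h2, integral_mul_cexp_neg_mul_sq (by rw [Complex.ofReal_re]; positivity)]
  have h3 : (4 * (Real.pi : ℂ) ^ 2 * (‖ξ‖ : ℂ) ^ 2 - (I * κ) ^ 2) =
    (((4 * Real.pi ^ 2 * ‖ξ‖ ^ 2 + κ ^ 2 : ℝ)) : ℂ) := by
    rw [mul_pow, Complex.I_sq]; push_cast; ring
  rw [h3]
  have h4 : (((4 * Real.pi ^ 2 * ‖ξ‖ ^ 2 + κ ^ 2 : ℝ)) : ℂ) ≠ 0 := by
    have : 4 * Real.pi ^ 2 * ‖ξ‖ ^ 2 + κ ^ 2 ≠ 0 := by positivity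
    exact_mod_cast this
  generalize (((4 * Real.pi ^ 2 * ‖ξ‖ ^ 2 + κ ^ 2 : ℝ)) : ℂ) = D at h4
  have h5 : ((√Real.pi : ℝ) : ℂ) ≠ 0 := by exact_mod_cast hsqpi.ne'
  have h6 : ((Real.pi : ℝ) : ℂ) ≠ 0 := by exact_mod_cast hpi.ne'
  push_cast
  field_simp
  norm_num

theorem fs_rad3 {β : ℝ} (hβ : 0 < β) :
    Integrable (fun x : E5 => Real.exp (-β * ‖x‖) / ‖x‖ ^ 3) := by
  obtain ⟨c, hc, h⟩ := radial_int
  have hm : AEStronglyMeasurable (fun x : E5 => Real.exp (-β * ‖x‖) / ‖x‖ ^ 3) volume := by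
    have : Measurable (fun x : E5 => Real.exp (-β * ‖x‖) / ‖x‖ ^ 3) := by fun_prop
    exact this.aestronglyMeasurable
  rw [← lintegral_ofReal_ne_top_iff_integrable hm (Eventually.of_forall fun x => by
    show (0 : ℝ) ≤ _; positivity), (h β hβ).2.1]
  exact ENNReal.ofReal_ne_top

theorem fs_rad2 {β : ℝ} (hβ : 0 < β) :
    Integrable (fun x : E5 => Real.exp (-β * ‖x‖) / ‖x‖ ^ 2) := by
  obtain ⟨c, hc, h⟩ := radial_int
  have hm : AEStronglyMeasurable (fun x : E5 => Real.exp (-β * ‖x‖) / ‖x‖ ^ 2) volume := by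
    have : Measurable (fun x : E5 => Real.exp (-β * ‖x‖) / ‖x‖ ^ 2) := by fun_prop
    exact this.aestronglyMeasurable
  rw [← lintegral_ofReal_ne_top_iff_integrable hm (Eventually.of_forall fun x => by
    show (0 : ℝ) ≤ _; positivity), (h β hβ).2.2]
  exact ENNReal.ofReal_ne_top

theorem fs_GG_meas (l : ℂ) : Measurable (fun x : E5 => GG l ‖x‖) := by
  unfold GG
  fun_prop

theorem fs_GD_meas (l : ℂ) : Measurable (fun x : E5 => GD l ‖x‖) := by
  unfold GD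
  fun_prop

theorem fs_GG_integrable {l : ℂ} (hl : 0 < l.im) : Integrable (fun x : E5 => GG l ‖x‖) := by
  have h := ((fs_rad3 hl).add ((fs_rad2 hl).const_mul ‖l‖)).const_mul (1 / (8 * Real.pi ^ 2))
  refine h.mono' (fs_GG_meas l).aestronglyMeasurable ?_
  filter_upwards with x
  refine (GG_bound l ‖x‖ (norm_nonneg _)).1.trans ?_
  simp only [Pi.add_apply]
  generalize ‖x‖ = r
  have hpi := Real.pi_pos
  by_cases hr : r = 0
  · subst hr; simp
  · apply le_of_eq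
    field_simp

theorem fs_exp_bound {b r : ℝ} (hb : 0 < b) (hr : 0 ≤ r) :
    Real.exp (-b * r) / r ≤ 2 / b * (Real.exp (-(b / 2) * r) / r ^ 2) := by
  rcases hr.eq_or_lt with h | h
  · subst h; simp
  · have h1 : b / 2 * r ≤ Real.exp (b / 2 * r) := by
      have := Real.add_one_le_exp (b / 2 * r)
      linarith
    have h2 : Real.exp (-(b / 2) * r) = Real.exp (-b * r) * Real.exp (b / 2 * r) := by
      rw [← Real.exp_add]; congr 1; ring
    rw [h2]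
    have h3 : 2 / b * (Real.exp (-b * r) * Real.exp (b / 2 * r) / r ^ 2) =
      Real.exp (-b * r) / r * (Real.exp (b / 2 * r) / (b / 2 * r)) := by
      field_simp
    rw [h3]
    have h4 : 1 ≤ Real.exp (b / 2 * r) / (b / 2 * r) := by
      rw [one_le_div (by positivity)]
      exact h1
    have h5 : 0 ≤ Real.exp (-b * r) / r := by positivity
    nlinarith

theorem fs_phase (ξ x : E5) : ‖cexp (-(2 * Real.pi * inner ℝ x ξ : ℝ) * I)‖ = 1 := by
  have : (-((2 * Real.pi * inner ℝ x ξ : ℝ) : ℂ)) = ((-(2 * Real.pi * inner ℝ x ξ) : ℝ) : ℂ) := by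
    push_cast; ring
  rw [this, Complex.norm_exp_ofReal_mul_I]

theorem fs_phase_meas (ξ : E5) :
    Measurable (fun x : E5 => cexp (-(2 * Real.pi * inner ℝ x ξ : ℝ) * I)) := by
  have h1 : Measurable fun x : E5 => inner ℝ x ξ := by fun_prop
  fun_prop

theorem fs_diff (ξ : E5) {l₀ : ℂ} (hl : 0 < l₀.im) :
    DifferentiableAt ℂ (fun l : ℂ => ∫ x : E5, cexp (-(2 * Real.pi * inner ℝ x ξ : ℝ) * I) *
      GG l ‖x‖) l₀ := by
  have hpi := Real.pi_pos
  have hb : 0 < l₀.im / 2 := by positivity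
  have hkey := hasDerivAt_integral_of_dominated_loc_of_deriv_le
    (μ := (volume : Measure E5))
    (F := fun (l : ℂ) (x : E5) => cexp (-(2 * Real.pi * inner ℝ x ξ : ℝ) * I) * GG l ‖x‖)
    (F' := fun (l : ℂ) (x : E5) => cexp (-(2 * Real.pi * inner ℝ x ξ : ℝ) * I) * GD l ‖x‖)
    (x₀ := l₀) (s := Metric.ball l₀ (l₀.im / 2))
    (bound := fun x => ((‖l₀‖ + l₀.im / 2) / (8 * Real.pi ^ 2)) *
      (2 / (l₀.im / 2) * (Real.exp (-(l₀.im / 2 / 2) * ‖x‖) / ‖x‖ ^ 2)))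
    (Metric.ball_mem_nhds _ hb)
    (Eventually.of_forall fun l => ((fs_phase_meas ξ).mul (fs_GG_meas l)).aestronglyMeasurable)
    ?_ ((fs_phase_meas ξ).mul (fs_GD_meas l₀)).aestronglyMeasurable ?_ ?_ ?_
  · exact hkey.2.differentiableAt
  · refine (fs_GG_integrable hl).norm.mono' ((fs_phase_meas ξ).mul (fs_GG_meas l₀)).aestronglyMeasurable ?_
    filter_upwards with x
    rw [norm_mul, fs_phase, one_mul]
  · filter_upwards with x l hlm
    rw [norm_mul, fs_phase, one_mul]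
    refine (GG_bound l ‖x‖ (norm_nonneg _)).2.trans ?_
    rw [Metric.mem_ball, Complex.dist_eq] at hlm
    have h1 : ‖l‖ ≤ ‖l₀‖ + l₀.im / 2 := by
      have := norm_sub_norm_le l l₀
      linarith
    have h2 : l₀.im / 2 ≤ l.im := by
      have h3 := Complex.abs_im_le_norm (l - l₀)
      rw [Complex.sub_im] at h3
      have h4 := abs_lt.1 (lt_of_le_of_lt h3 hlm)
      linarith [h4.1]
    have h5 := fs_exp_bound hb (norm_nonneg x)
    have h6 : Real.exp (-l.im * ‖x‖) ≤ Real.exp (-(l₀.im / 2) * ‖x‖) := by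
      apply Real.exp_le_exp.2
      have := norm_nonneg x
      nlinarith
    calc ‖l‖ * Real.exp (-l.im * ‖x‖) / (8 * Real.pi ^ 2 * ‖x‖)
        ≤ (‖l₀‖ + l₀.im / 2) * Real.exp (-(l₀.im / 2) * ‖x‖) / (8 * Real.pi ^ 2 * ‖x‖) := by
          gcongr
      _ = ((‖l₀‖ + l₀.im / 2) / (8 * Real.pi ^ 2)) * (Real.exp (-(l₀.im / 2) * ‖x‖) / ‖x‖) := by
          rw [div_mul_div_comm]
      _ ≤ _ := by
          gcongr
  · exact (((fs_rad2 (β := l₀.im / 2 / 2) (by positivity)).const_mul _).const_mul _)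
  · filter_upwards with x l _
    exact (GG_hasDerivAt l ‖x‖).const_mul _

theorem fs_denom (ξ : E5) {l : ℂ} (hl : 0 < l.im) :
    4 * (Real.pi : ℂ) ^ 2 * (‖ξ‖ : ℂ) ^ 2 - l ^ 2 ≠ 0 := by
  intro h
  have h1 : l ^ 2 = ((4 * Real.pi ^ 2 * ‖ξ‖ ^ 2 : ℝ) : ℂ) := by
    push_cast
    linear_combination -h
  have h2 : (l ^ 2).im = 0 := by rw [h1, Complex.ofReal_im]
  have h3 : (l ^ 2).re = 4 * Real.pi ^ 2 * ‖ξ‖ ^ 2 := by rw [h1, Complex.ofReal_re]
  rw [sq, Complex.mul_im] at h2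
  rw [sq, Complex.mul_re] at h3
  have h4 : l.re = 0 := by
    have : l.re * l.im = 0 := by linarith
    rcases mul_eq_zero.1 this with h | h
    · exact h
    · exact absurd h hl.ne'
  rw [h4] at h3
  have h5 : 0 ≤ 4 * Real.pi ^ 2 * ‖ξ‖ ^ 2 := by positivity
  nlinarith [mul_pos hl hl]

theorem GG_fourier (l : ℂ) (hl : 0 < l.im) :
    Integrable (fun x : E5 => GG l ‖x‖) ∧
    ∀ ξ : E5, ∫ x : E5, cexp (-(2 * Real.pi * inner ℝ x ξ : ℝ) * I) * GG l ‖x‖ =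
      1 / (4 * (Real.pi : ℂ) ^ 2 * (‖ξ‖ : ℂ) ^ 2 - l ^ 2) := by
  refine ⟨fs_GG_integrable hl, fun ξ => ?_⟩
  have hopen : IsOpen {z : ℂ | 0 < z.im} := isOpen_lt continuous_const Complex.continuous_im
  have hf : AnalyticOnNhd ℂ (fun l : ℂ => ∫ x : E5, cexp (-(2 * Real.pi * inner ℝ x ξ : ℝ) * I) *
      GG l ‖x‖) {z : ℂ | 0 < z.im} := by
    apply DifferentiableOn.analyticOnNhd _ hopen
    intro z hz
    exact (fs_diff ξ hz).differentiableWithinAt
  have hg : AnalyticOnNhd ℂ (fun l : ℂ => 1 / (4 * (Real.pi : ℂ) ^ 2 * (‖ξ‖ : ℂ) ^ 2 - l ^ 2))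
      {z : ℂ | 0 < z.im} := by
    apply DifferentiableOn.analyticOnNhd _ hopen
    intro z hz
    have hd : DifferentiableAt ℂ (fun l : ℂ => 4 * (Real.pi : ℂ) ^ 2 * (‖ξ‖ : ℂ) ^ 2 - l ^ 2) z := by
      fun_prop
    exact ((differentiableAt_const 1).div hd (fs_denom ξ hz)).differentiableWithinAt
  have hpre : IsPreconnected {z : ℂ | 0 < z.im} := (convex_halfSpace_im_gt 0).isPreconnected
  have hI : I ∈ {z : ℂ | 0 < z.im} := by simp
  have htend : Tendsto (fun κ : ℝ => I * (κ : ℂ)) (𝓝[≠] 1) (𝓝[≠] I) := by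
    apply tendsto_nhdsWithin_of_tendsto_nhds_of_eventually_within
    · have hc : Continuous (fun κ : ℝ => I * (κ : ℂ)) := by fun_prop
      have := hc.tendsto 1
      simp only [Complex.ofReal_one, mul_one] at this
      exact this.mono_left nhdsWithin_le_nhds
    · filter_upwards [self_mem_nhdsWithin] with κ hκ
      intro h
      apply hκ
      have h1 : I * (κ : ℂ) = I * 1 := by rw [mul_one]; exact h
      have h2 := mul_left_cancel₀ Complex.I_ne_zero h1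
      exact_mod_cast h2
  have hfreq : ∃ᶠ z in 𝓝[≠] I, (fun l : ℂ => ∫ x : E5, cexp (-(2 * Real.pi * inner ℝ x ξ : ℝ) * I) *
      GG l ‖x‖) z = (fun l : ℂ => 1 / (4 * (Real.pi : ℂ) ^ 2 * (‖ξ‖ : ℂ) ^ 2 - l ^ 2)) z := by
    apply htend.frequently
    apply Eventually.frequently
    have : ∀ᶠ κ : ℝ in 𝓝[≠] 1, 0 < κ := nhdsWithin_le_nhds (lt_mem_nhds one_pos)
    filter_upwards [this] with κ hκ
    exact fs_imag hκ ξ
  exact hf.eqOn_of_preconnected_of_frequently_eq hg hpre hI hfreq hl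

end Pool.Agent.H269
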