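import Pool.Agent.H269.DefsC
import Pool.Agent.H269.R5.J22
import Pool.Agent.H269.R5.J25

/-!
# R5-26 free resolvent: L² bound and weak equation (MP_f2af60_mp, infinitely many resonances in dimension five)
-/

set_option autoImplicit false

open MeasureTheory Filter Topology Complex
open scoped InnerProductSpace ENNReal NNReal

namespace Pool.Agent.H269



/-! helper lemmas -/

section free_resolvent_aux

open scoped FourierTransform ContDiff SchwartzMap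

theorem fr_fourier_toLp_ae (h : E5 → ℂ) (h1 : Integrable h) (h2 : MemLp h 2) :
    (𝓕 (h2.toLp h : Lp (α := E5) ℂ 2) : Lp (α := E5) ℂ 2) =ᵐ[volume] 𝓕 h := by
  apply ae_eq_of_integral_contDiff_smul_eq
  · exact (Lp.memLp _).locallyIntegrable (by norm_num)
  · apply Continuous.locallyIntegrable
    exact VectorFourier.fourierIntegral_continuous Real.continuous_fourierChar
      (innerSL ℝ).continuous₂ h1
  · intro g g_smooth g_cpt
    have hg₁ : HasCompactSupport (Complex.ofRealCLM ∘ g) := g_cpt.comp_left rfl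
    have hg₂ : ContDiff ℝ ∞ (Complex.ofRealCLM ∘ g) := by fun_prop
    set G : 𝓢(E5, ℂ) := hg₁.toSchwartzMap hg₂ with hG
    have e1 : ∫ x, g x • (𝓕 (h2.toLp h : Lp (α := E5) ℂ 2) : Lp (α := E5) ℂ 2) x
        = (Lp.toTemperedDistribution
          (𝓕 (h2.toLp h : Lp (α := E5) ℂ 2) : Lp (α := E5) ℂ 2)) G := by
      rw [Lp.toTemperedDistribution_apply]
      simp [hG]
    rw [e1, ← Lp.fourier_toTemperedDistribution_eq, TemperedDistribution.fourier_apply,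
      Lp.toTemperedDistribution_apply]
    have e2 : ∫ x, (𝓕 G) x • (h2.toLp h : Lp (α := E5) ℂ 2) x =
        ∫ x, (𝓕 (G : E5 → ℂ)) x • h x := by
      apply integral_congr_ae
      filter_upwards [h2.coeFn_toLp] with x hx
      rw [hx]
      rfl
    rw [e2]
    have e3 : ∫ x, (𝓕 (G : E5 → ℂ)) x • h x = ∫ x, (G x) • (𝓕 h) x := by
      simpa using! (VectorFourier.integral_fourierIntegral_smul_eq_flip (L := innerₗ (E5))
        Real.continuous_fourierChar continuous_inner G.integrable h1)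
    rw [e3]
    apply integral_congr_ae
    filter_upwards with x
    simp [hG]

theorem fr_plancherel (h : E5 → ℂ) (h1 : Integrable h) (h2 : MemLp h 2) :
    ∫⁻ ξ, ‖𝓕 h ξ‖ₑ ^ 2 = ∫⁻ t, ‖h t‖ₑ ^ 2 := by
  have e1 : ‖(𝓕 (h2.toLp h : Lp (α := E5) ℂ 2) : Lp (α := E5) ℂ 2)‖ₑ =
      ‖(h2.toLp h : Lp (α := E5) ℂ 2)‖ₑ := by
    rw [← ofReal_norm, ← ofReal_norm, Lp.norm_fourier_eq]
  rw [Lp.enorm_def, Lp.enorm_def, eLpNorm_congr_ae (fr_fourier_toLp_ae h h1 h2),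
    eLpNorm_congr_ae h2.coeFn_toLp] at e1
  have e2 : ∀ f : E5 → ℂ, eLpNorm f 2 volume = (∫⁻ x, ‖f x‖ₑ ^ 2) ^ (1 / 2 : ℝ) := by
    intro f
    rw [eLpNorm_eq_lintegral_rpow_enorm_toReal (by norm_num) (by norm_num)]
    simp
  rw [e2, e2] at e1
  exact ENNReal.rpow_left_injective (by norm_num) e1

/-- The Cauchy-Schwarz inequality with a weight. -/
theorem fr_cs {α : Type*} [MeasurableSpace α] {μ : Measure α} {a b : α → ℝ≥0∞}
    (ha : AEMeasurable a μ) (hb : AEMeasurable b μ) :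
    (∫⁻ y, a y * b y ∂μ) ^ 2 ≤ (∫⁻ y, a y ^ 2 * b y ∂μ) * ∫⁻ y, b y ∂μ := by
  have h1 := ENNReal.lintegral_mul_le_Lp_mul_Lq μ Real.HolderConjugate.two_two
    (ha.mul (hb.pow_const (1 / 2 : ℝ))) (hb.pow_const (1 / 2 : ℝ))
  have e1 : ∀ y, (a y * b y ^ (1 / 2 : ℝ)) * b y ^ (1 / 2 : ℝ) = a y * b y := by
    intro y
    rw [mul_assoc, ← ENNReal.rpow_add_of_nonneg _ _ (by norm_num) (by norm_num)]
    norm_num
  have e2 : ∀ y, (a y * b y ^ (1 / 2 : ℝ)) ^ (2 : ℝ) = a y ^ 2 * b y := by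
    intro y
    rw [ENNReal.mul_rpow_of_nonneg _ _ (by norm_num), ← ENNReal.rpow_mul]
    norm_num
  have e3 : ∀ y, (b y ^ (1 / 2 : ℝ)) ^ (2 : ℝ) = b y := by
    intro y
    rw [← ENNReal.rpow_mul]
    norm_num
  simp only [Pi.mul_apply, e1, e2, e3] at h1
  calc (∫⁻ y, a y * b y ∂μ) ^ 2
      ≤ ((∫⁻ y, a y ^ 2 * b y ∂μ) ^ (1 / 2 : ℝ) * (∫⁻ y, b y ∂μ) ^ (1 / 2 : ℝ)) ^ 2 := by
        gcongr
    _ = _ := by
        rw [mul_pow, ← ENNReal.rpow_natCast, ← ENNReal.rpow_natCast, ← ENNReal.rpow_mul,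
          ← ENNReal.rpow_mul]
        norm_num

/-- Young's inequality `L¹ * L² ⊆ L²` -/
theorem fr_young (K h : E5 → ℂ) (hK : Integrable K) (hh : AEStronglyMeasurable h volume) :
    ∫⁻ x, ‖∫ y, K (x - y) * h y‖ₑ ^ 2 ≤ (∫⁻ z, ‖K z‖ₑ) ^ 2 * ∫⁻ y, ‖h y‖ₑ ^ 2 := by
  have h1 : ∀ x, ‖∫ y, K (x - y) * h y‖ₑ ^ 2 ≤
      (∫⁻ z, ‖h (x - z)‖ₑ ^ 2 * ‖K z‖ₑ) * (∫⁻ z, ‖K z‖ₑ) := by
    intro x
    have h2 : ‖∫ y, K (x - y) * h y‖ₑ ≤ ∫⁻ z, ‖h (x - z)‖ₑ * ‖K z‖ₑ := by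
      have e : ∫ y, K (x - y) * h y = ∫ z, K z * h (x - z) := by
        rw [← integral_sub_left_eq_self (fun z => K z * h (x - z)) volume x]
        simp
      rw [e]
      refine (enorm_integral_le_lintegral_enorm _).trans (le_of_eq ?_)
      simp_rw [enorm_mul, mul_comm]
    have hm : AEStronglyMeasurable (fun z => h (x - z)) volume :=
      hh.comp_quasiMeasurePreserving (quasiMeasurePreserving_sub_left volume x)
    calc ‖∫ y, K (x - y) * h y‖ₑ ^ 2 ≤ (∫⁻ z, ‖h (x - z)‖ₑ * ‖K z‖ₑ) ^ 2 := by gcongr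
      _ ≤ _ := fr_cs hm.enorm hK.1.enorm
  have hm2 : AEMeasurable (fun p : E5 × E5 => ‖h (p.1 - p.2)‖ₑ ^ 2 * ‖K p.2‖ₑ)
      (volume.prod volume) := by
    have h3 : AEStronglyMeasurable (fun p : E5 × E5 => h (p.1 - p.2)) (volume.prod volume) :=
      hh.comp_quasiMeasurePreserving (quasiMeasurePreserving_sub volume volume)
    exact (h3.enorm.pow_const 2).mul hK.1.comp_snd.enorm
  calc ∫⁻ x, ‖∫ y, K (x - y) * h y‖ₑ ^ 2
      ≤ ∫⁻ x, (∫⁻ z, ‖h (x - z)‖ₑ ^ 2 * ‖K z‖ₑ) * (∫⁻ z, ‖K z‖ₑ) := lintegral_mono h1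
    _ = (∫⁻ x, ∫⁻ z, ‖h (x - z)‖ₑ ^ 2 * ‖K z‖ₑ) * (∫⁻ z, ‖K z‖ₑ) := by
        rw [lintegral_mul_const'' _ hm2.lintegral_prod_right']
    _ = (∫⁻ z, ∫⁻ x, ‖h (x - z)‖ₑ ^ 2 * ‖K z‖ₑ) * (∫⁻ z, ‖K z‖ₑ) := by
        rw [lintegral_lintegral_swap hm2]
    _ = (∫⁻ z, (∫⁻ y, ‖h y‖ₑ ^ 2) * ‖K z‖ₑ) * (∫⁻ z, ‖K z‖ₑ) := by
        congr 1
        refine lintegral_congr fun z => ?_
        rw [lintegral_mul_const' _ _ enorm_ne_top,
          lintegral_sub_right_eq_self (fun y => ‖h y‖ₑ ^ 2) z]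
    _ = _ := by
        rw [lintegral_const_mul'' _ hK.1.enorm]
        ring

theorem fr_memLp (K h : E5 → ℂ) (hK : Integrable K) (hh : Integrable h) (hh2 : MemLp h 2) :
    Integrable (fun x => ∫ y, K (x - y) * h y) ∧ MemLp (fun x => ∫ y, K (x - y) * h y) 2 := by
  have hFc : (fun x => ∫ y, K (x - y) * h y) =
      convolution h K (ContinuousLinearMap.mul ℂ ℂ) volume := by
    funext x
    unfold convolution
    congr 1
    funext z
    rw [ContinuousLinearMap.mul_apply', mul_comm]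
  have hF1 : Integrable (fun x => ∫ y, K (x - y) * h y) := by
    rw [hFc]
    exact hh.integrable_convolution (ContinuousLinearMap.mul ℂ ℂ) hK
  refine ⟨hF1, hF1.1, ?_⟩
  rw [eLpNorm_lt_top_iff_lintegral_rpow_enorm_lt_top (by norm_num) (by norm_num)]
  have hh3 : ∫⁻ y, ‖h y‖ₑ ^ 2 < ⊤ := by
    have := (eLpNorm_lt_top_iff_lintegral_rpow_enorm_lt_top (by norm_num) (by norm_num)).1 hh2.2
    simpa using this
  have hK3 : ∫⁻ z, ‖K z‖ₑ < ⊤ := hK.2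
  have := (fr_young K h hK hh.1).trans_lt
    (ENNReal.mul_lt_top (ENNReal.pow_lt_top hK3) hh3)
  simpa using this

theorem fr_mult (K : E5 → ℂ) (hK : Integrable K) (M : ℝ) (hM : 0 ≤ M)
    (hF : ∀ ξ : E5, ‖∫ x, Complex.exp (-(2 * Real.pi * inner ℝ x ξ : ℝ) * Complex.I) * K x‖ ≤ M)
    (h : E5 → ℂ) (hh : Integrable h) (hh2 : MemLp h 2) :
    ∫⁻ x : E5, ‖∫ z, K (x - z) * h z‖ₑ ^ 2 ≤ ENNReal.ofReal (M ^ 2) * ∫⁻ z, ‖h z‖ₑ ^ 2 := by
  obtain ⟨F, hFdef⟩ : ∃ F : E5 → ℂ, F = fun x => ∫ z, K (x - z) * h z := ⟨_, rfl⟩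
  have hFc : F = convolution h K (ContinuousLinearMap.mul ℂ ℂ) volume := by
    rw [hFdef]
    funext x
    unfold convolution
    congr 1
    funext z
    rw [ContinuousLinearMap.mul_apply', mul_comm]
  obtain ⟨hF1, hF2⟩ := fr_memLp K h hK hh hh2
  rw [← hFdef] at hF1 hF2
  have hFF : ∀ ξ, 𝓕 F ξ = 𝓕 h ξ * 𝓕 K ξ := by
    intro ξ
    rw [hFc]
    exact Real.fourier_mul_convolution_eq hh hK ξ
  have hKM : ∀ ξ, ‖𝓕 K ξ‖ ≤ M := by
    intro ξ
    rw [Real.fourier_eq']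
    refine le_trans (le_of_eq ?_) (hF ξ)
    congr 2
    funext x
    rw [smul_eq_mul]
    congr 3
    push_cast
    ring
  have e1 : ∫⁻ x : E5, ‖∫ z, K (x - z) * h z‖ₑ ^ 2 = ∫⁻ x, ‖F x‖ₑ ^ 2 := by
    rw [hFdef]
  rw [e1, ← fr_plancherel F hF1 hF2, ← fr_plancherel h hh hh2,
    ← lintegral_const_mul' _ _ ENNReal.ofReal_ne_top]
  refine lintegral_mono fun ξ => ?_
  rw [hFF, enorm_mul, mul_pow, mul_comm]
  refine mul_le_mul_left ?_ _
  rw [ENNReal.ofReal_pow hM]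
  refine pow_le_pow_left₀ (by positivity) ?_ 2
  rw [← ofReal_norm]
  exact ENNReal.ofReal_le_ofReal (hKM ξ)

theorem fr_sym (l : ℂ) (s : ℝ) :
    4 * (Real.pi : ℂ) ^ 2 * (s : ℂ) ^ 2 - l ^ 2 =
      ((2 * Real.pi * s : ℝ) - l) * ((2 * Real.pi * s : ℝ) + l) := by
  push_cast; ring

theorem fr_norm_ge (l : ℂ) (hl : 0 < l.im) (s : ℝ) :
    l.im ^ 2 ≤ ‖4 * (Real.pi : ℂ) ^ 2 * (s : ℂ) ^ 2 - l ^ 2‖ := by
  rw [fr_sym, norm_mul, pow_two]
  have h1 : l.im ≤ ‖((2 * Real.pi * s : ℝ) : ℂ) - l‖ := by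
    have := Complex.abs_im_le_norm (((2 * Real.pi * s : ℝ) : ℂ) - l)
    rw [Complex.sub_im, Complex.ofReal_im, zero_sub, abs_neg, abs_of_pos hl] at this
    exact this
  have h2 : l.im ≤ ‖((2 * Real.pi * s : ℝ) : ℂ) + l‖ := by
    have := Complex.abs_im_le_norm (((2 * Real.pi * s : ℝ) : ℂ) + l)
    rw [Complex.add_im, Complex.ofReal_im, zero_add, abs_of_pos hl] at this
    exact this
  exact mul_le_mul h1 h2 hl.le (norm_nonneg _)

theorem fr_ne (l : ℂ) (hl : 0 < l.im) (s : ℝ) :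
    4 * (Real.pi : ℂ) ^ 2 * (s : ℂ) ^ 2 - l ^ 2 ≠ 0 := by
  intro h
  have := fr_norm_ge l hl s
  rw [h, norm_zero] at this
  have : 0 < l.im ^ 2 := by positivity
  linarith

open Laplacian in
/-- the fundamental solution against a Schwartz function -/
theorem fr_weak0 (l : ℂ) (hl : 0 < l.im) (f : 𝓢(E5, ℂ)) :
    ∫ z : E5, GG l ‖z‖ * (-(Δ (f : E5 → ℂ) z) - l ^ 2 * f z) = f 0 := by
  obtain ⟨hK, hKF⟩ := GG_fourier l hl
  set K : E5 → ℂ := fun x => GG l ‖x‖ with hKdef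
  set G1 : 𝓢(E5, ℂ) := 𝓕 f with hG1
  have hf : f = 𝓕⁻ G1 := (FourierTransform.fourierInv_fourier_eq f).symm
  set S : 𝓢(E5, ℂ) := SchwartzMap.smulLeftCLM ℂ (fun x : E5 => ‖x‖ ^ 2) G1 with hS
  have hSx : ∀ x, S x = ((‖x‖ ^ 2 : ℝ) : ℂ) * G1 x := by
    intro x
    rw [hS, SchwartzMap.smulLeftCLM_apply_apply (by fun_prop)]
    simp
  set H : 𝓢(E5, ℂ) := ((2 * Real.pi) ^ 2 : ℝ) • S - (l ^ 2) • G1 with hH
  have hHx : ∀ x, H x = (4 * (Real.pi : ℂ) ^ 2 * (‖x‖ : ℂ) ^ 2 - l ^ 2) * G1 x := by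
    intro x
    have : H x = ((2 * Real.pi) ^ 2 : ℝ) • S x - (l ^ 2) • G1 x := rfl
    rw [this, hSx, Complex.real_smul, smul_eq_mul]
    push_cast
    ring
  have hinv : 𝓕⁻ H = -(Δ f) - (l ^ 2) • f := by
    have h1 : Δ f = -(2 * Real.pi) ^ 2 • SchwartzMap.fourierMultiplierCLM ℂ (fun x : E5 => ‖x‖ ^ 2) f :=
      SchwartzMap.laplacian_eq_fourierMultiplierCLM f
    rw [SchwartzMap.fourierMultiplierCLM_apply] at h1
    have a1 : 𝓕⁻ H = ((2 * Real.pi) ^ 2 : ℝ) • 𝓕⁻ S - (l ^ 2) • 𝓕⁻ G1 := by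
      rw [hH, sub_eq_add_neg, FourierTransform.fourierInv_add, FourierTransform.fourierInv_neg,
        FourierTransform.fourierInv_smul, FourierTransform.fourierInv_smul, ← sub_eq_add_neg]
    rw [a1, ← hf, h1]
    congr 1
    rw [neg_smul, neg_neg]
  have e0 : ∀ z, -(Δ (f : E5 → ℂ) z) - l ^ 2 * f z = (𝓕⁻ H : 𝓢(E5, ℂ)) z := by
    intro z
    rw [hinv, ← SchwartzMap.laplacian_apply]
    rfl
  have e1 : ∀ z, (𝓕⁻ H : 𝓢(E5, ℂ)) z = (𝓕 (H : E5 → ℂ)) (-z) := by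
    intro z
    rw [SchwartzMap.fourierInv_coe, Real.fourierInv_eq_fourier_neg]
  have e2 : ∫ z : E5, GG l ‖z‖ * (-(Δ (f : E5 → ℂ) z) - l ^ 2 * f z) =
      ∫ z : E5, K z • (𝓕 (H : E5 → ℂ)) z := by
    refine Eq.trans ?_ (integral_neg_eq_self (fun z : E5 => K z • (𝓕 (H : E5 → ℂ)) z) volume)
    congr 1
    ext z
    rw [e0, e1, hKdef]
    simp
  rw [e2]
  have e3 : ∫ ξ, (𝓕 K ξ) • H ξ = ∫ x, K x • (𝓕 (H : E5 → ℂ)) x := by
    simpa using! (VectorFourier.integral_fourierIntegral_smul_eq_flip (L := innerₗ (E5))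
        Real.continuous_fourierChar continuous_inner hK H.integrable)
  rw [← e3]
  have e4 : ∀ ξ, (𝓕 K ξ) • H ξ = G1 ξ := by
    intro ξ
    have h1 : 𝓕 K ξ = 1 / (4 * (Real.pi : ℂ) ^ 2 * (‖ξ‖ : ℂ) ^ 2 - l ^ 2) := by
      rw [← hKF ξ, Real.fourier_eq']
      congr 1
      funext x
      rw [smul_eq_mul]
      congr 3
      push_cast
      ring
    rw [h1, hHx, smul_eq_mul]
    have := fr_ne l hl ‖ξ‖
    field_simp
  simp_rw [e4]
  have e5 : f 0 = (𝓕⁻ G1 : 𝓢(E5, ℂ)) 0 := by rw [← hf]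
  rw [e5, SchwartzMap.fourierInv_coe, Real.fourierInv_eq']
  simp

open Laplacian in
theorem fr_lap_shift (φ : E5 → ℂ) (y z : E5) :
    Δ (fun z => φ (z + y)) z = Δ φ (z + y) := by
  rw [InnerProductSpace.laplacian_eq_iteratedFDeriv_orthonormalBasis _
      (stdOrthonormalBasis ℝ E5),
    InnerProductSpace.laplacian_eq_iteratedFDeriv_orthonormalBasis _ (stdOrthonormalBasis ℝ E5)]
  simp only [iteratedFDeriv_comp_add_right]

open Laplacian in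
theorem fr_lap_cont (φ : E5 → ℂ) (hφ : ContDiff ℝ ((⊤ : ℕ∞) : WithTop ℕ∞) φ) :
    Continuous (fun x => Δ φ x) := by
  rw [InnerProductSpace.laplacian_eq_iteratedFDeriv_orthonormalBasis _
      (stdOrthonormalBasis ℝ E5)]
  have h2 : Continuous (iteratedFDeriv ℝ 2 φ) :=
    hφ.continuous_iteratedFDeriv ENat.LEInfty.out
  apply continuous_finsetSum
  intro i _
  exact (ContinuousMultilinearMap.apply ℝ (fun _ : Fin 2 => E5) ℂ _).continuous.comp h2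

open Laplacian in
theorem fr_weak (l : ℂ) (hl : 0 < l.im) (h : E5 → ℂ) (h1 : Integrable h) (φ : E5 → ℂ)
    (hφ : ContDiff ℝ ((⊤ : ℕ∞) : WithTop ℕ∞) φ) (hφc : HasCompactSupport φ) :
    ∫ x, (∫ y, GG l ‖x - y‖ * h y) * (-(Δ φ x) - l ^ 2 * φ x) = ∫ x, h x * φ x := by
  obtain ⟨hK, hKF⟩ := GG_fourier l hl
  set ψ : E5 → ℂ := fun x => -(Δ φ x) - l ^ 2 * φ x with hψ
  have cψ : Continuous ψ := ((fr_lap_cont φ hφ).neg).sub (continuous_const.mul hφ.continuous)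
  have sψ : HasCompactSupport ψ := by
    apply HasCompactSupport.intro hφc
    intro x hx
    have s1 : iteratedFDeriv ℝ 2 φ x = 0 :=
      image_eq_zero_of_notMem_tsupport (fun hx' => hx (tsupport_iteratedFDeriv_subset 2 hx'))
    have s2 : φ x = 0 := image_eq_zero_of_notMem_tsupport hx
    have s3 : Δ φ x = 0 := by
      rw [InnerProductSpace.laplacian_eq_iteratedFDeriv_orthonormalBasis _
        (stdOrthonormalBasis ℝ E5)]
      simp only [s1]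
      simp
    rw [hψ]
    simp only [s2, s3]
    simp
  obtain ⟨C, hC⟩ := sψ.exists_bound_of_continuous cψ
  have hprod : Integrable (fun p : E5 × E5 => (GG l ‖p.1 - p.2‖ * h p.2) * ψ p.1)
      (volume.prod volume) := by
    have h2 := h1.convolution_integrand (ContinuousLinearMap.mul ℂ ℂ) hK
    have h3 : Integrable (fun p : E5 × E5 => ψ p.1 * (h p.2 * GG l ‖p.1 - p.2‖))
        (volume.prod volume) := by
      apply h2.bdd_mul (c := C)
      · exact (cψ.comp continuous_fst).aestronglyMeasurable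
      · exact Filter.Eventually.of_forall fun p => hC p.1
    refine h3.congr (Filter.Eventually.of_forall fun p => ?_)
    simp only
    ring
  have e1 : ∫ x, (∫ y, GG l ‖x - y‖ * h y) * ψ x =
      ∫ x, ∫ y, (GG l ‖x - y‖ * h y) * ψ x := by
    congr 1
    ext x
    rw [integral_mul_const]
  have e2 : ∫ x, ∫ y, (GG l ‖x - y‖ * h y) * ψ x =
      ∫ y, ∫ x, (GG l ‖x - y‖ * h y) * ψ x := integral_integral_swap hprod
  rw [e1, e2]
  congr 1
  ext y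
  have e3 : ∫ x, (GG l ‖x - y‖ * h y) * ψ x = h y * ∫ x, GG l ‖x - y‖ * ψ x := by
    rw [← integral_const_mul]
    congr 1
    ext x
    ring
  rw [e3]
  congr 1
  have hφy : ContDiff ℝ ∞ (fun z => φ (z + y)) := hφ.comp (contDiff_id.add contDiff_const)
  have hφyc : HasCompactSupport (fun z => φ (z + y)) :=
    hφc.comp_homeomorph (Homeomorph.addRight y)
  have h4 := fr_weak0 l hl (hφyc.toSchwartzMap hφy)
  have h5 : ∀ z, (hφyc.toSchwartzMap hφy) z = φ (z + y) := fun z => rfl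
  have h6 : ((hφyc.toSchwartzMap hφy : 𝓢(E5, ℂ)) : E5 → ℂ) = fun z => φ (z + y) := rfl
  rw [h6] at h4
  simp only [fr_lap_shift, zero_add] at h4
  rw [← h4, ← integral_add_right_eq_self (fun x => GG l ‖x - y‖ * ψ x) y]
  simp [hψ]

end free_resolvent_aux


open Laplacian in
theorem free_resolvent (l : ℂ) (hl : 0 < l.im) (h : E5 → ℂ) (hh : MemLp h 2 volume)
    (hc : HasCompactSupport h) :
    MemLp (fun x => ∫ y, GG l ‖x - y‖ * h y) 2 volume ∧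
    (∫⁻ x, ‖∫ y, GG l ‖x - y‖ * h y‖ₑ ^ 2 ≤
      ENNReal.ofReal (((l.im ^ 2)⁻¹) ^ 2) * ∫⁻ x, ‖h x‖ₑ ^ 2) ∧
    ∀ φ : E5 → ℂ, ContDiff ℝ ((⊤ : ℕ∞) : WithTop ℕ∞) φ → HasCompactSupport φ →
      ∫ x, (∫ y, GG l ‖x - y‖ * h y) * (-(Δ φ x) - l ^ 2 * φ x) = ∫ x, h x * φ x := by
  obtain ⟨hK, hKF⟩ := GG_fourier l hl
  have h1 : Integrable h := by
    have h2 : LocallyIntegrable h volume := hh.locallyIntegrable (by norm_num)
    rw [← integrableOn_iff_integrable_of_support_subset (subset_tsupport h)]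
    exact h2.integrableOn_isCompact hc
  refine ⟨(fr_memLp (fun x => GG l ‖x‖) h hK h1 hh).2, ?_, ?_⟩
  · apply fr_mult (fun x => GG l ‖x‖) hK _ (by positivity) _ h h1 hh
    intro ξ
    rw [hKF ξ, norm_div, norm_one, one_div]
    exact inv_anti₀ (by positivity) (fr_norm_ge l hl ‖ξ‖)
  · intro φ hφ hφc
    exact fr_weak l hl h h1 φ hφ hφc

end Pool.Agent.H269
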