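import Pool.Agent.H269.DefsC
import Pool.Agent.H269.R5.J20

/-!
# R5-28 the quadratic term (MP_f2af60_mp, infinitely many resonances in dimension five)
-/

set_option autoImplicit false

open MeasureTheory Filter Topology Complex
open scoped InnerProductSpace ENNReal NNReal

namespace Pool.Agent.H269


theorem qt_bdd_int {f : E5 → ℝ} (hf : Measurable f) (hb : ∃ M, ∀ x, |f x| ≤ M)
    (hs : HasCompactSupport f) : Integrable f := by
  obtain ⟨M, hM⟩ := hb
  have h1 : IntegrableOn f (tsupport f) := by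
    refine Measure.integrableOn_of_bounded (M := M) ?_ hf.aestronglyMeasurable ?_
    · exact hs.isCompact.measure_lt_top.ne
    · exact Filter.Eventually.of_forall fun x => by
        rw [Real.norm_eq_abs]; exact hM x
  exact (integrableOn_iff_integrable_of_support_subset (subset_tsupport f)).1 h1

theorem qt_wk_meas (κ : ℝ) : Measurable (wk κ) := by
  unfold wk
  fun_prop

theorem qt_wk_nonneg {κ : ℝ} (hκ : 0 < κ) (z : E5) : 0 ≤ wk κ z := by
  unfold wk
  positivity

theorem qt_wk_scale {κ : ℝ} (hκ : 0 < κ) (z : E5) : wk κ z = κ ^ 5 * wk 1 (κ • z) := by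
  unfold wk
  rw [norm_smul, Real.norm_of_nonneg hκ.le]
  by_cases hz : ‖z‖ = 0
  · rw [hz]; simp
  · have h1 : κ ≠ 0 := hκ.ne'
    have hp : Real.pi ≠ 0 := Real.pi_ne_zero
    have h2 : -2 * 1 * (κ * ‖z‖) = -2 * κ * ‖z‖ := by ring
    rw [h2]
    field_simp

theorem qt_wk_one_int : Integrable (wk 1) := by
  obtain ⟨c, hc, h⟩ := radial_int
  obtain ⟨h1, -, -⟩ := h 1 one_pos
  have h2 : Integrable (fun x : E5 => Real.exp (-1 * ‖x‖) / ‖x‖ ^ 4) := by
    refine ⟨Measurable.aestronglyMeasurable (by fun_prop), ?_⟩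
    rw [hasFiniteIntegral_iff_ofReal (Filter.Eventually.of_forall fun x => by positivity)]
    rw [h1]
    exact ENNReal.ofReal_lt_top
  refine (h2.const_mul (1 / (64 * Real.pi ^ 4))).mono' (qt_wk_meas 1).aestronglyMeasurable ?_
  refine Filter.Eventually.of_forall fun z => ?_
  rw [Real.norm_of_nonneg (qt_wk_nonneg one_pos z)]
  unfold wk
  have h3 : Real.exp (-2 * 1 * ‖z‖) * (1 + 1 * ‖z‖) ≤ Real.exp (-1 * ‖z‖) := by
    have h4 : 1 + 1 * ‖z‖ ≤ Real.exp ‖z‖ := by
      have := Real.add_one_le_exp ‖z‖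
      linarith
    calc Real.exp (-2 * 1 * ‖z‖) * (1 + 1 * ‖z‖) ≤ Real.exp (-2 * 1 * ‖z‖) * Real.exp ‖z‖ :=
          mul_le_mul_of_nonneg_left h4 (Real.exp_pos _).le
      _ = Real.exp (-1 * ‖z‖) := by rw [← Real.exp_add]; congr 1; ring
  have h5 : 1 / (64 * Real.pi ^ 4) * (Real.exp (-1 * ‖z‖) / ‖z‖ ^ 4) =
      Real.exp (-1 * ‖z‖) / (64 * Real.pi ^ 4 * ‖z‖ ^ 4) := by
    rw [div_mul_div_comm, one_mul]
  rw [h5]
  apply div_le_div_of_nonneg_right _ (by positivity)
  linarith

theorem qt_wk_int {κ : ℝ} (hκ : 0 < κ) : Integrable (wk κ) := by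
  have h1 : wk κ = fun z => κ ^ 5 * wk 1 (κ • z) := funext fun z => qt_wk_scale hκ z
  rw [h1]
  exact (qt_wk_one_int.comp_smul hκ.ne').const_mul _

theorem qt_c_pos : 0 < ∫ z : E5, wk 1 z := by
  rw [integral_pos_iff_support_of_nonneg (fun z => qt_wk_nonneg one_pos z) qt_wk_one_int]
  have h1 : ({0}ᶜ : Set E5) ⊆ Function.support (wk 1) := by
    intro z hz
    have hz' : 0 < ‖z‖ := norm_pos_iff.2 hz
    have h2 : 0 < wk 1 z := by
      unfold wk
      positivity
    exact h2.ne'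
  refine lt_of_lt_of_le ?_ (measure_mono h1)
  refine (isOpen_compl_singleton).measure_pos volume ?_
  obtain ⟨z, hz⟩ := exists_ne (0 : E5)
  exact ⟨z, hz⟩

/-- autocorrelation -/
noncomputable def qtA (V : E5 → ℝ) (z : E5) : ℝ := ∫ x, V x * V (x - z)

theorem qt_cont {V : E5 → ℝ} (hV : MemLp V 2 (volume : Measure E5)) : Continuous (qtA V) := by
  have h1 : qtA V = fun z : E5 => ⟪hV.toLp V, DomAddAct.mk (-z) +ᵥ hV.toLp V⟫_ℝ := by
    funext z
    rw [DomAddAct.mk_vadd_toLp, MeasureTheory.L2.inner_def]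
    unfold qtA
    refine integral_congr_ae ?_
    have hV' : MemLp (fun x => V (-z +ᵥ x)) 2 (volume : Measure E5) :=
      hV.comp_measurePreserving (measurePreserving_vadd (-z) (volume : Measure E5))
    filter_upwards [hV.coeFn_toLp, hV'.coeFn_toLp] with x hx hx'
    rw [hx, hx']
    rw [vadd_eq_add, neg_add_eq_sub]
    simp [mul_comm]
  rw [h1]
  have : Fact ((2 : ℝ≥0∞) ≠ ⊤) := ⟨by norm_num⟩
  refine Continuous.inner continuous_const ?_
  exact (DomAddAct.continuous_mk.comp continuous_neg).vadd continuous_const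

theorem qt_prod_int {V : E5 → ℝ} (hV : Measurable V) (hb : ∃ M, ∀ x, |V x| ≤ M)
    (hi : Integrable V) {κ : ℝ} (hκ : 0 < κ) :
    Integrable (fun p : E5 × E5 => V p.1 * V (p.1 - p.2) * wk κ p.2) := by
  obtain ⟨M, hM⟩ := hb
  have h1 : Integrable (fun p : E5 × E5 => V p.1 * wk κ p.2) := hi.mul_prod (qt_wk_int hκ)
  have h2 : Integrable (fun p : E5 × E5 => V (p.1 - p.2) * (V p.1 * wk κ p.2)) := by
    refine h1.bdd_mul (c := M) ?_ ?_
    · exact (hV.comp (measurable_fst.sub measurable_snd)).aestronglyMeasurable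
    · exact Filter.Eventually.of_forall fun p => by
        rw [Real.norm_eq_abs]; exact hM _
  refine h2.congr (Filter.Eventually.of_forall fun p => ?_)
  ring

theorem qt_formula {V : E5 → ℝ} (hV : Measurable V) (hb : ∃ M, ∀ x, |V x| ≤ M)
    (hi : Integrable V) {κ : ℝ} (hκ : 0 < κ) :
    ∫ x, ∫ y, V x * V y * wk κ (x - y) = ∫ u : E5, qtA V (κ⁻¹ • u) * wk 1 u := by
  have h1 : ∀ x : E5, ∫ y, V x * V y * wk κ (x - y) = ∫ z, V x * V (x - z) * wk κ z := by
    intro x
    rw [← integral_sub_left_eq_self (fun z => V x * V (x - z) * wk κ z) volume x]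
    refine integral_congr_ae (Filter.Eventually.of_forall fun y => ?_)
    show V x * V y * wk κ (x - y) = V x * V (x - (x - y)) * wk κ (x - y)
    rw [sub_sub_cancel]
  simp_rw [h1]
  rw [integral_integral_swap (f := fun x z => V x * V (x - z) * wk κ z)
    (qt_prod_int hV hb hi hκ)]
  have h2 : ∀ z : E5, ∫ x, V x * V (x - z) * wk κ z = qtA V z * wk κ z := by
    intro z
    rw [integral_mul_const]
    rfl
  simp_rw [h2]
  have h3 : ∀ z : E5, qtA V z * wk κ z =
      κ ^ 5 * (fun u => qtA V (κ⁻¹ • u) * wk 1 u) (κ • z) := by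
    intro z
    rw [qt_wk_scale hκ z]
    simp only [smul_smul, inv_mul_cancel₀ hκ.ne', one_smul]
    ring
  simp_rw [h3]
  have h4 := Measure.integral_comp_smul (volume : Measure E5)
    (fun u : E5 => qtA V (κ⁻¹ • u) * wk 1 u) κ
  rw [integral_const_mul, h4]
  rw [finrank_euclideanSpace, Fintype.card_fin, abs_of_nonneg (by positivity), smul_eq_mul,
    ← mul_assoc, mul_inv_cancel₀ (by positivity), one_mul]

theorem qt_A_le {V : E5 → ℝ} (hi2 : Integrable (fun x => V x ^ 2)) (z : E5) :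
    |qtA V z| ≤ ∫ x, V x ^ 2 := by
  have h0 : Integrable (fun x => V (x - z) ^ 2) := hi2.comp_sub_right z
  have h1 : ∫ x, V (x - z) ^ 2 = ∫ x, V x ^ 2 :=
    integral_sub_right_eq_self (fun x => V x ^ 2) z
  have h2 : ∫ x, (V x ^ 2 + V (x - z) ^ 2) / 2 = ∫ x, V x ^ 2 := by
    rw [integral_div, integral_add hi2 h0, h1]
    ring
  unfold qtA
  rw [← Real.norm_eq_abs]
  refine (norm_integral_le_of_norm_le ((hi2.add h0).div_const 2) ?_).trans h2.le
  refine Filter.Eventually.of_forall fun x => ?_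
  show ‖V x * V (x - z)‖ ≤ (V x ^ 2 + V (x - z) ^ 2) / 2
  rw [Real.norm_eq_abs, abs_le]
  constructor
  · nlinarith [sq_nonneg (V x + V (x - z))]
  · nlinarith [sq_nonneg (V x - V (x - z))]

theorem qt_A_zero {V : E5 → ℝ} : qtA V 0 = ∫ x, V x ^ 2 := by
  unfold qtA
  refine integral_congr_ae (Filter.Eventually.of_forall fun x => ?_)
  show V x * V (x - 0) = V x ^ 2
  rw [sub_zero]
  ring



theorem quad_term : ∃ c : ℝ, 0 < c ∧ ∀ (V : E5 → ℝ), Measurable V → (∃ M, ∀ x, |V x| ≤ M) →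
    HasCompactSupport V →
    (∀ κ : ℝ, 0 < κ → Integrable (fun p : E5 × E5 => V p.1 * V p.2 * wk κ (p.1 - p.2)) ∧
      ∫ x, ∫ y, V x * V y * wk κ (x - y) ≤ c * ∫ x, V x ^ 2) ∧
    Tendsto (fun κ : ℝ => ∫ x, ∫ y, V x * V y * wk κ (x - y)) atTop (𝓝 (c * ∫ x, V x ^ 2)) := by
  refine ⟨∫ z : E5, wk 1 z, qt_c_pos, fun V hV hb hs => ?_⟩
  have hi := qt_bdd_int hV hb hs
  have hi2 : Integrable (fun x => V x ^ 2) := by
    refine qt_bdd_int (hV.pow_const 2) ?_ ?_
    · obtain ⟨M, hM⟩ := hb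
      refine ⟨M ^ 2, fun x => ?_⟩
      rw [abs_pow]
      exact pow_le_pow_left₀ (abs_nonneg _) (hM x) 2
    · exact hs.comp_left (g := fun t : ℝ => t ^ 2) (by norm_num)
  have hV2 : MemLp V 2 (volume : Measure E5) :=
    (memLp_two_iff_integrable_sq hV.aestronglyMeasurable).2 hi2
  have hA := qt_cont hV2
  refine ⟨fun κ hκ => ⟨?_, ?_⟩, ?_⟩
  · obtain ⟨M, hM⟩ := hb
    have h1 : Integrable (fun p : E5 × E5 => V p.2 * wk κ (p.1 - p.2)) :=
      hi.convolution_integrand (ContinuousLinearMap.mul ℝ ℝ) (qt_wk_int hκ)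
    have h2 : Integrable (fun p : E5 × E5 => V p.1 * (V p.2 * wk κ (p.1 - p.2))) := by
      refine h1.bdd_mul (c := M) ?_ ?_
      · exact (hV.comp measurable_fst).aestronglyMeasurable
      · exact Filter.Eventually.of_forall fun p => by
          rw [Real.norm_eq_abs]; exact hM _
    refine h2.congr (Filter.Eventually.of_forall fun p => ?_)
    ring
  · rw [qt_formula hV hb hi hκ, mul_comm, ← integral_const_mul]
    refine (le_abs_self _).trans ?_
    rw [← Real.norm_eq_abs]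
    refine norm_integral_le_of_norm_le (qt_wk_one_int.const_mul _) ?_
    refine Filter.Eventually.of_forall fun u => ?_
    rw [norm_mul, Real.norm_eq_abs, Real.norm_of_nonneg (qt_wk_nonneg one_pos u)]
    exact mul_le_mul_of_nonneg_right (qt_A_le hi2 _) (qt_wk_nonneg one_pos u)
  · have h1 : Tendsto (fun κ : ℝ => ∫ u : E5, qtA V (κ⁻¹ • u) * wk 1 u) atTop
        (𝓝 (∫ u : E5, qtA V 0 * wk 1 u)) := by
      refine tendsto_integral_filter_of_dominated_convergence
        (fun u => (∫ x, V x ^ 2) * wk 1 u) ?_ ?_ (qt_wk_one_int.const_mul _) ?_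
      · refine Filter.Eventually.of_forall fun κ => ?_
        exact ((hA.comp (continuous_const_smul _)).measurable.mul
          (qt_wk_meas 1)).aestronglyMeasurable
      · refine Filter.Eventually.of_forall fun κ => Filter.Eventually.of_forall fun u => ?_
        rw [norm_mul, Real.norm_eq_abs, Real.norm_of_nonneg (qt_wk_nonneg one_pos u)]
        exact mul_le_mul_of_nonneg_right (qt_A_le hi2 _) (qt_wk_nonneg one_pos u)
      · refine Filter.Eventually.of_forall fun u => ?_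
        refine Tendsto.mul_const _ ?_
        refine (hA.tendsto 0).comp ?_
        have h2 : Tendsto (fun κ : ℝ => κ⁻¹ • u) atTop (𝓝 ((0 : ℝ) • u)) :=
          tendsto_inv_atTop_zero.smul_const u
        rwa [zero_smul] at h2
    rw [integral_const_mul, qt_A_zero, mul_comm] at h1
    refine h1.congr' ?_
    filter_upwards [eventually_gt_atTop (0 : ℝ)] with κ hκ
    exact (qt_formula hV hb hi hκ).symm

end Pool.Agent.H269
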