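import Pool.Agent.H269.DefsC
import Pool.Agent.H269.R5.J15
import Pool.Agent.H269.R5.J20
import Pool.Agent.H269.R5.J22

/-!
# R5-29 existence of the operator family (MP_f2af60_mp, infinitely many resonances in dimension five)
-/

set_option autoImplicit false

open MeasureTheory Filter Topology Complex
open scoped InnerProductSpace ENNReal NNReal

namespace Pool.Agent.H269


theorem exists_Fam_lint (C : ℝ) : ∃ K : ℝ, 0 ≤ K ∧ ∀ x : E5,
    (∫⁻ y : E5, ENNReal.ofReal (C * (Real.exp (-1 * ‖x - y‖) / ‖x - y‖ ^ 3)) ≤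
      ENNReal.ofReal K) ∧
    (∫⁻ y : E5, ENNReal.ofReal (C * (Real.exp (-1 * ‖y - x‖) / ‖y - x‖ ^ 3)) ≤
      ENNReal.ofReal K) := by
  obtain ⟨c, hc, h⟩ := radial_int
  have h1 := (h 1 one_pos).2.1
  have hfm : Measurable (fun y : E5 => ENNReal.ofReal (Real.exp (-1 * ‖y‖) / ‖y‖ ^ 3)) := by
    fun_prop
  have h2 : ∫⁻ y : E5, ENNReal.ofReal (|C| * (Real.exp (-1 * ‖y‖) / ‖y‖ ^ 3)) =
      ENNReal.ofReal (|C| * (c / 1 ^ 2)) := by
    rw [ENNReal.ofReal_mul (abs_nonneg C), ← h1, ← lintegral_const_mul _ hfm]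
    apply lintegral_congr
    intro y
    rw [ENNReal.ofReal_mul (abs_nonneg C)]
  refine ⟨|C| * (c / 1 ^ 2), by positivity, fun x => ⟨?_, ?_⟩⟩
  · rw [← h2, ← lintegral_sub_left_eq_self
      (fun y : E5 => ENNReal.ofReal (|C| * (Real.exp (-1 * ‖y‖) / ‖y‖ ^ 3))) x]
    apply lintegral_mono
    intro y
    apply ENNReal.ofReal_le_ofReal
    have : 0 ≤ Real.exp (-1 * ‖x - y‖) / ‖x - y‖ ^ 3 := by positivity
    exact mul_le_mul_of_nonneg_right (le_abs_self C) this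
  · rw [← h2, ← lintegral_sub_right_eq_self
      (fun y : E5 => ENNReal.ofReal (|C| * (Real.exp (-1 * ‖y‖) / ‖y‖ ^ 3))) x]
    apply lintegral_mono
    intro y
    apply ENNReal.ofReal_le_ofReal
    have : 0 ≤ Real.exp (-1 * ‖y - x‖) / ‖y - x‖ ^ 3 := by positivity
    exact mul_le_mul_of_nonneg_right (le_abs_self C) this

theorem exists_Fam_ker (R : ℝ) (v : E5 → ℂ) (hv : Measurable v) (M : ℝ)
    (hM : ∀ x, ‖v x‖ ≤ M) (φ : ℝ → ℂ) (hφ : Measurable φ) (C : ℝ)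
    (hb : ∀ r, 0 ≤ r → r ≤ 2 * R → ‖φ r‖ ≤ C * (Real.exp (-1 * r) / r ^ 3)) :
    ∃ A : Op R, IsKer (muR R) (fun x y => v x * φ ‖x - y‖) A := by
  have : IsFiniteMeasure (muR R) := ⟨by
    rw [Measure.restrict_apply_univ]
    exact measure_closedBall_lt_top⟩
  obtain ⟨K, hK, hKx⟩ := exists_Fam_lint (M * C)
  have hM0 : 0 ≤ M := (norm_nonneg _).trans (hM 0)
  have hmem : ∀ᵐ x ∂(muR R), x ∈ Metric.closedBall (0 : E5) R :=
    ae_restrict_mem Metric.isClosed_closedBall.measurableSet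
  have hle : ∀ x ∈ Metric.closedBall (0 : E5) R, ∀ y ∈ Metric.closedBall (0 : E5) R,
      ∀ z, ‖v z * φ ‖x - y‖‖ₑ ≤
        ENNReal.ofReal (M * C * (Real.exp (-1 * ‖x - y‖) / ‖x - y‖ ^ 3)) := by
    intro x hx y hy z
    rw [mem_closedBall_zero_iff] at hx hy
    have h1 : ‖x - y‖ ≤ 2 * R := (norm_sub_le x y).trans (by linarith)
    have h2 := hb ‖x - y‖ (norm_nonneg _) h1
    rw [← ofReal_norm, norm_mul]
    apply ENNReal.ofReal_le_ofReal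
    calc ‖v z‖ * ‖φ ‖x - y‖‖ ≤ M * (C * (Real.exp (-1 * ‖x - y‖) / ‖x - y‖ ^ 3)) :=
          mul_le_mul (hM z) h2 (norm_nonneg _) hM0
      _ = _ := by ring
  have hmeas : Measurable (Function.uncurry (fun x y : E5 => v x * φ ‖x - y‖)) := by
    have h1 : Measurable (fun p : E5 × E5 => v p.1) := hv.comp measurable_fst
    have h2 : Measurable (fun p : E5 × E5 => φ ‖p.1 - p.2‖) := by
      apply hφ.comp
      fun_prop
    exact h1.mul h2
  have g1 : ∀ᵐ x ∂(muR R), ∫⁻ y, ‖v x * φ ‖x - y‖‖ₑ ∂(muR R) ≤ ENNReal.ofReal K := by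
    filter_upwards [hmem] with x hx
    calc ∫⁻ y, ‖v x * φ ‖x - y‖‖ₑ ∂(muR R)
        ≤ ∫⁻ y, ENNReal.ofReal (M * C * (Real.exp (-1 * ‖x - y‖) / ‖x - y‖ ^ 3)) ∂(muR R) := by
          apply lintegral_mono_ae
          filter_upwards [hmem] with y hy
          exact hle x hx y hy x
      _ ≤ ∫⁻ y, ENNReal.ofReal (M * C * (Real.exp (-1 * ‖x - y‖) / ‖x - y‖ ^ 3)) :=
          setLIntegral_le_lintegral _ _
      _ ≤ _ := (hKx x).1
  have g2 : ∀ᵐ y ∂(muR R), ∫⁻ x, ‖v x * φ ‖x - y‖‖ₑ ∂(muR R) ≤ ENNReal.ofReal K := by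
    filter_upwards [hmem] with y hy
    calc ∫⁻ x, ‖v x * φ ‖x - y‖‖ₑ ∂(muR R)
        ≤ ∫⁻ x, ENNReal.ofReal (M * C * (Real.exp (-1 * ‖x - y‖) / ‖x - y‖ ^ 3)) ∂(muR R) := by
          apply lintegral_mono_ae
          filter_upwards [hmem] with x hx
          exact hle x hx y hy x
      _ ≤ ∫⁻ x, ENNReal.ofReal (M * C * (Real.exp (-1 * ‖x - y‖) / ‖x - y‖ ^ 3)) :=
          setLIntegral_le_lintegral _ _
      _ ≤ _ := (hKx y).2
  obtain ⟨A, hA, -⟩ := exists_isKer (μ := muR R) (fun x y => v x * φ ‖x - y‖) hmeas K hK g1 g2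
  exact ⟨A, hA⟩

theorem exists_Fam_exp (l : ℂ) (r R : ℝ) (h0 : 0 ≤ r) (h1 : r ≤ 2 * R) :
    Real.exp (-l.im * r) ≤ Real.exp (‖l‖ * (2 * R)) * Real.exp (2 * R) * Real.exp (-1 * r) := by
  rw [← Real.exp_add, ← Real.exp_add]
  apply Real.exp_le_exp.2
  have h2 : |l.im| ≤ ‖l‖ := Complex.abs_im_le_norm l
  have h3 : -l.im ≤ ‖l‖ := (neg_le_abs _).trans h2
  have h4 : -l.im * r ≤ ‖l‖ * r := mul_le_mul_of_nonneg_right h3 h0
  have h5 : ‖l‖ * r ≤ ‖l‖ * (2 * R) := mul_le_mul_of_nonneg_left h1 (norm_nonneg _)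
  linarith

theorem exists_Fam_GG (l : ℂ) (R : ℝ) : ∃ C : ℝ, ∀ r, 0 ≤ r → r ≤ 2 * R →
    ‖GG l r‖ ≤ C * (Real.exp (-1 * r) / r ^ 3) := by
  refine ⟨(1 + ‖l‖ * (2 * R)) * (Real.exp (‖l‖ * (2 * R)) * Real.exp (2 * R)) /
    (8 * Real.pi ^ 2), fun r h0 h1 => ?_⟩
  refine (GG_bound l r h0).1.trans ?_
  have h2 := exists_Fam_exp l r R h0 h1
  have h3 : (1 + ‖l‖ * r) * Real.exp (-l.im * r) ≤ (1 + ‖l‖ * (2 * R)) *
      (Real.exp (‖l‖ * (2 * R)) * Real.exp (2 * R) * Real.exp (-1 * r)) := by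
    have h4 : ‖l‖ * r ≤ ‖l‖ * (2 * R) := mul_le_mul_of_nonneg_left h1 (norm_nonneg _)
    have h5 : 0 ≤ ‖l‖ * r := by positivity
    exact mul_le_mul (by linarith) h2 (Real.exp_pos _).le (by linarith)
  calc (1 + ‖l‖ * r) * Real.exp (-l.im * r) / (8 * Real.pi ^ 2 * r ^ 3)
      ≤ (1 + ‖l‖ * (2 * R)) *
      (Real.exp (‖l‖ * (2 * R)) * Real.exp (2 * R) * Real.exp (-1 * r)) /
        (8 * Real.pi ^ 2 * r ^ 3) := div_le_div_of_nonneg_right h3 (by positivity)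
    _ = _ := by rw [mul_comm (8 * Real.pi ^ 2) (r ^ 3), ← div_div]; ring

theorem exists_Fam_GD (l : ℂ) (R : ℝ) : ∃ C : ℝ, ∀ r, 0 ≤ r → r ≤ 2 * R →
    ‖GD l r‖ ≤ C * (Real.exp (-1 * r) / r ^ 3) := by
  refine ⟨‖l‖ * (Real.exp (‖l‖ * (2 * R)) * Real.exp (2 * R)) * (2 * R) ^ 2 /
    (8 * Real.pi ^ 2), fun r h0 h1 => ?_⟩
  refine (GG_bound l r h0).2.trans ?_
  rcases eq_or_lt_of_le h0 with h | h
  · rw [← h]; simp
  have h2 := exists_Fam_exp l r R h0 h1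
  have h3 : ‖l‖ * Real.exp (-l.im * r) ≤ ‖l‖ *
      (Real.exp (‖l‖ * (2 * R)) * Real.exp (2 * R) * Real.exp (-1 * r)) :=
    mul_le_mul_of_nonneg_left h2 (norm_nonneg _)
  have h6 : r ^ 2 ≤ (2 * R) ^ 2 := pow_le_pow_left₀ h0 h1 2
  calc ‖l‖ * Real.exp (-l.im * r) / (8 * Real.pi ^ 2 * r)
      = (‖l‖ * Real.exp (-l.im * r)) * r ^ 2 / (8 * Real.pi ^ 2 * r ^ 3) := by
        field_simp
    _ ≤ (‖l‖ * (Real.exp (‖l‖ * (2 * R)) * Real.exp (2 * R) * Real.exp (-1 * r))) * (2 * R) ^ 2 /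
        (8 * Real.pi ^ 2 * r ^ 3) := by
        apply div_le_div_of_nonneg_right _ (by positivity)
        exact mul_le_mul h3 h6 (by positivity) (by positivity)
    _ = _ := by rw [mul_comm (8 * Real.pi ^ 2) (r ^ 3), ← div_div]; ring


section Csec

variable {R M : ℝ} {V : E5 → ℝ} {A T TD : ℂ → Op R}

theorem exists_Fam (R M : ℝ) (V : E5 → ℝ) (hR : 0 < R) (hM : 0 ≤ M) (hV : Measurable V)
    (hb : ∀ x, |V x| ≤ M) (hs : ∀ x, x ∉ Metric.closedBall (0 : E5) R → V x = 0) :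
    ∃ A T TD : ℂ → Op R, Fam R M V A T TD := by
  have hGGm : ∀ l, Measurable (GG l) := by
    intro l; unfold GG; fun_prop
  have hGDm : ∀ l, Measurable (GD l) := by
    intro l; unfold GD; fun_prop
  have hVc : Measurable (fun x => (V x : ℂ)) := Complex.measurable_ofReal.comp hV
  have hVb : ∀ x, ‖(V x : ℂ)‖ ≤ M := by
    intro x; rw [Complex.norm_real]; exact hb x
  have hA : ∀ l, ∃ A : Op R, IsKer (muR R) (fun x y => GG l ‖x - y‖) A := by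
    intro l
    obtain ⟨C, hC⟩ := exists_Fam_GG l R
    obtain ⟨A, hA⟩ := exists_Fam_ker R (fun _ => 1) measurable_const 1 (fun _ => by simp) (GG l)
      (hGGm l) C hC
    refine ⟨A, ?_⟩
    simpa only [one_mul] using hA
  have hT : ∀ l, ∃ A : Op R, IsKer (muR R) (fun x y => (V x : ℂ) * GG l ‖x - y‖) A := by
    intro l
    obtain ⟨C, hC⟩ := exists_Fam_GG l R
    exact exists_Fam_ker R (fun x => (V x : ℂ)) hVc M hVb (GG l) (hGGm l) C hC
  have hTD : ∀ l, ∃ A : Op R, IsKer (muR R) (fun x y => (V x : ℂ) * GD l ‖x - y‖) A := by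
    intro l
    obtain ⟨C, hC⟩ := exists_Fam_GD l R
    exact exists_Fam_ker R (fun x => (V x : ℂ)) hVc M hVb (GD l) (hGDm l) C hC
  choose A hA using hA
  choose T hT using hT
  choose TD hTD using hTD
  exact ⟨A, T, TD, ⟨hR, hM, hV, hb, hs, hA, hT, hTD⟩⟩

end Csec

end Pool.Agent.H269
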