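import Pool.Agent.H269.DefsC
import Pool.Agent.H269.R5.J01
import Pool.Agent.H269.R5.J16
import Pool.Agent.H269.R5.J17
import Pool.Agent.H269.R5.J20
import Pool.Agent.H269.R5.J22
import Pool.Agent.H269.R5.J23

/-!
# R5-30 HS estimates of the family (MP_f2af60_mp, infinitely many resonances in dimension five)
-/

set_option autoImplicit false

open MeasureTheory Filter Topology Complex
open scoped InnerProductSpace ENNReal NNReal

namespace Pool.Agent.H269


theorem muRFinite847 (R : ℝ) : IsFiniteMeasure (muR R) :=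
  ⟨by rw [Measure.restrict_apply_univ]; exact measure_closedBall_lt_top⟩

theorem hsKey847 (R : ℝ) : ∃ J : ℝ, 0 ≤ J ∧ ∀ (k : E5 → E5 → ℂ) (K : ℝ), 0 ≤ K →
    (∀ x ∈ Metric.closedBall (0 : E5) R, ∀ y ∈ Metric.closedBall (0 : E5) R,
      ‖k x y‖ ≤ K / ‖x - y‖) →
    ∫⁻ x, ∫⁻ y, ‖k x y‖ₑ ^ 2 ∂(muR R) ∂(muR R) ≤ ENNReal.ofReal ((K * J) ^ 2) := by
  obtain ⟨c, hc, hrad⟩ := radial_int
  have h3 := (hrad 1 one_pos).2.2
  have hW : volume (Metric.closedBall (0 : E5) R) ≠ ⊤ := measure_closedBall_lt_top.ne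
  refine ⟨Real.sqrt (Real.exp (2 * R) * (2 * c) * (volume (Metric.closedBall (0 : E5) R)).toReal),
    Real.sqrt_nonneg _, fun k K hK hb => ?_⟩
  have hinner : ∀ x ∈ Metric.closedBall (0 : E5) R, ∫⁻ y, ‖k x y‖ₑ ^ 2 ∂(muR R) ≤
      ENNReal.ofReal (K ^ 2 * Real.exp (2 * R)) * ENNReal.ofReal (2 * c) := by
    intro x hx
    calc ∫⁻ y, ‖k x y‖ₑ ^ 2 ∂(muR R)
        ≤ ∫⁻ y in Metric.closedBall (0 : E5) R, ENNReal.ofReal (K ^ 2 * Real.exp (2 * R)) *
            ENNReal.ofReal (Real.exp (-1 * ‖x - y‖) / ‖x - y‖ ^ 2) := by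
          refine setLIntegral_mono' measurableSet_closedBall (fun y hy => ?_)
          rw [← ofReal_norm, ← ENNReal.ofReal_pow (norm_nonneg _),
            ← ENNReal.ofReal_mul (by positivity)]
          apply ENNReal.ofReal_le_ofReal
          have h1 := hb x hx y hy
          have h2 : ‖x - y‖ ≤ 2 * R := by
            have hx' : ‖x‖ ≤ R := by simpa using hx
            have hy' : ‖y‖ ≤ R := by simpa using hy
            linarith [norm_sub_le x y]
          have h4 : 1 ≤ Real.exp (2 * R) * Real.exp (-1 * ‖x - y‖) := by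
            rw [← Real.exp_add]
            exact Real.one_le_exp (by linarith)
          calc ‖k x y‖ ^ 2 ≤ (K / ‖x - y‖) ^ 2 := pow_le_pow_left₀ (norm_nonneg _) h1 2
            _ = K ^ 2 / ‖x - y‖ ^ 2 * 1 := by rw [div_pow, mul_one]
            _ ≤ K ^ 2 / ‖x - y‖ ^ 2 * (Real.exp (2 * R) * Real.exp (-1 * ‖x - y‖)) :=
                mul_le_mul_of_nonneg_left h4 (by positivity)
            _ = K ^ 2 * Real.exp (2 * R) * (Real.exp (-1 * ‖x - y‖) / ‖x - y‖ ^ 2) := by ring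
      _ ≤ ∫⁻ y : E5, ENNReal.ofReal (K ^ 2 * Real.exp (2 * R)) *
            ENNReal.ofReal (Real.exp (-1 * ‖x - y‖) / ‖x - y‖ ^ 2) :=
          setLIntegral_le_lintegral _ _
      _ = ENNReal.ofReal (K ^ 2 * Real.exp (2 * R)) * ∫⁻ y : E5,
            ENNReal.ofReal (Real.exp (-1 * ‖x - y‖) / ‖x - y‖ ^ 2) :=
          lintegral_const_mul' _ _ ENNReal.ofReal_ne_top
      _ = ENNReal.ofReal (K ^ 2 * Real.exp (2 * R)) * ENNReal.ofReal (2 * c) := by
          congr 1
          rw [lintegral_sub_left_eq_self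
            (fun z : E5 => ENNReal.ofReal (Real.exp (-1 * ‖z‖) / ‖z‖ ^ 2)) x, h3]
          norm_num
  calc ∫⁻ x, ∫⁻ y, ‖k x y‖ₑ ^ 2 ∂(muR R) ∂(muR R)
      ≤ ∫⁻ x in Metric.closedBall (0 : E5) R,
          ENNReal.ofReal (K ^ 2 * Real.exp (2 * R)) * ENNReal.ofReal (2 * c) :=
        setLIntegral_mono' measurableSet_closedBall hinner
    _ = ENNReal.ofReal (K ^ 2 * Real.exp (2 * R)) * ENNReal.ofReal (2 * c) *
          volume (Metric.closedBall (0 : E5) R) := by
        rw [setLIntegral_const]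
    _ = ENNReal.ofReal ((K * Real.sqrt (Real.exp (2 * R) * (2 * c) *
          (volume (Metric.closedBall (0 : E5) R)).toReal)) ^ 2) := by
        rw [mul_pow, Real.sq_sqrt (by positivity)]
        conv_lhs => rw [← ENNReal.ofReal_toReal hW]
        rw [← ENNReal.ofReal_mul (by positivity), ← ENNReal.ofReal_mul (by positivity)]
        congr 1
        ring

theorem measGG847 (l : ℂ) : Measurable (fun p : E5 × E5 => GG l ‖p.1 - p.2‖) := by
  unfold GG
  fun_prop

theorem measGD847 (l : ℂ) : Measurable (fun p : E5 × E5 => GD l ‖p.1 - p.2‖) := by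
  unfold GD
  fun_prop

theorem ballSub847 {R : ℝ} {x y : E5} (hx : x ∈ Metric.closedBall (0 : E5) R)
    (hy : y ∈ Metric.closedBall (0 : E5) R) : ‖x - y‖ ≤ 2 * R := by
  have hx' : ‖x‖ ≤ R := by simpa using hx
  have hy' : ‖y‖ ≤ R := by simpa using hy
  linarith [norm_sub_le x y]



section Csec

variable {R M : ℝ} {V : E5 → ℝ} {A T TD : ℂ → Op R}

theorem Fam.sub_HS (F : Fam R M V A T TD) {ι : Type} [DecidableEq ι]
    (b : HilbertBasis ι ℂ (Lp ℂ 2 (muR R))) (B : ℝ) :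
    ∃ C : ℝ, 0 ≤ C ∧ ∀ l m : ℂ, -B ≤ l.im → -B ≤ m.im →
      HSle b (T l - T m) (C * (‖l - m‖ * max ‖l‖ ‖m‖)) := by
  have := muRFinite847 R
  obtain ⟨J, hJ, key⟩ := hsKey847 R
  have hR := F.hR
  have hM := F.hM
  refine ⟨M * Real.exp (|B| * (2 * R)) / (8 * Real.pi ^ 2) * J, by positivity,
    fun l m hl hm => ?_⟩
  have hK : (0 : ℝ) ≤ M * Real.exp (|B| * (2 * R)) / (8 * Real.pi ^ 2) *
      (‖l - m‖ * max ‖l‖ ‖m‖) := by positivity
  have hker := (F.kT l).sub (F.kT m)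
  have hmeas : Measurable (Function.uncurry fun x y : E5 =>
      (V x : ℂ) * GG l ‖x - y‖ - (V x : ℂ) * GG m ‖x - y‖) := by
    have h1 := measGG847 l
    have h2 := measGG847 m
    have hV : Measurable (fun p : E5 × E5 => (V p.1 : ℂ)) :=
      Complex.measurable_ofReal.comp (F.meas.comp measurable_fst)
    exact (hV.mul h1).sub (hV.mul h2)
  have hh := IsKer.HSle b hmeas hker
    (M * Real.exp (|B| * (2 * R)) / (8 * Real.pi ^ 2) * (‖l - m‖ * max ‖l‖ ‖m‖) * J)
    (by positivity)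
    (key _ _ hK (fun x hx y hy => by
      have hr := ballSub847 hx hy
      have h0 := norm_nonneg (x - y)
      have hb := GG_sub_bound B l m hl hm ‖x - y‖ h0
      have hexp : Real.exp (B * ‖x - y‖) ≤ Real.exp (|B| * (2 * R)) := by
        apply Real.exp_le_exp.mpr
        calc B * ‖x - y‖ ≤ |B| * ‖x - y‖ := mul_le_mul_of_nonneg_right (le_abs_self B) h0
          _ ≤ |B| * (2 * R) := mul_le_mul_of_nonneg_left hr (abs_nonneg B)
      rw [← mul_sub, norm_mul, Complex.norm_real, Real.norm_eq_abs]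
      calc |V x| * ‖GG l ‖x - y‖ - GG m ‖x - y‖‖
          ≤ M * (‖l - m‖ * max ‖l‖ ‖m‖ * Real.exp (B * ‖x - y‖) /
              (8 * Real.pi ^ 2 * ‖x - y‖)) :=
            mul_le_mul (F.bdd x) hb (norm_nonneg _) hM
        _ ≤ M * (‖l - m‖ * max ‖l‖ ‖m‖ * Real.exp (|B| * (2 * R)) /
              (8 * Real.pi ^ 2 * ‖x - y‖)) := by
            gcongr
        _ = M * Real.exp (|B| * (2 * R)) / (8 * Real.pi ^ 2) * (‖l - m‖ * max ‖l‖ ‖m‖) /
              ‖x - y‖ := by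
            rw [mul_div_assoc', div_mul_eq_mul_div, div_div]
            congr 1
            ring))
  have he : M * Real.exp (|B| * (2 * R)) / (8 * Real.pi ^ 2) * (‖l - m‖ * max ‖l‖ ‖m‖) * J =
      M * Real.exp (|B| * (2 * R)) / (8 * Real.pi ^ 2) * J * (‖l - m‖ * max ‖l‖ ‖m‖) := by ring
  rw [he] at hh
  exact hh

theorem Fam.TD_HS (F : Fam R M V A T TD) {ι : Type} [DecidableEq ι]
    (b : HilbertBasis ι ℂ (Lp ℂ 2 (muR R))) (l : ℂ) : ∃ c : ℝ, HSle b (TD l) c := by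
  have := muRFinite847 R
  obtain ⟨J, hJ, key⟩ := hsKey847 R
  have hR := F.hR
  have hM := F.hM
  have hK : (0 : ℝ) ≤ M * (‖l‖ * Real.exp (|l.im| * (2 * R))) / (8 * Real.pi ^ 2) := by
    positivity
  have hmeas : Measurable (Function.uncurry fun x y : E5 => (V x : ℂ) * GD l ‖x - y‖) := by
    have h1 := measGD847 l
    have hV : Measurable (fun p : E5 × E5 => (V p.1 : ℂ)) :=
      Complex.measurable_ofReal.comp (F.meas.comp measurable_fst)
    exact hV.mul h1
  exact ⟨_, IsKer.HSle b hmeas (F.kTD l)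
    (M * (‖l‖ * Real.exp (|l.im| * (2 * R))) / (8 * Real.pi ^ 2) * J) (by positivity)
    (key _ _ hK (fun x hx y hy => by
      have hr := ballSub847 hx hy
      have h0 := norm_nonneg (x - y)
      have hb := (GG_bound l ‖x - y‖ h0).2
      have hexp : Real.exp (-l.im * ‖x - y‖) ≤ Real.exp (|l.im| * (2 * R)) := by
        apply Real.exp_le_exp.mpr
        calc -l.im * ‖x - y‖ ≤ |l.im| * ‖x - y‖ :=
              mul_le_mul_of_nonneg_right (neg_le_abs l.im) h0
          _ ≤ |l.im| * (2 * R) := mul_le_mul_of_nonneg_left hr (abs_nonneg _)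
      rw [norm_mul, Complex.norm_real, Real.norm_eq_abs]
      calc |V x| * ‖GD l ‖x - y‖‖
          ≤ M * (‖l‖ * Real.exp (-l.im * ‖x - y‖) / (8 * Real.pi ^ 2 * ‖x - y‖)) :=
            mul_le_mul (F.bdd x) hb (norm_nonneg _) hM
        _ ≤ M * (‖l‖ * Real.exp (|l.im| * (2 * R)) / (8 * Real.pi ^ 2 * ‖x - y‖)) := by
            gcongr
        _ = M * (‖l‖ * Real.exp (|l.im| * (2 * R))) / (8 * Real.pi ^ 2) / ‖x - y‖ := by
            rw [mul_div_assoc', div_div]))⟩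

theorem Fam.taylor_HS (F : Fam R M V A T TD) {ι : Type} [DecidableEq ι]
    (b : HilbertBasis ι ℂ (Lp ℂ 2 (muR R))) (l : ℂ) :
    ∃ C : ℝ, ∀ h : ℂ, ‖h‖ ≤ 1 → HSle b (T (l + h) - T l - h • TD l) (C * ‖h‖ ^ 2) := by
  have := muRFinite847 R
  obtain ⟨J, hJ, key⟩ := hsKey847 R
  have hR := F.hR
  have hM := F.hM
  obtain ⟨C, hC, hT⟩ := GG_taylor (2 * R) l
  refine ⟨M * C * J, fun h hh => ?_⟩
  have hK : (0 : ℝ) ≤ M * (C * ‖h‖ ^ 2) := by positivity
  have hker := ((F.kT (l + h)).sub (F.kT l)).sub ((F.kTD l).smul h)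
  have hmeas : Measurable (Function.uncurry fun x y : E5 =>
      (V x : ℂ) * GG (l + h) ‖x - y‖ - (V x : ℂ) * GG l ‖x - y‖ -
        h * ((V x : ℂ) * GD l ‖x - y‖)) := by
    have h1 := measGG847 (l + h)
    have h2 := measGG847 l
    have h3 := measGD847 l
    have hV : Measurable (fun p : E5 × E5 => (V p.1 : ℂ)) :=
      Complex.measurable_ofReal.comp (F.meas.comp measurable_fst)
    exact ((hV.mul h1).sub (hV.mul h2)).sub (measurable_const.mul (hV.mul h3))
  have hh2 := IsKer.HSle b hmeas hker (M * (C * ‖h‖ ^ 2) * J) (by positivity)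
    (key _ _ hK (fun x hx y hy => by
      have hr := ballSub847 hx hy
      have h0 := norm_nonneg (x - y)
      have hb := hT h hh ‖x - y‖ h0 hr
      have e : (V x : ℂ) * GG (l + h) ‖x - y‖ - (V x : ℂ) * GG l ‖x - y‖ -
          h * ((V x : ℂ) * GD l ‖x - y‖) =
          (V x : ℂ) * (GG (l + h) ‖x - y‖ - GG l ‖x - y‖ - h * GD l ‖x - y‖) := by ring
      rw [e, norm_mul, Complex.norm_real, Real.norm_eq_abs]
      calc |V x| * ‖GG (l + h) ‖x - y‖ - GG l ‖x - y‖ - h * GD l ‖x - y‖‖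
          ≤ M * (C * ‖h‖ ^ 2 / ‖x - y‖) :=
            mul_le_mul (F.bdd x) hb (norm_nonneg _) hM
        _ = M * (C * ‖h‖ ^ 2) / ‖x - y‖ := by rw [mul_div_assoc']))
  have he : M * (C * ‖h‖ ^ 2) * J = M * C * J * ‖h‖ ^ 2 := by ring
  rw [he] at hh2
  exact hh2

end Csec

end Pool.Agent.H269
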