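import Pool.Agent.H269.DefsC
import Pool.Agent.H269.R5.J01
import Pool.Agent.H269.R5.J16
import Pool.Agent.H269.R5.J17
import Pool.Agent.H269.R5.J20
import Pool.Agent.H269.R5.J21
import Pool.Agent.H269.R5.J22

/-!
# R5-31 decay of the family on the imaginary axis (MP_f2af60_mp, infinitely many resonances in dimension five)
-/

set_option autoImplicit false

open MeasureTheory Filter Topology Complex
open scoped InnerProductSpace ENNReal NNReal

namespace Pool.Agent.H269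



section Csec

variable {R M : ℝ} {V : E5 → ℝ} {A T TD : ℂ → Op R}

theorem Fam.TD_imag (F : Fam R M V A T TD) {ι : Type} [DecidableEq ι]
    (b : HilbertBasis ι ℂ (Lp ℂ 2 (muR R))) :
    ∃ C : ℝ, 0 ≤ C ∧ ∀ κ : ℝ, 1 ≤ κ → ∀ c : ℝ, 0 ≤ c → C / κ ≤ c ^ 2 → HSle b (TD (I * κ)) c := by
  obtain ⟨c₀, hc₀, hrad⟩ := radial_int
  have hfin : volume (Metric.closedBall (0 : E5) R) ≠ ⊤ := measure_closedBall_lt_top.ne
  have : IsFiniteMeasure (muR R) := ⟨by
    rw [Measure.restrict_apply_univ]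
    exact measure_closedBall_lt_top⟩
  set S : ℝ := (volume (Metric.closedBall (0 : E5) R)).toReal with hS
  have hS0 : 0 ≤ S := ENNReal.toReal_nonneg
  have hM := F.hM
  refine ⟨M ^ 2 * c₀ * S / (256 * Real.pi ^ 4), by positivity, ?_⟩
  intro κ hκ c hc hC
  have hκ0 : 0 < κ := by linarith
  refine IsKer.HSle b (k := fun x y => (V x : ℂ) * GD (I * κ) ‖x - y‖) ?_ (F.kTD (I * κ)) c hc ?_
  · have h1 : Measurable (fun r : ℝ => GD (I * κ) r) := by
      unfold GD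
      fun_prop
    have h2 : Measurable (fun p : E5 × E5 => ‖p.1 - p.2‖) := by fun_prop
    have h3 : Measurable (fun p : E5 × E5 => (V p.1 : ℂ)) :=
      Complex.measurable_ofReal.comp (F.meas.comp measurable_fst)
    exact h3.mul (h1.comp h2)
  · have hK0 : 0 ≤ M ^ 2 * κ ^ 2 / (64 * Real.pi ^ 4) := by positivity
    have hpt : ∀ x y : E5, ‖(V x : ℂ) * GD (I * κ) ‖x - y‖‖ₑ ^ 2 ≤
        ENNReal.ofReal (M ^ 2 * κ ^ 2 / (64 * Real.pi ^ 4)) *
        ENNReal.ofReal (Real.exp (-(2 * κ) * ‖x - y‖) / ‖x - y‖ ^ 2) := by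
      intro x y
      rw [← ofReal_norm, ← ENNReal.ofReal_pow (norm_nonneg _), ← ENNReal.ofReal_mul hK0]
      apply ENNReal.ofReal_le_ofReal
      rw [(GG_imag κ ‖x - y‖).2, norm_mul, norm_mul, Complex.norm_I, one_mul, Complex.norm_real,
        Complex.norm_real, mul_pow, Real.norm_eq_abs, Real.norm_eq_abs, sq_abs]
      have h1 : (κ * Real.exp (-κ * ‖x - y‖) / (8 * Real.pi ^ 2 * ‖x - y‖)) ^ 2 =
          κ ^ 2 / (64 * Real.pi ^ 4) * (Real.exp (-(2 * κ) * ‖x - y‖) / ‖x - y‖ ^ 2) := by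
        have h2 : Real.exp (-(2 * κ) * ‖x - y‖) = Real.exp (-κ * ‖x - y‖) ^ 2 := by
          rw [← Real.exp_nat_mul]
          congr 1
          push_cast
          ring
        rw [h2]
        rw [div_pow, mul_pow, mul_pow, div_mul_div_comm]
        congr 1
        ring
      rw [sq_abs, h1]
      have h3 : V x ^ 2 ≤ M ^ 2 := by
        rw [← sq_abs (V x)]
        exact pow_le_pow_left₀ (abs_nonneg _) (F.bdd x) 2
      have h4 : 0 ≤ κ ^ 2 / (64 * Real.pi ^ 4) *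
          (Real.exp (-(2 * κ) * ‖x - y‖) / ‖x - y‖ ^ 2) := by positivity
      calc V x ^ 2 * (κ ^ 2 / (64 * Real.pi ^ 4) *
            (Real.exp (-(2 * κ) * ‖x - y‖) / ‖x - y‖ ^ 2))
          ≤ M ^ 2 * (κ ^ 2 / (64 * Real.pi ^ 4) *
            (Real.exp (-(2 * κ) * ‖x - y‖) / ‖x - y‖ ^ 2)) :=
            mul_le_mul_of_nonneg_right h3 h4
        _ = M ^ 2 * κ ^ 2 / (64 * Real.pi ^ 4) *
            (Real.exp (-(2 * κ) * ‖x - y‖) / ‖x - y‖ ^ 2) := by ring
    have hin : ∀ x : E5, ∫⁻ y, ‖(V x : ℂ) * GD (I * κ) ‖x - y‖‖ₑ ^ 2 ∂(muR R) ≤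
        ENNReal.ofReal (M ^ 2 * κ ^ 2 / (64 * Real.pi ^ 4)) *
        ENNReal.ofReal (2 * c₀ / (2 * κ) ^ 3) := by
      intro x
      calc ∫⁻ y, ‖(V x : ℂ) * GD (I * κ) ‖x - y‖‖ₑ ^ 2 ∂(muR R)
          ≤ ∫⁻ y, ENNReal.ofReal (M ^ 2 * κ ^ 2 / (64 * Real.pi ^ 4)) *
            ENNReal.ofReal (Real.exp (-(2 * κ) * ‖x - y‖) / ‖x - y‖ ^ 2) ∂(muR R) :=
            lintegral_mono (fun y => hpt x y)
        _ ≤ ∫⁻ y : E5, ENNReal.ofReal (M ^ 2 * κ ^ 2 / (64 * Real.pi ^ 4)) *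
            ENNReal.ofReal (Real.exp (-(2 * κ) * ‖x - y‖) / ‖x - y‖ ^ 2) :=
            setLIntegral_le_lintegral _ _
        _ = ENNReal.ofReal (M ^ 2 * κ ^ 2 / (64 * Real.pi ^ 4)) *
            ∫⁻ y : E5, ENNReal.ofReal (Real.exp (-(2 * κ) * ‖x - y‖) / ‖x - y‖ ^ 2) :=
            lintegral_const_mul' _ _ ENNReal.ofReal_ne_top
        _ = ENNReal.ofReal (M ^ 2 * κ ^ 2 / (64 * Real.pi ^ 4)) *
            ENNReal.ofReal (2 * c₀ / (2 * κ) ^ 3) := by
            rw [← (hrad (2 * κ) (by positivity)).2.2]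
            congr 1
            exact lintegral_sub_left_eq_self
              (fun z : E5 => ENNReal.ofReal (Real.exp (-(2 * κ) * ‖z‖) / ‖z‖ ^ 2)) x
    calc ∫⁻ x, ∫⁻ y, ‖(V x : ℂ) * GD (I * κ) ‖x - y‖‖ₑ ^ 2 ∂(muR R) ∂(muR R)
        ≤ ∫⁻ _x, ENNReal.ofReal (M ^ 2 * κ ^ 2 / (64 * Real.pi ^ 4)) *
          ENNReal.ofReal (2 * c₀ / (2 * κ) ^ 3) ∂(muR R) := lintegral_mono (fun x => hin x)
      _ = ENNReal.ofReal (M ^ 2 * κ ^ 2 / (64 * Real.pi ^ 4)) *
          ENNReal.ofReal (2 * c₀ / (2 * κ) ^ 3) * ENNReal.ofReal S := by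
          rw [lintegral_const, Measure.restrict_apply_univ, hS, ENNReal.ofReal_toReal hfin]
      _ = ENNReal.ofReal (M ^ 2 * κ ^ 2 / (64 * Real.pi ^ 4) * (2 * c₀ / (2 * κ) ^ 3) * S) := by
          rw [← ENNReal.ofReal_mul hK0, ← ENNReal.ofReal_mul (by positivity)]
      _ ≤ ENNReal.ofReal (c ^ 2) := by
          apply ENNReal.ofReal_le_ofReal
          refine le_trans (le_of_eq ?_) hC
          field_simp
          ring

theorem Fam.sq_imag (F : Fam R M V A T TD) {ι : Type} [DecidableEq ι]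
    (b : HilbertBasis ι ℂ (Lp ℂ 2 (muR R))) :
    ∃ C : ℝ, 0 ≤ C ∧ ∀ κ : ℝ, 1 ≤ κ → ∀ c : ℝ, 0 ≤ c → C / κ ^ 3 ≤ c ^ 2 →
      HSle b (T (I * κ) * T (I * κ)) c := by
  obtain ⟨C₁, hC₁, hmul⟩ := mul_HSle R
  have hM := F.hM
  set a : ℝ := 2 * M / (8 * Real.pi ^ 2) with ha
  have ha0 : 0 ≤ a := by positivity
  refine ⟨8 * C₁ * a ^ 4, by positivity, ?_⟩
  intro κ hκ c hc hC
  have hκ0 : 0 < κ := by linarith
  have hmeas : Measurable (Function.uncurry
      (fun x y : E5 => (V x : ℂ) * GG (I * κ) ‖x - y‖)) := by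
    have h1 : Measurable (fun r : ℝ => GG (I * κ) r) := by
      unfold GG
      fun_prop
    have h2 : Measurable (fun p : E5 × E5 => ‖p.1 - p.2‖) := by fun_prop
    have h3 : Measurable (fun p : E5 × E5 => (V p.1 : ℂ)) :=
      Complex.measurable_ofReal.comp (F.meas.comp measurable_fst)
    exact h3.mul (h1.comp h2)
  have hb : ∀ x y : E5, ‖(V x : ℂ) * GG (I * κ) ‖x - y‖‖ ≤
      a * Real.exp (-(κ / 2) * ‖x - y‖) / ‖x - y‖ ^ 3 := by
    intro x y
    have hr : 0 ≤ ‖x - y‖ := norm_nonneg _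
    set r := ‖x - y‖ with hrdef
    rw [(GG_imag κ r).1, norm_mul, Complex.norm_real, Complex.norm_real, Real.norm_eq_abs,
      Real.norm_eq_abs]
    have h1 : 0 ≤ Real.exp (-κ * r) * (1 + κ * r) / (8 * Real.pi ^ 2 * r ^ 3) := by positivity
    rw [abs_of_nonneg h1]
    have h2 : Real.exp (-κ * r) * (1 + κ * r) ≤ 2 * Real.exp (-(κ / 2) * r) := by
      have h3 : κ * r / 2 + 1 ≤ Real.exp (κ * r / 2) := Real.add_one_le_exp _
      have h4 : Real.exp (-κ * r) = Real.exp (-(κ / 2) * r) * Real.exp (-(κ / 2) * r) := by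
        rw [← Real.exp_add]
        congr 1
        ring
      have h5 : Real.exp (-(κ / 2) * r) * Real.exp (κ * r / 2) = 1 := by
        rw [← Real.exp_add]
        have : -(κ / 2) * r + κ * r / 2 = 0 := by ring
        rw [this, Real.exp_zero]
      have h6 : 0 < Real.exp (-(κ / 2) * r) := Real.exp_pos _
      have h7 : 1 + κ * r ≤ 2 * Real.exp (κ * r / 2) := by
        have : 0 ≤ κ * r := by positivity
        linarith
      rw [h4]
      calc Real.exp (-(κ / 2) * r) * Real.exp (-(κ / 2) * r) * (1 + κ * r)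
          ≤ Real.exp (-(κ / 2) * r) * Real.exp (-(κ / 2) * r) * (2 * Real.exp (κ * r / 2)) :=
            mul_le_mul_of_nonneg_left h7 (by positivity)
        _ = 2 * Real.exp (-(κ / 2) * r) * (Real.exp (-(κ / 2) * r) * Real.exp (κ * r / 2)) := by
            ring
        _ = 2 * Real.exp (-(κ / 2) * r) := by rw [h5, mul_one]
    calc |V x| * (Real.exp (-κ * r) * (1 + κ * r) / (8 * Real.pi ^ 2 * r ^ 3))
        ≤ M * (2 * Real.exp (-(κ / 2) * r) / (8 * Real.pi ^ 2 * r ^ 3)) := by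
          apply mul_le_mul (F.bdd x) _ h1 hM
          exact div_le_div_of_nonneg_right h2 (by positivity)
      _ = a * Real.exp (-(κ / 2) * r) / r ^ 3 := by
          rw [ha]
          have h8 : (8 * Real.pi ^ 2) ≠ 0 := by positivity
          rw [div_mul_eq_mul_div, div_div, mul_div_assoc']
          congr 1
          ring
  refine hmul a (κ / 2) ha0 (by positivity) _ _ (T (I * κ)) (T (I * κ)) hmeas hmeas hb hb
    (F.kT (I * κ)) (F.kT (I * κ)) ι b c hc ?_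
  refine le_trans (le_of_eq ?_) hC
  field_simp
  ring

end Csec

end Pool.Agent.H269
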