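import Pool.Agent.H269.DefsC
import Pool.Agent.H269.R5.J15
import Pool.Agent.H269.R5.J16
import Pool.Agent.H269.R5.J20
import Pool.Agent.H269.R5.J22
import Pool.Agent.H269.R5.J23

/-!
# R5-32 the family A is operator norm differentiable (MP_f2af60_mp, infinitely many resonances in dimension five)
-/

set_option autoImplicit false

open MeasureTheory Filter Topology Complex
open scoped InnerProductSpace ENNReal NNReal

namespace Pool.Agent.H269


theorem inv_le_exp {R r : ℝ} (hR : 0 < R) (hr0 : 0 ≤ r) (hr : r ≤ 2 * R) :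
    1 / r ≤ 4 * R ^ 2 * Real.exp (2 * R) * (Real.exp (-1 * r) / r ^ 3) := by
  rcases hr0.eq_or_lt with h | h
  · rw [← h]; simp
  · have h1 : 1 ≤ Real.exp (2 * R) * Real.exp (-1 * r) := by
      rw [← Real.exp_add]
      exact Real.one_le_exp (by linarith)
    rw [div_le_iff₀ h]
    have h2 : 4 * R ^ 2 * Real.exp (2 * R) * (Real.exp (-1 * r) / r ^ 3) * r =
        (4 * R ^ 2 / r ^ 2) * (Real.exp (2 * R) * Real.exp (-1 * r)) := by
      field_simp
    rw [h2]
    have h3 : 1 ≤ 4 * R ^ 2 / r ^ 2 := by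
      rw [le_div_iff₀ (by positivity)]
      nlinarith
    nlinarith

/-- a uniform bound for the integral of `1/r` over the ball -/
theorem ball_int (R : ℝ) (hR : 0 < R) : ∃ K : ℝ, 0 ≤ K ∧
    ∀ x ∈ Metric.closedBall (0 : E5) R, ∀ b : ℝ, 0 ≤ b → ∀ f : E5 → ℂ,
      (∀ y ∈ Metric.closedBall (0 : E5) R, ‖f y‖ ≤ b * (1 / ‖x - y‖)) →
      ∫⁻ y, ‖f y‖ₑ ∂(muR R) ≤ ENNReal.ofReal (b * K) := by
  obtain ⟨c, hc, hcc⟩ := radial_int
  obtain ⟨-, h2, -⟩ := hcc 1 one_pos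
  refine ⟨4 * R ^ 2 * Real.exp (2 * R) * c, by positivity, ?_⟩
  intro x hx b hb f hf
  have hx' : ‖x‖ ≤ R := by simpa using hx
  have h3 : ∀ y ∈ Metric.closedBall (0 : E5) R, ‖f y‖ₑ ≤ ENNReal.ofReal
      (b * (4 * R ^ 2 * Real.exp (2 * R))) *
        ENNReal.ofReal (Real.exp (-1 * ‖x - y‖) / ‖x - y‖ ^ 3) := by
    intro y hy
    have hy' : ‖y‖ ≤ R := by simpa using hy
    rw [← ENNReal.ofReal_mul (by positivity), ← ofReal_norm]
    refine ENNReal.ofReal_le_ofReal ((hf y hy).trans ?_)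
    have h4 : ‖x - y‖ ≤ 2 * R := (norm_sub_le x y).trans (by linarith)
    have h5 := inv_le_exp hR (norm_nonneg (x - y)) h4
    calc b * (1 / ‖x - y‖) ≤ b * (4 * R ^ 2 * Real.exp (2 * R) *
          (Real.exp (-1 * ‖x - y‖) / ‖x - y‖ ^ 3)) := by gcongr
      _ = _ := by ring
  calc ∫⁻ y, ‖f y‖ₑ ∂(muR R)
      ≤ ∫⁻ y, ENNReal.ofReal (b * (4 * R ^ 2 * Real.exp (2 * R))) *
        ENNReal.ofReal (Real.exp (-1 * ‖x - y‖) / ‖x - y‖ ^ 3) ∂(muR R) := by
        refine lintegral_mono_ae ?_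
        rw [ae_restrict_iff' Metric.isClosed_closedBall.measurableSet]
        exact Filter.Eventually.of_forall h3
    _ ≤ ∫⁻ y, ENNReal.ofReal (b * (4 * R ^ 2 * Real.exp (2 * R))) *
        ENNReal.ofReal (Real.exp (-1 * ‖x - y‖) / ‖x - y‖ ^ 3) :=
        lintegral_mono' Measure.restrict_le_self le_rfl
    _ = ENNReal.ofReal (b * (4 * R ^ 2 * Real.exp (2 * R))) *
        ∫⁻ y : E5, ENNReal.ofReal (Real.exp (-1 * ‖x - y‖) / ‖x - y‖ ^ 3) :=
        lintegral_const_mul _ (by fun_prop)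
    _ = ENNReal.ofReal (b * (4 * R ^ 2 * Real.exp (2 * R))) *
        ∫⁻ y : E5, ENNReal.ofReal (Real.exp (-1 * ‖y‖) / ‖y‖ ^ 3) := by
        rw [lintegral_sub_left_eq_self (μ := (volume : Measure E5))
          (fun z : E5 => ENNReal.ofReal (Real.exp (-1 * ‖z‖) / ‖z‖ ^ 3)) x]
    _ = ENNReal.ofReal (b * (4 * R ^ 2 * Real.exp (2 * R) * c)) := by
        rw [h2, ← ENNReal.ofReal_mul (by positivity)]
        congr 1
        ring

theorem ker_bound (R : ℝ) (hR : 0 < R) : ∃ K : ℝ, 0 ≤ K ∧ ∀ k : E5 → E5 → ℂ,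
    Measurable (Function.uncurry k) → ∀ b : ℝ, 0 ≤ b →
    (∀ x ∈ Metric.closedBall (0 : E5) R, ∀ y ∈ Metric.closedBall (0 : E5) R,
      ‖k x y‖ ≤ b * (1 / ‖x - y‖)) → ∃ B : Op R, IsKer (muR R) k B ∧ ‖B‖ ≤ b * K := by
  obtain ⟨K, hK, h⟩ := ball_int R hR
  refine ⟨K, hK, fun k hk b hb hkb => ?_⟩
  have : IsFiniteMeasure (muR R) :=
    ⟨by rw [Measure.restrict_apply_univ]; exact measure_closedBall_lt_top⟩
  have hmeas : MeasurableSet (Metric.closedBall (0 : E5) R) :=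
    Metric.isClosed_closedBall.measurableSet
  refine exists_isKer k hk (b * K) (by positivity) ?_ ?_
  · rw [ae_restrict_iff' hmeas]
    exact Filter.Eventually.of_forall fun x hx => h x hx b hb _ fun y hy => hkb x hx y hy
  · rw [ae_restrict_iff' hmeas]
    refine Filter.Eventually.of_forall fun y hy => h y hy b hb _ fun x hx => ?_
    rw [norm_sub_rev]
    exact hkb x hx y hy

theorem meas_GD (l : ℂ) : Measurable (fun r : ℝ => GD l r) := by
  unfold GD
  fun_prop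

theorem meas_GG (l : ℂ) : Measurable (fun r : ℝ => GG l r) := by
  unfold GG
  fun_prop

theorem meas_rad {g : ℝ → ℂ} (hg : Measurable g) :
    Measurable (Function.uncurry fun x y : E5 => g ‖x - y‖) := by
  have : Measurable (fun p : E5 × E5 => ‖p.1 - p.2‖) := by fun_prop
  exact hg.comp this



section Csec

variable {R M : ℝ} {V : E5 → ℝ} {A T TD : ℂ → Op R}

theorem Fam.A_taylor (F : Fam R M V A T TD) :
    ∃ AD : ℂ → Op R, ∀ l : ℂ, ∃ C : ℝ, ∀ h : ℂ, ‖h‖ ≤ 1 →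
      ‖A (l + h) - A l - h • AD l‖ ≤ C * ‖h‖ ^ 2 := by
  obtain ⟨K, hK, hker⟩ := ker_bound R F.hR
  have : IsFiniteMeasure (muR R) :=
    ⟨by rw [Measure.restrict_apply_univ]; exact measure_closedBall_lt_top⟩
  have hR := F.hR
  have hdist : ∀ x ∈ Metric.closedBall (0 : E5) R, ∀ y ∈ Metric.closedBall (0 : E5) R,
      ‖x - y‖ ≤ 2 * R := by
    intro x hx y hy
    have hx' : ‖x‖ ≤ R := by simpa using hx
    have hy' : ‖y‖ ≤ R := by simpa using hy
    exact (norm_sub_le x y).trans (by linarith)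
  have hAD : ∀ l : ℂ, ∃ B : Op R, IsKer (muR R) (fun x y => GD l ‖x - y‖) B := by
    intro l
    obtain ⟨B, hB, -⟩ := hker (fun x y => GD l ‖x - y‖) (meas_rad (meas_GD l))
      (‖l‖ * Real.exp (|l.im| * (2 * R)) / (8 * Real.pi ^ 2)) (by positivity) (by
        intro x hx y hy
        have h1 := (GG_bound l ‖x - y‖ (norm_nonneg _)).2
        have h2 := hdist x hx y hy
        refine h1.trans ?_
        have h3 : Real.exp (-l.im * ‖x - y‖) ≤ Real.exp (|l.im| * (2 * R)) := by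
          rw [Real.exp_le_exp]
          calc -l.im * ‖x - y‖ ≤ |l.im| * ‖x - y‖ := by
                gcongr
                exact neg_le_abs _
            _ ≤ |l.im| * (2 * R) := by gcongr
        calc ‖l‖ * Real.exp (-l.im * ‖x - y‖) / (8 * Real.pi ^ 2 * ‖x - y‖)
            ≤ ‖l‖ * Real.exp (|l.im| * (2 * R)) / (8 * Real.pi ^ 2 * ‖x - y‖) := by gcongr
          _ = _ := by
            rw [div_mul_div_comm, mul_one])
    exact ⟨B, hB⟩
  choose AD hAD using hAD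
  refine ⟨AD, fun l => ?_⟩
  obtain ⟨C, hC, hT⟩ := GG_taylor (2 * R) l
  refine ⟨C * K, fun h hh => ?_⟩
  obtain ⟨B, hB, hBn⟩ := hker
    (fun x y => GG (l + h) ‖x - y‖ - GG l ‖x - y‖ - h * GD l ‖x - y‖)
    (meas_rad (((meas_GG (l + h)).sub (meas_GG l)).sub ((meas_GD l).const_mul h)))
    (C * ‖h‖ ^ 2) (by positivity) (by
      intro x hx y hy
      have := hT h hh ‖x - y‖ (norm_nonneg _) (hdist x hx y hy)
      rwa [mul_one_div])
  have hk := ((F.kA (l + h)).sub (F.kA l)).sub ((hAD l).smul h)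
  rw [hk.unique hB]
  calc ‖B‖ ≤ C * ‖h‖ ^ 2 * K := hBn
    _ = C * K * ‖h‖ ^ 2 := by ring

end Csec

end Pool.Agent.H269
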