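import Pool.Agent.H269.DefsC
import Pool.Agent.H269.R5.J16
import Pool.Agent.H269.R5.J25
import Pool.Agent.H269.R5.J26

/-!
# R5-33 norm of the cut-off free resolvent (MP_f2af60_mp, infinitely many resonances in dimension five)
-/

set_option autoImplicit false

open MeasureTheory Filter Topology Complex
open scoped InnerProductSpace ENNReal NNReal

namespace Pool.Agent.H269


section Csec

variable {R M : ℝ} {V : E5 → ℝ} {A T TD : ℂ → Op R}

theorem Fam.T_apply (F : Fam R M V A T TD) (l : ℂ) (f : Lp ℂ 2 (muR R)) :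
    (T l f : E5 → ℂ) =ᵐ[muR R] fun x => (V x : ℂ) * (A l f : E5 → ℂ) x := by
  filter_upwards [(F.kT l f).2, (F.kA l f).2] with x h1 h2
  rw [h1, h2, ← integral_const_mul]
  refine integral_congr_ae (Eventually.of_forall fun y => ?_)
  simp only [mul_assoc]

/-- the square of the norm of `L²` -/
theorem j2280_eLpNorm_sq {E : Type} [MeasurableSpace E] {μ : Measure E} (f : E → ℂ) :
    eLpNorm f 2 μ ^ 2 = ∫⁻ x, ‖f x‖ₑ ^ 2 ∂μ := by
  have h := eLpNorm_nnreal_pow_eq_lintegral (f := f) (μ := μ) (p := 2) (by norm_num)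
  simpa using h

theorem j2280_norm_A_le (F : Fam R M V A T TD) (l : ℂ) (hl : 0 < l.im) (f : Lp ℂ 2 (muR R)) :
    ‖A l f‖ ≤ (l.im ^ 2)⁻¹ * ‖f‖ := by
  set c : ℝ := (l.im ^ 2)⁻¹ with hc
  have hc0 : 0 ≤ c := by positivity
  have hb : MeasurableSet (Metric.closedBall (0 : E5) R) := Metric.isClosed_closedBall.measurableSet
  set h : E5 → ℂ := (Metric.closedBall (0 : E5) R).indicator (f : E5 → ℂ) with hh
  have h1 : MemLp h 2 volume := (memLp_indicator_iff_restrict hb).2 (Lp.memLp f)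
  have h2 : HasCompactSupport h := HasCompactSupport.intro (isCompact_closedBall (0 : E5) R)
    fun x hx => Set.indicator_of_notMem hx _
  obtain ⟨-, h3, -⟩ := free_resolvent l hl h h1 h2
  have h4 : ∀ x, ∫ y, GG l ‖x - y‖ * h y = ∫ y, GG l ‖x - y‖ * f y ∂(muR R) := by
    intro x
    rw [← integral_indicator hb]
    refine integral_congr_ae (Eventually.of_forall fun y => ?_)
    simp only [hh, Set.indicator]
    split_ifs
    · rfl
    · simp
  have h5 : ∫⁻ x, ‖h x‖ₑ ^ 2 = eLpNorm f 2 (muR R) ^ 2 := by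
    rw [j2280_eLpNorm_sq, ← lintegral_indicator hb]
    refine lintegral_congr fun x => ?_
    simp only [hh, Set.indicator]
    split_ifs
    · rfl
    · simp
  have h6 : eLpNorm (A l f) 2 (muR R) ^ 2 ≤ ENNReal.ofReal (c ^ 2) * eLpNorm f 2 (muR R) ^ 2 := by
    rw [j2280_eLpNorm_sq, ← h5]
    refine le_trans ?_ h3
    have h7 : ∫⁻ x, ‖(A l f : E5 → ℂ) x‖ₑ ^ 2 ∂(muR R) =
        ∫⁻ x, ‖∫ y, GG l ‖x - y‖ * h y‖ₑ ^ 2 ∂(muR R) := by
      refine lintegral_congr_ae ?_
      filter_upwards [(F.kA l f).2] with x hx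
      rw [hx, h4]
    rw [h7]
    exact setLIntegral_le_lintegral _ _
  have h8 : eLpNorm (A l f) 2 (muR R) ≤ ENNReal.ofReal c * eLpNorm f 2 (muR R) := by
    have h9 : eLpNorm (A l f) 2 (muR R) ^ 2 ≤ (ENNReal.ofReal c * eLpNorm f 2 (muR R)) ^ 2 := by
      rw [mul_pow, ← ENNReal.ofReal_pow hc0]
      exact h6
    exact (ENNReal.pow_le_pow_left_iff (by norm_num)).1 h9
  rw [Lp.norm_def, Lp.norm_def]
  have h10 : ENNReal.ofReal c * eLpNorm f 2 (muR R) ≠ ⊤ :=
    ENNReal.mul_ne_top ENNReal.ofReal_ne_top (Lp.eLpNorm_ne_top f)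
  have h11 := ENNReal.toReal_mono h10 h8
  rwa [ENNReal.toReal_mul, ENNReal.toReal_ofReal hc0] at h11

theorem Fam.norm_le (F : Fam R M V A T TD) (l : ℂ) (hl : 0 < l.im) :
    ‖A l‖ ≤ (l.im ^ 2)⁻¹ ∧ ‖T l‖ ≤ M * (l.im ^ 2)⁻¹ := by
  have hM := F.hM
  refine ⟨ContinuousLinearMap.opNorm_le_bound _ (by positivity) (j2280_norm_A_le F l hl),
    ContinuousLinearMap.opNorm_le_bound _ (by positivity) fun f => ?_⟩
  have h1 : ‖T l f‖ ≤ M * ‖A l f‖ := by
    refine Lp.norm_le_mul_norm_of_ae_le_mul ?_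
    filter_upwards [F.T_apply l f] with x hx
    rw [hx, norm_mul, Complex.norm_real, Real.norm_eq_abs]
    exact mul_le_mul_of_nonneg_right (F.bdd x) (norm_nonneg _)
  rw [mul_assoc]
  exact h1.trans (mul_le_mul_of_nonneg_left (j2280_norm_A_le F l hl f) hM)

end Csec

end Pool.Agent.H269
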