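import Pool.Agent.H269.DefsC
import Pool.Agent.H269.R5.J01
import Pool.Agent.H269.R5.J02
import Pool.Agent.H269.R5.J20
import Pool.Agent.H269.R5.J22
import Pool.Agent.H269.R5.J23
import Pool.Agent.H269.R5.J24
import Pool.Agent.H269.R5.J30
import Pool.Agent.H269.R5.J31

/-!
# R5-34 derivative and growth of tau (MP_f2af60_mp, infinitely many resonances in dimension five)
-/

set_option autoImplicit false

open MeasureTheory Filter Topology Complex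
open scoped InnerProductSpace ENNReal NNReal

namespace Pool.Agent.H269


section Aux

theorem hasDerivAt_of_quad {g : ℂ → ℂ} {g' l : ℂ} {C : ℝ}
    (hC : ∀ h : ℂ, ‖h‖ ≤ 1 → ‖g (l + h) - g l - h * g'‖ ≤ C * ‖h‖ ^ 2) : HasDerivAt g g' l := by
  rw [hasDerivAt_iff_isLittleO_nhds_zero]
  have h1 : (fun h : ℂ => g (l + h) - g l - h • g') =O[𝓝 0] fun h : ℂ => ‖h‖ ^ 2 := by
    refine Asymptotics.IsBigO.of_bound C ?_
    have : Metric.closedBall (0 : ℂ) 1 ∈ 𝓝 (0 : ℂ) := Metric.closedBall_mem_nhds _ one_pos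
    filter_upwards [this] with h hh
    have hh' : ‖h‖ ≤ 1 := by simpa using hh
    have := hC h hh'
    simpa using this
  refine h1.trans_isLittleO ?_
  rw [Asymptotics.isLittleO_iff]
  intro c hc
  have : Metric.closedBall (0 : ℂ) c ∈ 𝓝 (0 : ℂ) := Metric.closedBall_mem_nhds _ hc
  filter_upwards [this] with h hh
  have hh' : ‖h‖ ≤ c := by simpa using hh
  rw [Real.norm_eq_abs, abs_of_nonneg (by positivity), sq]
  exact mul_le_mul_of_nonneg_right hh' (norm_nonneg _)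

theorem GG_meas (l : ℂ) : Measurable (fun r : ℝ => GG l r) := by
  unfold GG
  fun_prop

theorem GD_meas (l : ℂ) : Measurable (fun r : ℝ => GD l r) := by
  unfold GD
  fun_prop

instance muR_finite (R : ℝ) : IsFiniteMeasure (muR R) := by
  refine ⟨?_⟩
  rw [muR, Measure.restrict_apply_univ]
  exact (isCompact_closedBall (0 : E5) R).measure_lt_top

theorem wInt (R : ℝ) : ∃ W : ℝ, 0 ≤ W ∧
    Integrable (fun p : E5 × E5 => 1 / ‖p.1 - p.2‖ ^ 4) ((muR R).prod (muR R)) ∧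
    ∫ p : E5 × E5, 1 / ‖p.1 - p.2‖ ^ 4 ∂((muR R).prod (muR R)) ≤ W := by
  obtain ⟨c, hc, hr⟩ := radial_int
  have h1 := (hr 1 one_pos).1
  have hmeas : Measurable (fun p : E5 × E5 => 1 / ‖p.1 - p.2‖ ^ 4) := by fun_prop
  have key : Integrable (fun p : E5 × E5 => 1 / ‖p.1 - p.2‖ ^ 4) ((muR R).prod (muR R)) := by
    refine ⟨hmeas.aestronglyMeasurable, ?_⟩
    rw [hasFiniteIntegral_iff_enorm]
    have hae : ∀ᵐ p ∂((muR R).prod (muR R)),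
        p.1 ∈ Metric.closedBall (0 : E5) R ∧ p.2 ∈ Metric.closedBall (0 : E5) R := by
      have := ae_restrict_mem (μ := (volume : Measure (E5 × E5)))
        (s := Metric.closedBall (0 : E5) R ×ˢ Metric.closedBall (0 : E5) R)
        (measurableSet_closedBall.prod measurableSet_closedBall)
      have h2 : ((muR R).prod (muR R)) = (volume : Measure (E5 × E5)).restrict
          (Metric.closedBall (0 : E5) R ×ˢ Metric.closedBall (0 : E5) R) := by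
        rw [muR, Measure.prod_restrict]
        rfl
      rw [h2]
      filter_upwards [this] with p hp
      exact hp
    have hle : ∀ᵐ p ∂((muR R).prod (muR R)), ‖1 / ‖p.1 - p.2‖ ^ 4‖ₑ ≤
        ENNReal.ofReal (Real.exp (2 * R)) *
          ENNReal.ofReal (Real.exp (-1 * ‖p.1 - p.2‖) / ‖p.1 - p.2‖ ^ 4) := by
      filter_upwards [hae] with p hp
      have hp1 : ‖p.1‖ ≤ R := by simpa using hp.1
      have hp2 : ‖p.2‖ ≤ R := by simpa using hp.2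
      have hd : ‖p.1 - p.2‖ ≤ 2 * R := by
        have := norm_sub_le p.1 p.2
        linarith
      rw [← ENNReal.ofReal_mul (Real.exp_pos _).le, Real.enorm_eq_ofReal (by positivity)]
      apply ENNReal.ofReal_le_ofReal
      rw [← mul_div_assoc, ← Real.exp_add]
      apply div_le_div_of_nonneg_right _ (by positivity)
      apply Real.one_le_exp
      linarith
    refine lt_of_le_of_lt (lintegral_mono_ae hle) ?_
    rw [lintegral_const_mul _ (by fun_prop)]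
    apply ENNReal.mul_lt_top ENNReal.ofReal_lt_top
    rw [lintegral_prod _ (by fun_prop)]
    have hin : ∀ x : E5, ∫⁻ y, ENNReal.ofReal (Real.exp (-1 * ‖x - y‖) / ‖x - y‖ ^ 4) ∂(muR R) ≤
        ENNReal.ofReal (c / 1) := by
      intro x
      calc ∫⁻ y, ENNReal.ofReal (Real.exp (-1 * ‖x - y‖) / ‖x - y‖ ^ 4) ∂(muR R)
          ≤ ∫⁻ y, ENNReal.ofReal (Real.exp (-1 * ‖x - y‖) / ‖x - y‖ ^ 4) :=
            setLIntegral_le_lintegral _ _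
        _ = ∫⁻ y : E5, ENNReal.ofReal (Real.exp (-1 * ‖y‖) / ‖y‖ ^ 4) :=
            lintegral_sub_left_eq_self
              (fun y : E5 => ENNReal.ofReal (Real.exp (-1 * ‖y‖) / ‖y‖ ^ 4)) x
        _ = ENNReal.ofReal (c / 1) := h1
    calc ∫⁻ x, ∫⁻ y, ENNReal.ofReal (Real.exp (-1 * ‖x - y‖) / ‖x - y‖ ^ 4) ∂(muR R) ∂(muR R)
        ≤ ∫⁻ _x, ENNReal.ofReal (c / 1) ∂(muR R) := lintegral_mono hin
      _ < ⊤ := by
        rw [lintegral_const]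
        exact ENNReal.mul_lt_top ENNReal.ofReal_lt_top (measure_lt_top _ _)
  refine ⟨∫ p : E5 × E5, 1 / ‖p.1 - p.2‖ ^ 4 ∂((muR R).prod (muR R)), ?_, key, le_rfl⟩
  exact integral_nonneg fun p => by positivity

/-- basic estimate for double integrals over the ball -/
theorem dbl (R M : ℝ) (V : E5 → ℝ) (hM : 0 ≤ M) (hV : Measurable V) (hb : ∀ x, |V x| ≤ M) :
    ∃ W : ℝ, 0 ≤ W ∧ ∀ (K : ℝ) (g : ℝ → ℂ), 0 ≤ K → Measurable g →
      (∀ r : ℝ, 0 ≤ r → r ≤ 2 * R → ‖g r‖ ≤ K / r ^ 4) →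
      Integrable (fun p : E5 × E5 => (V p.1 : ℂ) * (V p.2 : ℂ) * g ‖p.1 - p.2‖)
        ((muR R).prod (muR R)) ∧
      ‖∫ x, ∫ y, (V x : ℂ) * (V y : ℂ) * g ‖x - y‖ ∂(muR R) ∂(muR R)‖ ≤ W * K := by
  obtain ⟨W, hW, hint, hle⟩ := wInt R
  refine ⟨M ^ 2 * W, by positivity, ?_⟩
  intro K g hK hg hgb
  have hae : ∀ᵐ p ∂((muR R).prod (muR R)),
      p.1 ∈ Metric.closedBall (0 : E5) R ∧ p.2 ∈ Metric.closedBall (0 : E5) R := by
    have := ae_restrict_mem (μ := (volume : Measure (E5 × E5)))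
      (s := Metric.closedBall (0 : E5) R ×ˢ Metric.closedBall (0 : E5) R)
      (measurableSet_closedBall.prod measurableSet_closedBall)
    have h2 : ((muR R).prod (muR R)) = (volume : Measure (E5 × E5)).restrict
        (Metric.closedBall (0 : E5) R ×ˢ Metric.closedBall (0 : E5) R) := by
      rw [muR, Measure.prod_restrict]
      rfl
    rw [h2]
    filter_upwards [this] with p hp
    exact hp
  have hbd : ∀ᵐ p ∂((muR R).prod (muR R)),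
      ‖(V p.1 : ℂ) * (V p.2 : ℂ) * g ‖p.1 - p.2‖‖ ≤ (M ^ 2 * K) * (1 / ‖p.1 - p.2‖ ^ 4) := by
    filter_upwards [hae] with p hp
    have hp1 : ‖p.1‖ ≤ R := by simpa using hp.1
    have hp2 : ‖p.2‖ ≤ R := by simpa using hp.2
    have hd : ‖p.1 - p.2‖ ≤ 2 * R := by
      have := norm_sub_le p.1 p.2
      linarith
    have h3 := hgb ‖p.1 - p.2‖ (norm_nonneg _) hd
    have h1 : ‖(V p.1 : ℂ)‖ ≤ M := by
      rw [Complex.norm_real]; exact hb _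
    have h2 : ‖(V p.2 : ℂ)‖ ≤ M := by
      rw [Complex.norm_real]; exact hb _
    calc ‖(V p.1 : ℂ) * (V p.2 : ℂ) * g ‖p.1 - p.2‖‖
        = ‖(V p.1 : ℂ)‖ * ‖(V p.2 : ℂ)‖ * ‖g ‖p.1 - p.2‖‖ := by rw [norm_mul, norm_mul]
      _ ≤ M * M * (K / ‖p.1 - p.2‖ ^ 4) := by gcongr
      _ = (M ^ 2 * K) * (1 / ‖p.1 - p.2‖ ^ 4) := by ring
  have hI : Integrable (fun p : E5 × E5 => (V p.1 : ℂ) * (V p.2 : ℂ) * g ‖p.1 - p.2‖)
      ((muR R).prod (muR R)) := by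
    refine Integrable.mono' (hint.const_mul (M ^ 2 * K)) ?_ hbd
    have : Measurable (fun p : E5 × E5 => (V p.1 : ℂ) * (V p.2 : ℂ) * g ‖p.1 - p.2‖) := by
      fun_prop
    exact this.aestronglyMeasurable
  refine ⟨hI, ?_⟩
  rw [integral_integral (f := fun x y => (V x : ℂ) * (V y : ℂ) * g ‖x - y‖) hI]
  calc ‖∫ p : E5 × E5, (V p.1 : ℂ) * (V p.2 : ℂ) * g ‖p.1 - p.2‖ ∂((muR R).prod (muR R))‖
      ≤ ∫ p : E5 × E5, (M ^ 2 * K) * (1 / ‖p.1 - p.2‖ ^ 4) ∂((muR R).prod (muR R)) :=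
        norm_integral_le_of_norm_le (hint.const_mul _) hbd
    _ = (M ^ 2 * K) * ∫ p : E5 × E5, (1 / ‖p.1 - p.2‖ ^ 4) ∂((muR R).prod (muR R)) :=
        integral_const_mul _ _
    _ ≤ (M ^ 2 * K) * W := by gcongr
    _ = M ^ 2 * W * K := by ring

/-- additivity of the double integral -/
theorem dbl_lin (R : ℝ) (V : E5 → ℝ) (g1 g2 g3 : ℝ → ℂ) (h : ℂ)
    (h1 : Integrable (fun p : E5 × E5 => (V p.1 : ℂ) * (V p.2 : ℂ) * g1 ‖p.1 - p.2‖)
      ((muR R).prod (muR R)))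
    (h2 : Integrable (fun p : E5 × E5 => (V p.1 : ℂ) * (V p.2 : ℂ) * g2 ‖p.1 - p.2‖)
      ((muR R).prod (muR R)))
    (h3 : Integrable (fun p : E5 × E5 => (V p.1 : ℂ) * (V p.2 : ℂ) * g3 ‖p.1 - p.2‖)
      ((muR R).prod (muR R))) :
    (∫ x, ∫ y, (V x : ℂ) * (V y : ℂ) * g1 ‖x - y‖ ∂(muR R) ∂(muR R)) -
    (∫ x, ∫ y, (V x : ℂ) * (V y : ℂ) * g2 ‖x - y‖ ∂(muR R) ∂(muR R)) -
    h * (∫ x, ∫ y, (V x : ℂ) * (V y : ℂ) * g3 ‖x - y‖ ∂(muR R) ∂(muR R)) =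
    ∫ x, ∫ y, (V x : ℂ) * (V y : ℂ) * (g1 ‖x - y‖ - g2 ‖x - y‖ - h * g3 ‖x - y‖)
      ∂(muR R) ∂(muR R) := by
  have h4 : Integrable (fun p : E5 × E5 => (V p.1 : ℂ) * (V p.2 : ℂ) *
      (g1 ‖p.1 - p.2‖ - g2 ‖p.1 - p.2‖ - h * g3 ‖p.1 - p.2‖)) ((muR R).prod (muR R)) := by
    refine ((h1.sub h2).sub (h3.const_mul h)).congr (ae_of_all _ fun p => ?_)
    simp only [Pi.sub_apply]
    ring
  have h12 : Integrable (fun p : E5 × E5 => (V p.1 : ℂ) * (V p.2 : ℂ) * g1 ‖p.1 - p.2‖ -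
      (V p.1 : ℂ) * (V p.2 : ℂ) * g2 ‖p.1 - p.2‖) ((muR R).prod (muR R)) := h1.sub h2
  have h33 : Integrable (fun p : E5 × E5 => h * ((V p.1 : ℂ) * (V p.2 : ℂ) * g3 ‖p.1 - p.2‖))
      ((muR R).prod (muR R)) := h3.const_mul h
  rw [integral_integral (f := fun x y => (V x : ℂ) * (V y : ℂ) * g1 ‖x - y‖) h1,
    integral_integral (f := fun x y => (V x : ℂ) * (V y : ℂ) * g2 ‖x - y‖) h2,
    integral_integral (f := fun x y => (V x : ℂ) * (V y : ℂ) * g3 ‖x - y‖) h3,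
    integral_integral (f := fun x y => (V x : ℂ) * (V y : ℂ) *
      (g1 ‖x - y‖ - g2 ‖x - y‖ - h * g3 ‖x - y‖)) h4,
    ← integral_sub h1 h2, ← integral_const_mul, ← integral_sub h12 h33]
  refine integral_congr_ae (ae_of_all _ fun p => ?_)
  ring

end Aux


section Aux2

variable {R M : ℝ} {V : E5 → ℝ} {A T TD : ℂ → Op R}

theorem S_HS (F : Fam R M V A T TD) {ι : Type} [DecidableEq ι]
    (b : HilbertBasis ι ℂ (Lp ℂ 2 (muR R))) (κ0 : ℝ) (hκ0 : 1 ≤ κ0) (Y0 : Op R) :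
    ∃ c : ℝ, 0 ≤ c ∧ HSle b (T (I * κ0) * T (I * κ0) * Y0) c := by
  obtain ⟨C, hC, h⟩ := F.sq_imag b
  have h1 := h κ0 hκ0 (Real.sqrt (C / κ0 ^ 3)) (Real.sqrt_nonneg _) (by
    rw [Real.sq_sqrt]; positivity)
  exact ⟨_, by positivity, h1.right_mul Y0⟩

theorem G0_bound (R κ0 : ℝ) (hκ0 : 1 ≤ κ0) (hR : 0 < R) :
    ∃ C0 : ℝ, 0 ≤ C0 ∧ ∀ r : ℝ, 0 ≤ r → r ≤ 2 * R → ‖GG (I * κ0) r‖ ≤ C0 / r ^ 3 := by
  refine ⟨(1 + κ0 * (2 * R)) / (8 * Real.pi ^ 2), by positivity, ?_⟩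
  intro r hr hr2
  refine ((GG_bound (I * κ0) r hr).1).trans ?_
  have h1 : ‖I * (κ0 : ℂ)‖ = κ0 := by
    rw [norm_mul, Complex.norm_I, one_mul, Complex.norm_real, Real.norm_eq_abs,
      abs_of_nonneg (by linarith)]
  have h2 : (I * (κ0 : ℂ)).im = κ0 := by simp
  rw [h1, h2, div_div]
  have h3 : Real.exp (-κ0 * r) ≤ 1 := by
    rw [Real.exp_le_one_iff]
    nlinarith
  have h4 : (1 + κ0 * r) * Real.exp (-κ0 * r) ≤ (1 + κ0 * (2 * R)) * 1 := by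
    gcongr
  rw [mul_one] at h4
  exact div_le_div_of_nonneg_right h4 (by positivity)

theorem GD_bound (R : ℝ) (l : ℂ) (hR : 0 < R) :
    ∃ C0 : ℝ, 0 ≤ C0 ∧ ∀ r : ℝ, 0 ≤ r → r ≤ 2 * R → ‖GD l r‖ ≤ C0 / r := by
  refine ⟨‖l‖ * Real.exp (|l.im| * (2 * R)) / (8 * Real.pi ^ 2), by positivity, ?_⟩
  intro r hr hr2
  refine ((GG_bound l r hr).2).trans ?_
  rw [div_div]
  have h3 : Real.exp (-l.im * r) ≤ Real.exp (|l.im| * (2 * R)) := by
    rw [Real.exp_le_exp]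
    have h5 : -l.im ≤ |l.im| := neg_le_abs _
    have h6 : 0 ≤ |l.im| := abs_nonneg _
    nlinarith
  gcongr

theorem mul_bound {a c : ℂ} {r C0 K : ℝ} (hr : 0 ≤ r) (hC0 : 0 ≤ C0) (h1 : ‖a‖ ≤ C0 / r ^ 3)
    (h2 : ‖c‖ ≤ K / r) : ‖a * c‖ ≤ (C0 * K) / r ^ 4 := by
  rw [norm_mul]
  calc ‖a‖ * ‖c‖ ≤ (C0 / r ^ 3) * (K / r) := by gcongr
    _ = (C0 * K) / r ^ 4 := by
      rw [div_mul_div_comm]; ring_nf

theorem dif_bound (R κ0 B : ℝ) (hκ0 : 1 ≤ κ0) (hR : 0 < R) (hB : 0 ≤ B) (l : ℂ)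
    (hl : -B ≤ l.im) (r : ℝ) (hr : 0 ≤ r) (hr2 : r ≤ 2 * R) :
    ‖GG l r - GG (I * κ0) r‖ ≤
      (Real.exp (B * (2 * R)) / (8 * Real.pi ^ 2) * (‖l - I * κ0‖ * max ‖l‖ ‖I * (κ0 : ℂ)‖)) / r := by
  have h2 : (I * (κ0 : ℂ)).im = κ0 := by simp
  refine (GG_sub_bound B l (I * κ0) hl (by rw [h2]; linarith) r hr).trans ?_
  have h3 : Real.exp (B * r) ≤ Real.exp (B * (2 * R)) := by
    rw [Real.exp_le_exp]
    nlinarith
  rw [← div_div, div_mul_eq_mul_div, mul_comm (Real.exp (B * (2 * R)))]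
  gcongr

end Aux2

section Csec

variable {R M : ℝ} {V : E5 → ℝ} {A T TD : ℂ → Op R}

theorem tauF_hasDerivAt (F : Fam R M V A T TD) {ι : Type} [DecidableEq ι]
    (b : HilbertBasis ι ℂ (Lp ℂ 2 (muR R))) (κ0 : ℝ) (hκ0 : 1 ≤ κ0) (Y0 : Op R) (l : ℂ) :
    HasDerivAt (tauF b V T (I * κ0) Y0)
      (I * l ^ 2 / (8 * (Real.pi : ℂ) ^ 2) * (∫ x, (V x : ℂ) ∂(muR R)) -
        (∫ x, ∫ y, (V x : ℂ) * (V y : ℂ) * (GG (I * κ0) ‖x - y‖ * GD l ‖x - y‖)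
          ∂(muR R) ∂(muR R)) + Tr2 b (T (I * κ0) * T (I * κ0) * Y0) (TD l)) l := by
  have hR := F.hR
  set l0 : ℂ := I * κ0 with hl0
  obtain ⟨W, hW, hdbl⟩ := dbl R M V F.hM F.meas F.bdd
  obtain ⟨C0, hC0, hG0⟩ := G0_bound R κ0 hκ0 hR
  obtain ⟨cS, hcS, hS⟩ := S_HS F b κ0 hκ0 Y0
  -- term 1
  have t1 : HasDerivAt (fun l : ℂ => -(1 / 2) * JJ l 0 * (∫ x, (V x : ℂ) ∂(muR R)))
      (I * l ^ 2 / (8 * (Real.pi : ℂ) ^ 2) * (∫ x, (V x : ℂ) ∂(muR R))) l := by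
    have e : (fun l : ℂ => -(1 / 2) * JJ l 0 * (∫ x, (V x : ℂ) ∂(muR R))) =
        fun l : ℂ => -(1 / 2) * ((I * l) ^ 3 / (12 * (Real.pi : ℂ) ^ 2)) *
          (∫ x, (V x : ℂ) ∂(muR R)) := by
      funext l
      rw [JJ_zero]
    rw [e]
    have h1 : HasDerivAt (fun l : ℂ => (I * l) ^ 3) (3 * (I * l) ^ 2 * I) l := by
      have h0 : HasDerivAt (fun l : ℂ => I * l) I l := by
        simpa using (hasDerivAt_id l).const_mul I
      have := h0.pow 3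
      refine this.congr_deriv ?_
      norm_num
    have h2 := ((h1.div_const (12 * (Real.pi : ℂ) ^ 2)).const_mul (-(1 / 2 : ℂ))).mul_const
      (∫ x, (V x : ℂ) ∂(muR R))
    refine h2.congr_deriv ?_
    have hpi : (Real.pi : ℂ) ≠ 0 := by exact_mod_cast Real.pi_ne_zero
    have hI : I ^ 2 = -1 := Complex.I_sq
    field_simp
    rw [hI]
    ring
  -- term 2
  have t2 : HasDerivAt (fun l : ℂ => ∫ x, ∫ y, (V x : ℂ) * (V y : ℂ) *
      (GG l0 ‖x - y‖ * (GG l ‖x - y‖ - GG l0 ‖x - y‖)) ∂(muR R) ∂(muR R))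
      (∫ x, ∫ y, (V x : ℂ) * (V y : ℂ) * (GG l0 ‖x - y‖ * GD l ‖x - y‖)
          ∂(muR R) ∂(muR R)) l := by
    obtain ⟨C1, hC1, htay⟩ := GG_taylor (2 * R) l
    obtain ⟨C2, hC2, hGD⟩ := GD_bound R l hR
    have hm : ∀ m : ℂ, Integrable (fun p : E5 × E5 => (V p.1 : ℂ) * (V p.2 : ℂ) *
        (fun r : ℝ => GG l0 r * (GG m r - GG l0 r)) ‖p.1 - p.2‖) ((muR R).prod (muR R)) := by
      intro m
      refine (hdbl (C0 * (Real.exp (|m.im| * (2 * R)) / (8 * Real.pi ^ 2) *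
        (‖m - I * κ0‖ * max ‖m‖ ‖I * (κ0 : ℂ)‖)))
        (fun r : ℝ => GG l0 r * (GG m r - GG l0 r)) (by positivity) ?_ ?_).1
      · exact (GG_meas l0).mul ((GG_meas m).sub (GG_meas l0))
      · intro r hr hr2
        exact mul_bound hr hC0 (hG0 r hr hr2)
          (dif_bound R κ0 |m.im| hκ0 hR (abs_nonneg _) m (neg_abs_le _) r hr hr2)
    have hd : Integrable (fun p : E5 × E5 => (V p.1 : ℂ) * (V p.2 : ℂ) *
        (fun r : ℝ => GG l0 r * GD l r) ‖p.1 - p.2‖) ((muR R).prod (muR R)) := by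
      refine (hdbl (C0 * C2) (fun r : ℝ => GG l0 r * GD l r) (by positivity) ?_ ?_).1
      · exact (GG_meas l0).mul (GD_meas l)
      · intro r hr hr2
        exact mul_bound hr hC0 (hG0 r hr hr2) (hGD r hr hr2)
    refine hasDerivAt_of_quad (C := W * (C0 * C1)) ?_
    intro h hh
    have e := dbl_lin R V (fun r : ℝ => GG l0 r * (GG (l + h) r - GG l0 r))
      (fun r : ℝ => GG l0 r * (GG l r - GG l0 r)) (fun r : ℝ => GG l0 r * GD l r) h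
      (hm (l + h)) (hm l) hd
    rw [e]
    have := (hdbl (C0 * (C1 * ‖h‖ ^ 2)) (fun r : ℝ => GG l0 r * (GG (l + h) r - GG l0 r) -
      GG l0 r * (GG l r - GG l0 r) - h * (GG l0 r * GD l r)) (by positivity) ?_ ?_).2
    · refine this.trans (le_of_eq ?_)
      ring
    · exact (((GG_meas l0).mul ((GG_meas (l + h)).sub (GG_meas l0))).sub
        ((GG_meas l0).mul ((GG_meas l).sub (GG_meas l0)))).sub
        (((GG_meas l0).mul (GD_meas l)).const_mul h)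
    · intro r hr hr2
      have e2 : GG l0 r * (GG (l + h) r - GG l0 r) - GG l0 r * (GG l r - GG l0 r) -
          h * (GG l0 r * GD l r) = GG l0 r * (GG (l + h) r - GG l r - h * GD l r) := by ring
      rw [e2]
      exact mul_bound hr hC0 (hG0 r hr hr2) (htay h hh r hr hr2)
  -- term 3
  have t3 : HasDerivAt (fun l : ℂ => Tr2 b (T l0 * T l0 * Y0) (T l - T l0))
      (Tr2 b (T l0 * T l0 * Y0) (TD l)) l := by
    obtain ⟨C3, htay⟩ := F.taylor_HS b l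
    obtain ⟨c4, hTD⟩ := F.TD_HS b l
    have hsub : ∀ m : ℂ, ∃ c, HSle b (T m - T l0) c := by
      intro m
      obtain ⟨C, hC, h⟩ := F.sub_HS b |m.im|
      have h2 : (I * (κ0 : ℂ)).im = κ0 := by simp
      have := abs_nonneg m.im
      exact ⟨_, h m l0 (neg_abs_le _) (by rw [hl0, h2]; linarith)⟩
    refine hasDerivAt_of_quad (C := cS * C3) ?_
    intro h hh
    obtain ⟨a1, ha1⟩ := hsub (l + h)
    obtain ⟨a2, ha2⟩ := hsub l
    have ht := htay h hh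
    have e : Tr2 b (T l0 * T l0 * Y0) (T (l + h) - T l0) -
        Tr2 b (T l0 * T l0 * Y0) (T l - T l0) - h * Tr2 b (T l0 * T l0 * Y0) (TD l) =
        Tr2 b (T l0 * T l0 * Y0) (T (l + h) - T l - h • TD l) := by
      rw [← Tr2_sub_right hS ha1 ha2, ← Tr2_smul_right, ← Tr2_sub_right hS (ha1.sub ha2)
        (hTD.smul h)]
      congr 1
      abel
    rw [e]
    refine (Tr2_norm_le hS ht).trans (le_of_eq ?_)
    ring
  exact (t1.sub t2).add t3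

theorem tauF_growth (F : Fam R M V A T TD) {ι : Type} [DecidableEq ι]
    (b : HilbertBasis ι ℂ (Lp ℂ 2 (muR R))) (κ0 : ℝ) (hκ0 : 1 ≤ κ0) (Y0 : Op R) (B : ℝ) :
    ∃ C : ℝ, 0 ≤ C ∧ ∀ l : ℂ, -B ≤ l.im → ‖tauF b V T (I * κ0) Y0 l‖ ≤ C * (1 + ‖l‖) ^ 3 := by
  have hR := F.hR
  set l0 : ℂ := I * κ0 with hl0
  obtain ⟨W, hW, hdbl⟩ := dbl R M V F.hM F.meas F.bdd
  obtain ⟨C0, hC0, hG0⟩ := G0_bound R κ0 hκ0 hR
  obtain ⟨cS, hcS, hS⟩ := S_HS F b κ0 hκ0 Y0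
  have hB0 : 0 ≤ max B 0 := le_max_right _ _
  obtain ⟨C, hC, hsub⟩ := F.sub_HS b (max B 0)
  have hκ : 0 ≤ κ0 := by linarith
  have hn0 : ‖l0‖ = κ0 := by
    rw [hl0, norm_mul, Complex.norm_I, one_mul, Complex.norm_real, Real.norm_eq_abs,
      abs_of_nonneg hκ]
  have him : l0.im = κ0 := by rw [hl0]; simp
  set E : ℝ := Real.exp (max B 0 * (2 * R)) / (8 * Real.pi ^ 2) with hE
  have hE0 : 0 ≤ E := by positivity
  refine ⟨1 / (24 * Real.pi ^ 2) * ‖∫ x, (V x : ℂ) ∂(muR R)‖ + W * (C0 * (E * (1 + κ0) ^ 2)) +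
    cS * (C * (1 + κ0) ^ 2), by positivity, ?_⟩
  intro l hl
  have hl' : -max B 0 ≤ l.im := by
    have := le_max_left B 0
    linarith
  have hq : ‖l - l0‖ * max ‖l‖ ‖l0‖ ≤ (1 + κ0) ^ 2 * (1 + ‖l‖) ^ 3 := by
    have h1 : ‖l - l0‖ ≤ (1 + κ0) * (1 + ‖l‖) := by
      have := norm_sub_le l l0
      rw [hn0] at this
      nlinarith [norm_nonneg l]
    have h2 : max ‖l‖ ‖l0‖ ≤ (1 + κ0) * (1 + ‖l‖) := by
      apply max_le
      · nlinarith [norm_nonneg l]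
      · rw [hn0]
        nlinarith [norm_nonneg l]
    calc ‖l - l0‖ * max ‖l‖ ‖l0‖ ≤ ((1 + κ0) * (1 + ‖l‖)) * ((1 + κ0) * (1 + ‖l‖)) := by
          gcongr
      _ = (1 + κ0) ^ 2 * (1 + ‖l‖) ^ 2 := by ring
      _ ≤ (1 + κ0) ^ 2 * (1 + ‖l‖) ^ 3 := by
          apply mul_le_mul_of_nonneg_left _ (by positivity)
          exact pow_le_pow_right₀ (by linarith [norm_nonneg l]) (by norm_num)
  have b1 : ‖-(1 / 2) * JJ l 0 * (∫ x, (V x : ℂ) ∂(muR R))‖ ≤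
      1 / (24 * Real.pi ^ 2) * ‖∫ x, (V x : ℂ) ∂(muR R)‖ * (1 + ‖l‖) ^ 3 := by
    rw [JJ_zero, norm_mul, norm_mul, norm_div, norm_pow, norm_mul, Complex.norm_I, one_mul]
    have e1 : ‖(-(1 / 2) : ℂ)‖ = 1 / 2 := by simp
    have e2 : ‖(12 * (Real.pi : ℂ) ^ 2)‖ = 12 * Real.pi ^ 2 := by
      rw [norm_mul, norm_pow, Complex.norm_real, Real.norm_eq_abs, abs_of_pos Real.pi_pos]
      simp
    rw [e1, e2]
    have h3 : ‖l‖ ^ 3 ≤ (1 + ‖l‖) ^ 3 := by gcongr; linarith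
    calc 1 / 2 * (‖l‖ ^ 3 / (12 * Real.pi ^ 2)) * ‖∫ x, (V x : ℂ) ∂(muR R)‖
        = 1 / (24 * Real.pi ^ 2) * ‖∫ x, (V x : ℂ) ∂(muR R)‖ * ‖l‖ ^ 3 := by
          field_simp
          try ring
      _ ≤ _ := by gcongr
  have b2 : ‖∫ x, ∫ y, (V x : ℂ) * (V y : ℂ) *
      (GG l0 ‖x - y‖ * (GG l ‖x - y‖ - GG l0 ‖x - y‖)) ∂(muR R) ∂(muR R)‖ ≤
      W * (C0 * (E * (1 + κ0) ^ 2)) * (1 + ‖l‖) ^ 3 := by
    have := (hdbl (C0 * (E * (‖l - l0‖ * max ‖l‖ ‖l0‖)))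
      (fun r : ℝ => GG l0 r * (GG l r - GG l0 r)) (by positivity) ?_ ?_).2
    · refine this.trans ?_
      calc W * (C0 * (E * (‖l - l0‖ * max ‖l‖ ‖l0‖)))
          ≤ W * (C0 * (E * ((1 + κ0) ^ 2 * (1 + ‖l‖) ^ 3))) := by gcongr
        _ = _ := by ring
    · exact (GG_meas l0).mul ((GG_meas l).sub (GG_meas l0))
    · intro r hr hr2
      exact mul_bound hr hC0 (hG0 r hr hr2)
        (dif_bound R κ0 (max B 0) hκ0 hR hB0 l hl' r hr hr2)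
  have b3 : ‖Tr2 b (T l0 * T l0 * Y0) (T l - T l0)‖ ≤
      cS * (C * (1 + κ0) ^ 2) * (1 + ‖l‖) ^ 3 := by
    have h5 := hsub l l0 hl' (by rw [him]; linarith)
    refine (Tr2_norm_le hS h5).trans ?_
    calc cS * (C * (‖l - l0‖ * max ‖l‖ ‖l0‖)) ≤ cS * (C * ((1 + κ0) ^ 2 * (1 + ‖l‖) ^ 3)) := by
          gcongr
      _ = _ := by ring
  unfold tauF
  refine (norm_add_le _ _).trans ?_
  have h6 := norm_sub_le (-(1 / 2) * JJ l 0 * (∫ x, (V x : ℂ) ∂(muR R)))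
    (∫ x, ∫ y, (V x : ℂ) * (V y : ℂ) *
      (GG l0 ‖x - y‖ * (GG l ‖x - y‖ - GG l0 ‖x - y‖)) ∂(muR R) ∂(muR R))
  linarith [h6, b1, b2, b3]

end Csec

end Pool.Agent.H269
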