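import Pool.Agent.H269.DefsC
import Pool.Agent.H269.R5.J01
import Pool.Agent.H269.R5.J02
import Pool.Agent.H269.R5.J09
import Pool.Agent.H269.R5.J16
import Pool.Agent.H269.R5.J18
import Pool.Agent.H269.R5.J20
import Pool.Agent.H269.R5.J22
import Pool.Agent.H269.R5.J23
import Pool.Agent.H269.R5.J24
import Pool.Agent.H269.R5.J27
import Pool.Agent.H269.R5.J30
import Pool.Agent.H269.R5.J31

/-!
# R5-35 reflection formula for tau (MP_f2af60_mp, infinitely many resonances in dimension five)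
-/

set_option autoImplicit false

open MeasureTheory Filter Topology Complex
open scoped InnerProductSpace ENNReal NNReal

namespace Pool.Agent.H269


theorem tauF_odd_fm (R : ℝ) : IsFiniteMeasure (muR R) :=
  isFiniteMeasure_restrict.2 measure_closedBall_lt_top.ne

theorem tauF_odd_ae_ne (R : ℝ) (x : E5) : ∀ᵐ y ∂(muR R), y ≠ x := by
  rw [ae_iff]
  simp

theorem tauF_odd_meas (l : ℂ) : Measurable (fun r : ℝ => GG l r) := by
  unfold GG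
  fun_prop

theorem tauF_odd_int (R : ℝ) (n : ℕ)
    (hn : ∫⁻ x : E5, ENNReal.ofReal (Real.exp (-1 * ‖x‖) / ‖x‖ ^ n) < ∞)
    (F : E5 × E5 → ℂ) (hF : Measurable F) (C : ℝ) (hC : 0 ≤ C)
    (hb : ∀ x y : E5, x ∈ Metric.closedBall (0 : E5) R → y ∈ Metric.closedBall (0 : E5) R →
      ‖F (x, y)‖ ≤ C * (Real.exp (-1 * ‖x - y‖) / ‖x - y‖ ^ n)) :
    Integrable F ((muR R).prod (muR R)) := by
  refine ⟨hF.aestronglyMeasurable, ?_⟩
  rw [hasFiniteIntegral_iff_enorm]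
  have hmeas : Measurable (fun p : E5 × E5 =>
      ENNReal.ofReal (Real.exp (-1 * ‖p.1 - p.2‖) / ‖p.1 - p.2‖ ^ n)) := by fun_prop
  have h1 : ∀ᵐ p ∂((muR R).prod (muR R)), ‖F p‖ₑ ≤ ENNReal.ofReal C *
      ENNReal.ofReal (Real.exp (-1 * ‖p.1 - p.2‖) / ‖p.1 - p.2‖ ^ n) := by
    rw [Measure.prod_restrict, ae_restrict_iff' (measurableSet_closedBall.prod
      measurableSet_closedBall)]
    refine Eventually.of_forall (fun p hp => ?_)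
    rw [← ENNReal.ofReal_mul hC, ← ofReal_norm]
    exact ENNReal.ofReal_le_ofReal (hb p.1 p.2 hp.1 hp.2)
  refine lt_of_le_of_lt (lintegral_mono_ae h1) ?_
  rw [lintegral_const_mul _ hmeas]
  refine ENNReal.mul_lt_top ENNReal.ofReal_lt_top ?_
  rw [lintegral_prod _ hmeas.aemeasurable]
  have h2 : ∀ x : E5, ∫⁻ y, ENNReal.ofReal (Real.exp (-1 * ‖x - y‖) / ‖x - y‖ ^ n) ∂(muR R) ≤
      ∫⁻ x : E5, ENNReal.ofReal (Real.exp (-1 * ‖x‖) / ‖x‖ ^ n) := by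
    intro x
    calc ∫⁻ y, ENNReal.ofReal (Real.exp (-1 * ‖x - y‖) / ‖x - y‖ ^ n) ∂(muR R)
        ≤ ∫⁻ y, ENNReal.ofReal (Real.exp (-1 * ‖x - y‖) / ‖x - y‖ ^ n) :=
          lintegral_mono' Measure.restrict_le_self le_rfl
      _ = _ := lintegral_sub_left_eq_self
          (fun z : E5 => ENNReal.ofReal (Real.exp (-1 * ‖z‖) / ‖z‖ ^ n)) x
  refine lt_of_le_of_lt (lintegral_mono h2) ?_
  rw [lintegral_const]
  have := tauF_odd_fm R
  exact ENNReal.mul_lt_top hn (measure_lt_top _ _)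

theorem tauF_odd_dist {R : ℝ} {x y : E5} (hx : x ∈ Metric.closedBall (0 : E5) R)
    (hy : y ∈ Metric.closedBall (0 : E5) R) : ‖x - y‖ ≤ 2 * R := by
  rw [mem_closedBall_zero_iff] at hx hy
  calc ‖x - y‖ ≤ ‖x‖ + ‖y‖ := norm_sub_le _ _
    _ ≤ _ := by linarith

theorem tauF_odd_b1 (R : ℝ) (l : ℂ) : ∃ C : ℝ, 0 ≤ C ∧ ∀ r : ℝ, 0 ≤ r → r ≤ 2 * R →
    ‖GG l r‖ ≤ C * (Real.exp (-1 * r) / r ^ 3) := by
  refine ⟨(1 + ‖l‖ * (2 * |R|)) * Real.exp (|l.im| * (2 * |R|)) * Real.exp (2 * |R|) /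
    (8 * Real.pi ^ 2), by positivity, fun r hr hrR => ?_⟩
  have hR : r ≤ 2 * |R| := hrR.trans (by linarith [le_abs_self R])
  have e1 := (GG_bound l r hr).1
  have e2 : Real.exp (-l.im * r) ≤ Real.exp (|l.im| * (2 * |R|)) := by
    apply Real.exp_le_exp.2
    calc -l.im * r ≤ |l.im| * r := mul_le_mul_of_nonneg_right (neg_le_abs _) hr
      _ ≤ _ := mul_le_mul_of_nonneg_left hR (abs_nonneg _)
  have e3 : 1 ≤ Real.exp (2 * |R|) * Real.exp (-1 * r) := by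
    rw [← Real.exp_add]
    exact Real.one_le_exp (by linarith)
  have e4 : 1 + ‖l‖ * r ≤ 1 + ‖l‖ * (2 * |R|) := by
    have := mul_le_mul_of_nonneg_left hR (norm_nonneg l)
    linarith
  calc ‖GG l r‖ ≤ (1 + ‖l‖ * r) * Real.exp (-l.im * r) / (8 * Real.pi ^ 2 * r ^ 3) := e1
    _ = ((1 + ‖l‖ * r) * Real.exp (-l.im * r) * 1) / (8 * Real.pi ^ 2 * r ^ 3) := by rw [mul_one]
    _ ≤ ((1 + ‖l‖ * (2 * |R|)) * Real.exp (|l.im| * (2 * |R|)) *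
        (Real.exp (2 * |R|) * Real.exp (-1 * r))) / (8 * Real.pi ^ 2 * r ^ 3) := by
        gcongr
    _ = _ := by
        rw [div_mul_div_comm]
        ring

theorem tauF_odd_b2 (R : ℝ) (l0 l : ℂ) : ∃ C : ℝ, 0 ≤ C ∧ ∀ r : ℝ, 0 ≤ r → r ≤ 2 * R →
    ‖GG l0 r * (GG l r - GG l0 r)‖ ≤ C * (Real.exp (-1 * r) / r ^ 4) := by
  obtain ⟨C0, hC0, h0⟩ := tauF_odd_b1 R l0
  refine ⟨C0 * (‖l - l0‖ * max ‖l‖ ‖l0‖ * Real.exp ((|l.im| + |l0.im|) * (2 * |R|)) /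
    (8 * Real.pi ^ 2)), by positivity, fun r hr hrR => ?_⟩
  have hR : r ≤ 2 * |R| := hrR.trans (by linarith [le_abs_self R])
  have e1 := h0 r hr hrR
  have e2 := GG_sub_bound (|l.im| + |l0.im|) l l0
    (by linarith [neg_le_abs l.im, abs_nonneg l0.im, neg_abs_le l.im])
    (by linarith [neg_le_abs l0.im, abs_nonneg l.im, neg_abs_le l0.im]) r hr
  have e3 : Real.exp ((|l.im| + |l0.im|) * r) ≤ Real.exp ((|l.im| + |l0.im|) * (2 * |R|)) := by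
    apply Real.exp_le_exp.2
    exact mul_le_mul_of_nonneg_left hR (by positivity)
  rw [norm_mul]
  calc ‖GG l0 r‖ * ‖GG l r - GG l0 r‖ ≤ (C0 * (Real.exp (-1 * r) / r ^ 3)) *
        (‖l - l0‖ * max ‖l‖ ‖l0‖ * Real.exp ((|l.im| + |l0.im|) * (2 * |R|)) /
          (8 * Real.pi ^ 2 * r)) := by
        refine mul_le_mul e1 (e2.trans ?_) (norm_nonneg _) (by positivity)
        gcongr
    _ = _ := by
        rw [show r ^ 4 = r ^ 3 * r by ring]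
        simp only [div_eq_mul_inv, mul_inv]
        ring

theorem tauF_odd_fin : (∫⁻ x : E5, ENNReal.ofReal (Real.exp (-1 * ‖x‖) / ‖x‖ ^ 4) < ∞) ∧
    (∫⁻ x : E5, ENNReal.ofReal (Real.exp (-1 * ‖x‖) / ‖x‖ ^ 3) < ∞) := by
  obtain ⟨c, hc, h⟩ := radial_int
  obtain ⟨h1, h2, -⟩ := h 1 one_pos
  rw [h1, h2]
  exact ⟨ENNReal.ofReal_lt_top, ENNReal.ofReal_lt_top⟩

theorem tauF_odd_phi {a0 : ℝ} (h0 : 0 ≤ a0) (l : ℂ) (k : ℕ) :
    a0 * (a0 ^ k * ‖l‖ ^ (2 * k + 3) / ((2 * k + 1).factorial : ℝ)) ≤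
      a0 * (‖l‖ ^ 2 * Real.exp ((1 + a0) * ‖l‖)) := by
  refine mul_le_mul_of_nonneg_left ?_ h0
  have h1 : a0 ^ k ≤ (1 + a0) ^ (2 * k + 1) := by
    calc a0 ^ k ≤ (1 + a0) ^ k := pow_le_pow_left₀ h0 (by linarith) k
      _ ≤ (1 + a0) ^ (2 * k + 1) := pow_le_pow_right₀ (by linarith) (by omega)
  have h2 := Real.pow_div_factorial_le_exp ((1 + a0) * ‖l‖) (by positivity) (2 * k + 1)
  calc a0 ^ k * ‖l‖ ^ (2 * k + 3) / ((2 * k + 1).factorial : ℝ)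
      ≤ (1 + a0) ^ (2 * k + 1) * ‖l‖ ^ (2 * k + 3) / ((2 * k + 1).factorial : ℝ) := by gcongr
    _ = ‖l‖ ^ 2 * (((1 + a0) * ‖l‖) ^ (2 * k + 1) / ((2 * k + 1).factorial : ℝ)) := by
        rw [mul_pow, show 2 * k + 3 = 2 * k + 1 + 2 by ring, pow_add ‖l‖ (2 * k + 1) 2]
        ring
    _ ≤ _ := mul_le_mul_of_nonneg_left h2 (by positivity)

theorem tauF_odd_dbl {R M : ℝ} {V : E5 → ℝ} (hV : Measurable V) (hM : ∀ x, |V x| ≤ M)
    (l0 l : ℂ) :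
    (∫ x, ∫ y, (V x : ℂ) * (V y : ℂ) * (GG l0 ‖x - y‖ * (GG (-l) ‖x - y‖ - GG l0 ‖x - y‖))
      ∂(muR R) ∂(muR R)) -
    (∫ x, ∫ y, (V x : ℂ) * (V y : ℂ) * (GG l0 ‖x - y‖ * (GG l ‖x - y‖ - GG l0 ‖x - y‖))
      ∂(muR R) ∂(muR R)) =
    ∫ x, ∫ y, ((V x : ℂ) * GG l0 ‖x - y‖) * ((V y : ℂ) * JJ l ‖y - x‖) ∂(muR R) ∂(muR R) := by
  have hM0 : 0 ≤ M := (abs_nonneg _).trans (hM 0)
  have hint : ∀ m : ℂ, Integrable (fun p : E5 × E5 => (V p.1 : ℂ) * (V p.2 : ℂ) *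
      (GG l0 ‖p.1 - p.2‖ * (GG m ‖p.1 - p.2‖ - GG l0 ‖p.1 - p.2‖)))
      ((muR R).prod (muR R)) := by
    intro m
    obtain ⟨C, hC, hb⟩ := tauF_odd_b2 R l0 m
    have m1 : Measurable (fun p : E5 × E5 => GG l0 ‖p.1 - p.2‖) :=
      (tauF_odd_meas l0).comp (by fun_prop)
    have m2 : Measurable (fun p : E5 × E5 => GG m ‖p.1 - p.2‖) :=
      (tauF_odd_meas m).comp (by fun_prop)
    refine tauF_odd_int R 4 tauF_odd_fin.1 _ (by fun_prop) (M * M * C) (by positivity)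
      (fun x y hx hy => ?_)
    have h1 := hb ‖x - y‖ (norm_nonneg _) (tauF_odd_dist hx hy)
    simp only
    rw [norm_mul, norm_mul, Complex.norm_real, Complex.norm_real, Real.norm_eq_abs,
      Real.norm_eq_abs, mul_assoc (M * M)]
    exact mul_le_mul (mul_le_mul (hM x) (hM y) (abs_nonneg _) hM0) h1 (norm_nonneg _)
      (by positivity)
  rw [← integral_integral_sub (hint (-l)) (hint l)]
  refine integral_congr_ae (Eventually.of_forall (fun x => ?_))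
  refine integral_congr_ae ?_
  filter_upwards [tauF_odd_ae_ne R x] with y hy
  have hr : 0 < ‖x - y‖ := norm_pos_iff.2 (sub_ne_zero.2 (Ne.symm hy))
  rw [norm_sub_rev y x, JJ_eq l _ hr]
  ring


section Csec

variable {R M : ℝ} {V : E5 → ℝ} {A T TD : ℂ → Op R}

theorem tauF_odd (F : Fam R M V A T TD) {ι : Type} [DecidableEq ι]
    (b : HilbertBasis ι ℂ (Lp ℂ 2 (muR R))) (κ0 : ℝ) (hκ0 : 1 ≤ κ0) (Y0 : Op R)
    (hY : (1 + T (I * κ0)) * Y0 = 1) (hY' : Y0 * (1 + T (I * κ0)) = 1) :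
    ∃ (a0 : ℝ) (v : (Fin 7 → ℕ) → Lp ℂ 2 (muR R)) (φ : ℂ → (Fin 7 → ℕ) → Lp ℂ 2 (muR R)),
      0 ≤ a0 ∧ Summable (fun a => ‖v a‖) ∧
      (∀ l a, ‖φ l a‖ ≤ a0 * (a0 ^ (∑ i, a i) * ‖l‖ ^ (2 * (∑ i, a i) + 3) /
        ((2 * (∑ i, a i) + 1).factorial : ℝ))) ∧
      (∀ (l : ℂ) (h : Lp ℂ 2 (muR R)),
        HasSum (fun a => ⟪φ l a, h⟫_ℂ • v a) ((T (-l) - T l) h)) ∧
      (∀ l : ℂ, tauF b V T (I * κ0) Y0 (-l) - tauF b V T (I * κ0) Y0 l =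
        ∑' a, ⟪φ l a, Y0 (v a)⟫_ℂ) := by
  have hfm := tauF_odd_fm R
  obtain ⟨a0, v, φ, n1, n2, n3, n4, n5, n6⟩ := nuclear_J R F.hR.le V F.meas M F.bdd
  -- the kernel of the difference
  have hJ : ∀ l : ℂ, IsKer (muR R) (fun x y => (V x : ℂ) * JJ l ‖x - y‖) (T (-l) - T l) := by
    intro l
    refine ((F.kT (-l)).sub (F.kT l)).congr (Eventually.of_forall (fun x => ?_))
    filter_upwards [tauF_odd_ae_ne R x] with y hy
    have hr : 0 < ‖x - y‖ := norm_pos_iff.2 (sub_ne_zero.2 (Ne.symm hy))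
    rw [JJ_eq l _ hr]
    ring
  refine ⟨a0, v, φ, n1, n2, n3, fun l h => n4 l _ (hJ l) h, fun l => ?_⟩
  -- bounds
  have hphi : ∀ a, ‖φ l a‖ ≤ a0 * (‖l‖ ^ 2 * Real.exp ((1 + a0) * ‖l‖)) :=
    fun a => (n3 l a).trans (tauF_odd_phi n1 l _)
  have hs : Summable (fun a => ‖v a‖ * ‖φ l a‖) := by
    refine Summable.of_nonneg_of_le (fun a => by positivity)
      (fun a => mul_le_mul_of_nonneg_left (hphi a) (norm_nonneg _)) (n2.mul_right _)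
  have hsum : ∀ B : Op R, Summable (fun a => ⟪φ l a, B (v a)⟫_ℂ) := by
    intro B
    refine Summable.of_norm_bounded (g := fun a => ‖B‖ * (‖v a‖ * ‖φ l a‖)) (hs.mul_left _)
      (fun a => ?_)
    calc ‖⟪φ l a, B (v a)⟫_ℂ‖ ≤ ‖φ l a‖ * ‖B (v a)‖ := norm_inner_le_norm _ _
      _ ≤ ‖φ l a‖ * (‖B‖ * ‖v a‖) := mul_le_mul_of_nonneg_left (B.le_opNorm _) (norm_nonneg _)
      _ = _ := by ring
  -- the resolvent expansion
  set T0 := T (I * κ0) with hT0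
  have hY0 : Y0 = 1 - T0 + T0 * T0 * Y0 := by
    have e1 : Y0 = 1 - T0 * Y0 := by
      rw [add_mul, one_mul] at hY
      exact eq_sub_of_add_eq hY
    calc Y0 = 1 - T0 * Y0 := e1
      _ = 1 - T0 * (1 - T0 * Y0) := congrArg (fun z => 1 - T0 * z) e1
      _ = _ := by rw [mul_sub, mul_one, mul_assoc]; abel
  have hexp : ∑' a, ⟪φ l a, Y0 (v a)⟫_ℂ = ∑' a, ⟪φ l a, v a⟫_ℂ - ∑' a, ⟪φ l a, T0 (v a)⟫_ℂ +
      ∑' a, ⟪φ l a, (T0 * T0 * Y0) (v a)⟫_ℂ := by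
    have s1 : Summable (fun a => ⟪φ l a, v a⟫_ℂ) := by
      have := hsum 1
      simpa using this
    rw [← (s1.tsum_sub (hsum T0)), ← ((s1.sub (hsum T0)).tsum_add (hsum (T0 * T0 * Y0)))]
    refine tsum_congr (fun a => ?_)
    conv_lhs => rw [hY0]
    rw [add_apply, sub_apply, inner_add_right,
      inner_sub_right]
    rfl
  -- second term
  have hsec : ∑' a, ⟪φ l a, T0 (v a)⟫_ℂ =
      ∫ x, ∫ y, ((V x : ℂ) * GG (I * κ0) ‖x - y‖) * ((V y : ℂ) * JJ l ‖y - x‖)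
        ∂(muR R) ∂(muR R) := by
    have m1 : Measurable (fun p : E5 × E5 => GG (I * κ0) ‖p.1 - p.2‖) :=
      (tauF_odd_meas _).comp (by fun_prop)
    have hVm := F.meas
    have m2 : Measurable (Function.uncurry
        (fun x y : E5 => (V x : ℂ) * GG (I * κ0) ‖x - y‖)) := by
      unfold Function.uncurry
      fun_prop
    refine n6 l _ T0 m2 ?_ (F.kT (I * κ0))
    obtain ⟨C, hC, hb⟩ := tauF_odd_b1 R (I * κ0)
    refine tauF_odd_int R 3 tauF_odd_fin.2 _ m2 (M * C) (mul_nonneg F.hM hC)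
      (fun x y hx hy => ?_)
    have h1 := hb ‖x - y‖ (norm_nonneg _) (tauF_odd_dist hx hy)
    simp only [Function.uncurry]
    rw [norm_mul, Complex.norm_real, Real.norm_eq_abs, mul_assoc M]
    exact mul_le_mul (F.bdd x) h1 (norm_nonneg _) F.hM
  -- third term
  have hthird : ∑' a, ⟪φ l a, (T0 * T0 * Y0) (v a)⟫_ℂ =
      Tr2 b (T0 * T0 * Y0) (T (-l) - T0) - Tr2 b (T0 * T0 * Y0) (T l - T0) := by
    rw [← Tr2_nuclear (b := b) v (φ l) hs (T (-l) - T l) (fun h => n4 l _ (hJ l) h)]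
    obtain ⟨C, hC, hCb⟩ := F.sq_imag b
    obtain ⟨C', hC', hCb'⟩ := F.sub_HS b (|l.im|)
    have w1 : HSle b (T0 * T0 * Y0) ((C + 1) * ‖Y0‖) := by
      refine (hCb κ0 hκ0 (C + 1) (by linarith) ?_).right_mul Y0
      have : C / κ0 ^ 3 ≤ C := div_le_self hC (one_le_pow₀ hκ0)
      nlinarith
    have h0im : -|l.im| ≤ (I * (κ0 : ℂ)).im := by
      simp
      linarith [abs_nonneg l.im]
    have w2 := hCb' (-l) (I * κ0) (by simp [neg_abs_le, le_abs_self]) h0im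
    have w3 := hCb' l (I * κ0) (neg_abs_le _) h0im
    rw [← hT0] at w2 w3
    rw [← Tr2_sub_right w1 w2 w3]
    congr 1
    abel
  rw [hexp, n5, hsec, hthird]
  have hdbl := tauF_odd_dbl (R := R) F.meas F.bdd (I * κ0) l
  have hz : JJ (-l) 0 = - JJ l 0 := by
    rw [JJ_zero, JJ_zero]
    ring
  unfold tauF
  rw [← hdbl, hz]
  ring

end Csec

end Pool.Agent.H269
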