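import Pool.Agent.H269.DefsC
import Pool.Agent.H269.R5.J01
import Pool.Agent.H269.R5.J02
import Pool.Agent.H269.R5.J04
import Pool.Agent.H269.R5.J06
import Pool.Agent.H269.R5.J08
import Pool.Agent.H269.R5.J16
import Pool.Agent.H269.R5.J22
import Pool.Agent.H269.R5.J30
import Pool.Agent.H269.R5.J34

/-!
# R5-36 the determinant: entire, nonvanishing (MP_f2af60_mp, infinitely many resonances in dimension five)
-/

set_option autoImplicit false

open MeasureTheory Filter Topology Complex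
open scoped InnerProductSpace ENNReal NNReal

namespace Pool.Agent.H269


theorem rd36_fin (R : ℝ) : IsFiniteMeasure (muR R) :=
  ⟨by rw [Measure.restrict_apply_univ]; exact measure_closedBall_lt_top⟩

theorem rd36_GD0 (r : ℝ) : GD 0 r = 0 := by
  unfold GD
  simp

theorem rd36_sq_deriv (f : ℂ → ℂ) (C : ℝ) (h : ∀ z : ℂ, ‖z‖ ≤ 1 → ‖f z - f 0‖ ≤ C * (‖z‖ * ‖z‖)) :
    HasDerivAt f 0 0 := by
  have hO : (fun z => f z - f 0) =O[𝓝 0] fun z : ℂ => ‖z - 0‖ ^ 2 := by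
    apply Asymptotics.IsBigO.of_bound C
    have : Metric.ball (0 : ℂ) 1 ∈ 𝓝 (0 : ℂ) := Metric.ball_mem_nhds 0 one_pos
    filter_upwards [this] with z hz
    rw [mem_ball_zero_iff] at hz
    have h1 := h z hz.le
    rw [sub_zero, norm_pow, norm_norm, pow_two]
    exact h1
  have h2 := (hO.hasFDerivAt (𝕜 := ℂ) one_lt_two).hasDerivAt
  have h3 : HasDerivAt (fun z => f z - f 0) 0 0 := by simpa using h2
  have h4 := h3.add_const (f 0)
  simpa using h4

section Csec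

variable {R M : ℝ} {V : E5 → ℝ} {A T TD : ℂ → Op R}

theorem rd36_K_HS (F : Fam R M V A T TD) {ι : Type} [DecidableEq ι]
    (b : HilbertBasis ι ℂ (Lp ℂ 2 (muR R))) (l m : ℂ) (Y0 : Op R) :
    ∃ c, HSle b (Y0 * (T l - T m)) c := by
  obtain ⟨C, -, hC⟩ := F.sub_HS b (|l.im| + |m.im|)
  have h1 := neg_abs_le l.im
  have h2 := neg_abs_le m.im
  have h3 := abs_nonneg l.im
  have h4 := abs_nonneg m.im
  exact ⟨_, (hC l m (by linarith) (by linarith)).left_mul Y0⟩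

theorem rd36_HSDiff (F : Fam R M V A T TD) {ι : Type} [DecidableEq ι]
    (b : HilbertBasis ι ℂ (Lp ℂ 2 (muR R))) (m : ℂ) (Y0 : Op R) :
    HSDiff b (fun l => Y0 * (T l - T m)) (fun l => Y0 * TD l) := by
  refine ⟨fun z => rd36_K_HS F b z m Y0, fun z => ?_, fun z => ?_⟩
  · obtain ⟨c, hc⟩ := F.TD_HS b z
    exact ⟨_, hc.left_mul Y0⟩
  · obtain ⟨C, hC⟩ := F.taylor_HS b z
    refine ⟨‖Y0‖ * C, fun h hh => ?_⟩
    have h1 := (hC h hh).left_mul Y0
    have e : Y0 * (T (z + h) - T m) - Y0 * (T z - T m) - h • (Y0 * TD z) =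
        Y0 * (T (z + h) - T z - h • TD z) := by
      rw [mul_sub, mul_sub, mul_sub, mul_sub, mul_smul_comm]
      abel
    show HSle b (Y0 * (T (z + h) - T m) - Y0 * (T z - T m) - h • (Y0 * TD z)) _
    rw [e, mul_assoc]
    exact h1

theorem rd36_det_deriv (F : Fam R M V A T TD) {ι : Type} [DecidableEq ι]
    (b : HilbertBasis ι ℂ (Lp ℂ 2 (muR R))) (κ0 : ℝ) (hκ0 : 1 ≤ κ0) (Y0 : Op R) :
    HasDerivAt (fun l => det2 b (Y0 * (T l - T (I * κ0)))) 0 0 := by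
  obtain ⟨C, hC0, hC⟩ := F.sub_HS b 1
  have him : (I * (κ0 : ℂ)).im = κ0 := by simp
  have hnorm : ‖I * (κ0 : ℂ)‖ = κ0 := by
    rw [norm_mul, Complex.norm_I, one_mul, Complex.norm_real, Real.norm_eq_abs,
      abs_of_pos (by linarith)]
  set a : ℝ := ‖Y0‖ * (C * ((1 + κ0) * (1 + κ0))) with ha
  have hK : ∀ z : ℂ, ‖z‖ ≤ 1 → HSle b (Y0 * (T z - T (I * κ0))) a := by
    intro z hz
    have him2 : -1 ≤ z.im := by
      have h1 := Complex.abs_im_le_norm z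
      have h2 := neg_abs_le z.im
      linarith
    have h1 := (hC z (I * κ0) him2 (by rw [him]; linarith)).left_mul Y0
    apply h1.mono
    rw [ha]
    apply mul_le_mul_of_nonneg_left _ (norm_nonneg _)
    apply mul_le_mul_of_nonneg_left _ hC0
    apply mul_le_mul
    · calc ‖z - I * κ0‖ ≤ ‖z‖ + ‖I * (κ0 : ℂ)‖ := norm_sub_le _ _
        _ ≤ 1 + κ0 := by rw [hnorm]; linarith
    · rw [hnorm]
      exact max_le (by linarith) (by linarith)
    · exact le_max_of_le_left (norm_nonneg _)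
    · linarith
  apply rd36_sq_deriv _ (‖Y0‖ * C * Real.exp ((a + a + 1) ^ 2 / 2))
  intro z hz
  have him2 : -1 ≤ z.im := by
    have h1 := Complex.abs_im_le_norm z
    have h2 := neg_abs_le z.im
    linarith
  have h1 := (hC z 0 him2 (by simp)).left_mul Y0
  have e : Y0 * (T z - T 0) = Y0 * (T z - T (I * κ0)) - Y0 * (T 0 - T (I * κ0)) := by
    rw [mul_sub, mul_sub, mul_sub]
    abel
  rw [e] at h1
  have h2 := det2_lip (hK z hz) (hK 0 (by simp)) h1
  refine h2.trans (le_of_eq ?_)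
  rw [sub_zero, norm_zero, max_eq_left (norm_nonneg z)]
  ring

theorem rd36_TD0 (F : Fam R M V A T TD) : TD 0 = 0 := by
  have := rd36_fin R
  apply (F.kTD 0).unique
  intro f
  refine ⟨?_, ?_⟩
  · filter_upwards with x
    simp [rd36_GD0]
  · have h0 : ((0 : Op R) f : Lp ℂ 2 (muR R)) = 0 := rfl
    rw [h0]
    filter_upwards [Lp.coeFn_zero (E := ℂ) (p := 2) (μ := muR R)] with x hx
    rw [hx]
    simp [rd36_GD0]

theorem rd36_tau_deriv (F : Fam R M V A T TD) {ι : Type} [DecidableEq ι]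
    (b : HilbertBasis ι ℂ (Lp ℂ 2 (muR R))) (κ0 : ℝ) (hκ0 : 1 ≤ κ0) (Y0 : Op R) :
    HasDerivAt (tauF b V T (I * κ0) Y0) 0 0 := by
  have h := tauF_hasDerivAt F b κ0 hκ0 Y0 0
  rw [rd36_TD0 F] at h
  have e1 : Tr2 b (T (I * κ0) * T (I * κ0) * Y0) (0 : Op R) = 0 := by
    unfold Tr2
    simp
  rw [e1] at h
  simpa [rd36_GD0] using h

end Csec


section Csec

variable {R M : ℝ} {V : E5 → ℝ} {A T TD : ℂ → Op R}

theorem DD_entire (F : Fam R M V A T TD) {ι : Type} [DecidableEq ι]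
    (b : HilbertBasis ι ℂ (Lp ℂ 2 (muR R))) (κ0 : ℝ) (hκ0 : 1 ≤ κ0) (Y0 : Op R) :
    Differentiable ℂ (DD b V T (I * κ0) Y0) ∧ deriv (DD b V T (I * κ0) Y0) 0 = 0 := by
  have hD : DD b V T (I * κ0) Y0 = fun l => det2 b (Y0 * (T l - T (I * κ0))) *
      cexp (tauF b V T (I * κ0) Y0 l) := rfl
  constructor
  · rw [hD]
    have h1 : Differentiable ℂ (fun l => det2 b (Y0 * (T l - T (I * κ0)))) :=
      det2_differentiable (rd36_HSDiff F b (I * κ0) Y0)
    have h2 : Differentiable ℂ (tauF b V T (I * κ0) Y0) := fun l =>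
      (tauF_hasDerivAt F b κ0 hκ0 Y0 l).differentiableAt
    exact h1.mul h2.cexp
  · rw [hD]
    have h1 := rd36_det_deriv F b κ0 hκ0 Y0
    have h2 := (rd36_tau_deriv F b κ0 hκ0 Y0).cexp
    have h3 : HasDerivAt (fun l => det2 b (Y0 * (T l - T (I * κ0))) *
      cexp (tauF b V T (I * κ0) Y0 l)) _ 0 := h1.mul h2
    rw [h3.deriv]
    simp

theorem DD_ne_zero (F : Fam R M V A T TD) {ι : Type} [DecidableEq ι]
    (b : HilbertBasis ι ℂ (Lp ℂ 2 (muR R))) (κ0 : ℝ) (hκ0 : 1 ≤ κ0) (Y0 : Op R)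
    (hY : (1 + T (I * κ0)) * Y0 = 1) (hY' : Y0 * (1 + T (I * κ0)) = 1) (l : ℂ)
    (hu : IsUnit (1 + T l)) : DD b V T (I * κ0) Y0 l ≠ 0 := by
  obtain ⟨c, hc⟩ := rd36_K_HS F b l (I * κ0) Y0
  have hY0 : IsUnit Y0 := ⟨⟨Y0, 1 + T (I * κ0), hY', hY⟩, rfl⟩
  have e : 1 + Y0 * (T l - T (I * κ0)) = Y0 * (1 + T l) := by
    have h1 : Y0 * (T l - T (I * κ0)) = Y0 * (1 + T l) - Y0 * (1 + T (I * κ0)) := by
      rw [mul_sub, mul_add, mul_add]
      abel
    rw [h1, hY']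
    abel
  have hu2 : IsUnit (1 + Y0 * (T l - T (I * κ0))) := by
    rw [e]
    exact hY0.mul hu
  have h1 := det2_ne_zero hc hu2
  show det2 b (Y0 * (T l - T (I * κ0))) * cexp (tauF b V T (I * κ0) Y0 l) ≠ 0
  exact mul_ne_zero h1 (Complex.exp_ne_zero _)

end Csec

end Pool.Agent.H269
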