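import Pool.Agent.H269.DefsC
import Pool.Agent.H269.R5.J01
import Pool.Agent.H269.R5.J02
import Pool.Agent.H269.R5.J04
import Pool.Agent.H269.R5.J05
import Pool.Agent.H269.R5.J09
import Pool.Agent.H269.R5.J10
import Pool.Agent.H269.R5.J14
import Pool.Agent.H269.R5.J30
import Pool.Agent.H269.R5.J33
import Pool.Agent.H269.R5.J34
import Pool.Agent.H269.R5.J35
import Pool.Agent.H269.R5.J36

/-!
# R5-37 the determinant: growth (MP_f2af60_mp, infinitely many resonances in dimension five)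
-/

set_option autoImplicit false

open MeasureTheory Filter Topology Complex
open scoped InnerProductSpace ENNReal NNReal

namespace Pool.Agent.H269


section Helpers58

variable {R M : ℝ} {V : E5 → ℝ} {A T TD : ℂ → Op R}

theorem h58_inv (W : Op R) (hW : ‖W‖ ≤ 1 / 2) :
    ∃ Y : Op R, (1 + W) * Y = 1 ∧ Y * (1 + W) = 1 ∧ ‖Y‖ ≤ 2 := by
  have h1 : ‖-W‖ < 1 := by rw [norm_neg]; linarith
  have hu : ((Units.oneSub (-W) h1 : (Op R)ˣ) : Op R) = 1 + W := by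
    simp
  refine ⟨((Units.oneSub (-W) h1)⁻¹ : (Op R)ˣ), ?_, ?_, ?_⟩
  · rw [← hu]; exact Units.mul_inv _
  · rw [← hu]; exact Units.inv_mul _
  · generalize hYd : (((Units.oneSub (-W) h1)⁻¹ : (Op R)ˣ) : Op R) = Y
    have h2 : Y * (1 + W) = 1 := by
      rw [← hu, ← hYd]; exact Units.inv_mul _
    have h3 : Y = 1 - Y * W := by
      rw [mul_add, mul_one] at h2
      exact eq_sub_of_add_eq h2
    have h4 : ‖Y‖ ≤ 1 + ‖Y‖ * (1 / 2) := by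
      calc ‖Y‖ = ‖1 - Y * W‖ := by rw [← h3]
        _ ≤ ‖(1 : Op R)‖ + ‖Y * W‖ := norm_sub_le _ _
        _ ≤ 1 + ‖Y‖ * ‖W‖ :=
            add_le_add ContinuousLinearMap.norm_id_le (norm_mul_le _ _)
        _ ≤ _ := by gcongr
    linarith

theorem h58_upper (F : Fam R M V A T TD) {ι : Type} [DecidableEq ι]
    (b : HilbertBasis ι ℂ (Lp ℂ 2 (muR R))) (κ0 : ℝ) (hκ0 : 1 ≤ κ0) (Y0 : Op R)
    (B : ℝ) (hB : 0 ≤ B) :
    ∃ C : ℝ, 0 ≤ C ∧ ∀ l : ℂ, -B ≤ l.im →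
      ‖DD b V T (I * κ0) Y0 l‖ ≤ Real.exp (C * (1 + ‖l‖) ^ 9) := by
  obtain ⟨C1, hC1, h1⟩ := F.sub_HS b B
  obtain ⟨C2, hC2, h2⟩ := tauF_growth F b κ0 hκ0 Y0 B
  have hk : ‖I * (κ0 : ℂ)‖ = κ0 := by
    rw [norm_mul, Complex.norm_I, one_mul, Complex.norm_real, Real.norm_eq_abs,
      abs_of_nonneg (by linarith)]
  have hkim : (I * (κ0 : ℂ)).im = κ0 := by simp
  refine ⟨(‖Y0‖ * (C1 * κ0 ^ 2)) ^ 2 / 2 + C2, by positivity, fun l hl => ?_⟩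
  have hHS : HSle b (Y0 * (T l - T (I * κ0)))
      (‖Y0‖ * (C1 * κ0 ^ 2) * (1 + ‖l‖) ^ 2) := by
    refine ((h1 l (I * κ0) hl (by rw [hkim]; linarith)).left_mul Y0).mono ?_
    have e1 : ‖l - I * (κ0 : ℂ)‖ ≤ κ0 * (1 + ‖l‖) := by
      have := norm_sub_le l (I * (κ0 : ℂ))
      rw [hk] at this
      nlinarith [norm_nonneg l]
    have e2 : max ‖l‖ ‖I * (κ0 : ℂ)‖ ≤ κ0 * (1 + ‖l‖) := by
      rw [hk]
      refine max_le ?_ ?_
      · nlinarith [norm_nonneg l]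
      · nlinarith [norm_nonneg l]
    have e3 : ‖l - I * (κ0 : ℂ)‖ * max ‖l‖ ‖I * (κ0 : ℂ)‖ ≤ (κ0 * (1 + ‖l‖)) * (κ0 * (1 + ‖l‖)) := by
      refine mul_le_mul e1 e2 (le_trans (norm_nonneg _) (le_max_left _ _)) ?_
      positivity
    calc ‖Y0‖ * (C1 * (‖l - I * (κ0 : ℂ)‖ * max ‖l‖ ‖I * (κ0 : ℂ)‖))
        ≤ ‖Y0‖ * (C1 * ((κ0 * (1 + ‖l‖)) * (κ0 * (1 + ‖l‖)))) := by gcongr
      _ = ‖Y0‖ * (C1 * κ0 ^ 2) * (1 + ‖l‖) ^ 2 := by ring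
  have hd := det2_bound hHS
  have ht : ‖cexp (tauF b V T (I * κ0) Y0 l)‖ ≤ Real.exp (C2 * (1 + ‖l‖) ^ 3) :=
    (Complex.norm_exp_le_exp_norm _).trans (Real.exp_le_exp.2 (h2 l hl))
  unfold DD
  rw [norm_mul]
  refine (mul_le_mul hd ht (norm_nonneg _) (Real.exp_nonneg _)).trans ?_
  rw [← Real.exp_add]
  refine Real.exp_le_exp.2 ?_
  have hx : (1 : ℝ) ≤ 1 + ‖l‖ := by linarith [norm_nonneg l]
  have p4 : (1 + ‖l‖) ^ 4 ≤ (1 + ‖l‖) ^ 9 := pow_le_pow_right₀ hx (by norm_num)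
  have p3 : (1 + ‖l‖) ^ 3 ≤ (1 + ‖l‖) ^ 9 := pow_le_pow_right₀ hx (by norm_num)
  have q4 : (‖Y0‖ * (C1 * κ0 ^ 2)) ^ 2 / 2 * (1 + ‖l‖) ^ 4 ≤
      (‖Y0‖ * (C1 * κ0 ^ 2)) ^ 2 / 2 * (1 + ‖l‖) ^ 9 :=
    mul_le_mul_of_nonneg_left p4 (by positivity)
  have q3 : C2 * (1 + ‖l‖) ^ 3 ≤ C2 * (1 + ‖l‖) ^ 9 := mul_le_mul_of_nonneg_left p3 hC2
  calc (‖Y0‖ * (C1 * κ0 ^ 2) * (1 + ‖l‖) ^ 2) ^ 2 / 2 + C2 * (1 + ‖l‖) ^ 3
      = (‖Y0‖ * (C1 * κ0 ^ 2)) ^ 2 / 2 * (1 + ‖l‖) ^ 4 + C2 * (1 + ‖l‖) ^ 3 := by ring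
    _ ≤ (‖Y0‖ * (C1 * κ0 ^ 2)) ^ 2 / 2 * (1 + ‖l‖) ^ 9 + C2 * (1 + ‖l‖) ^ 9 := add_le_add q4 q3
    _ = _ := by ring

theorem h58_lower (F : Fam R M V A T TD) {ι : Type} [DecidableEq ι]
    (b : HilbertBasis ι ℂ (Lp ℂ 2 (muR R))) (κ0 : ℝ) (hκ0 : 1 ≤ κ0) (Y0 : Op R)
    (hY : (1 + T (I * κ0)) * Y0 = 1) (hY' : Y0 * (1 + T (I * κ0)) = 1)
    (B : ℝ) (hB : 1 ≤ B) (hMB : M * (B ^ 2)⁻¹ ≤ 1 / 2) :
    ∃ C : ℝ, 0 ≤ C ∧ ∀ w : ℂ, B ≤ w.im →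
      ‖DD b V T (I * κ0) Y0 (-w)‖ ≤
        ‖DD b V T (I * κ0) Y0 w‖ * Real.exp (C * (1 + ‖w‖) ^ 9) := by
  obtain ⟨a0, v, φ, ha0, hvs, hφ, hJ, hτ⟩ := tauF_odd F b κ0 hκ0 Y0 hY hY'
  have hS0 : 0 ≤ ∑' a, ‖v a‖ := tsum_nonneg fun a => norm_nonneg _
  obtain ⟨C, hC⟩ := prod_bound a0 (a0 * (2 * ∑' a, ‖v a‖)) ha0 (by positivity)
  obtain ⟨C', hC'⟩ := prod_bound a0 a0 ha0 ha0
  obtain ⟨C1, hC1, h1⟩ := F.sub_HS b B
  have hkim : (I * (κ0 : ℂ)).im = κ0 := by simp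
  refine ⟨max C 0, le_max_right _ _, fun w hw => ?_⟩
  have hwpos : 0 < w.im := by linarith
  have hTw : ‖T w‖ ≤ 1 / 2 := by
    refine ((F.norm_le w hwpos).2).trans (le_trans ?_ hMB)
    have hM := F.hM
    gcongr
  obtain ⟨Y, hY1, hY2, hYn⟩ := h58_inv (T w) hTw
  -- uniform bound of phi
  have hφb : ∀ a, ‖φ w a‖ ≤ Real.exp (C' * (1 + ‖w‖) ^ 9) := by
    intro a
    have := hC' ‖w‖ (norm_nonneg _) {a}
    rw [Finset.prod_singleton] at this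
    linarith [hφ w a]
  have hYv : ∀ a, ‖Y (v a)‖ ≤ 2 * ‖v a‖ := fun a =>
    (Y.le_opNorm (v a)).trans (mul_le_mul_of_nonneg_right hYn (norm_nonneg _))
  have hv's : Summable (fun a => ‖Y (v a)‖) :=
    Summable.of_nonneg_of_le (fun a => norm_nonneg _) hYv (hvs.mul_left 2)
  have hs : Summable (fun a => ‖Y (v a)‖ * ‖φ w a‖) :=
    Summable.of_nonneg_of_le (fun a => by positivity)
      (fun a => mul_le_mul_of_nonneg_left (hφb a) (norm_nonneg _))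
      (hv's.mul_right (Real.exp (C' * (1 + ‖w‖) ^ 9)))
  have hX : ∀ h, HasSum (fun a => ⟪φ w a, h⟫_ℂ • Y (v a)) ((Y * (T (-w) - T w)) h) := by
    intro h
    have := (hJ w h).mapL Y
    simpa using this
  have hX2 := nuclear_HS (b := b) (fun a => Y (v a)) (φ w) hs (Y * (T (-w) - T w)) hX
  have hK := (h1 w (I * κ0) (by linarith) (by rw [hkim]; linarith)).left_mul Y0
  have hKw : Y0 * (T w - T (I * κ0)) = Y0 * (1 + T w) - 1 := by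
    calc Y0 * (T w - T (I * κ0)) = Y0 * (1 + T w) - Y0 * (1 + T (I * κ0)) := by noncomm_ring
      _ = _ := by rw [hY']
  have halg : Y0 * (T w - T (I * κ0)) + Y * (T (-w) - T w) +
      Y0 * (T w - T (I * κ0)) * (Y * (T (-w) - T w)) = Y0 * (T (-w) - T (I * κ0)) := by
    have e1 : Y0 * (T w - T (I * κ0)) * (Y * (T (-w) - T w)) =
        Y0 * (T (-w) - T w) - Y * (T (-w) - T w) := by
      calc Y0 * (T w - T (I * κ0)) * (Y * (T (-w) - T w))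
          = (Y0 * (1 + T w) - 1) * (Y * (T (-w) - T w)) := by rw [hKw]
        _ = Y0 * ((1 + T w) * Y) * (T (-w) - T w) - Y * (T (-w) - T w) := by noncomm_ring
        _ = _ := by rw [hY1, mul_one]
    rw [e1]
    noncomm_ring
  have hmul := det2_mul hK hX2
  rw [halg] at hmul
  have hKY : ∀ a, (Y0 * (T w - T (I * κ0))) (Y (v a)) = Y0 (v a) - Y (v a) := by
    intro a
    have e2 : Y0 * (T w - T (I * κ0)) * Y = Y0 - Y := by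
      rw [hKw]
      calc (Y0 * (1 + T w) - 1) * Y = Y0 * ((1 + T w) * Y) - Y := by noncomm_ring
        _ = _ := by rw [hY1, mul_one]
    have := congrArg (fun Z : Op R => Z (v a)) e2
    simpa using this
  have hsum1 : Summable (fun a => ⟪φ w a, Y0 (v a)⟫_ℂ) := by
    refine Summable.of_norm_bounded
      (g := fun a => ‖Y0‖ * (Real.exp (C' * (1 + ‖w‖) ^ 9)) * ‖v a‖) (hvs.mul_left _) fun a => ?_
    calc ‖⟪φ w a, Y0 (v a)⟫_ℂ‖ ≤ ‖φ w a‖ * ‖Y0 (v a)‖ := norm_inner_le_norm _ _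
      _ ≤ Real.exp (C' * (1 + ‖w‖) ^ 9) * (‖Y0‖ * ‖v a‖) :=
        mul_le_mul (hφb a) (Y0.le_opNorm _) (norm_nonneg _) (Real.exp_nonneg _)
      _ = _ := by ring
  have hsum2 : Summable (fun a => ⟪φ w a, Y (v a)⟫_ℂ) := by
    refine Summable.of_norm_bounded (g := fun a => ‖Y (v a)‖ * ‖φ w a‖) hs fun a => ?_
    rw [mul_comm]
    exact norm_inner_le_norm _ _
  have hTr : Tr2 b (Y0 * (T w - T (I * κ0))) (Y * (T (-w) - T w)) =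
      (∑' a, ⟪φ w a, Y0 (v a)⟫_ℂ) - ∑' a, ⟪φ w a, Y (v a)⟫_ℂ := by
    rw [Tr2_nuclear (b := b) (fun a => Y (v a)) (φ w) hs (Y * (T (-w) - T w)) hX,
      ← hsum1.tsum_sub hsum2]
    refine tsum_congr fun a => ?_
    rw [hKY, inner_sub_right]
  have hnuc := det2_nuclear (b := b) (fun a => Y (v a)) (φ w) hs hv's (Y * (T (-w) - T w)) hX
    (2 * ∑' a, ‖v a‖) (Real.exp (C * (1 + ‖w‖) ^ 9))
    (by
      rw [← tsum_mul_left]
      exact hv's.tsum_le_tsum hYv (hvs.mul_left 2))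
    (by
      intro Fs
      refine le_trans (Finset.prod_le_prod (fun a _ => by positivity) fun a _ => ?_)
        (hC ‖w‖ (norm_nonneg _) Fs)
      have := mul_le_mul_of_nonneg_right (hφ w a) (show 0 ≤ 2 * ∑' a, ‖v a‖ by positivity)
      calc 1 + ‖φ w a‖ * (2 * ∑' a, ‖v a‖) ≤ 1 + a0 * (a0 ^ (∑ i, a i) * ‖w‖ ^ (2 * (∑ i, a i) + 3) /
            ((2 * (∑ i, a i) + 1).factorial : ℝ)) * (2 * ∑' a, ‖v a‖) := by linarith
        _ = _ := by ring)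
  have hmain : DD b V T (I * κ0) Y0 (-w) = DD b V T (I * κ0) Y0 w *
      (det2 b (Y * (T (-w) - T w)) * cexp (∑' a, ⟪φ w a, Y (v a)⟫_ℂ)) := by
    have e3 : tauF b V T (I * κ0) Y0 (-w) =
        Tr2 b (Y0 * (T w - T (I * κ0))) (Y * (T (-w) - T w)) + tauF b V T (I * κ0) Y0 w +
          ∑' a, ⟪φ w a, Y (v a)⟫_ℂ := by
      rw [hTr, ← hτ w]
      ring
    unfold DD
    rw [e3, Complex.exp_add, Complex.exp_add, ← mul_assoc, ← mul_assoc, hmul]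
    ring
  rw [hmain, norm_mul]
  refine mul_le_mul_of_nonneg_left (hnuc.trans (Real.exp_le_exp.2 ?_)) (norm_nonneg _)
  exact mul_le_mul_of_nonneg_right (le_max_left _ _) (by positivity)

end Helpers58



section Csec

variable {R M : ℝ} {V : E5 → ℝ} {A T TD : ℂ → Op R}

theorem DD_growth (F : Fam R M V A T TD) {ι : Type} [DecidableEq ι]
    (b : HilbertBasis ι ℂ (Lp ℂ 2 (muR R))) (κ0 : ℝ) (hκ0 : 1 ≤ κ0) (Y0 : Op R)
    (hY : (1 + T (I * κ0)) * Y0 = 1) (hY' : Y0 * (1 + T (I * κ0)) = 1) :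
    ∃ C : ℝ, ∀ l : ℂ, ‖DD b V T (I * κ0) Y0 l‖ ≤ Real.exp (C * (1 + ‖l‖) ^ 9) := by
  have hM := F.hM
  have hMB : M * ((1 + 2 * M) ^ 2)⁻¹ ≤ 1 / 2 := by
    rw [← div_eq_mul_inv, div_le_iff₀ (by positivity)]
    nlinarith [sq_nonneg M]
  obtain ⟨C1, hC1, h1⟩ := h58_upper F b κ0 hκ0 Y0 (1 + 2 * M) (by positivity)
  obtain ⟨C2, hC2, h2⟩ := h58_lower F b κ0 hκ0 Y0 hY hY' (1 + 2 * M) (by linarith) hMB
  refine ⟨C1 + C2, fun l => ?_⟩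
  have hx : (0 : ℝ) ≤ (1 + ‖l‖) ^ 9 := by positivity
  rcases le_total (-(1 + 2 * M)) l.im with hl | hl
  · refine (h1 l hl).trans (Real.exp_le_exp.2 ?_)
    nlinarith [mul_nonneg hC2 hx]
  · have h3 : 1 + 2 * M ≤ (-l).im := by rw [Complex.neg_im]; linarith
    have h4 := h2 (-l) h3
    have h5 := h1 (-l) (by linarith)
    rw [neg_neg, norm_neg] at h4
    rw [norm_neg] at h5
    refine h4.trans ((mul_le_mul_of_nonneg_right h5 (Real.exp_nonneg _)).trans ?_)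
    rw [← Real.exp_add]
    refine Real.exp_le_exp.2 (le_of_eq ?_)
    ring

end Csec

end Pool.Agent.H269

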