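import Pool.Agent.H269.DefsC
import Pool.Agent.H269.R5.J01
import Pool.Agent.H269.R5.J02
import Pool.Agent.H269.R5.J04
import Pool.Agent.H269.R5.J07
import Pool.Agent.H269.R5.J16
import Pool.Agent.H269.R5.J17
import Pool.Agent.H269.R5.J18
import Pool.Agent.H269.R5.J20
import Pool.Agent.H269.R5.J22
import Pool.Agent.H269.R5.J23
import Pool.Agent.H269.R5.J30
import Pool.Agent.H269.R5.J31
import Pool.Agent.H269.R5.J34

/-!
# R5-38 the determinant: logarithmic derivative (MP_f2af60_mp, infinitely many resonances in dimension five)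
-/

set_option autoImplicit false

open MeasureTheory Filter Topology Complex
open scoped InnerProductSpace ENNReal NNReal

namespace Pool.Agent.H269



section mine

variable {R M : ℝ} {V : E5 → ℝ} {A T TD : ℂ → Op R}

theorem m_int_lt (n : ℕ) (hn : n = 4 ∨ n = 2) (β : ℝ) (hβ : 0 < β) :
    ∃ c : ℝ, ∫⁻ z : E5, ENNReal.ofReal (Real.exp (-β * ‖z‖) / ‖z‖ ^ n) = ENNReal.ofReal c := by
  obtain ⟨c, _, h⟩ := radial_int
  obtain ⟨h1, _, h3⟩ := h β hβ
  rcases hn with rfl | rfl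
  · exact ⟨_, h1⟩
  · exact ⟨_, h3⟩

theorem m_trans (n : ℕ) (β : ℝ) (x : E5) :
    ∫⁻ y, ENNReal.ofReal (Real.exp (-β * ‖x - y‖) / ‖x - y‖ ^ n) ∂(muR R) ≤
      ∫⁻ z : E5, ENNReal.ofReal (Real.exp (-β * ‖z‖) / ‖z‖ ^ n) := by
  refine (setLIntegral_le_lintegral _ _).trans ?_
  exact (lintegral_sub_left_eq_self
    (fun z : E5 => ENNReal.ofReal (Real.exp (-β * ‖z‖) / ‖z‖ ^ n)) x).le

theorem m_meas_GG (l : ℂ) : Measurable (fun r : ℝ => GG l r) := by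
  unfold GG
  fun_prop

theorem m_meas_GD (l : ℂ) : Measurable (fun r : ℝ => GD l r) := by
  unfold GD
  fun_prop

theorem m_meas_r : Measurable (fun p : E5 × E5 => ‖p.1 - p.2‖) := by
  fun_prop

/-- pointwise bound for the product -/
theorem m_prod_bound (κ0 κ : ℝ) (h0 : 1 ≤ κ0) (h : 1 ≤ κ) (r : ℝ) (hr : 0 ≤ r) :
    ‖GG (I * κ0) r * GD (I * κ) r‖ ≤ κ * (Real.exp (-κ * r) / r ^ 4) := by
  have h1 := (GG_bound (I * κ0) r hr).1
  have h2 := (GG_bound (I * κ) r hr).2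
  have e0 : (I * (κ0 : ℂ)).im = κ0 := by simp
  have e1 : (I * (κ : ℂ)).im = κ := by simp
  have n0 : ‖I * (κ0 : ℂ)‖ = κ0 := by
    rw [norm_mul, Complex.norm_I, one_mul, Complex.norm_real, Real.norm_of_nonneg (by linarith)]
  have n1 : ‖I * (κ : ℂ)‖ = κ := by
    rw [norm_mul, Complex.norm_I, one_mul, Complex.norm_real, Real.norm_of_nonneg (by linarith)]
  rw [e0, n0] at h1
  rw [e1, n1] at h2
  have h3 : (1 + κ0 * r) * Real.exp (-κ0 * r) ≤ 1 := by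
    have h4 := Real.add_one_le_exp (κ0 * r)
    have h5 : Real.exp (-κ0 * r) * Real.exp (κ0 * r) = 1 := by
      rw [← Real.exp_add]; ring_nf; exact Real.exp_zero
    nlinarith [Real.exp_pos (-κ0 * r)]
  have hpi : 1 ≤ 8 * Real.pi ^ 2 := by
    nlinarith [Real.pi_gt_three]
  rcases hr.eq_or_lt with h0 | hr0
  · rw [← h0]
    have : GG (I * κ0) (0 : ℝ) = 0 := by simp [GG]
    rw [← h0] at h1
    rw [this]
    simp
  · rw [norm_mul]
    have h5 : ‖GG (I * κ0) r‖ ≤ 1 / r ^ 3 := by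
      refine h1.trans ?_
      rw [div_le_div_iff₀ (by positivity) (by positivity)]
      have : 0 < r ^ 3 := by positivity
      nlinarith
    have h6 : ‖GD (I * κ) r‖ ≤ κ * Real.exp (-κ * r) / r := by
      refine h2.trans ?_
      rw [div_le_div_iff₀ (by positivity) hr0]
      have : 0 < κ * Real.exp (-κ * r) * r := by positivity
      nlinarith
    calc ‖GG (I * κ0) r‖ * ‖GD (I * κ) r‖ ≤ 1 / r ^ 3 * (κ * Real.exp (-κ * r) / r) :=
          mul_le_mul h5 h6 (norm_nonneg _) (by positivity)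
      _ = κ * (Real.exp (-κ * r) / r ^ 4) := by
          field_simp

theorem m_fin (R : ℝ) : IsFiniteMeasure (muR R) :=
  ⟨by rw [Measure.restrict_apply_univ]; exact measure_closedBall_lt_top⟩

/-- the integrand -/
noncomputable def WW (V : E5 → ℝ) (κ0 κ : ℝ) (x y : E5) : ℂ :=
  (V x : ℂ) * (V y : ℂ) * (GG (I * κ0) ‖x - y‖ * GD (I * κ) ‖x - y‖)

theorem WW_meas (hV : Measurable V) (κ0 κ : ℝ) : Measurable (Function.uncurry (WW V κ0 κ)) := by
  unfold WW Function.uncurry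
  have h1 : Measurable (fun p : E5 × E5 => (V p.1 : ℂ)) :=
    Complex.measurable_ofReal.comp (hV.comp measurable_fst)
  have h2 : Measurable (fun p : E5 × E5 => (V p.2 : ℂ)) :=
    Complex.measurable_ofReal.comp (hV.comp measurable_snd)
  exact (h1.mul h2).mul (((m_meas_GG _).comp m_meas_r).mul ((m_meas_GD _).comp m_meas_r))

theorem WW_bound (F : Fam R M V A T TD) (κ0 κ : ℝ) (h0 : 1 ≤ κ0) (h : 1 ≤ κ) (x y : E5) :
    ‖WW V κ0 κ x y‖ ≤ M * M * κ * (Real.exp (-κ * ‖x - y‖) / ‖x - y‖ ^ 4) := by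
  unfold WW
  rw [norm_mul, norm_mul, Complex.norm_real, Complex.norm_real, Real.norm_eq_abs, Real.norm_eq_abs]
  have h1 := F.bdd x
  have h2 := F.bdd y
  have h3 := m_prod_bound κ0 κ h0 h ‖x - y‖ (norm_nonneg _)
  have hM := F.hM
  calc |V x| * |V y| * ‖GG (I * κ0) ‖x - y‖ * GD (I * κ) ‖x - y‖‖
      ≤ M * M * (κ * (Real.exp (-κ * ‖x - y‖) / ‖x - y‖ ^ 4)) := by
        refine mul_le_mul ?_ h3 (norm_nonneg _) (by positivity)
        exact mul_le_mul h1 h2 (abs_nonneg _) hM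
    _ = _ := by ring

theorem WW_lint (F : Fam R M V A T TD) (κ0 κ : ℝ) (h0 : 1 ≤ κ0) (h : 1 ≤ κ) :
    ∃ C : ℝ, 0 ≤ C ∧ ∀ x, ∫⁻ y, ‖WW V κ0 κ x y‖ₑ ∂(muR R) ≤ ENNReal.ofReal C := by
  obtain ⟨c, hc⟩ := m_int_lt 4 (Or.inl rfl) κ (by linarith)
  have hM := F.hM
  refine ⟨M * M * κ * max c 0, by positivity, fun x => ?_⟩
  calc ∫⁻ y, ‖WW V κ0 κ x y‖ₑ ∂(muR R)
      ≤ ∫⁻ y, ENNReal.ofReal (M * M * κ) *
          ENNReal.ofReal (Real.exp (-κ * ‖x - y‖) / ‖x - y‖ ^ 4) ∂(muR R) := by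
        refine lintegral_mono fun y => ?_
        rw [← ENNReal.ofReal_mul (by positivity), ← ofReal_norm]
        exact ENNReal.ofReal_le_ofReal (WW_bound F κ0 κ h0 h x y)
    _ = ENNReal.ofReal (M * M * κ) *
          ∫⁻ y, ENNReal.ofReal (Real.exp (-κ * ‖x - y‖) / ‖x - y‖ ^ 4) ∂(muR R) :=
        lintegral_const_mul' _ _ ENNReal.ofReal_ne_top
    _ ≤ ENNReal.ofReal (M * M * κ) * ENNReal.ofReal c := by
        gcongr
        exact (m_trans 4 κ x).trans hc.le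
    _ ≤ ENNReal.ofReal (M * M * κ * max c 0) := by
        rw [ENNReal.ofReal_mul (p := M * M * κ) (by positivity)]
        gcongr
        exact le_max_left _ _

theorem WW_int (F : Fam R M V A T TD) (κ0 κ : ℝ) (h0 : 1 ≤ κ0) (h : 1 ≤ κ) (x : E5) :
    Integrable (fun y => WW V κ0 κ x y) (muR R) := by
  obtain ⟨C, _, hC⟩ := WW_lint F κ0 κ h0 h
  refine ⟨?_, ?_⟩
  · exact ((WW_meas F.meas κ0 κ).comp measurable_prodMk_left).aestronglyMeasurable
  · exact lt_of_le_of_lt (hC x) ENNReal.ofReal_lt_top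

theorem WW_int2 (F : Fam R M V A T TD) (κ0 κ : ℝ) (h0 : 1 ≤ κ0) (h : 1 ≤ κ) :
    Integrable (fun x => ∫ y, WW V κ0 κ x y ∂(muR R)) (muR R) := by
  obtain ⟨C, hC0, hC⟩ := WW_lint F κ0 κ h0 h
  have := m_fin R
  refine Integrable.of_bound (C := C) ?_ (Filter.Eventually.of_forall fun x => ?_)
  · have h1 : StronglyMeasurable (Function.uncurry (WW V κ0 κ)) :=
      (WW_meas F.meas κ0 κ).stronglyMeasurable
    exact h1.integral_prod_right.aestronglyMeasurable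
  · rw [← ENNReal.ofReal_le_ofReal_iff hC0, ofReal_norm]
    exact (enorm_integral_le_lintegral_enorm _).trans (hC x)

theorem m_ball (x y : E5) (hx : x ∈ Metric.closedBall (0 : E5) R)
    (hy : y ∈ Metric.closedBall (0 : E5) R) : ‖x - y‖ ≤ 2 * R := by
  rw [mem_closedBall_zero_iff] at hx hy
  have := norm_sub_le x y
  linarith

/-- square integrability of kernels bounded by `C / r` on the ball -/
theorem m_sq (F : Fam R M V A T TD) (k : E5 → E5 → ℂ) (C : ℝ) (_ : 0 ≤ C)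
    (hk : ∀ x ∈ Metric.closedBall (0 : E5) R, ∀ y ∈ Metric.closedBall (0 : E5) R,
      ‖k x y‖ ≤ C / ‖x - y‖) :
    ∫⁻ x, ∫⁻ y, ‖k x y‖ₑ ^ 2 ∂(muR R) ∂(muR R) < ∞ := by
  obtain ⟨c, hc⟩ := m_int_lt 2 (Or.inr rfl) 1 one_pos
  have hR := F.hR
  have := m_fin R
  have h1 : ∀ x ∈ Metric.closedBall (0 : E5) R, ∫⁻ y, ‖k x y‖ₑ ^ 2 ∂(muR R) ≤
      ENNReal.ofReal (C ^ 2 * Real.exp (2 * R)) * ENNReal.ofReal c := by
    intro x hx
    calc ∫⁻ y, ‖k x y‖ₑ ^ 2 ∂(muR R)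
        ≤ ∫⁻ y, ENNReal.ofReal (C ^ 2 * Real.exp (2 * R)) *
            ENNReal.ofReal (Real.exp (-1 * ‖x - y‖) / ‖x - y‖ ^ 2) ∂(muR R) := by
          refine setLIntegral_mono_ae' measurableSet_closedBall
            (Filter.Eventually.of_forall fun y hy => ?_)
          rw [← ENNReal.ofReal_mul (by positivity), ← ofReal_norm,
            ← ENNReal.ofReal_pow (norm_nonneg _)]
          apply ENNReal.ofReal_le_ofReal
          have h2 := hk x hx y hy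
          have h3 := m_ball x y hx hy
          have h4 : 1 ≤ Real.exp (2 * R) * Real.exp (-1 * ‖x - y‖) := by
            rw [← Real.exp_add]
            apply Real.one_le_exp
            linarith
          calc ‖k x y‖ ^ 2 ≤ (C / ‖x - y‖) ^ 2 := by gcongr
            _ = C ^ 2 / ‖x - y‖ ^ 2 * 1 := by rw [div_pow, mul_one]
            _ ≤ C ^ 2 / ‖x - y‖ ^ 2 * (Real.exp (2 * R) * Real.exp (-1 * ‖x - y‖)) := by gcongr
            _ = _ := by ring
      _ = ENNReal.ofReal (C ^ 2 * Real.exp (2 * R)) *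
            ∫⁻ y, ENNReal.ofReal (Real.exp (-1 * ‖x - y‖) / ‖x - y‖ ^ 2) ∂(muR R) :=
          lintegral_const_mul' _ _ ENNReal.ofReal_ne_top
      _ ≤ _ := by
          gcongr
          exact (m_trans 2 1 x).trans hc.le
  calc ∫⁻ x, ∫⁻ y, ‖k x y‖ₑ ^ 2 ∂(muR R) ∂(muR R)
      ≤ ∫⁻ _x, ENNReal.ofReal (C ^ 2 * Real.exp (2 * R)) * ENNReal.ofReal c ∂(muR R) :=
        setLIntegral_mono_ae' measurableSet_closedBall
            (Filter.Eventually.of_forall fun x hx => h1 x hx)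
    _ < ∞ := by
        rw [lintegral_const]
        exact ENNReal.mul_lt_top (ENNReal.mul_lt_top ENNReal.ofReal_lt_top ENNReal.ofReal_lt_top)
          (measure_lt_top _ _)

theorem m_trace (F : Fam R M V A T TD) {ι : Type} [DecidableEq ι] [Countable ι]
    (b : HilbertBasis ι ℂ (Lp ℂ 2 (muR R))) (κ0 : ℝ) (hκ0 : 1 ≤ κ0) (κ : ℝ) (hκ : 1 ≤ κ) :
    Tr2 b (T (I * κ0) - T (I * κ)) (TD (I * κ)) =
      (∫ x, ∫ y, (V x : ℂ) * (V y : ℂ) * (GG (I * κ0) ‖x - y‖ * GD (I * κ) ‖x - y‖)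
          ∂(muR R) ∂(muR R)) -
      (∫ x, ∫ y, (V x : ℂ) * (V y : ℂ) * (GG (I * κ) ‖x - y‖ * GD (I * κ) ‖x - y‖)
          ∂(muR R) ∂(muR R)) := by
  have := m_fin R
  have hM := F.hM
  have e0 : (I * (κ0 : ℂ)).im = κ0 := by simp
  have e1 : (I * (κ : ℂ)).im = κ := by simp
  have hpi : 1 ≤ 8 * Real.pi ^ 2 := by
    nlinarith [Real.pi_gt_three]
  have hVm : ∀ g : ℝ → ℂ, Measurable g →
      Measurable (Function.uncurry fun x y : E5 => (V x : ℂ) * g ‖x - y‖) := by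
    intro g hg
    unfold Function.uncurry
    have h1 : Measurable (fun p : E5 × E5 => (V p.1 : ℂ)) :=
      Complex.measurable_ofReal.comp (F.meas.comp measurable_fst)
    exact h1.mul (hg.comp m_meas_r)
  have hk : Measurable (Function.uncurry fun x y : E5 =>
      (V x : ℂ) * GG (I * κ0) ‖x - y‖ - (V x : ℂ) * GG (I * κ) ‖x - y‖) :=
    (hVm _ (m_meas_GG (I * κ0))).sub (hVm _ (m_meas_GG (I * κ)))
  have hm : Measurable (Function.uncurry fun x y : E5 => (V x : ℂ) * GD (I * κ) ‖x - y‖) :=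
    hVm _ (m_meas_GD (I * κ))
  rw [Tr2_isKer b hk hm (IsKer.sub (F.kT (I * κ0)) (F.kT (I * κ))) (F.kTD (I * κ))]
  · have h1 : ∀ x y : E5, ((V x : ℂ) * GG (I * κ0) ‖x - y‖ - (V x : ℂ) * GG (I * κ) ‖x - y‖) *
        ((V y : ℂ) * GD (I * κ) ‖y - x‖) = WW V κ0 κ x y - WW V κ κ x y := by
      intro x y
      unfold WW
      rw [norm_sub_rev y x]
      ring
    simp only [h1]
    have h2 : ∀ x : E5, ∫ y, (WW V κ0 κ x y - WW V κ κ x y) ∂(muR R) =
        (∫ y, WW V κ0 κ x y ∂(muR R)) - ∫ y, WW V κ κ x y ∂(muR R) := fun x =>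
      integral_sub (WW_int F κ0 κ hκ0 hκ x) (WW_int F κ κ hκ hκ x)
    simp only [h2]
    exact integral_sub (WW_int2 F κ0 κ hκ0 hκ) (WW_int2 F κ κ hκ hκ)
  · refine m_sq F _ (M * (‖I * (κ0 : ℂ) - I * κ‖ * max ‖I * (κ0 : ℂ)‖ ‖I * (κ : ℂ)‖))
      (by positivity) fun x hx y hy => ?_
    rw [← mul_sub, norm_mul, Complex.norm_real, Real.norm_eq_abs]
    have h1 := GG_sub_bound 0 (I * κ0) (I * κ) (by rw [e0]; linarith) (by rw [e1]; linarith)
      ‖x - y‖ (norm_nonneg _)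
    rw [zero_mul, Real.exp_zero, mul_one] at h1
    rw [mul_div_assoc]
    refine mul_le_mul (F.bdd x) (h1.trans ?_) (norm_nonneg _) hM
    rcases (norm_nonneg (x - y)).eq_or_lt with h2 | h2
    · rw [← h2]; simp
    · gcongr
      nlinarith
  · refine m_sq F _ (M * ‖I * (κ : ℂ)‖) (by positivity) fun x hx y hy => ?_
    rw [norm_mul, Complex.norm_real, Real.norm_eq_abs]
    have h1 := (GG_bound (I * κ) ‖x - y‖ (norm_nonneg _)).2
    rw [mul_div_assoc]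
    refine mul_le_mul (F.bdd x) (h1.trans ?_) (norm_nonneg _) hM
    rw [e1]
    rcases (norm_nonneg (x - y)).eq_or_lt with h2 | h2
    · rw [← h2]; simp
    · have h3 : Real.exp (-κ * ‖x - y‖) ≤ 1 := by
        rw [Real.exp_le_one_iff]
        nlinarith
      gcongr
      · calc ‖I * (κ : ℂ)‖ * Real.exp (-κ * ‖x - y‖) ≤ ‖I * (κ : ℂ)‖ * 1 := by gcongr
          _ = _ := mul_one _
      · nlinarith

end mine

section Csec

variable {R M : ℝ} {V : E5 → ℝ} {A T TD : ℂ → Op R}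

theorem DD_logDeriv (F : Fam R M V A T TD) {ι : Type} [DecidableEq ι] [Countable ι]
    (b : HilbertBasis ι ℂ (Lp ℂ 2 (muR R))) (κ0 : ℝ) (hκ0 : 1 ≤ κ0) (Y0 : Op R)
    (hY : (1 + T (I * κ0)) * Y0 = 1) (hY' : Y0 * (1 + T (I * κ0)) = 1) (κ : ℝ) (hκ : 1 ≤ κ)
    (Y : Op R) (h1 : (1 + T (I * κ)) * Y = 1) (h2 : Y * (1 + T (I * κ)) = 1) :
    HasDerivAt (DD b V T (I * κ0) Y0) (DD b V T (I * κ0) Y0 (I * κ) * LL b V T TD (I * κ) Y)
      (I * κ) := by
  have hHS : HSDiff b (fun m => Y0 * (T m - T (I * κ0))) (fun m => Y0 * TD m) := by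
    refine ⟨fun z => ?_, fun z => ?_, fun z => ?_⟩
    · obtain ⟨C, _, hC⟩ := F.sub_HS b (max (-z.im) (-(I * (κ0 : ℂ)).im))
      exact ⟨_, (hC z (I * κ0) (by linarith [le_max_left (-z.im) (-(I * (κ0 : ℂ)).im)])
        (by linarith [le_max_right (-z.im) (-(I * (κ0 : ℂ)).im)])).left_mul Y0⟩
    · obtain ⟨c, hc⟩ := F.TD_HS b z
      exact ⟨_, hc.left_mul Y0⟩
    · obtain ⟨C, hC⟩ := F.taylor_HS b z
      refine ⟨‖Y0‖ * C, fun h hh => ?_⟩
      have h3 := (hC h hh).left_mul Y0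
      have h4 : Y0 * (T (z + h) - T (I * κ0)) - Y0 * (T z - T (I * κ0)) - h • (Y0 * TD z) =
          Y0 * (T (z + h) - T z - h • TD z) := by
        rw [mul_sub, mul_sub, mul_sub, mul_sub, mul_smul_comm]
        abel
      rw [h4, mul_assoc]
      exact h3
  have hK1 : (1 : Op R) + Y0 * (T (I * κ) - T (I * κ0)) = Y0 * (1 + T (I * κ)) := by
    have : Y0 * (1 + T (I * κ)) = Y0 * (1 + T (I * κ0)) + Y0 * (T (I * κ) - T (I * κ0)) := by
      rw [← mul_add]; congr 1; abel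
    rw [this, hY']
  have hd := det2_hasDerivAt hHS (I * κ) (Y * (1 + T (I * κ0)))
    (by
      show ((1 : Op R) + Y0 * (T (I * κ) - T (I * κ0))) * (Y * (1 + T (I * κ0))) = 1
      rw [hK1, mul_assoc, ← mul_assoc (1 + T (I * κ)), h1, one_mul, hY'])
    (by
      show Y * (1 + T (I * κ0)) * ((1 : Op R) + Y0 * (T (I * κ) - T (I * κ0))) = 1
      rw [hK1, mul_assoc, ← mul_assoc (1 + T (I * κ0)), hY, one_mul, h2])
  have ht := tauF_hasDerivAt F b κ0 hκ0 Y0 (I * κ)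
  have hD := hd.mul ht.cexp
  refine (hD.congr_deriv ?_)
  have e0 : (I * (κ0 : ℂ)).im = κ0 := by simp
  have e1 : (I * (κ : ℂ)).im = κ := by simp
  have hTr := m_trace F b κ0 hκ0 κ hκ
  -- Hilbert-Schmidt facts
  obtain ⟨c1, hc1⟩ : ∃ c, HSle b (T (I * κ0) - T (I * κ)) c := by
    obtain ⟨C, _, hC⟩ := F.sub_HS b 0
    exact ⟨_, hC (I * κ0) (I * κ) (by rw [e0]; linarith) (by rw [e1]; linarith)⟩
  obtain ⟨c2, hc2⟩ : ∃ c, HSle b (T (I * κ0) * T (I * κ0)) c := by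
    obtain ⟨C, hC0, hC⟩ := F.sq_imag b
    refine ⟨C / κ0 ^ 3 + 1, hC κ0 hκ0 _ (by positivity) ?_⟩
    have : 0 ≤ C / κ0 ^ 3 := by positivity
    nlinarith
  obtain ⟨c3, hc3⟩ : ∃ c, HSle b (T (I * κ) * T (I * κ)) c := by
    obtain ⟨C, hC0, hC⟩ := F.sq_imag b
    refine ⟨C / κ ^ 3 + 1, hC κ hκ _ (by positivity) ?_⟩
    have : 0 ≤ C / κ ^ 3 := by positivity
    nlinarith
  obtain ⟨c4, hc4⟩ := F.TD_HS b (I * κ)
  -- the algebra
  generalize hT0 : T (I * κ0) = T0 at *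
  generalize hT1 : T (I * κ) = T1 at *
  generalize hTD : TD (I * κ) = T2 at *
  have hN : HSle b (Y0 * (T0 - T1) * Y) (‖Y0‖ * c1 * ‖Y‖) := (hc1.left_mul Y0).right_mul Y
  have hA0 : HSle b (T0 * T0 * Y0) (c2 * ‖Y0‖) := hc2.right_mul Y0
  have hA1 : HSle b (T1 * T1 * Y) (c3 * ‖Y‖) := hc3.right_mul Y
  have q1 : Tr2 b (Y0 * (T1 - T0) * (Y * (1 + T0))) (Y0 * T2) =
      -Tr2 b (Y0 * (T0 - T1) * Y) T2 := by
    rw [← Tr2_mul]
    have h5 : Y0 * (T1 - T0) * (Y * (1 + T0)) * Y0 = (-1 : ℂ) • (Y0 * (T0 - T1) * Y) := by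
      rw [mul_assoc (Y0 * (T1 - T0)), mul_assoc Y, hY, mul_one, neg_one_smul, ← neg_mul,
        ← mul_neg, neg_sub]
    rw [h5, Tr2_smul_left]
    ring
  have q2 : Y0 = 1 - T0 + T0 * T0 * Y0 := by
    have h6 : Y0 = 1 - T0 * Y0 := by
      have h7 := hY
      rw [add_mul, one_mul] at h7
      rw [← h7]; abel
    have h8 : T0 * Y0 = T0 - T0 * T0 * Y0 := by
      conv_lhs => rw [h6]
      rw [mul_sub, mul_one, mul_assoc]
    conv_lhs => rw [h6]
    rw [h8]; abel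
  have q3 : Y = 1 - T1 + T1 * T1 * Y := by
    have h6 : Y = 1 - T1 * Y := by
      have h7 := h1
      rw [add_mul, one_mul] at h7
      rw [← h7]; abel
    have h8 : T1 * Y = T1 - T1 * T1 * Y := by
      conv_lhs => rw [h6]
      rw [mul_sub, mul_one, mul_assoc]
    conv_lhs => rw [h6]
    rw [h8]; abel
  have q4 : Y0 * (T0 - T1) * Y = Y - Y0 := by
    have h9 : T0 - T1 = (1 + T0) - (1 + T1) := by abel
    rw [h9, mul_sub, hY', sub_mul, one_mul, mul_assoc, h1, mul_one]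
  have q5 : T0 * T0 * Y0 + Y0 * (T0 - T1) * Y = T1 * T1 * Y + (T0 - T1) := by
    rw [q4]
    have h10 : T0 * T0 * Y0 = Y0 - 1 + T0 := by
      conv_rhs => rw [q2]
      abel
    have h11 : T1 * T1 * Y = Y - 1 + T1 := by
      conv_rhs => rw [q3]
      abel
    rw [h10, h11]; abel
  have q6 : Tr2 b (T0 * T0 * Y0 + Y0 * (T0 - T1) * Y) T2 =
      Tr2 b (T1 * T1 * Y + (T0 - T1)) T2 := by rw [q5]
  rw [Tr2_add_left hA0 hN hc4, Tr2_add_left hA1 hc1 hc4, hTr] at q6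
  unfold DD LL
  rw [hT0, hT1, hTD, q1]
  linear_combination (det2 b (Y0 * (T1 - T0)) * cexp (tauF b V T (I * κ0) Y0 (I * κ))) * q6

end Csec

end Pool.Agent.H269
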