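import Pool.Agent.H269.DefsC
import Pool.Agent.H269.R5.J01
import Pool.Agent.H269.R5.J02
import Pool.Agent.H269.R5.J16
import Pool.Agent.H269.R5.J22
import Pool.Agent.H269.R5.J31

/-!
# R5-39 asymptotics of the logarithmic derivative (MP_f2af60_mp, infinitely many resonances in dimension five)
-/

set_option autoImplicit false

open MeasureTheory Filter Topology Complex
open scoped InnerProductSpace ENNReal NNReal

namespace Pool.Agent.H269



section Csec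

variable {R M : ℝ} {V : E5 → ℝ} {A T TD : ℂ → Op R}

theorem LL_asymp (F : Fam R M V A T TD) {ι : Type} [DecidableEq ι]
    (b : HilbertBasis ι ℂ (Lp ℂ 2 (muR R))) :
    ∃ C : ℝ, ∀ κ : ℝ, 1 ≤ κ → ∀ Y : Op R, ‖Y‖ ≤ 2 →
      ‖I * LL b V T TD (I * κ) Y - (((1 / (8 * Real.pi ^ 2) * ∫ x, V x : ℝ) : ℂ) * (κ : ℂ) ^ 2 +
        ((∫ x, ∫ y, V x * V y * wk κ (x - y) : ℝ) : ℂ))‖ ≤ C / κ ^ 2 := by
  obtain ⟨C1, hC1, h1⟩ := F.sq_imag b
  obtain ⟨C2, hC2, h2⟩ := F.TD_imag b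
  refine ⟨2 * (Real.sqrt C1 * Real.sqrt C2), fun κ hκ Y hY => ?_⟩
  have hκ0 : (0:ℝ) < κ := by linarith
  -- the first integral
  have e1 : (∫ x, (V x : ℂ) ∂(muR R)) = ((∫ x, V x : ℝ) : ℂ) := by
    rw [integral_complex_ofReal]
    congr 1
    exact setIntegral_eq_integral_of_forall_compl_eq_zero fun x hx => F.supp x hx
  -- the second integral
  have e2 : (∫ x, ∫ y, (V x : ℂ) * (V y : ℂ) * (GG (I * κ) ‖x - y‖ * GD (I * κ) ‖x - y‖)
      ∂(muR R) ∂(muR R)) = I * ((∫ x, ∫ y, V x * V y * wk κ (x - y) : ℝ) : ℂ) := by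
    have e3 : ∀ x : E5, (∫ y, (V x : ℂ) * (V y : ℂ) * (GG (I * κ) ‖x - y‖ * GD (I * κ) ‖x - y‖)
        ∂(muR R)) = I * ((∫ y, V x * V y * wk κ (x - y) : ℝ) : ℂ) := by
      intro x
      have e4 : ∀ y : E5, (V x : ℂ) * (V y : ℂ) * (GG (I * κ) ‖x - y‖ * GD (I * κ) ‖x - y‖) =
          I * ((V x * V y * wk κ (x - y) : ℝ) : ℂ) := by
        intro y
        rw [(GG_imag κ ‖x - y‖).1, (GG_imag κ ‖x - y‖).2]
        have e5 : wk κ (x - y) = (Real.exp (-κ * ‖x - y‖) * (1 + κ * ‖x - y‖) /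
            (8 * Real.pi ^ 2 * ‖x - y‖ ^ 3)) * (κ * Real.exp (-κ * ‖x - y‖) /
            (8 * Real.pi ^ 2 * ‖x - y‖)) := by
          unfold wk
          have : Real.exp (-2 * κ * ‖x - y‖) = Real.exp (-κ * ‖x - y‖) * Real.exp (-κ * ‖x - y‖) := by
            rw [← Real.exp_add]; congr 1; ring
          rw [this, div_mul_div_comm]
          congr 1 <;> ring
        rw [e5]
        push_cast
        ring
      simp only [e4]
      rw [integral_const_mul, integral_complex_ofReal]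
      congr 2
      exact setIntegral_eq_integral_of_forall_compl_eq_zero fun y hy => by
        rw [F.supp y hy]; simp
    simp only [e3]
    rw [integral_const_mul, integral_complex_ofReal]
    congr 2
    exact setIntegral_eq_integral_of_forall_compl_eq_zero fun x hx => by
      rw [F.supp x hx]; simp
  -- the trace
  have e6 : I * LL b V T TD (I * κ) Y - (((1 / (8 * Real.pi ^ 2) * ∫ x, V x : ℝ) : ℂ) * (κ : ℂ) ^ 2 +
        ((∫ x, ∫ y, V x * V y * wk κ (x - y) : ℝ) : ℂ)) =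
      I * Tr2 b (T (I * κ) * T (I * κ) * Y) (TD (I * κ)) := by
    unfold LL
    rw [e1, e2]
    set J1 : ℝ := ∫ x, V x
    set J2 : ℝ := ∫ x, ∫ y, V x * V y * wk κ (x - y)
    push_cast
    have hI : I ^ 2 = -1 := I_sq
    have e7 : I * (I * (I * (κ:ℂ)) ^ 2 / (8 * (Real.pi : ℂ) ^ 2) * (J1 : ℂ) - I * (J2 : ℂ) +
        Tr2 b (T (I * κ) * T (I * κ) * Y) (TD (I * κ))) =
        (I ^ 2) ^ 2 * ((κ:ℂ) ^ 2 / (8 * (Real.pi : ℂ) ^ 2) * (J1 : ℂ)) - I ^ 2 * (J2 : ℂ) +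
        I * Tr2 b (T (I * κ) * T (I * κ) * Y) (TD (I * κ)) := by ring
    rw [e7, hI]
    ring
  rw [e6, norm_mul, norm_I, one_mul]
  have g1 : HSle b (T (I * κ) * T (I * κ)) (Real.sqrt (C1 / κ ^ 3)) :=
    h1 κ hκ _ (Real.sqrt_nonneg _) (by rw [Real.sq_sqrt (by positivity)])
  have g2 : HSle b (TD (I * κ)) (Real.sqrt (C2 / κ)) :=
    h2 κ hκ _ (Real.sqrt_nonneg _) (by rw [Real.sq_sqrt (by positivity)])
  refine (Tr2_norm_le (g1.right_mul Y) g2).trans ?_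
  have g3 : Real.sqrt (C1 / κ ^ 3) * Real.sqrt (C2 / κ) = Real.sqrt C1 * Real.sqrt C2 / κ ^ 2 := by
    rw [← Real.sqrt_mul (by positivity), ← Real.sqrt_mul hC1]
    have : C1 / κ ^ 3 * (C2 / κ) = C1 * C2 / (κ ^ 2) ^ 2 := by
      field_simp
    rw [this, Real.sqrt_div (by positivity), Real.sqrt_sq (by positivity)]
  have g4 : 0 ≤ Real.sqrt (C1 / κ ^ 3) * Real.sqrt (C2 / κ) := by positivity
  calc Real.sqrt (C1 / κ ^ 3) * ‖Y‖ * Real.sqrt (C2 / κ)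
      = (Real.sqrt (C1 / κ ^ 3) * Real.sqrt (C2 / κ)) * ‖Y‖ := by ring
    _ ≤ (Real.sqrt (C1 / κ ^ 3) * Real.sqrt (C2 / κ)) * 2 := mul_le_mul_of_nonneg_left hY g4
    _ = 2 * (Real.sqrt C1 * Real.sqrt C2) / κ ^ 2 := by rw [g3]; ring

end Csec

end Pool.Agent.H269
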