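import Pool.Agent.H269.DefsC
import Pool.Agent.H269.R5.J12
import Pool.Agent.H269.R5.J13
import Pool.Agent.H269.R5.J19
import Pool.Agent.H269.R5.J28
import Pool.Agent.H269.R5.J33
import Pool.Agent.H269.R5.J36
import Pool.Agent.H269.R5.J37
import Pool.Agent.H269.R5.J38
import Pool.Agent.H269.R5.J39

/-!
# R5-40 infinitely many non-invertible points (MP_f2af60_mp, infinitely many resonances in dimension five)
-/

set_option autoImplicit false

open MeasureTheory Filter Topology Complex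
open scoped InnerProductSpace ENNReal NNReal

namespace Pool.Agent.H269


section Csec

variable {R M : ℝ} {V : E5 → ℝ} {A T TD : ℂ → Op R}

/-- the square of the potential is integrable -/
theorem sq_integrable (F : Fam R M V A T TD) :
    Integrable (fun x => V x ^ 2) (volume : Measure E5) := by
  have hsupp : Function.support (fun x => V x ^ 2) ⊆ Metric.closedBall (0 : E5) R := by
    intro x hx
    by_contra h
    apply hx
    simp only
    rw [F.supp x h]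
    norm_num
  rw [← integrableOn_iff_integrable_of_support_subset hsupp]
  have hfin : (volume : Measure E5) (Metric.closedBall (0 : E5) R) ≠ ∞ :=
    (isCompact_closedBall (0 : E5) R).measure_lt_top.ne
  refine Measure.integrableOn_of_bounded (M := M ^ 2) hfin
    (F.meas.pow_const 2).aestronglyMeasurable ?_
  refine Filter.Eventually.of_forall fun x => ?_
  rw [Real.norm_eq_abs, abs_pow]
  exact pow_le_pow_left₀ (abs_nonneg _) (F.bdd x) 2

/-- the inverse far up on the imaginary axis -/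
theorem inverse_exists (F : Fam R M V A T TD) (κ : ℝ) (hκ : 1 + 2 * M ≤ κ) :
    ∃ Y : Op R, (1 + T (I * κ)) * Y = 1 ∧ Y * (1 + T (I * κ)) = 1 ∧ ‖Y‖ ≤ 2 := by
  have hM := F.hM
  have hκ1 : 1 ≤ κ := by linarith
  have him : (I * (κ : ℂ)).im = κ := by simp
  have h1 : ‖T (I * κ)‖ ≤ 1 / 2 := by
    have h2 := (F.norm_le (I * κ) (by rw [him]; linarith)).2
    rw [him] at h2
    refine h2.trans ?_
    rw [← div_eq_mul_inv, div_le_iff₀ (by positivity)]
    nlinarith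
  have h3 : ‖-T (I * κ)‖ < 1 := by
    rw [norm_neg]
    linarith
  set u := Units.oneSub (-T (I * κ)) h3 with hu
  have hu1 : (u : Op R) = 1 + T (I * κ) := by
    rw [hu, Units.val_oneSub, sub_neg_eq_add]
  refine ⟨(u⁻¹ : (Op R)ˣ), ?_, ?_, ?_⟩
  · rw [← hu1, Units.mul_inv]
  · rw [← hu1, Units.inv_mul]
  · set Y : Op R := ((u⁻¹ : (Op R)ˣ) : Op R) with hYdef
    have h4 : (1 + T (I * κ)) * Y = 1 := by rw [← hu1, hYdef, Units.mul_inv]
    have h5 : Y = 1 - T (I * κ) * Y := by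
      rw [add_mul, one_mul] at h4
      exact eq_sub_of_add_eq h4
    have h6 : ‖(1 : Op R)‖ ≤ 1 := ContinuousLinearMap.norm_id_le
    have h7 : ‖Y‖ ≤ 1 + 1 / 2 * ‖Y‖ := by
      calc ‖Y‖ = ‖1 - T (I * κ) * Y‖ := by rw [← h5]
        _ ≤ ‖(1 : Op R)‖ + ‖T (I * κ) * Y‖ := norm_sub_le _ _
        _ ≤ 1 + ‖T (I * κ)‖ * ‖Y‖ := add_le_add h6 (norm_mul_le _ _)
        _ ≤ 1 + 1 / 2 * ‖Y‖ := by
            have := mul_le_mul_of_nonneg_right h1 (norm_nonneg Y)
            linarith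
    linarith

end Csec


section Csec

variable {R M : ℝ} {V : E5 → ℝ} {A T TD : ℂ → Op R}

theorem noninvertible_infinite (F : Fam R M V A T TD) (hne : ¬ (V =ᵐ[volume] 0)) :
    {l : ℂ | ¬ IsUnit (1 + T l)}.Infinite := by
  classical
  intro hfin
  set Z : Finset ℂ := hfin.toFinset with hZdef
  have hfact : Fact ((2 : ℝ≥0∞) ≠ ∞) := ⟨by norm_num⟩
  have hsep : TopologicalSpace.SeparableSpace (Lp ℂ 2 (muR R)) := by infer_instance
  obtain ⟨ι, hcount, ⟨b⟩⟩ := exists_countable_basis (Lp ℂ 2 (muR R))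
  set κ0 : ℝ := 1 + 2 * M with hκ0def
  have hM := F.hM
  have hκ0 : 1 ≤ κ0 := by rw [hκ0def]; linarith
  have hinv : ∀ κ : ℝ, κ0 ≤ κ → ∃ Y : Op R, (1 + T (I * κ)) * Y = 1 ∧ Y * (1 + T (I * κ)) = 1 ∧
      ‖Y‖ ≤ 2 := by
    intro κ hκ
    exact inverse_exists F κ hκ
  obtain ⟨Y0, hY, hY', -⟩ := hinv κ0 le_rfl
  obtain ⟨hDdiff, hD0⟩ := DD_entire F b κ0 hκ0 Y0
  have hDne := DD_ne_zero F b κ0 hκ0 Y0 hY hY'
  obtain ⟨C, hC⟩ := DD_growth F b κ0 hκ0 Y0 hY hY'
  have hlog := DD_logDeriv F b κ0 hκ0 Y0 hY hY'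
  set D := DD b V T (I * κ0) Y0 with hDdef
  have hZ : ∀ z, D z = 0 → z ∈ Z := by
    intro z hz
    rw [hZdef, Set.Finite.mem_toFinset]
    intro hu
    exact hDne z hu hz
  obtain ⟨Q, m, hm, hQ⟩ := factor_entire D hDdiff 9 C hC Z hZ
  obtain ⟨C', hC'⟩ := LL_asymp F b
  obtain ⟨c, hc, hq⟩ := quad_term
  have hcs : HasCompactSupport V :=
    HasCompactSupport.intro (isCompact_closedBall (0 : E5) R) (fun x hx => F.supp x hx)
  obtain ⟨hq1, hq2⟩ := hq V F.meas ⟨M, F.bdd⟩ hcs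
  set S : ℝ → ℝ := fun κ => ∫ x, ∫ y, V x * V y * wk κ (x - y) with hS
  set α : ℝ := 1 / (8 * Real.pi ^ 2) * ∫ x, V x with hα
  have hsign := sign_lemma Q Z m α (c * ∫ x, V x ^ 2) C' κ0 S
    (fun κ => I * (Q.eval (I * (κ : ℂ)) + ∑ u ∈ Z, (m u : ℂ) / (I * (κ : ℂ) - u)) -
      ((α : ℂ) * (κ : ℂ) ^ 2 + (S κ : ℂ)))
    (fun κ hκ => (hq1 κ (by linarith)).2) hq2
    (by
      intro κ hκ
      obtain ⟨Y, h1, h2, h3⟩ := hinv κ hκ
      have hκ1 : 1 ≤ κ := hκ0.trans hκ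
      have hu : IsUnit (1 + T (I * κ)) := ⟨⟨1 + T (I * κ), Y, h1, h2⟩, rfl⟩
      have hne0 := hDne _ hu
      have h4 := (hlog κ hκ1 Y h1 h2).deriv
      rw [hQ _ hne0] at h4
      have h5 := mul_left_cancel₀ hne0 h4
      have h6 := hC' κ hκ1 Y h3
      rw [← h5] at h6
      exact h6)
    (by
      intro κ _
      ring)
  obtain ⟨hm0, hQ0⟩ := hsign
  have hD0ne : D 0 ≠ 0 := by
    intro h
    have h0 := hZ 0 h
    exact (hm 0 h0).1 (hm0 0 h0) h
  have h7 := hQ 0 hD0ne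
  rw [hD0] at h7
  have h8 : Q.eval 0 + ∑ u ∈ Z, (m u : ℂ) / (0 - u) = 0 := by
    rcases mul_eq_zero.1 h7.symm with h | h
    · exact absurd h hD0ne
    · exact h
  have h9 : ∑ u ∈ Z, (m u : ℂ) / (0 - u) = 0 := by
    apply Finset.sum_eq_zero
    intro u hu
    rw [hm0 u hu]
    simp
  rw [h9, add_zero] at h8
  rw [h8, mul_zero] at hQ0
  have h10 : c * ∫ x, V x ^ 2 = 0 := by exact_mod_cast hQ0.symm
  have h11 : ∫ x, V x ^ 2 = 0 := by
    rcases mul_eq_zero.1 h10 with h | h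
    · exact absurd h hc.ne'
    · exact h
  have hint : Integrable (fun x => V x ^ 2) (volume : Measure E5) := sq_integrable F
  rw [integral_eq_zero_iff_of_nonneg (fun x => sq_nonneg (V x)) hint] at h11
  apply hne
  filter_upwards [h11] with x hx
  exact pow_eq_zero_iff (two_ne_zero) |>.1 hx

end Csec

end Pool.Agent.H269
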