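import Pool.Agent.H269.DefsC
import Pool.Agent.H269.R5.J01
import Pool.Agent.H269.R5.J02
import Pool.Agent.H269.R5.J04
import Pool.Agent.H269.R5.J06
import Pool.Agent.H269.R5.J08
import Pool.Agent.H269.R5.J11
import Pool.Agent.H269.R5.J19
import Pool.Agent.H269.R5.J30
import Pool.Agent.H269.R5.J32
import Pool.Agent.H269.R5.J33
import Pool.Agent.H269.R5.J41

/-!
# R5-42 poles of a matrix element (MP_f2af60_mp, infinitely many resonances in dimension five)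
-/

set_option autoImplicit false

open MeasureTheory Filter Topology Complex
open scoped InnerProductSpace ENNReal NNReal

namespace Pool.Agent.H269


section Csec

variable {R M : ℝ} {V : E5 → ℝ} {A T TD : ℂ → Op R}

/-- the family `Y0 * (T μ - T0)` is an entire family of Hilbert-Schmidt operators -/
theorem P2289_HSDiff (F : Fam R M V A T TD) {ι : Type} [DecidableEq ι]
    (b : HilbertBasis ι ℂ (Lp ℂ 2 (muR R))) (l0 : ℂ) (Y0 : Op R) :
    HSDiff b (fun z => Y0 * (T z - T l0)) (fun z => Y0 * TD z) := by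
  refine ⟨fun z => ?_, fun z => ?_, fun z => ?_⟩
  · obtain ⟨C, -, hC⟩ := F.sub_HS b (max |z.im| |l0.im|)
    have h := hC z l0 (by
      have := neg_abs_le z.im
      have := le_max_left |z.im| |l0.im|
      linarith) (by
      have := neg_abs_le l0.im
      have := le_max_right |z.im| |l0.im|
      linarith)
    exact ⟨_, h.left_mul Y0⟩
  · obtain ⟨c, hc⟩ := F.TD_HS b z
    exact ⟨_, hc.left_mul Y0⟩
  · obtain ⟨C, hC⟩ := F.taylor_HS b z
    refine ⟨‖Y0‖ * C, fun h hh => ?_⟩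
    have h1 := (hC h hh).left_mul Y0
    have e1 : Y0 * (T (z + h) - T l0) - Y0 * (T z - T l0) - h • (Y0 * TD z) =
        Y0 * (T (z + h) - T z - h • TD z) := by
      rw [mul_sub, mul_sub, mul_sub, mul_sub, mul_smul_comm]
      abel
    rw [mul_assoc]
    simpa only [e1] using h1

/-- the functional `⟪g, A μ ·⟫` -/
noncomputable def P2289_l (g : Lp ℂ 2 (muR R)) (A : ℂ → Op R) (μ : ℂ) :
    Lp ℂ 2 (muR R) →L[ℂ] ℂ :=
  (innerSL ℂ g).comp (A μ)

theorem P2289_l_apply (g : Lp ℂ 2 (muR R)) (A : ℂ → Op R) (μ : ℂ) (x : Lp ℂ 2 (muR R)) :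
    P2289_l g A μ x = ⟪g, A μ x⟫_ℂ := rfl

theorem P2289_hl (F : Fam R M V A T TD) : ∃ AD : ℂ → Op R, ∀ g : Lp ℂ 2 (muR R), ∀ z : ℂ,
    ∃ C : ℝ, ∀ t : ℂ, ‖t‖ ≤ 1 →
      ‖P2289_l g A (z + t) - P2289_l g A z - t • P2289_l g AD z‖ ≤ C * ‖t‖ ^ 2 := by
  obtain ⟨AD, hAD⟩ := F.A_taylor
  refine ⟨AD, fun g z => ?_⟩
  obtain ⟨C, hC⟩ := hAD z
  refine ⟨‖g‖ * C, fun t ht => ?_⟩
  have e1 : P2289_l g A (z + t) - P2289_l g A z - t • P2289_l g AD z =
      (innerSL ℂ g).comp (A (z + t) - A z - t • AD z) := by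
    ext x
    simp only [P2289_l, _root_.sub_apply, _root_.smul_apply,
      ContinuousLinearMap.comp_apply, map_sub, map_smul]
  rw [e1]
  calc ‖(innerSL ℂ g).comp (A (z + t) - A z - t • AD z)‖
      ≤ ‖innerSL ℂ g‖ * ‖A (z + t) - A z - t • AD z‖ := ContinuousLinearMap.opNorm_comp_le _ _
    _ ≤ ‖g‖ * (C * ‖t‖ ^ 2) := by
        rw [innerSL_apply_norm]
        exact mul_le_mul_of_nonneg_left (hC t ht) (norm_nonneg _)
    _ = ‖g‖ * C * ‖t‖ ^ 2 := by ring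

theorem P2289_norm_T (F : Fam R M V A T TD) (μ : ℂ) (x : Lp ℂ 2 (muR R)) :
    ‖T μ x‖ ≤ M * ‖A μ x‖ := by
  refine Lp.norm_le_mul_norm_of_ae_le_mul ?_
  filter_upwards [F.T_apply μ x] with y hy
  rw [hy, norm_mul]
  refine mul_le_mul_of_nonneg_right ?_ (norm_nonneg _)
  rw [Complex.norm_real]
  exact F.bdd y

/-- if `1 + T l₁` is not invertible then `A (u n) * Y n` cannot stay bounded -/
theorem P2289_bdd (F : Fam R M V A T TD) (l₁ : ℂ) (h : ¬ IsUnit (1 + T l₁)) (u : ℕ → ℂ)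
    (hu : Tendsto u atTop (𝓝 l₁)) (Y : ℕ → Op R) (hY : ∀ n, (1 + T (u n)) * Y n = 1)
    (hY' : ∀ n, Y n * (1 + T (u n)) = 1) (L : ℝ) (hL : ∀ n, ‖A (u n) * Y n‖ ≤ L) : False := by
  classical
  obtain ⟨w, b, -⟩ := exists_hilbertBasis ℂ (Lp ℂ 2 (muR R))
  have hL0 : 0 ≤ L := (norm_nonneg _).trans (hL 0)
  have hM := F.hM
  have hYb : ∀ n, ‖Y n‖ ≤ 1 + M * L := by
    intro n
    have e1 : Y n = 1 - T (u n) * Y n := by
      have := hY n
      rw [add_mul, one_mul] at this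
      rw [← this]
      abel
    have h1 : ‖T (u n) * Y n‖ ≤ M * L := by
      refine ContinuousLinearMap.opNorm_le_bound _ (mul_nonneg hM hL0) fun x => ?_
      calc ‖(T (u n) * Y n) x‖ = ‖T (u n) (Y n x)‖ := rfl
        _ ≤ M * ‖A (u n) (Y n x)‖ := P2289_norm_T F _ _
        _ = M * ‖(A (u n) * Y n) x‖ := rfl
        _ ≤ M * (L * ‖x‖) := by
            refine mul_le_mul_of_nonneg_left ?_ hM
            exact (ContinuousLinearMap.le_opNorm _ _).trans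
              (mul_le_mul_of_nonneg_right (hL n) (norm_nonneg _))
        _ = M * L * ‖x‖ := by ring
    have h2 : ‖(1 : Op R)‖ ≤ 1 := ContinuousLinearMap.norm_id_le
    calc ‖Y n‖ = ‖1 - T (u n) * Y n‖ := by rw [← e1]
      _ ≤ ‖(1 : Op R)‖ + ‖T (u n) * Y n‖ := norm_sub_le _ _
      _ ≤ 1 + M * L := add_le_add h2 h1
  obtain ⟨C, hC0, hC⟩ := F.sub_HS b (|l₁.im| + 1)
  -- the difference tends to zero
  have hlim : Tendsto (fun n => (1 + M * L) * (C * (‖l₁ - u n‖ * max ‖l₁‖ ‖u n‖))) atTop (𝓝 0) := by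
    have h1 : Tendsto (fun n => ‖l₁ - u n‖) atTop (𝓝 0) := by
      have := (tendsto_const_nhds (x := l₁)).sub hu
      simpa using this.norm
    have h2 : Tendsto (fun n => max ‖l₁‖ ‖u n‖) atTop (𝓝 (max ‖l₁‖ ‖l₁‖)) :=
      (tendsto_const_nhds).max hu.norm
    have h3 := ((h1.mul h2).const_mul C).const_mul (1 + M * L)
    simpa using h3
  have hev : ∀ᶠ n in atTop, (1 + M * L) * (C * (‖l₁ - u n‖ * max ‖l₁‖ ‖u n‖)) < 1 :=
    hlim.eventually (gt_mem_nhds one_pos)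
  have hev2 : ∀ᶠ n in atTop, ‖u n - l₁‖ < 1 := by
    have h1 : Tendsto (fun n => ‖u n - l₁‖) atTop (𝓝 0) := by
      have := hu.sub (tendsto_const_nhds (x := l₁))
      simpa using this.norm
    exact h1.eventually (gt_mem_nhds one_pos)
  obtain ⟨n, hn1, hn2⟩ := (hev.and hev2).exists
  have hT : ‖T l₁ - T (u n)‖ ≤ C * (‖l₁ - u n‖ * max ‖l₁‖ ‖u n‖) := by
    refine (hC l₁ (u n) ?_ ?_).norm_le
    · have := neg_abs_le l₁.im
      linarith
    · have h1 := neg_abs_le l₁.im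
      have h2 : |(u n - l₁).im| ≤ ‖u n - l₁‖ := Complex.abs_im_le_norm _
      have h3 := neg_abs_le (u n - l₁).im
      rw [Complex.sub_im] at h2 h3
      linarith
  have hlt : ‖-(Y n * (T l₁ - T (u n)))‖ < 1 := by
    rw [norm_neg]
    calc ‖Y n * (T l₁ - T (u n))‖ ≤ ‖Y n‖ * ‖T l₁ - T (u n)‖ := norm_mul_le _ _
      _ ≤ (1 + M * L) * (C * (‖l₁ - u n‖ * max ‖l₁‖ ‖u n‖)) :=
          mul_le_mul (hYb n) hT (norm_nonneg _) (by positivity)
      _ < 1 := hn1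
  have hun := isUnit_one_sub_of_norm_lt_one hlt
  have hun2 : IsUnit (1 + T (u n)) := ⟨⟨1 + T (u n), Y n, hY n, hY' n⟩, rfl⟩
  apply h
  have e2 : 1 + T l₁ = (1 + T (u n)) * (1 - -(Y n * (T l₁ - T (u n)))) := by
    rw [sub_neg_eq_add, mul_add, mul_one, ← mul_assoc, hY n, one_mul]
    abel
  rw [e2]
  exact hun2.mul hun

/-- the two uniform boundedness steps -/
theorem P2289_bs (W : ℕ → Op R)
    (hb : ∀ f g : Lp ℂ 2 (muR R), ∃ C : ℝ, ∀ n, ‖⟪g, W n f⟫_ℂ‖ ≤ C) :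
    ∃ L : ℝ, ∀ n, ‖W n‖ ≤ L := by
  refine banach_steinhaus fun f => ?_
  have h1 : ∃ C' : ℝ, ∀ n, ‖(innerSL ℂ (W n f) : Lp ℂ 2 (muR R) →L[ℂ] ℂ)‖ ≤ C' := by
    refine banach_steinhaus fun g => ?_
    obtain ⟨C, hC⟩ := hb f g
    refine ⟨C, fun n => ?_⟩
    rw [innerSL_apply_apply, norm_inner_symm]
    exact hC n
  obtain ⟨C', hC'⟩ := h1
  refine ⟨C', fun n => ?_⟩
  have := hC' n
  rwa [innerSL_apply_norm] at this

theorem exists_pole (F : Fam R M V A T TD) (l₁ : ℂ) (h : ¬ IsUnit (1 + T l₁)) :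
    ∃ (f g : Lp ℂ 2 (muR R)) (Φ : ℂ → ℂ), MeromorphicOn Φ Set.univ ∧
      (∀ (μ : ℂ) (Y : Op R), (1 + T μ) * Y = 1 → Y * (1 + T μ) = 1 → Φ μ = ⟪g, A μ (Y f)⟫_ℂ) ∧
      meromorphicOrderAt Φ l₁ < 0 := by
  classical
  obtain ⟨w, b, -⟩ := exists_hilbertBasis ℂ (Lp ℂ 2 (muR R))
  have hM := F.hM
  -- the base point
  have hκ : ∃ l0 : ℂ, ‖T l0‖ < 1 := by
    refine ⟨((1 + M : ℝ) : ℂ) * I, ?_⟩
    have him : (((1 + M : ℝ) : ℂ) * I).im = 1 + M := by
      simp only [Complex.mul_im, Complex.ofReal_re, Complex.ofReal_im, Complex.I_re, Complex.I_im]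
      ring
    have h1 := (F.norm_le (((1 + M : ℝ) : ℂ) * I) (by rw [him]; linarith)).2
    rw [him] at h1
    refine h1.trans_lt ?_
    rw [← div_eq_mul_inv, div_lt_one (by positivity)]
    nlinarith
  obtain ⟨l0, hl0⟩ := hκ
  have hU0 : IsUnit (1 + T l0) := by
    have := isUnit_one_sub_of_norm_lt_one (x := -T l0) (by rwa [norm_neg])
    rwa [sub_neg_eq_add] at this
  obtain ⟨⟨X0, Y0, hXY, hYX⟩, hX0⟩ := hU0
  simp only at hX0
  subst hX0
  set K : ℂ → Op R := fun z => Y0 * (T z - T l0) with hK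
  have hD : HSDiff b K (fun z => Y0 * TD z) := P2289_HSDiff F b l0 Y0
  have hK1 : ∀ μ, 1 + K μ = Y0 * (1 + T μ) := by
    intro μ
    calc 1 + K μ = Y0 * (1 + T l0) + Y0 * (T μ - T l0) := by rw [hYX]
      _ = Y0 * (1 + T μ) := by
          rw [← mul_add]
          congr 1
          abel
  have hT1 : ∀ μ, 1 + T μ = (1 + T l0) * (1 + K μ) := by
    intro μ
    rw [hK1, ← mul_assoc, hXY, one_mul]
  set d : ℂ → ℂ := fun z => det2 b (K z) with hd
  have hdd : Differentiable ℂ d := det2_differentiable hD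
  have hd0 : d l0 = 1 := by
    have : K l0 = 0 := by rw [hK]; simp only [sub_self, mul_zero]
    rw [hd]
    simp only [this]
    exact det2_zero
  have hHS : ∀ z, ∃ c, HSle b (K z) c := hD.1
  -- invertible where `d` does not vanish
  have hinv : ∀ μ, d μ ≠ 0 → IsUnit (1 + T μ) := by
    intro μ hμ
    obtain ⟨c, hc⟩ := hHS μ
    have h1 : IsUnit (1 + K μ) := by
      by_contra hcon
      exact hμ (det2_eq_zero hc hcon)
    rw [hT1]
    exact (IsUnit.mul ⟨⟨1 + T l0, Y0, hXY, hYX⟩, rfl⟩ h1)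
  have hinv' : ∀ μ, IsUnit (1 + T μ) → d μ ≠ 0 := by
    intro μ hμ
    obtain ⟨c, hc⟩ := hHS μ
    refine det2_ne_zero hc ?_
    rw [hK1]
    exact (IsUnit.mul ⟨⟨Y0, 1 + T l0, hYX, hXY⟩, rfl⟩ hμ)
  obtain ⟨AD, hAD⟩ := P2289_hl F
  have hN : ∀ f g : Lp ℂ 2 (muR R), ∃ N : ℂ → ℂ, Differentiable ℂ N ∧
      ∀ (μ : ℂ) (Y : Op R), (1 + T μ) * Y = 1 → Y * (1 + T μ) = 1 →
        ⟪g, A μ (Y f)⟫_ℂ * d μ = N μ := by
    intro f g
    obtain ⟨N, hNd, hN⟩ := entry_entire hD (P2289_l g A) (P2289_l g AD) (hAD g) (Y0 f)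
    refine ⟨N, hNd, fun μ Y h1 h2 => ?_⟩
    have h3 : (1 + K μ) * (Y * (1 + T l0)) = 1 := by
      rw [hK1]
      calc Y0 * (1 + T μ) * (Y * (1 + T l0)) = Y0 * ((1 + T μ) * Y) * (1 + T l0) := by
            simp only [mul_assoc]
        _ = 1 := by rw [h1, mul_one, hYX]
    have h4 : Y * (1 + T l0) * (1 + K μ) = 1 := by
      rw [hK1]
      calc Y * (1 + T l0) * (Y0 * (1 + T μ)) = Y * ((1 + T l0) * Y0) * (1 + T μ) := by
            simp only [mul_assoc]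
        _ = 1 := by rw [hXY, mul_one, h2]
    have h5 := hN μ _ h3 h4
    have h6 : (Y * (1 + T l0)) (Y0 f) = Y f := by
      calc (Y * (1 + T l0)) (Y0 f) = (Y * ((1 + T l0) * Y0)) f := rfl
        _ = Y f := by rw [hXY, mul_one]
    rw [h6, P2289_l_apply] at h5
    exact h5
  choose N hNd hNe using hN
  have hΦ : ∀ f g : Lp ℂ 2 (muR R), ∀ (μ : ℂ) (Y : Op R), (1 + T μ) * Y = 1 →
      Y * (1 + T μ) = 1 → N f g μ / d μ = ⟪g, A μ (Y f)⟫_ℂ := by
    intro f g μ Y h1 h2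
    have h3 : d μ ≠ 0 := hinv' μ ⟨⟨1 + T μ, Y, h1, h2⟩, rfl⟩
    rw [div_eq_iff h3]
    exact (hNe f g μ Y h1 h2).symm
  have hmer : ∀ f g : Lp ℂ 2 (muR R), MeromorphicOn (fun μ => N f g μ / d μ) Set.univ := by
    intro f g z _
    exact ((hNd f g).analyticAt z).meromorphicAt.div (hdd.analyticAt z).meromorphicAt
  by_contra hcon
  have hord : ∀ f g : Lp ℂ 2 (muR R), 0 ≤ meromorphicOrderAt (fun μ => N f g μ / d μ) l₁ := by
    intro f g
    by_contra hlt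
    exact hcon ⟨f, g, _, hmer f g, hΦ f g, not_le.mp hlt⟩
  -- zeros of `d` are isolated
  have hdne : ∀ᶠ μ in 𝓝[≠] l₁, d μ ≠ 0 := by
    rcases (hdd.analyticAt l₁).eventually_eq_zero_or_eventually_ne_zero with h1 | h1
    · exfalso
      have h2 : AnalyticOnNhd ℂ d Set.univ := fun z _ => hdd.analyticAt z
      have h3 : AnalyticOnNhd ℂ (fun _ : ℂ => (0 : ℂ)) Set.univ := analyticOnNhd_const
      have h4 := h2.eq_of_eventuallyEq h3 h1
      have h5 := congrFun h4 l0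
      rw [hd0] at h5
      exact one_ne_zero h5
    · exact h1
  obtain ⟨v, hv⟩ := exists_seq_tendsto (𝓝[≠] l₁)
  obtain ⟨n0, hn0⟩ := eventually_atTop.mp (hv.eventually hdne)
  set u : ℕ → ℂ := fun n => v (n + n0) with hu
  have hu1 : Tendsto u atTop (𝓝[≠] l₁) := hv.comp (tendsto_add_atTop_nat n0)
  have hu2 : ∀ n, d (u n) ≠ 0 := fun n => hn0 _ (Nat.le_add_left _ _)
  have hYex : ∀ n, ∃ Y : Op R, (1 + T (u n)) * Y = 1 ∧ Y * (1 + T (u n)) = 1 := by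
    intro n
    obtain ⟨⟨X, Y, h1, h2⟩, h3⟩ := hinv _ (hu2 n)
    simp only at h3
    subst h3
    exact ⟨Y, h1, h2⟩
  choose Y hY hY' using hYex
  have hbd : ∀ f g : Lp ℂ 2 (muR R), ∃ C : ℝ, ∀ n, ‖⟪g, (A (u n) * Y n) f⟫_ℂ‖ ≤ C := by
    intro f g
    obtain ⟨c, hc⟩ := tendsto_nhds_of_meromorphicOrderAt_nonneg (hmer f g l₁ (Set.mem_univ _))
      (hord f g)
    have h1 := hc.comp hu1
    obtain ⟨C, hC⟩ := h1.norm.bddAbove_range
    refine ⟨C, fun n => ?_⟩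
    have h2 := hC ⟨n, rfl⟩
    have h3 := hΦ f g (u n) (Y n) (hY n) (hY' n)
    have h4 : ‖N f g (u n) / d (u n)‖ ≤ C := h2
    rw [h3] at h4
    exact h4
  obtain ⟨L, hL⟩ := P2289_bs (fun n => A (u n) * Y n) hbd
  exact P2289_bdd F l₁ h u (hu1.mono_right nhdsWithin_le_nhds) Y hY hY' L hL

end Csec

end Pool.Agent.H269
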